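import Pool.Agent.Lib.MP_751085_ag.ZC.Z.ZDefs
import Pool.Agent.Lib.MP_751085_ag.ZC.RDefs

/-! Block K: definitions. -/

namespace Pool.Agent.ZCy

open scoped Classical WithZero IntermediateField
open Polynomial groupCohomology

set_option linter.unusedSectionVars false

/-- the algebraic closure -/
abbrev Kb (K : Type) [Field K] : Type := AlgebraicClosure K

/-- Laurent series over the algebraic closure -/
abbrev Om (K : Type) [Field K] : Type := Ls (Kb K)

/-- the constants -/
noncomputable abbrev hc {R : Type} [CommRing R] : R →+* Ls R := HahnSeries.C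

/-- the valuation of Laurent series -/
noncomputable abbrev lv (F : Type) [Field F] : Vl (Ls F) := Valued.v

/-- the substitution `u ↦ u ^ M` -/
noncomputable def ram (R : Type) [CommRing R] {M : ℕ} (h : 0 < M) : Ls R →+* Ls R :=
  HahnSeries.embDomainRingHom (AddMonoidHom.mulLeft (M : ℤ))
    (mul_right_injective₀ (Int.natCast_ne_zero.2 h.ne'))
    fun _ _ => mul_le_mul_iff_right₀ (Int.natCast_pos.2 h)

/-- the expansion at the point `t₀` -/
noncomputable def tA {R : Type} [CommRing R] (t₀ : R) : R[X] →+* Ls R :=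
  eval₂RingHom hc (hc t₀ + HahnSeries.single 1 1)

section good

variable {K 𝕜 E : Type} [Field K] [Field 𝕜] [Field E] (κ : K →+* 𝕜) (ψ : K[X] →+* E) (Ψ : K[X])

/-- `φ` is an expansion of `E` at a point over `t₀` -/
def Exp (t₀ : 𝕜) (φ : E →+* Ls 𝕜) : Prop := ∀ p : K[X], φ (ψ p) = tA t₀ (p.map κ)

/-- the valuations given by expansions at points off `Ψ = 0` -/
def GoodV (v : Vl E) : Prop :=
  ∃ (t₀ : 𝕜) (φ : E →+* Ls 𝕜), Ψ.eval₂ κ t₀ ≠ 0 ∧ Exp κ ψ t₀ φ ∧ ∀ x, v x = lv 𝕜 (φ x)

/-- over every point off `Ψ = 0` there is an expansion -/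
def HS : Prop := ∀ t₀ : 𝕜, Ψ.eval₂ κ t₀ ≠ 0 → ∃ φ : E →+* Ls 𝕜, Exp κ ψ t₀ φ

/-- unramified at the finite places off `Ψ = 0` -/
def HZ (L : Type) [Field L] [Algebra L E] : Prop :=
  ∀ w : Vl E, (∀ a : K, a ≠ 0 → w (ψ (C a)) = 1) → w (ψ X) ≤ 1 → w (ψ Ψ) = 1 → Ine L w = ⊥

end good

/-- `E` is the function field of the plane curve `χ = 0` -/
structure FFd {𝕜 E : Type} [Field 𝕜] [Field E] (ψ : 𝕜[X] →+* E) (θ : E) (χ : 𝕜[X][X]) : Prop where
  ker : ∀ a : 𝕜[X][X], a.eval₂ ψ θ = 0 ↔ χ ∣ a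
  frac : ∀ f : E, ∃ a b : 𝕜[X][X], b.eval₂ ψ θ ≠ 0 ∧ f = a.eval₂ ψ θ / b.eval₂ ψ θ

section act

variable {F E : Type} [Field F] [Field E] [Algebra F E]

/-- the translate of a valuation -/
noncomputable def vsm (g : E ≃ₐ[F] E) (w : Vl E) : Vl E := w.comap (g.symm : E →+* E)

theorem vsm_apply (g : E ≃ₐ[F] E) (w : Vl E) (x : E) : vsm g w x = w (g.symm x) := rfl

variable (F) in
/-- a stable set of valuations -/
def Stb (𝒲 : Set (Vl E)) : Prop := ∀ g : E ≃ₐ[F] E, ∀ w ∈ 𝒲, vsm g w ∈ 𝒲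

/-- the action on a stable set of valuations -/
@[reducible] noncomputable def Stb.act {𝒲 : Set (Vl E)} (h : Stb F 𝒲) :
    MulAction (E ≃ₐ[F] E) 𝒲 where
  smul g w := ⟨vsm g w, h g _ w.2⟩
  one_smul _ := rfl
  mul_smul _ _ _ := rfl

/-- the action of the Galois group on the coefficients -/
@[reducible] noncomputable def lsAct (F E : Type) [Field F] [Field E] [Algebra F E] :
    MulSemiringAction (E ≃ₐ[F] E) (Ls E) where
  smul g x := lm (g : E →+* E) x
  one_smul _ := rfl
  mul_smul _ _ _ := rfl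
  smul_zero _ := map_zero _
  smul_add _ := map_add _
  smul_one _ := map_one _
  smul_mul _ := map_mul _

end act

/-- good reduction of the branch polynomial at the prime `P` -/
structure Red {B K : Type} [CommRing B] [Field K] [Algebra B K] (Ψ : K[X]) (P : B) : Prop where
  prime : Prime P
  ex : ∃ (Ψ₀ α β : B[X]) (Φ : B), Ψ₀.Monic ∧ Ψ₀.map (algebraMap B K) = Ψ ∧
    C Φ = α * Ψ₀ + β * derivative Ψ₀ ∧ ¬P ∣ Φ

/-- the map of `B[τ]` to an extension of `L = K(τ)` -/
noncomputable abbrev pB (B K L E : Type) [CommRing B] [Field K] [Field L] [Field E] [Algebra B K]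
    [Algebra K[X] L] [Algebra L E] : B[X] →+* E :=
  (toF K[X] L E).comp (mapRingHom (algebraMap B K))

variable (K L F : Type) [Field K] [Field L] [Field F] [Algebra K[X] L] [Algebra L F]
  [Algebra L (Om K)] [Algebra F (Om K)]

/-- A plane curve over `K` with function field `F`, embedded in Laurent series in `t`,
`t ^ M = 1 / τ`. -/
structure Cur (M : ℕ) where
  δ : ℕ
  χ : K[X][X]
  Ψ : K[X]
  θ : F
  monic : χ.Monic
  deg : χ.natDegree = δ
  irr : Irreducible (χ.map (mapRingHom (algebraMap K (Kb K))))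
  root : χ.eval₂ (toF K[X] L F) θ = 0
  gen : IntermediateField.adjoin L {θ} = ⊤
  bez : ∃ (r : ℕ) (α β : K[X][X]), C (Ψ ^ r) = α * χ + β * derivative χ
  ne : Ψ ≠ 0
  pos : 0 < M
  inf : ∀ p : K[X], toF K[X] L (Om K) p = tM M _ (p.map (algebraMap K (Kb K)))
  spl : (χ.map ((tL (Kb K)).comp (mapRingHom (algebraMap K (Kb K))))).Splits

/-- the compositum of `F` and the constants -/
noncomputable def Fb : IntermediateField F (Om K) :=
  IntermediateField.adjoin F (Set.range (hc : Kb K →+* Om K))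

/-- the constants of `Fb` -/
noncomputable def cb : Kb K →+* Fb K F :=
  (hc : Kb K →+* Om K).codRestrict (Fb K F) fun a => IntermediateField.subset_adjoin _ _ ⟨a, rfl⟩

variable [IsScalarTower L F (Om K)]

/-- the polynomials in `τ` over the constants -/
noncomputable def psb : (Kb K)[X] →+* Fb K F := eval₂RingHom (cb K F) (toF K[X] L (Fb K F) X)

variable {K F}

/-- `g` fixes the constants -/
def FixC {E : IntermediateField F (Om K)} (g : E → E) : Prop :=
  ∀ x : E, (x : Om K) ∈ Set.range (hc : Kb K →+* Om K) → g x = x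

/-- `g` is the action of `σ` on the coefficients -/
def Cw {E : IntermediateField F (Om K)} (σ : Kb K →+* Kb K) (g : E → E) : Prop :=
  ∀ x : E, (g x : Om K) = lm σ x

/-- the geometric Galois group is killed by `n` -/
def Geo (E : IntermediateField F (Om K)) (n : ℕ) : Prop :=
  ∀ g : E ≃ₐ[L] E, FixC g → g ^ n = 1

variable {L}

/-- the admissible fields -/
structure Cur.Nice {M : ℕ} (c : Cur K L F M) (E : IntermediateField F (Om K)) : Prop where
  fin : FiniteDimensional L E
  gal : IsGalois L E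
  hs : HS (algebraMap K (Kb K)) (toF K[X] L E) c.Ψ
  geo : Geo L E (c.δ.factorial * M)

/-- `S` is the field of constants and of coefficients of `E` -/
structure Frm (S : Set (Kb K)) (E : IntermediateField F (Om K)) : Prop where
  cf : ∀ y ∈ E, ∀ n, y.coeff n ∈ S
  cst : ∀ a ∈ S, hc a ∈ E

/-- the elements that act through automorphisms of the coefficients over `K₂` -/
def secG (K₂ : Type) [Field K₂] [Algebra K₂ (Kb K)] (E : IntermediateField F (Om K)) :
    Subgroup (E ≃ₐ[F] E) where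
  carrier := {g | ∃ σ : Kb K ≃ₐ[K₂] Kb K, Cw (σ : Kb K →+* Kb K) g}
  one_mem' := ⟨1, fun _ => rfl⟩
  mul_mem' := fun {_ b} ⟨σ, h⟩ ⟨σ', h'⟩ => ⟨σ * σ', fun x =>
    (h (b x)).trans (congrArg (lm (σ : Kb K →+* Kb K)) (h' x))⟩
  inv_mem' := fun {a} ⟨σ, h⟩ => ⟨σ⁻¹, fun x => by
    have h1 := h (a⁻¹ x)
    rw [← AlgEquiv.mul_apply, mul_inv_cancel, AlgEquiv.one_apply] at h1
    rw [h1]
    ext n
    exact (σ.symm_apply_apply _).symm⟩

/-- The conclusion of Theorem K. -/
structure KOut (L F : Type) [Field L] [Field F] [Algebra L F] (a : BR F) (M : ℕ) : Type 1 where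
  E : Type
  [fld : Field E]
  [algL : Algebra L E]
  [algF : Algebra F E]
  [tower : IsScalarTower L F E]
  [fin : FiniteDimensional L E]
  [gal : IsGalois L E]
  c : (E ≃ₐ[F] E) × (E ≃ₐ[F] E) → Eˣ
  coc : IsMulCocycle₂ c
  pw : ∀ p, c p ^ M = 1
  cls_eq : cls F c = a

attribute [instance] KOut.fld KOut.algL KOut.algF KOut.tower KOut.fin KOut.gal

end Pool.Agent.ZCy
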