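import Pool.Agent.Lib.MP_751085_ag.ZC.K.Lau
import Pool.Agent.Lib.MP_796ce4_ag.ZY.CvB

/-! Block K: splitting of the equation of the curve in Laurent series. -/

namespace Pool.Agent.ZCy

open scoped Classical WithZero IntermediateField PowerSeries
open Polynomial

variable {F : Type} [Field F] [IsAlgClosed F]

/-- a monic polynomial over power series with separable reduction splits -/
theorem kh_series {f : F⟦X⟧[X]} (hm : f.Monic)
    (hs : (f.map (PowerSeries.constantCoeff : F⟦X⟧ →+* F)).Separable) : f.Splits := by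
  have hex : ∀ y : F, ∃ η : F⟦X⟧, y ∈ (f.map PowerSeries.constantCoeff).roots.toFinset →
      f.eval η = 0 ∧ PowerSeries.constantCoeff η = y := fun y => by
    by_cases hy : y ∈ (f.map PowerSeries.constantCoeff).roots.toFinset
    · have h0 := (isRoot_of_mem_roots (Multiset.mem_toFinset.1 hy)).eq_zero
      have h1 := hs.eval₂_derivative_ne_zero (RingHom.id F) h0
      rw [derivative_map, eval₂_map, RingHom.id_comp] at h1
      obtain ⟨η, h⟩ := ZeroCyc.exists_hensel_series hm (y := y) (by rwa [← eval_map]) h1.isUnit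
      exact ⟨η, fun _ => h⟩
    · exact ⟨0, fun h => absurd h hy⟩
  choose η hη using hex
  rw [ZeroCyc.cvb_eq_prod _ (η := η) (fun y hy y' hy' e => by
    rw [← (hη y hy).2, ← (hη y' hy').2, e]) hm (by
      rw [Multiset.toFinset_card_of_nodup (nodup_roots hs),
        ← (IsAlgClosed.splits _).natDegree_eq_card_roots, hm.natDegree_map])
    fun y hy => (hη y hy).1]
  exact Splits.prod fun _ _ => Splits.X_sub_C _

theorem kh_at {χ α β : F[X][X]} {ρ : F[X]} (hm : χ.Monic)
    (hb : C ρ = α * χ + β * derivative χ) {t : F} (ht : ρ.eval t ≠ 0) : (χ.map (tA t)).Splits := by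
  have h1 : tA t = (HahnSeries.ofPowerSeries ℤ F).comp (ZeroCyc.sh t) :=
    Polynomial.ringHom_ext (fun a => by simp [tA, ZeroCyc.sh]) (by simp [tA, ZeroCyc.sh])
  have h2 : (PowerSeries.constantCoeff : F⟦X⟧ →+* F).comp (ZeroCyc.sh t) = evalRingHom t :=
    RingHom.ext fun u => ZeroCyc.constantCoeff_sh t u
  rw [h1, ← map_map]
  refine (kh_series (hm.map _) ?_).map _
  have h3 := congrArg (Polynomial.map (evalRingHom t)) hb
  rw [map_C, Polynomial.map_add, Polynomial.map_mul, Polynomial.map_mul, ← derivative_map] at h3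
  rw [map_map, h2]
  refine ⟨C (ρ.eval t)⁻¹ * α.map (evalRingHom t), C (ρ.eval t)⁻¹ * β.map (evalRingHom t), ?_⟩
  rw [mul_assoc, mul_assoc, ← mul_add, ← h3, ← C_mul, coe_evalRingHom, inv_mul_cancel₀ ht, C_1]

omit [IsAlgClosed F] in
theorem kh_reflect {p : F[X]} {n : ℕ} (h : p.natDegree ≤ n) :
    HahnSeries.ofPowerSeries ℤ F (reflect n p : F[X]) * HahnSeries.single (-1) 1 ^ n = tL F p := by
  let _ : Invertible (HahnSeries.single (-1) 1 : Ls F) :=
    ⟨HahnSeries.single 1 1, by simp [HahnSeries.single_mul_single],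
      by simp [HahnSeries.single_mul_single]⟩
  have h1 := eval₂_reflect_mul_pow (hc : F →+* Ls F) (HahnSeries.single (-1) 1) n p h
  rw [← eval₂_C_X_eq_coe, hom_eval₂, HahnSeries.ofPowerSeries_X]
  have h2 : (HahnSeries.ofPowerSeries ℤ F).comp PowerSeries.C = hc :=
    RingHom.ext HahnSeries.ofPowerSeries_C
  rw [h2]
  exact h1

theorem kh_inf {χ : F[X][X]} {δ : ℕ} (hm : χ.Monic) (hd : χ.natDegree = δ)
    (hw : ∀ i, (χ.coeff i).natDegree ≤ δ - i)
    (hs : (∑ i ∈ Finset.range (δ + 1), monomial i ((χ.coeff i).coeff (δ - i))).Separable) :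
    (χ.map (tL F)).Splits := by
  obtain ⟨f, hf⟩ : ∃ f : F⟦X⟧[X], f = ∑ i ∈ Finset.range (δ + 1),
    monomial i ((reflect (δ - i) (χ.coeff i) : F[X]) : F⟦X⟧) := ⟨_, rfl⟩
  have hc : ∀ i, f.coeff i = (reflect (δ - i) (χ.coeff i) : F[X]) := fun i => by
    simp only [hf, finsetSum_coeff, coeff_monomial, Finset.sum_ite_eq', Finset.mem_range]
    split_ifs with h
    · rfl
    · rw [coeff_eq_zero_of_natDegree_lt (p := χ) (by omega), reflect_zero, Polynomial.coe_zero]
  have h1 : f.coeff δ = 1 := by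
    rw [hc, ← hd, hm.coeff_natDegree, tsub_self, reflect_one, pow_zero, Polynomial.coe_one]
  have h2 : f.natDegree ≤ δ := natDegree_le_iff_coeff_eq_zero.2 fun i hi => by
    rw [hc, coeff_eq_zero_of_natDegree_lt (p := χ) (by omega), reflect_zero, Polynomial.coe_zero]
  have hfm : f.Monic := monic_of_natDegree_le_of_coeff_eq_one δ h2 h1
  have h3 : f.natDegree = δ := h2.antisymm (le_natDegree_of_ne_zero (h1 ▸ one_ne_zero))
  have h4 : χ.map (tL F) =
      (f.map (HahnSeries.ofPowerSeries ℤ F)).scaleRoots (HahnSeries.single (-1) 1) := by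
    ext i : 1
    rw [coeff_scaleRoots, hfm.natDegree_map, h3, coeff_map, coeff_map, hc, kh_reflect (hw i)]
  rw [h4]
  refine ((kh_series hfm ?_).map _).scaleRoots _
  simp only [hf, Polynomial.map_sum, map_monomial, Polynomial.constantCoeff_coe, coeff_reflect,
    revAt_zero]
  exact hs

end Pool.Agent.ZCy
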