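import Pool.Agent.Lib.MP_751085_ag.ZC.K.KDefs
import Pool.Agent.Lib.MP_751085_ag.ZC.V.AdK

/-! Block K: small facts on valuations. -/

namespace Pool.Agent.ZCy

open scoped Classical WithZero IntermediateField
open Polynomial

variable {K L F E : Type} [Field K] [Field L] [Field F] [Field E]

section act

variable [Algebra F E] {w w' : Vl E} {g n : E ≃ₐ[F] E} {M : ℕ}

theorem kval_int {A : Type} [CommRing A] {φ : A →+* E} (h : ∀ a, w (φ a) ≤ 1) {x : E}
    (hx : φ.IsIntegralElem x) : w x ≤ 1 := by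
  obtain ⟨p, hp, e⟩ := hx
  refine (Valuation.integer.integers w).mem_of_integral
    ⟨p.map (φ.codRestrict w.integer h), hp.map _, ?_⟩
  rw [eval₂_map]
  exact e

theorem kz_dec : g ∈ Dec F w ↔ vsm g w = w := by
  refine ⟨fun h => Valuation.ext fun x => inv_mem h x, fun h x => ?_⟩
  rw [← h, vsm_apply, AlgEquiv.symm_apply_apply, h]

theorem kz_ine (h : n ∈ Ine F w) (g : E ≃ₐ[F] E) : g * n * g⁻¹ ∈ Ine F (vsm g w) := by
  refine ⟨fun x => ?_, fun x hx => ?_⟩
  · rw [vsm_apply, vsm_apply, AlgEquiv.mul_apply, AlgEquiv.mul_apply, AlgEquiv.symm_apply_apply]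
    exact h.1 _
  · rw [vsm_apply, map_sub, AlgEquiv.mul_apply, AlgEquiv.mul_apply, AlgEquiv.symm_apply_apply]
    exact h.2 _ hx

theorem kz_nrm (h : Nrm w) (g : E ≃ₐ[F] E) : Nrm (vsm g w) := by
  obtain ⟨π, h⟩ := h
  exact ⟨g π, by rw [vsm_apply, AlgEquiv.symm_apply_apply, h]⟩

theorem kz_cen {A : Type} [CommRing A] (φ : A →+* F) {P : A}
    (h : Cen ((algebraMap F E).comp φ) w P) (g : E ≃ₐ[F] E) :
    Cen ((algebraMap F E).comp φ) (vsm g w) P := by
  have e : ∀ a, vsm g w ((algebraMap F E).comp φ a) = w ((algebraMap F E).comp φ a) := fun a =>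
    congrArg w (g.symm.commutes _)
  exact ⟨fun a => (e a).trans_le (h.1 a), fun a => by rw [e]; exact h.2 a⟩

/-- `kz_ine`, `kv_congr` -/
theorem kz_conj [FiniteDimensional F E] (h : Ine F w' = ⊥) (e : ∀ x, w x ≤ 1 ↔ w' (g x) ≤ 1) :
    Ine F w = ⊥ := by
  rw [(kv_congr (K := F) (w := vsm g⁻¹ w') (w' := w) e).2, eq_bot_iff]
  intro n hn
  have h1 := kz_ine hn g
  have h2 : vsm g (vsm g⁻¹ w') = w' := Valuation.ext fun x =>
    congrArg w' (g.apply_symm_apply x)
  rw [h2, h, Subgroup.mem_bot, mul_inv_eq_one, mul_eq_left] at h1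
  exact h1

theorem kz_scal [Algebra L F] [Algebra L E] [IsScalarTower L F E] :
    (g.restrictScalars L ∈ Dec L w ↔ g ∈ Dec F w) ∧
      (g.restrictScalars L ∈ Ine L w ↔ g ∈ Ine F w) := by
  exact ⟨Iff.rfl, Iff.rfl⟩

/-- an algebraic extension of a trivially valued field is trivially valued -/
theorem kz_alg {φ : K →+* E} (h : Triv φ w) {x : E} (hx : x ≠ 0) {p : K[X]} (hp : p ≠ 0)
    (h0 : p.eval₂ φ x = 0) : w x = 1 := by
  let := φ.toAlgebra
  have h1 : ∀ a, w (φ a) ≤ 1 := fun a => by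
    by_cases ha : a = 0
    · simp [ha]
    · exact (h a ha).le
  have h2 : IsAlgebraic K x := ⟨p, hp, h0⟩
  have h3 := kval_int h1 h2.inv.isIntegral
  rw [map_inv₀, inv_le_one₀ (zero_lt_iff.2 ((map_ne_zero w).2 hx))] at h3
  exact le_antisymm (kval_int h1 h2.isIntegral) h3

theorem kz_triv [Algebra.IsAlgebraic F E] (h : Triv (algebraMap F E) w) : Ine F w = ⊥ := by
  refine eq_bot_iff.2 fun n hn => Subgroup.mem_bot.2 (AlgEquiv.ext fun x => ?_)
  have key : ∀ y : E, y ≠ 0 → w y = 1 := fun y hy => by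
    obtain ⟨p, hp, e⟩ := Algebra.IsAlgebraic.isAlgebraic (R := F) y
    exact kz_alg h hy hp e
  by_cases hx : x = 0
  · simp [hx]
  by_contra hne
  exact (hn.2 x (key x hx).le).ne (key _ (sub_ne_zero.2 hne))

/-- `M = ∑ i < M, (ζ / ζ') ^ i` if the quotient were `≠ 1` the sum would vanish -/
theorem kz_root (hM : w (M : E) = 1) {ζ ζ' : E} (h : ζ ^ M = 1) (h' : ζ' ^ M = 1)
    (e : w (ζ - ζ') < 1) : ζ = ζ' := by
  have hM0 : M ≠ 0 := by
    rintro rfl
    simp at hM
  have hv : ∀ {z : E}, z ^ M = 1 → w z = 1 := fun {z} hz =>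
    (pow_eq_one_iff_of_nonneg zero_le hM0).1 (by rw [← map_pow, hz, map_one])
  have h0 : ζ' ≠ 0 := fun e => by simpa [e] using hv h'
  have hu : (ζ / ζ') ^ M = 1 := by rw [div_pow, h, h', div_one]
  have h1 : w (ζ / ζ' - 1) < 1 := by rwa [div_sub_one h0, map_div₀, hv h', div_one]
  by_contra hne
  have h2 : ∑ i ∈ Finset.range M, (ζ / ζ') ^ i = 0 := by
    have := mul_geom_sum (ζ / ζ') M
    rw [hu, sub_self, mul_eq_zero, sub_eq_zero, div_eq_one_iff_eq h0] at this
    exact this.resolve_left hne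
  have h3 : ∀ i, w ((ζ / ζ') ^ i - 1) < 1 := fun i => by
    induction i with
    | zero => simp
    | succ i ih =>
      rw [show (ζ / ζ') ^ (i + 1) - 1 = ζ / ζ' * ((ζ / ζ') ^ i - 1) + (ζ / ζ' - 1) by ring]
      refine w.map_add_lt ?_ h1
      rwa [map_mul, hv hu, one_mul]
  have h4 := w.map_sum_lt (s := Finset.range M) one_ne_zero fun i _ => h3 i
  rw [Finset.sum_sub_distrib, h2, zero_sub, Valuation.map_neg] at h4
  simp [hM] at h4

/-- `n r / r` is a root of unity congruent to `1` -/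
theorem kz_kum (hM : w (M : E) = 1) (hn : n ∈ Ine F w) {r : E} (hr : w r = 1)
    (h : n (r ^ M) = r ^ M) : n r = r := by
  have h0 : r ≠ 0 := fun e => by simp [e] at hr
  refine (div_eq_one_iff_eq h0).1 (kz_root hM ?_ (one_pow M) ?_)
  · rw [div_pow, ← map_pow, h, div_self (pow_ne_zero _ h0)]
  · rw [div_sub_one h0, map_div₀, hr, div_one]
    exact hn.2 r hr.le

theorem kz_int {A : Type} [CommRing A] {φ : A →+* E} (h : ∀ a, w (φ a) ≤ 1) {x : E}
    (hx : φ.IsIntegralElem x) : w x ≤ 1 := by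
  exact kval_int h hx

theorem kz_rat {A : Type} [CommRing A] [Algebra ℚ A] {φ : A →+* E} (h : ∀ a, w (φ a) ≤ 1) {m : ℕ}
    (hm : m ≠ 0) : w (m : E) = 1 := by
  have h1 := h m
  have h2 := h (algebraMap ℚ A (m : ℚ)⁻¹)
  have h3 : (m : E) * φ (algebraMap ℚ A (m : ℚ)⁻¹) = 1 := by
    rw [← map_natCast φ, ← map_natCast (algebraMap ℚ A), ← map_mul, ← map_mul,
      mul_inv_cancel₀ (Nat.cast_ne_zero.2 hm), map_one, map_one]
  rw [map_natCast] at h1
  refine le_antisymm h1 (not_lt.1 fun h4 => ?_)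
  have := mul_lt_one_of_lt_of_le h4 h2
  rw [← map_mul, h3, map_one] at this
  exact lt_irrefl _ this

/-- a natural number that is not a unit has a prime factor that is not a unit -/
theorem kz_prime {m : ℕ} (hm : m ≠ 0) (h : w (m : E) ≠ 1) :
    ∃ p : ℕ, p.Prime ∧ p ∣ m ∧ w (p : E) < 1 := by
  induction m using induction_on_primes with
  | zero => exact absurd rfl hm
  | one => simp at h
  | prime_mul p a hp ih =>
    by_cases h1 : w (p : E) < 1
    · exact ⟨p, hp, dvd_mul_right _ _, h1⟩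
    · have h2 : w (p : E) = 1 := le_antisymm (natCast_mem w.integer p) (not_lt.1 h1)
      rw [Nat.cast_mul, map_mul, h2, one_mul] at h
      obtain ⟨q, h3, h4, h5⟩ := ih (right_ne_zero_of_mul hm) h
      exact ⟨q, h3, h4.mul_left _, h5⟩

end act

end Pool.Agent.ZCy
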