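import Pool.Agent.Lib.MP_751085_ag.ZC.K.KDefs

/-! Block K: Laurent series. -/

namespace Pool.Agent.ZCy

open scoped Classical WithZero IntermediateField
open Polynomial

section ring

variable {R S T : Type} [CommRing R] [CommRing S] [CommRing T] {M : ℕ}

theorem kl_lm_single (f : R →+* S) (n : ℤ) (a : R) :
    lm f (HahnSeries.single n a) = HahnSeries.single n (f a) := by
  ext m
  rw [lm_coeff, HahnSeries.coeff_single, HahnSeries.coeff_single]
  split_ifs
  · rfl
  · exact map_zero f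

theorem kl_lm_hc (f : R →+* S) (a : R) : lm f (hc a) = hc (f a) :=
  kl_lm_single f 0 a

theorem kl_lm_lm (f : R →+* S) (g : S →+* T) (x : Ls R) : lm g (lm f x) = lm (g.comp f) x :=
  rfl

theorem kl_lm_tM (f : R →+* S) (p : R[X]) : lm f (tM M R p) = tM M S (p.map f) := by
  rw [tM, tM, coe_eval₂RingHom, coe_eval₂RingHom, hom_eval₂, eval₂_map, kl_lm_single, map_one]
  exact congrArg (fun g => eval₂ g _ p) (RingHom.ext (kl_lm_hc f))

theorem kl_lm_tA (f : R →+* S) (t : R) (p : R[X]) : lm f (tA t p) = tA (f t) (p.map f) := by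
  rw [tA, tA, coe_eval₂RingHom, coe_eval₂RingHom, hom_eval₂, eval₂_map, map_add, kl_lm_single,
    map_one, kl_lm_hc]
  exact congrArg (fun g => eval₂ g _ p) (RingHom.ext (kl_lm_hc f))

theorem kl_ram_single (h : 0 < M) (n : ℤ) (a : R) :
    ram R h (HahnSeries.single n a) = HahnSeries.single (M * n) a :=
  HahnSeries.embDomain_single

theorem kl_ram_hc (h : 0 < M) (a : R) : ram R h (hc a) = hc a :=
  HahnSeries.embDomainRingHom_C

theorem kl_ram_tL (h : 0 < M) (p : R[X]) : ram R h (tL R p) = tM M R p := by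
  rw [tL, tM, tM, coe_eval₂RingHom, coe_eval₂RingHom, hom_eval₂, kl_ram_single, Nat.cast_one,
    mul_neg, mul_one]
  exact congrArg (fun g => eval₂ g _ p) (RingHom.ext (kl_ram_hc h))

theorem klau_ram_coeff (h : 0 < M) (x : Ls R) (n : ℤ) : (ram R h x).coeff (M * n) = x.coeff n :=
  HahnSeries.embDomain_coeff (a := n)

theorem klau_ram_zero (h : 0 < M) (x : Ls R) {n : ℤ} (hn : ¬(M : ℤ) ∣ n) :
    (ram R h x).coeff n = 0 :=
  HahnSeries.embDomain_of_notMem_range fun ⟨m, hm⟩ => hn ⟨m, hm.symm⟩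

theorem kl_lm_ram (h : 0 < M) (f : R →+* S) (x : Ls R) : lm f (ram R h x) = ram S h (lm f x) := by
  ext n
  by_cases hn : (M : ℤ) ∣ n
  · obtain ⟨m, rfl⟩ := hn
    rw [lm_coeff, klau_ram_coeff, klau_ram_coeff, lm_coeff]
  · rw [lm_coeff, klau_ram_zero h _ hn, klau_ram_zero h _ hn, map_zero]

theorem kl_dvd_order_ram (h : 0 < M) (x : Ls R) : (M : ℤ) ∣ (ram R h x).order := by
  by_contra hn
  have := HahnSeries.coeff_order_eq_zero.1 (klau_ram_zero h x hn)
  rw [this, HahnSeries.order_zero] at hn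
  exact hn (dvd_zero _)

theorem kl_tA_C (t a : R) : tA t (C a) = hc a :=
  eval₂_C _ _

theorem kl_tM_C (a : R) : tM M R (C a) = hc a :=
  eval₂_C _ _

theorem klau_tM (p : R[X]) (n : ℤ) :
    (tM M R p).coeff n = ∑ i ∈ p.support, if n = -(M * i : ℤ) then p.coeff i else 0 := by
  rw [tM, coe_eval₂RingHom, eval₂_eq_sum, Polynomial.sum, HahnSeries.coeff_sum]
  refine Finset.sum_congr rfl fun i _ => ?_
  rw [HahnSeries.single_pow, HahnSeries.C_apply, HahnSeries.single_mul_single, one_pow, mul_one,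
    zero_add, HahnSeries.coeff_single, nsmul_eq_mul, mul_neg, mul_comm]
  split_ifs <;> rfl

/-- the coefficient of `u ^ (-M i)` is the `i`-th coefficient, the others vanish -/
theorem kl_coeff_tM (h : 0 < M) (p : R[X]) :
    (∀ i : ℕ, (tM M R p).coeff (-(M * i : ℤ)) = p.coeff i) ∧
      ∀ n, (tM M R p).coeff n ≠ 0 → ∃ i : ℕ, n = -(M * i : ℤ) := by
  refine ⟨fun i => ?_, fun n hn => ?_⟩
  · rw [klau_tM, Finset.sum_eq_single i (fun j _ hj => if_neg fun e => hj ?_)
      fun hi => by rw [if_pos rfl, notMem_support_iff.1 hi], if_pos rfl]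
    exact Int.natCast_inj.1
      (mul_left_cancel₀ (Int.natCast_ne_zero.2 h.ne') (neg_injective e)).symm
  · rw [klau_tM] at hn
    obtain ⟨i, -, hi⟩ := Finset.exists_ne_zero_of_sum_ne_zero hn
    exact ⟨i, by_contra fun e => hi (if_neg e)⟩

theorem kl_tM_inj (h : 0 < M) : Function.Injective (tM M R) := fun p q e => by
  ext i
  rw [← (kl_coeff_tM h p).1, ← (kl_coeff_tM h q).1, e]

end ring

variable {K F F' : Type} [Field K] [Field F] [Field F'] {M : ℕ}

theorem kl_order_lm (f : F →+* F') (x : Ls F) : (lm f x).order = x.order := by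
  rcases eq_or_ne x 0 with rfl | h
  · rw [map_zero, HahnSeries.order_zero, HahnSeries.order_zero]
  have h' : lm f x ≠ 0 := (_root_.map_ne_zero _).2 h
  refine le_antisymm (HahnSeries.order_le_of_coeff_ne_zero ?_)
    (HahnSeries.order_le_of_coeff_ne_zero fun e => h' ?_)
  · rw [lm_coeff]
    exact (_root_.map_ne_zero f).2 (HahnSeries.coeff_order_eq_zero.not.2 h)
  · rw [← HahnSeries.coeff_order_eq_zero, lm_coeff, e, map_zero]

theorem kl_lead_lm (f : F →+* F') (x : Ls F) : (lm f x).leadingCoeff = f x.leadingCoeff := by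
  rw [HahnSeries.leadingCoeff_eq, HahnSeries.leadingCoeff_eq, kl_order_lm, lm_coeff]

/-- `LaurentSeries.valuation_le_iff_coeff_lt_eq_zero` -/
theorem kl_lv {x : Ls F} (h : x ≠ 0) : lv F x = WithZero.exp (-x.order) := by
  have h1 : lv F x ≤ WithZero.exp (-x.order) :=
    (LaurentSeries.valuation_le_iff_coeff_lt_eq_zero F).2 fun n hn =>
      HahnSeries.coeff_eq_zero_of_lt_order hn
  have h2 : ¬lv F x ≤ WithZero.exp (-(x.order + 1)) := fun e =>
    h (HahnSeries.coeff_order_eq_zero.1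
      ((LaurentSeries.valuation_le_iff_coeff_lt_eq_zero F).1 e _ (lt_add_one _)))
  have h0 : lv F x ≠ 0 := (_root_.map_ne_zero _).2 h
  rw [← WithZero.exp_log h0, WithZero.exp_le_exp] at h1 h2
  rw [← WithZero.exp_log h0]
  exact congrArg _ (by omega)

theorem kl_ord (x : Ls F) : ord (lv F) x = x.order := by
  rcases eq_or_ne x 0 with rfl | h
  · rw [ord, map_zero, WithZero.log_zero, neg_zero, HahnSeries.order_zero]
  · rw [ord, kl_lv h, WithZero.log_exp, neg_neg]

theorem kl_lv_lm (f : F →+* F') (x : Ls F) : lv F' (lm f x) = lv F x := by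
  rcases eq_or_ne x 0 with rfl | h
  · rw [map_zero, map_zero, map_zero]
  · rw [kl_lv h, kl_lv ((_root_.map_ne_zero _).2 h), kl_order_lm]

theorem kl_lv_hc {a : F} (h : a ≠ 0) : lv F (hc a) = 1 := by
  rw [kl_lv ((_root_.map_ne_zero _).2 h), HahnSeries.order_C, neg_zero, WithZero.exp_zero]

end Pool.Agent.ZCy
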