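import Pool.Agent.Lib.MP_751085_ag.ZC.K.Val

/-! Block K: passage to the fixed field. -/

namespace Pool.Agent.ZCy

open scoped Classical WithZero IntermediateField
open Polynomial groupCohomology

variable {L F E : Type} [Field L] [Field F] [Field E] [Algebra L F] [Algebra L E] [Algebra F E]
  [IsScalarTower L F E] [FiniteDimensional L E] [IsGalois L E] [CharZero F]

variable {E' : Type} [Field E'] [Algebra L E'] [IsGalois L E'] (j : E' →ₐ[L] E)

theorem kfin_lt {A B : Type} [Field A] [Field B] {φ : A →+* B} {v : Vl A} {v' : Vl B}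
    (h : Over φ v v') (x : A) : v' (φ x) < 1 ↔ v x < 1 := by
  by_cases hx : x = 0
  · simp [hx]
  have hx' : φ x ≠ 0 := (map_ne_zero φ).2 hx
  have h1 := h x⁻¹
  rw [map_inv₀, map_inv₀, map_inv₀,
    inv_le_one₀ (zero_lt_iff.2 ((Valuation.ne_zero_iff _).2 hx')),
    inv_le_one₀ (zero_lt_iff.2 ((Valuation.ne_zero_iff _).2 hx))] at h1
  rw [← not_le, ← not_le, h1]

theorem kfin_eq {A B : Type} [Field A] [Field B] {φ : A →+* B} {v : Vl A} {v' : Vl B}
    (h : Over φ v v') (x : A) : v' (φ x) = 1 ↔ v x = 1 := by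
  have h1 := h x
  have h2 := kfin_lt h x
  constructor
  · intro e
    exact le_antisymm (h1.1 e.le) (not_lt.1 fun c => (h2.2 c).ne e)
  · intro e
    exact le_antisymm (h1.2 e.le) (not_lt.1 fun c => (h2.1 c).ne e)

omit [FiniteDimensional L E] [IsGalois L E] in
theorem kfin_res : ∃ r : (E ≃ₐ[L] E) →* (E' ≃ₐ[L] E'), ∀ g x, j (r g x) = g (j x) := by
  let _ : Algebra E' E := (j : E' →+* E).toAlgebra
  have : IsScalarTower L E' E := IsScalarTower.of_algebraMap_eq fun x => (j.commutes x).symm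
  exact ⟨AlgEquiv.restrictNormalHom E', fun g x => AlgEquiv.restrictNormal_commutes g E' x⟩

omit [IsGalois L E] [IsGalois L E'] in
include j in
theorem kfin_fd : FiniteDimensional L E' :=
  FiniteDimensional.of_injective j.toLinearMap (j : E' →+* E).injective

omit [IsGalois L E] [IsGalois L E'] in
theorem kfin_ex (w' : Vl E') : ∃ w : Vl E, Over (j : E' →+* E) w' w := by
  let _ : Algebra E' E := (j : E' →+* E).toAlgebra
  have : IsScalarTower L E' E := IsScalarTower.of_algebraMap_eq fun x => (j.commutes x).symm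
  have : FiniteDimensional E' E := Module.Finite.of_restrictScalars_finite L E' E
  exact kv_exists w'

theorem kfin_dvd {A : Type} [Field A] {v : Vl A} {p m : ℕ} (hp : v (p : A) < 1) (hd : p ∣ m) :
    v (m : A) < 1 := by
  obtain ⟨c, rfl⟩ := hd
  rw [Nat.cast_mul, map_mul]
  have hc : v (c : A) ≤ 1 := by
    induction c with
    | zero => simp
    | succ n ih =>
      rw [Nat.cast_succ]
      exact v.map_add_le ih (by simp)
  calc v (p : A) * v (c : A) ≤ v (p : A) * 1 := by gcongr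
    _ < 1 := by simpa using hp

/-- `kv_up` -/
theorem kn_unr {w' : Vl E'} {w : Vl E} (h : Over (j : E' →+* E) w' w)
    (hI : ∀ g ∈ Ine L w, ∀ x, g (j x) = j x) : Ine L w' = ⊥ := by
  obtain ⟨r, hr⟩ := kfin_res j
  rw [eq_bot_iff]
  intro g hg
  obtain ⟨g', hg', rfl⟩ := (kv_up j hr h).2.1 g hg
  rw [Subgroup.mem_bot]
  ext x
  apply (j : E' →+* E).injective
  exact (hr g' x).trans (hI g' hg' x)

/-- Otherwise a prime `p` with `w p < 1` divides the order (`kz_prime`); take an element of order `p`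
(Cauchy), lift it to `g ∈ Ine L w`, write the order of `g` as `p ^ a * q` with `q` prime to `p`; then
`g ^ q` acts trivially on `E'`. -/
theorem kn_tame {w' : Vl E'} {w : Vl E} (h : Over (j : E' →+* E) w' w)
    (hI : ∀ g ∈ Ine L w, ∀ p a : ℕ, p.Prime → w (p : E) < 1 → g ^ p ^ a = 1 → ∀ x, g (j x) = j x) :
    Tame L w' := by
  obtain ⟨r, hr⟩ := kfin_res j
  have := kfin_fd j
  by_contra hc
  have hm : Nat.card (Ine L w') ≠ 0 := Nat.card_pos.ne'
  obtain ⟨p, hp, hd, hw⟩ := kz_prime hm hc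
  have := Fact.mk hp
  obtain ⟨u, hu⟩ := exists_prime_orderOf_dvd_card' p hd
  obtain ⟨g, hg, hgu⟩ := (kv_up j hr h).2.1 u.1 u.2
  have ho : orderOf g ≠ 0 := (orderOf_pos g).ne'
  obtain ⟨a, q, hq, e⟩ := Nat.exists_eq_pow_mul_and_not_dvd ho p hp.ne_one
  have hwp : w (p : E) < 1 := by
    have := (kfin_lt h (p : E')).2 hw
    rwa [map_natCast] at this
  have h1 : (g ^ q) ^ p ^ a = 1 := by
    rw [← pow_mul, mul_comm, ← e, pow_orderOf_eq_one]
  have h2 := hI (g ^ q) (pow_mem hg q) p a hp hwp h1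
  have h3 : r (g ^ q) = 1 := by
    ext x
    apply (j : E' →+* E).injective
    exact (hr _ x).trans (h2 x)
  rw [map_pow, hgu] at h3
  have h4 : u ^ q = 1 := Subtype.ext h3
  exact hq (hu ▸ orderOf_dvd_of_pow_eq_one h4)

/-- every valuation of `E'` has a prolongation, which is normalised if `w'` is not trivial -/
theorem kn_over (w' : Vl E') {x : E'} (h0 : x ≠ 0) (hx : w' x < 1) :
    ∃ w : Vl E, Nrm w ∧ Over (j : E' →+* E) w' w := by
  obtain ⟨w, hw⟩ := kfin_ex j w'
  obtain ⟨w₁, hn, e⟩ := kv_nrm (w := w) ((map_ne_zero (j : E' →+* E)).2 h0) ((kfin_lt hw x).2 hx)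
  exact ⟨w₁, hn, fun y => (e _).trans (hw y)⟩

omit [IsGalois L E'] in
theorem kn_cen {A : Type} [CommRing A] (φ : A →+* L) {P : A} {w' : Vl E'} {w : Vl E}
    (h : Over (j : E' →+* E) w' w) :
    Cen ((algebraMap L E).comp φ) w P ↔ Cen ((algebraMap L E').comp φ) w' P := by
  have e : ∀ a, ((algebraMap L E).comp φ) a = (j : E' →+* E) (((algebraMap L E').comp φ) a) :=
    fun a => (j.commutes (φ a)).symm
  unfold Cen
  refine and_congr (forall_congr' fun a => ?_) (forall_congr' fun a => ?_)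
  · rw [e, h]
  · rw [e, kfin_lt h]

include j in
theorem kn_hz {K : Type} [Field K] (ψ : K[X] →+* L) {Ψ : K[X]}
    (h : HZ ((algebraMap L E).comp ψ) Ψ L) : HZ ((algebraMap L E').comp ψ) Ψ L := by
  intro w' h1 h2 h3
  obtain ⟨w, hw⟩ := kfin_ex j w'
  have e : ∀ a, ((algebraMap L E).comp ψ) a = (j : E' →+* E) (((algebraMap L E').comp ψ) a) :=
    fun a => (j.commutes (ψ a)).symm
  have hb : Ine L w = ⊥ := by
    refine h w (fun a ha => ?_) ?_ ?_
    · rw [e, kfin_eq hw]
      exact h1 a ha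
    · rw [e, hw]
      exact h2
    · rw [e, kfin_eq hw]
      exact h3
  refine kn_unr j hw fun g hg x => ?_
  rw [hb, Subgroup.mem_bot] at hg
  rw [hg, AlgEquiv.one_apply]

/-- An element of `p`-power order of a tame inertia group is trivial. -/
theorem kn_ptriv {w : Vl E} (h : Tame L w) {g : E ≃ₐ[L] E} (hg : g ∈ Ine L w) {p a : ℕ}
    (hp : p.Prime) (hw : w (p : E) < 1) (h1 : g ^ p ^ a = 1) : g = 1 := by
  obtain ⟨b, -, hb⟩ := (Nat.dvd_prime_pow hp).1 (orderOf_dvd_of_pow_eq_one h1)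
  rcases b with _ | b
  · exact orderOf_eq_one_iff.1 (by simpa using hb)
  · exfalso
    have hd : p ∣ Nat.card (Ine L w) := by
      refine dvd_trans ?_ (Subgroup.orderOf_dvd_natCard _ hg)
      rw [hb]
      exact dvd_pow_self p (Nat.succ_ne_zero b)
    exact (kfin_dvd hw hd).ne h

end Pool.Agent.ZCy
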