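import Pool.Agent.Lib.MP_751085_ag.ZC.Z.ZDefs
import Pool.Agent.Lib.MP_751085_ag.ZC.V.Cf

/-! Block K: complete valuations do not decompose. -/

namespace Pool.Agent.ZCy

theorem kw_hens {O K E : Type} [CommRing O] [IsDomain O] [CDVR O] [Field K] [Algebra O K]
    [IsFractionRing O K] [Field E] [Algebra K E] [FiniteDimensional K E] [IsGalois K E] {π : O}
    (hπ : Irreducible π) {w : Vl E} (hw : Cen (toF O K E) w π) : Dec K w = ⊤ := by
  obtain ⟨v, h⟩ := exists_isVR (isFr_alg O K)
  exact h.cpl.dec_top h.1 (((h.cen hπ).over (isFr_alg O K) hπ.prime).1 hw)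

end Pool.Agent.ZCy
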