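import Pool.Agent.Lib.MP_751085_ag.ZC.K.KDefs
import Pool.Agent.Lib.MP_751085_ag.ZC.Iface
import Pool.Agent.Lib.MP_751085_ag.ZC.CMap

/-! Block K: a chart as a curve over the rational function field. -/

namespace Pool.Agent.ZCy

open scoped Classical WithZero IntermediateField
open Polynomial groupCohomology

set_option linter.unusedSectionVars false

/-- as a polynomial in `τ` over the rational function field -/
noncomputable def tq (k σ : Type) [Field k] : MP (Option σ) k →+* (RF σ k)[X] :=
  (mapRingHom (algebraMap (MP σ k) (RF σ k))).comp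
    (MvPolynomial.optionEquivLeft k σ : MP (Option σ) k →+* (MP σ k)[X])

theorem tq_apply {k σ : Type} [Field k] (p : MP (Option σ) k) :
    tq k σ p = (tp p).map (algebraMap (MP σ k) (RF σ k)) := rfl

/-- the algebra structure is the natural one -/
def Tq (k σ : Type) [Field k] [Algebra (RF σ k)[X] (RF (Option σ) k)] : Prop :=
  ∀ p, algebraMap (RF σ k)[X] (RF (Option σ) k) (tq k σ p) = algebraMap (MP (Option σ) k) _ p

end Pool.Agent.ZCy
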