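import Pool.Agent.Lib.MP_751085_ag.ZC.K.Lau
import Pool.Agent.Lib.MP_796ce4_ag.ZY.CvH

/-! Block K: Laurent series. -/

namespace Pool.Agent.ZCy

open scoped Classical WithZero IntermediateField
open Polynomial

variable {K F F' : Type} [Field K] [Field F] [Field F'] {M : ℕ}

theorem klaub_X (t : F) : tA t (X - C t) = HahnSeries.single 1 1 := by
  rw [map_sub, kl_tA_C, tA, coe_eval₂RingHom, eval₂_X, add_sub_cancel_left]

theorem klaub_single : lv F (HahnSeries.single 1 1) = WithZero.exp (-1) := by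
  rw [kl_lv (HahnSeries.single_ne_zero one_ne_zero), HahnSeries.order_single one_ne_zero]

theorem klaub_hc (a : F) : lv F (hc a) ≤ 1 := by
  rcases eq_or_ne a 0 with rfl | h
  · simp
  · exact (kl_lv_hc h).le

theorem klaub_lt : lv F (HahnSeries.single 1 1) < 1 := by
  rw [klaub_single, ← WithZero.exp_zero, WithZero.exp_lt_exp]
  omega

theorem klaub_le (t : F) (p : F[X]) : lv F (tA t p) ≤ 1 := by
  rw [tA, coe_eval₂RingHom, eval₂_eq_sum_range]
  refine Valuation.map_sum_le _ fun i _ => ?_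
  rw [map_mul, map_pow]
  exact mul_le_one' (klaub_hc _)
    (pow_le_one' (Valuation.map_add_le _ (klaub_hc _) klaub_lt.le) _)

/-- `p = (X - t) ^ m q`, `q(t) ≠ 0` -/
theorem kl_order_tA (t : F) {p : F[X]} (h : p ≠ 0) :
    tA t p ≠ 0 ∧ (tA t p).order = p.rootMultiplicity t := by
  obtain ⟨q, e, hq⟩ := exists_eq_pow_rootMultiplicity_mul_and_not_dvd p h t
  obtain ⟨s, hs⟩ := X_sub_C_dvd_sub_C_eval (p := q) (a := t)
  have h1 : lv F (tA t q) = 1 := by
    have h0 := kl_lv_hc (mt dvd_iff_isRoot.2 hq)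
    rw [eq_add_of_sub_eq' hs, map_add, map_mul, klaub_X, kl_tA_C, Valuation.map_add_eq_of_lt_left,
      h0]
    rw [h0, map_mul]
    exact (mul_le_of_le_one_right' (klaub_le t s)).trans_lt klaub_lt
  have h2 : lv F (tA t p) = WithZero.exp (-(p.rootMultiplicity t : ℤ)) := by
    conv_lhs => rw [e]
    rw [map_mul, map_mul, h1, map_pow, map_pow, klaub_X, klaub_single, mul_one, ← WithZero.exp_nsmul]
    simp
  have h3 : tA t p ≠ 0 := fun h0 => by
    rw [h0, map_zero] at h2
    exact WithZero.exp_ne_zero h2.symm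
  rw [kl_lv h3] at h2
  exact ⟨h3, neg_injective (WithZero.exp_injective h2)⟩

/-- `y = u ^ (M k) f` with a unit `f` of the power series ring; Hensel's lemma for `Y ^ M - f`
(the power series ring is adically complete, so henselian). -/
theorem kl_root [IsAlgClosed F] [CharZero F] (hM : 0 < M) {y : Ls F} (h : (M : ℤ) ∣ y.order) :
    ∃ r : Ls F, r ^ M = y := by
  rcases eq_or_ne y 0 with rfl | hy
  · exact ⟨0, zero_pow hM.ne'⟩
  obtain ⟨k, hk⟩ := h
  obtain ⟨z, hz⟩ := IsAlgClosed.exists_pow_nat_eq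
    (PowerSeries.constantCoeff (LaurentSeries.powerSeriesPart y)) hM
  have hz0 : z ≠ 0 := by
    rintro rfl
    rw [zero_pow hM.ne', ← PowerSeries.coeff_zero_eq_constantCoeff_apply,
      LaurentSeries.powerSeriesPart_coeff, Nat.cast_zero, add_zero] at hz
    exact HahnSeries.coeff_order_eq_zero.not.2 hy hz.symm
  obtain ⟨η, h1, -⟩ := ZeroCyc.exists_hensel_series
    (monic_X_pow_sub_C (LaurentSeries.powerSeriesPart y) hM.ne') (y := z) (by simp [hz]) (by
      simp [derivative_X_pow, hz0, hM.ne'])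
  rw [eval_sub, eval_pow, eval_X, eval_C, sub_eq_zero] at h1
  refine ⟨HahnSeries.single k 1 * (η : Ls F), ?_⟩
  rw [mul_pow, HahnSeries.single_pow, one_pow, nsmul_eq_mul, ← hk, ← map_pow, h1,
    LaurentSeries.single_order_mul_powerSeriesPart]

/-- the polynomial splits over the constants -/
theorem kl_const [IsAlgClosed F] (ι : K →+* F) {y : Ls F} {p : K[X]} (hp : p ≠ 0)
    (h : p.eval₂ (hc.comp ι) y = 0) : ∃ a, y = hc a ∧ p.eval₂ ι a = 0 := by
  obtain ⟨a, rfl⟩ := (IsAlgClosed.splits (p.map ι)).mem_range_of_isRoot (map_ne_zero hp)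
    (i := (hc : F →+* Ls F)) (x := y) (by rw [IsRoot, Polynomial.map_map, eval_map, h])
  exact ⟨a, rfl, (hc : F →+* Ls F).injective (by rw [hom_eval₂, h, map_zero])⟩

/-- `χ` is irreducible over the fraction field (Gauss lemma,
`Monic.irreducible_iff_irreducible_map_fraction_map`) and does not divide `a` there
(`map_dvd_map`); clear the denominators in a Bezout identity. -/
theorem kl_bez {R : Type} [CommRing R] [IsDomain R] [IsIntegrallyClosed R] {χ a : R[X]}
    (hm : χ.Monic) (hi : Irreducible χ) (ha : ¬χ ∣ a) :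
    ∃ (u : R) (α β : R[X]), u ≠ 0 ∧ C u = α * χ + β * a := by
  have hj := IsFractionRing.injective R (FractionRing R)
  obtain ⟨α, β, e⟩ := (((hm.irreducible_iff_irreducible_map_fraction_map
    (K := FractionRing R)).1 hi).coprime_iff_not_dvd).2 (mt (map_dvd_map _ hj hm).1 ha)
  obtain ⟨u, hu, h1⟩ := IsLocalization.integerNormalization_spec (nonZeroDivisors R) α
  obtain ⟨v, hv, h2⟩ := IsLocalization.integerNormalization_spec (nonZeroDivisors R) β
  refine ⟨u * v, C v * IsLocalization.integerNormalization (nonZeroDivisors R) α,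
    C u * IsLocalization.integerNormalization (nonZeroDivisors R) β,
    mul_ne_zero (nonZeroDivisors.ne_zero hu) (nonZeroDivisors.ne_zero hv), map_injective _ hj ?_⟩
  simp only [Polynomial.map_add, Polynomial.map_mul, map_C, h1, h2, map_mul, Algebra.smul_def,
    Polynomial.algebraMap_apply]
  linear_combination (-(C (algebraMap R (FractionRing R) u) * C (algebraMap R _ v))) * e

/-- `kl_bez` -/
theorem kl_ker {R S : Type} [CommRing R] [IsDomain R] [IsIntegrallyClosed R] [CommRing S]
    {ψ : R →+* S} (hψ : Function.Injective ψ) {θ : S} {χ : R[X]} (hm : χ.Monic)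
    (hi : Irreducible χ) (h0 : χ.eval₂ ψ θ = 0) (a : R[X]) : a.eval₂ ψ θ = 0 ↔ χ ∣ a := by
  refine ⟨fun h => ?_, ?_⟩
  · by_contra ha
    obtain ⟨u, α, β, hu, e⟩ := kl_bez hm hi ha
    have := congrArg (eval₂ ψ θ) e
    rw [eval₂_C, eval₂_add, eval₂_mul, eval₂_mul, h0, h, mul_zero, mul_zero, add_zero] at this
    exact hu (hψ (this.trans (map_zero ψ).symm))
  · rintro ⟨b, rfl⟩
    rw [eval₂_mul, h0, zero_mul]

end Pool.Agent.ZCy
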