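import Pool.Agent.Lib.MP_751085_ag.ZC.K.NeedA

/-! Block K: passage to the fixed field. -/

namespace Pool.Agent.ZCy

open scoped Classical WithZero IntermediateField
open Polynomial groupCohomology

variable {L F E : Type} [Field L] [Field F] [Field E] [Algebra L F] [Algebra L E] [Algebra F E]
  [IsScalarTower L F E] [FiniteDimensional L E] [IsGalois L E] [CharZero F]

/-- passage to the fixed field of the closure of `Z` -/
theorem kn_fix (Z : Set (E ≃ₐ[F] E))
    (hZ : ∀ (g : E ≃ₐ[L] E), ∀ z ∈ Z, ∃ z' ∈ Z, z'.restrictScalars L = g * z.restrictScalars L * g⁻¹)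
    {c : (E ≃ₐ[F] E) × (E ≃ₐ[F] E) → Eˣ} (hc : IsMulCocycle₂ c) {M : ℕ} (hM : ∀ p, c p ^ M = 1)
    (hi : Infl ⊤ (Subgroup.closure Z) c) :
    ∃ (E' : IntermediateField F E) (c' : (E' ≃ₐ[F] E') × (E' ≃ₐ[F] E') → E'ˣ), IsGalois L E' ∧
      (∀ z ∈ Z, ∀ x ∈ E', z x = x) ∧ IsMulCocycle₂ c' ∧ (∀ p, c' p ^ M = 1) ∧
      cls F c' = cls F c := by
  have : FiniteDimensional F E := Module.Finite.of_restrictScalars_finite L F E
  have : IsGalois F E := IsGalois.tower_top_of_isGalois L F E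
  obtain ⟨E', hE'⟩ : ∃ E', E' = IntermediateField.fixedField (Subgroup.closure Z) := ⟨_, rfl⟩
  have hN : ∀ x, x ∈ E' ↔ ∀ g ∈ Subgroup.closure Z, g x = x := fun x => by
    rw [hE', IntermediateField.mem_fixedField_iff]
  have hm : ∀ x, x ∈ E' ↔ ∀ z ∈ Z, z x = x := fun x => (hN x).trans
    ⟨fun h z hz => h z (Subgroup.subset_closure hz), fun h g hg =>
      (Subgroup.closure_le (MulAction.stabilizer (E ≃ₐ[F] E) x)).2 h hg⟩
  have hn : Normal L (E'.restrictScalars L) := by
    refine IntermediateField.normal_iff_forall_map_le'.2 fun g => ?_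
    rintro _ ⟨x, hx, rfl⟩
    refine (hm _).2 fun z hz => ?_
    obtain ⟨z', hz', e⟩ := hZ g⁻¹ z hz
    have h1 : g⁻¹ (z (g x)) = x := (DFunLike.congr_fun e x).symm.trans ((hm x).1 hx z' hz')
    exact (AlgEquiv.symm_apply_eq g).1 h1
  have hn' : Normal L E' := hn
  have : IsScalarTower L E' E := .of_algebraMap_eq fun _ => rfl
  have : Algebra.IsSeparable L E' := Algebra.isSeparable_tower_bot_of_isSeparable L E' E
  have hG : IsGalois L E' := ⟨⟩
  have : IsGalois F E' := IsGalois.tower_top_of_isGalois L F E'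
  obtain ⟨r, hr, hs⟩ : ∃ r : (E ≃ₐ[F] E) →* E' ≃ₐ[F] E',
      (∀ g x, algebraMap E' E (r g x) = g (algebraMap E' E x)) ∧ Function.Surjective r :=
    ⟨AlgEquiv.restrictNormalHom E', fun g x => g.restrictNormal_commutes E' x,
      AlgEquiv.restrictNormalHom_surjective E⟩
  have hk : ∀ g g', r g = r g' → g⁻¹ * g' ∈ Subgroup.closure Z := fun g g' e => by
    rw [← IntermediateField.fixingSubgroup_fixedField (Subgroup.closure Z), ← hE',
      IntermediateField.mem_fixingSubgroup_iff]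
    intro x hx
    refine (AlgEquiv.symm_apply_eq g).2 ?_
    exact (hr g' ⟨x, hx⟩).symm.trans (e ▸ hr g ⟨x, hx⟩)
  obtain ⟨s, hs'⟩ := hs.hasRightInverse
  have hv : ∀ p, (c p : E) ∈ E' := fun p => (hN _).2 fun g hg =>
    congrArg Units.val (hi.fix p.1 trivial p.2 trivial g hg)
  let c' : (E' ≃ₐ[F] E') × (E' ≃ₐ[F] E') → E'ˣ := fun p =>
    Units.mk0 ⟨c (s p.1, s p.2), hv _⟩ fun h => (c _).ne_zero (congrArg Subtype.val h)
  have hp : ∀ g h, Units.map (algebraMap E' E : E' →* E) (c' (r g, r h)) = c (g, h) := by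
    intro g h
    have := hi.eq g trivial h trivial _ (hk g _ (hs' _).symm) _ (hk h _ (hs' _).symm)
    rw [mul_inv_cancel_left, mul_inv_cancel_left] at this
    rw [← this]
    exact Units.ext rfl
  have inj : Function.Injective (Units.map (algebraMap E' E : E' →* E)) :=
    Units.map_injective (algebraMap E' E).injective
  have hu : ∀ (g : E ≃ₐ[F] E) (u : E'ˣ), Units.map (algebraMap E' E : E' →* E) (r g • u) =
      g • Units.map (algebraMap E' E : E' →* E) u := fun g u => Units.ext (hr g u)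
  have hc' : IsMulCocycle₂ c' := fun g h k => by
    obtain ⟨g, rfl⟩ := hs g
    obtain ⟨h, rfl⟩ := hs h
    obtain ⟨k, rfl⟩ := hs k
    refine inj ?_
    rw [← map_mul r, ← map_mul r, map_mul (Units.map _), map_mul (Units.map _), hu, hp, hp, hp, hp]
    exact hc g h k
  refine ⟨E', c', hG, fun z hz x hx => (hm x).1 hx z hz, hc', fun p => inj ?_, ?_⟩
  · obtain ⟨g, hg⟩ := hs p.1
    obtain ⟨h, hh⟩ := hs p.2
    rw [map_pow, map_one, show p = (r g, r h) from Prod.ext hg.symm hh.symm, hp, hM]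
  · rw [← ka_id (cls F c'), ka_pull (RingHom.id F) (G' := E ≃ₐ[F] E) (j := algebraMap E' E)
      (fun _ => rfl) (r := r) hr hc']
    exact congrArg _ (funext fun p => hp p.1 p.2)

variable {E' : Type} [Field E'] [Algebra L E'] [IsGalois L E'] (j : E' →ₐ[L] E)

end Pool.Agent.ZCy
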