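import Pool.Agent.Lib.MP_751085_ag.ZC.K.Res
import Pool.Agent.Lib.MP_751085_ag.ZC.K.NeedA
import Pool.Agent.Lib.MP_751085_ag.ZC.R3b

/-! Block K: a splitting over the inertia group is normalised by the decomposition group. -/

namespace Pool.Agent.ZCy

open scoped Classical WithZero IntermediateField
open Polynomial groupCohomology

theorem kresb_div {G A : Type} [Group G] [CommGroup A] [MulDistribMulAction G A] {c c' : G × G → A}
    (h : IsMulCocycle₂ c) (h' : IsMulCocycle₂ c') : IsMulCocycle₂ (c / c') := fun g k l => by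
  simp only [Pi.div_apply, smul_div']
  rw [div_mul_div_comm, h g k l, h' g k l, div_mul_div_comm]

variable {F E : Type} [Field F] [Field E] [Algebra F E] [FiniteDimensional F E] {w : Vl E}
  {I : Subgroup (E ≃ₐ[F] E)}

theorem kresb_one {M : ℕ} (hM : M ≠ 0) {u : Eˣ} (h : u ^ M = 1) : w (u : E) = 1 := by
  rw [← pow_eq_one_iff_of_nonneg zero_le hM, ← map_pow, ← Units.val_pow_eq_pow_val, h,
    Units.val_one, map_one]

theorem kr_core (h0 : ∀ m : ℕ, m ≠ 0 → w (m : E) = 1) (hI : I ≤ Ine F w) {M : ℕ} (hM : M ≠ 0)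
    {c c' : (E ≃ₐ[F] E) × (E ≃ₐ[F] E) → Eˣ} {x e : (E ≃ₐ[F] E) → Eˣ} (hc' : IsMulCocycle₂ c')
    (hx : c = c' * dd x) (hp : ∀ p, c p ^ M = 1) (hi : Infl (Dec F w) (Ine F w) c')
    (hu : ∀ g ∈ Dec F w, ∀ h ∈ Dec F w, w (c' (g, h) : E) = 1) (he : ∀ n ∈ I, e n ^ M = 1)
    (hs : ∀ n ∈ I, ∀ n' ∈ I, c (n, n') = dd e (n, n')) {g n : E ≃ₐ[F] E}
    (hg : g ∈ Dec F w) (hn : n ∈ I) (hn' : g⁻¹ * n * g ∈ I) :
    c (g, g⁻¹ * n * g) * e n = c (n, g) * g • e (g⁻¹ * n * g) := by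
  have o := one_mem (Dec F w)
  have hv : ∀ a b, (c (a, b) : E) = c' (a, b) * (a (x b) / x (a * b) * x a) := fun a b => by
    rw [hx, Pi.mul_apply, dd]
    simp only [Units.val_mul, Units.val_div_eq_div_val]
    rfl
  have hx1 : ∀ a ∈ Dec F w, w (x a : E) = 1 := fun a ha => by
    let φ : Dec F w →* ℤᵐ⁰ˣ := MonoidHom.mk' (fun b => Units.map (w : E →* ℤᵐ⁰) (x b)) fun b d => by
      have h := kresb_one (w := w) hM (hp (b, d))
      rw [hv, map_mul, hu _ b.2 _ d.2, one_mul, map_mul, map_div₀, b.2, div_mul_eq_mul_div,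
        div_eq_one_iff_eq (by simp)] at h
      exact Units.ext (h.symm.trans (mul_comm _ _))
    have h := congrArg Units.val (congrArg φ (pow_card_eq_one' (x := (⟨a, ha⟩ : Dec F w))))
    rw [map_pow, map_one, Units.val_pow_eq_pow_val, Units.val_one,
      pow_eq_one_iff_of_nonneg zero_le Nat.card_pos.ne'] at h
    exact h
  have hl : ∀ a ∈ I, ∀ b ∈ Dec F w, c' (a, b) = c' (1, 1) := fun a ha b hb => by
    have := hi.eq 1 o b hb a (hI ha) 1 (one_mem _)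
    rwa [one_mul, mul_one, map_one_fst_of_isMulCocycle₂ hc'] at this
  have hr : (c' (g, g⁻¹ * n * g) : E) = g (c' (1, 1)) := by
    have := hi.eq g hg 1 o 1 (one_mem _) _ (hI hn')
    rw [one_mul, mul_one, map_one_snd_of_isMulCocycle₂ hc'] at this
    exact congrArg Units.val this
  have ne : ∀ (a : E ≃ₐ[F] E) (u : Eˣ), a u ≠ 0 := fun a u => (map_ne_zero a).2 u.ne_zero
  let ψ : (E ≃ₐ[F] E) → E := fun a => e a / (x a * c' (1, 1))
  have h1 : ∀ a ∈ I, w (ψ a) = 1 := fun a ha => by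
    rw [map_div₀, map_mul, kresb_one hM (he a ha), hx1 a (hI ha).1, hu 1 o 1 o, one_mul, div_one]
  have h2 : ∀ a ∈ I, ∀ b ∈ I, ψ (a * b) - ψ a * ψ b = ψ a * (a (ψ b) - ψ b) := fun a ha b hb => by
    have e1 : (c (a, b) : E) = a (e b) / e (a * b) * e a := by
      rw [hs a ha b hb, dd]
      simp only [Units.val_mul, Units.val_div_eq_div_val]
      rfl
    have e2 : a (c' (1, 1)) = c' (1, 1) := congrArg Units.val (hi.fix 1 o 1 o a (hI ha))
    rw [hv, hl a ha b (hI hb).1, div_mul_eq_mul_div (a (e b)), eq_div_iff (Units.ne_zero _)] at e1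
    have := ne a (x b)
    simp only [ψ, map_div₀, map_mul, e2, mul_sub, sub_left_inj, div_mul_div_comm]
    rw [mul_comm (e a : E), ← e1]
    field_simp
  have h3 := kr_theta h0 hI h1 (fun a ha b hb => by
    rw [h2 a ha b hb, map_mul, h1 a ha, one_mul]
    exact (hI ha).2 _ (h1 b hb).le) hg hn hn'
  refine Units.ext (kz_root (h0 M hM) (M := M) ?_ ?_ ?_)
  · rw [← Units.val_pow_eq_pow_val, mul_pow, hp, he n hn, one_mul, Units.val_one]
  · rw [← Units.val_pow_eq_pow_val, mul_pow, hp, ← smul_pow', he _ hn', smul_one, one_mul,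
      Units.val_one]
  have e3 : ((c (g, g⁻¹ * n * g) * e n : Eˣ) : E) - (c (n, g) * g • e (g⁻¹ * n * g) : Eˣ) =
      g (c' (1, 1) * x (g⁻¹ * n * g)) * (c' (1, 1) * x n) / x (n * g) *
        ((ψ n - g (ψ (g⁻¹ * n * g))) * x g - g (ψ (g⁻¹ * n * g)) * (n (x g) - x g)) := by
    have e4 : g * (g⁻¹ * n * g) = n * g := by group
    have := ne g (x (g⁻¹ * n * g))
    have := ne g (c' (1, 1))
    change (c _ : E) * e n - c _ * g (e (g⁻¹ * n * g)) = _
    simp only [hv, hr, hl n hn g hg, e4, ψ, map_div₀, map_mul]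
    field_simp
    ring
  rw [e3, map_mul, map_div₀, map_mul, hg, map_mul, map_mul, hu 1 o 1 o, hx1 _ (hI hn').1,
    hx1 _ (hI hn).1, hx1 _ (mul_mem (hI hn).1 hg), one_mul, one_mul, div_one, one_mul]
  refine w.map_sub_lt ?_ ?_
  · rwa [map_mul, hx1 g hg, mul_one]
  · rw [map_mul, hg, h1 _ hn', one_mul]
    exact (hI hn).2 _ (hx1 g hg).le

theorem kr_norm [CharZero F] [IsGalois F E] {v : Vl F} (hw : Over (algebraMap F E) v w)
    (h0 : ∀ m : ℕ, m ≠ 0 → w (m : E) = 1) (hI : I ≤ Ine F w) {M : ℕ} (hM : M ≠ 0)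
    {c : (E ≃ₐ[F] E) × (E ≃ₐ[F] E) → Eˣ} {e : (E ≃ₐ[F] E) → Eˣ} (hc : IsMulCocycle₂ c)
    (hp : ∀ p, c p ^ M = 1) (hu : Unram v (cls F c)) (he : ∀ n ∈ I, e n ^ M = 1)
    (hs : ∀ n ∈ I, ∀ n' ∈ I, c (n, n') = dd e (n, n')) {g n : E ≃ₐ[F] E}
    (hg : g ∈ Dec F w) (hn : n ∈ I) (hn' : g⁻¹ * n * g ∈ I) :
    c (g, g⁻¹ * n * g) * e n = c (n, g) * g • e (g⁻¹ * n * g) := by
  obtain ⟨R, j, hR, hj⟩ := hu.up hw
  obtain ⟨r, -, hr⟩ := exists_lk_of (γ := RingHom.id F) (j := (j : E →+* R.E)) fun a => j.commutes a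
  let ρ : (R.E ≃ₐ[F] R.E) →* E ≃ₐ[F] E := MonoidHom.mk' r (lk_mul hr)
  have hc₂ := pull_coc (j := (j : E →+* R.E)) hr hc
  have hd := kresb_div hc₂ R.coc
  have h1 := ka_mul (K := F) hd R.coc
  rw [div_mul_cancel, ← ka_pull (RingHom.id F) (j := (j : E →+* R.E)) (fun a => j.commutes a) hr hc,
    ka_id, R.cls_eq] at h1
  obtain ⟨x, hx⟩ := (ka_zero (K := F) hd).1
    ((eq_sub_of_add_eq (G := BR F) h1.symm).trans (sub_self (cls F c)))
  obtain ⟨u1, u2, -, -⟩ := kv_up j hr hj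
  obtain ⟨g, hg', rfl⟩ := u1 g hg
  obtain ⟨n, hn₁, rfl⟩ := u2 n (hI hn)
  have e1 : r (g⁻¹ * n * g) = (r g)⁻¹ * r n * r g := by
    change ρ _ = (ρ g)⁻¹ * ρ n * ρ g
    rw [map_mul, map_mul, map_inv]
  have e2 := kz_ine hn₁ g⁻¹
  rw [kz_dec.1 (inv_mem hg'), inv_inv] at e2
  have key := kr_core (w := R.w) (I := Ine F R.w ⊓ I.comap ρ) (fun m hm => ?_) inf_le_left hM
    (e := fun a => Units.map ((j : E →+* R.E) : E →* R.E) (e (r a))) R.coc
    (div_eq_iff_eq_mul'.1 hx) (fun p => by rw [pull, ← map_pow, hp, map_one]) R.infl hR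
    (fun a ha => by rw [← map_pow, he (r a) ha.2, map_one])
    (fun a ha b hb => (congrArg (Units.map ((j : E →+* R.E) : E →* R.E)) (hs _ ha.2 _ hb.2)).trans
      (congrFun (pull_dd hr e) (a, b))) hg' ⟨hn₁, hn⟩ ⟨e2, (e1 ▸ hn' : r _ ∈ I)⟩
  · apply Units.map_injective (f := ((j : E →+* R.E) : E →* R.E)) j.injective
    simp only [pull, e1] at key
    rw [map_mul, map_mul, key]
    exact congrArg _ (lk_units hr g _).symm
  · have h2 := (hj m).2 (h0 m hm).le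
    have h3 := (hj (m : E)⁻¹).2 (by rw [map_inv₀, h0 m hm, inv_one])
    rw [map_inv₀, map_inv₀, map_natCast] at h3
    rw [map_natCast] at h2
    have : CharZero R.E := charZero_of_injective_algebraMap (algebraMap F R.E).injective
    exact h2.antisymm ((inv_le_one₀ (zero_lt_iff.2 (by simpa using hm))).1 h3)

end Pool.Agent.ZCy
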