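import Pool.Agent.Lib.MP_751085_ag.ZC.K.VtB
import Pool.Agent.Lib.MP_751085_ag.ZC.K.ResB
import Pool.Agent.Lib.MP_751085_ag.ZC.K.FinA

/-! Block K: descent to the fixed field of the vertical inertia groups. -/

namespace Pool.Agent.ZCy

open scoped Classical WithZero IntermediateField
open Polynomial groupCohomology

set_option linter.unusedSectionVars false

section help

theorem kc2_dd {G A : Type} [Group G] [CommGroup A] [MulDistribMulAction G A] (e : G → A) :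
    IsMulCocycle₂ (dd e) := by
  intro g h j
  simp only [dd, smul_mul', smul_div', ← mul_smul, mul_assoc]
  simp only [div_eq_mul_inv]
  apply Additive.ofMul.injective
  simp only [ofMul_mul, ofMul_inv]
  abel

theorem kc2_div {G A : Type} [Group G] [CommGroup A] [MulDistribMulAction G A] {c c' : G × G → A}
    (hc : IsMulCocycle₂ c) (hc' : IsMulCocycle₂ c') : IsMulCocycle₂ (c / c') := by
  intro g h j
  simp only [Pi.div_apply, smul_div']
  rw [div_mul_div_comm, div_mul_div_comm, hc g h j, hc' g h j]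

theorem kc2_ddpow {G A : Type} [Group G] [CommGroup A] [MulDistribMulAction G A] {x : G → A} {M : ℕ}
    (hx : ∀ g, x g ^ M = 1) (p : G × G) : dd x p ^ M = 1 := by
  rw [dd, mul_pow, div_pow, ← smul_pow', hx, hx, hx, smul_one, div_one, one_mul]

theorem kc2_cls {F E : Type} [Field F] [Field E] [Algebra F E] [CharZero F] [FiniteDimensional F E]
    [IsGalois F E] {c : (E ≃ₐ[F] E) × (E ≃ₐ[F] E) → Eˣ} (hc : IsMulCocycle₂ c)
    (x : (E ≃ₐ[F] E) → Eˣ) : cls F (c / dd x) = cls F c := by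
  have h1 := ka_mul (K := F) (kc2_div hc (kc2_dd x)) (kc2_dd x)
  have h2 : cls F (dd x) = 0 := (ka_zero (K := F) (kc2_dd x)).2 ⟨x, rfl⟩
  rw [div_mul_cancel, h2] at h1
  have h3 : ∀ a : BR F, a + 0 = a := fun a => congrArg Additive.ofMul (mul_one a.toMul)
  exact (h1.trans (h3 _)).symm

theorem kc2_char (K L F : Type) [Field K] [Field L] [Field F] [CharZero K] [Algebra K[X] L]
    [Algebra L F] : CharZero F :=
  charZero_of_injective_ringHom ((toF K[X] L F).comp C).injective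

theorem kc2_rpow {L F E : Type} [Field L] [Field F] [Field E] [Algebra L F] [Algebra L E]
    [Algebra F E] [IsScalarTower L F E] {z : E ≃ₐ[F] E} {n : ℕ} :
    z.restrictScalars L ^ n = 1 ↔ z ^ n = 1 := by
  have h : ∀ n : ℕ, z.restrictScalars L ^ n = (z ^ n).restrictScalars L := fun n => by
    induction n with
    | zero => rfl
    | succ n ih => rw [pow_succ, pow_succ, ih]; rfl
  rw [h]
  exact ⟨fun e => AlgEquiv.restrictScalars_injective L e, fun e => by rw [e]; rfl⟩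

theorem kc2_conj {F E : Type} [Field F] [Field E] [Algebra F E] {w : Vl E} {g n : E ≃ₐ[F] E}
    (hg : g ∈ Dec F w) (hn : n ∈ Ine F w) : g⁻¹ * n * g ∈ Ine F w := by
  have h := kz_ine hn g⁻¹
  rwa [kz_dec.1 (inv_mem hg), inv_inv] at h

variable {B K L F E : Type} [CommRing B] [Field K] [Field L] [Field F] [Field E] [Algebra B K]
  [Algebra K[X] L] [Algebra L E]

theorem kc2_cenL {w : Vl E} {Q : B[X]} (h : Cen (pB B K L E) w Q) (g : E ≃ₐ[L] E) :
    Cen (pB B K L E) (vsm g w) Q :=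
  kz_cen ((algebraMap K[X] L).comp (mapRingHom (algebraMap B K))) h g

theorem kc2_cop {w : Vl E} {P : B} (h : Cen (pB B K L E) w (C P)) {d M p : ℕ}
    (hn : ¬P ∣ ((d * M : ℕ) : B)) (hp : p.Prime) (h1 : w (p : E) < 1) (a : ℕ) :
    (p ^ a).Coprime M := by
  refine Nat.Coprime.pow_left a ((Nat.Prime.coprime_iff_not_dvd hp).2 fun hd => hn ?_)
  obtain ⟨k, hk⟩ := Dvd.dvd.mul_left hd d
  have h2 : w (k : E) ≤ 1 := by
    have := h.1 (k : B[X])
    rwa [map_natCast] at this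
  have h3 : w (pB B K L E (C ((d * M : ℕ) : B))) < 1 := by
    rw [map_natCast, map_natCast, hk, Nat.cast_mul, map_mul]
    exact mul_lt_one_of_lt_of_le h1 h2
  have h4 := (C_dvd_iff_dvd_coeff _ _).1 ((h.2 _).1 h3) 0
  rwa [coeff_C_zero] at h4

theorem kc2_ne [IsFractionRing B K] [IsFractionRing K[X] L] {P : B} (hP : P ≠ 0) :
    pB B K L E (C P) ≠ 0 := by
  intro h0
  have h1 : algebraMap L E (algebraMap K[X] L (C (algebraMap B K P))) = 0 := by
    rw [← map_C]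
    exact h0
  rw [map_eq_zero, map_eq_zero_iff _ (IsFractionRing.injective K[X] L), C_eq_zero,
    map_eq_zero_iff _ (IsFractionRing.injective B K)] at h1
  exact hP h1

variable [Algebra L F] [Algebra F E] [IsScalarTower L F E]

theorem kc2_cenF {w : Vl E} {Q : B[X]} (h : Cen (pB B K L E) w Q) (g : E ≃ₐ[F] E) :
    Cen (pB B K L E) (vsm g w) Q :=
  kc2_cenL h (g.restrictScalars L)

theorem kc2_comap {w : Vl E} {Q : B[X]} (h : Cen (pB B K L E) w Q) :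
    Cen (pB B K L F) (w.comap (algebraMap F E)) Q := by
  have e : ∀ a, w.comap (algebraMap F E) (pB B K L F a) = w (pB B K L E a) := fun a =>
    congrArg w (IsScalarTower.algebraMap_apply L F E _).symm
  exact ⟨fun a => (e a).trans_le (h.1 a), fun a => by rw [e]; exact h.2 a⟩

end help

variable {A A₂ K K₂ L F : Type} [CommRing A] [IsDomain A] [UniqueFactorizationMonoid A] [Algebra ℚ A]
  [CommRing A₂] [IsDomain A₂] [UniqueFactorizationMonoid A₂] [Field K] [CharZero K] [Field K₂]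
  [Algebra A K] [IsFractionRing A K] [Algebra A₂ K₂] [IsFractionRing A₂ K₂] [Algebra A A₂]
  [Algebra.IsIntegral A A₂] [Algebra K K₂] [Algebra A K₂] [IsScalarTower A K K₂]
  [IsScalarTower A A₂ K₂] [Algebra K₂ (Kb K)] [IsScalarTower K K₂ (Kb K)] [FiniteDimensional K K₂]
  [IsGalois K K₂] [Field L] [Field F] [Algebra K[X] L] [IsFractionRing K[X] L] [Algebra L F]
  [Algebra L (Om K)] [Algebra F (Om K)] [IsScalarTower L F (Om K)] {M : ℕ} {c : Cur K L F M} {Φ : A}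
  {E : IntermediateField F (Om K)} {K₁ : IntermediateField K₂ (Kb K)} {n : ℕ} {π : Fin n → A₂}
  {ϖ : Fin n → K₁} (hb : c.Bas K₂ Φ) (h : c.Big A E K₁ π ϖ)

include hb h

variable {B : Type} [CommRing B] [IsDomain B] [UniqueFactorizationMonoid B] [Algebra B K]
  [IsFractionRing B K] (P₀ : B)

/-- `kk_desc` with `kx_kum`; `hP` by `kz_ine`, `kz_cen`; `hPR` by `kz_scal`, `kx_wild`; `hPo`: `p ∤ M` because
`w M = 1` by `Tm.nd`; `res` by `kr_norm` with `v = w.comap (algebraMap F E)`, `kx_nat`. -/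
theorem kc_infl {cc : (E ≃ₐ[F] E) × (E ≃ₐ[F] E) → Eˣ} {e : (E ≃ₐ[F] E) → Eˣ}
    (hcc : IsMulCocycle₂ cc) (hM : ∀ p, cc p ^ M = 1) (he : ∀ r ∈ secG K₂ E, e r ^ M = 1)
    (h1 : ∀ r ∈ secG K₂ E, ∀ r' ∈ secG K₂ E, cc (r, r') = dd e (r, r'))
    (H1 : ∀ (P : A) (v : Vl F), Prime P → ¬P ∣ Φ → Cen (pB A K L F) v (C P) → Unram v (cls F cc)) :
    ∃ x : (E ≃ₐ[F] E) → Eˣ, (∀ g, x g ^ M = 1) ∧ Infl ⊤ (Subgroup.closure
      ((⋃ w ∈ Wv A K L E Φ, (Ine F w : Set (E ≃ₐ[F] E))) ∪ Pw F (pB B K L E) (C P₀) (c.Tm K₂ P₀)))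
      (cc / dd x) := by
  have := h.nice.fin
  have := h.nice.gal
  have : FiniteDimensional F E := Module.Finite.of_restrictScalars_finite L F E
  have : IsGalois F E := IsGalois.tower_top_of_isGalois L F E
  have : CharZero F := kc2_char K L F
  obtain ⟨ϖ', hk⟩ := kx_kum hb h
  refine kk_desc hk hcc hM he h1 _ ?_ ?_ ?_ ?_
  · rintro g x ⟨hT, w, hw, hx, p, a, hp, hw1, hx1⟩
    refine ⟨hT, vsm g w, kc2_cenF hw g, kz_ine hx g, p, a, hp, ?_, ?_⟩
    · rw [vsm_apply, map_natCast]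
      exact hw1
    · rw [conj_pow, hx1, mul_one, mul_inv_cancel]
  · rintro x ⟨hT, w, hw, hx, p, a, hp, hw1, hx1⟩
    obtain ⟨g', hg', e⟩ := kx_wild hb h hT hw (kz_scal.2.2 hx) hp hw1 (kc2_rpow.2 hx1)
    rwa [← AlgEquiv.restrictScalars_injective L e]
  · rintro x ⟨hT, w, hw, -, p, a, hp, hw1, hx1⟩
    exact ⟨p ^ a, kc2_cop hw hT.nd hp hw1 a, hx1⟩
  · intro w hw g hg n hn
    obtain ⟨-, P, hP, hPΦ, hc⟩ := id hw
    exact kr_norm (w := w) (v := w.comap (algebraMap F E)) (fun _ => Iff.rfl)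
      (fun m hm => kx_nat hb h hw hm) le_rfl c.pos.ne' hcc hM (H1 P _ hP hPΦ (kc2_comap hc))
      (fun n hn => he n (hk.le w hw hn))
      (fun n hn n' hn' => h1 n (hk.le w hw hn) n' (hk.le w hw hn')) hg hn (kc2_conj hg hn)

/-- `kz_scal`, `kz_ine`, `kz_nrm`, `kz_cen` over `L`, then `kx_ine`, `kx_wild` -/
theorem kc_norm (g : E ≃ₐ[L] E) (z : E ≃ₐ[F] E) (hz : z ∈
    (⋃ w ∈ Wv A K L E Φ, (Ine F w : Set (E ≃ₐ[F] E))) ∪ Pw F (pB B K L E) (C P₀) (c.Tm K₂ P₀)) :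
    ∃ z' ∈ (⋃ w ∈ Wv A K L E Φ, (Ine F w : Set (E ≃ₐ[F] E))) ∪
      Pw F (pB B K L E) (C P₀) (c.Tm K₂ P₀), z'.restrictScalars L = g * z.restrictScalars L * g⁻¹ := by
  rcases hz with hz | ⟨hT, w, hw, hz, p, a, hp, hw1, hz1⟩
  · obtain ⟨w, hw, hz⟩ := Set.mem_iUnion₂.1 hz
    have hw' : vsm g w ∈ Wv A K L E Φ := by
      obtain ⟨hn, P, hP, hPΦ, hc⟩ := hw
      exact ⟨kz_nrm hn g, P, hP, hPΦ, kc2_cenL hc g⟩
    have hi := kz_ine ((kz_scal (L := L)).2.2 hz) g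
    obtain ⟨z', -, e⟩ := kx_ine hb h hw' hi
    rw [← e] at hi
    exact ⟨z', Or.inl (Set.mem_iUnion₂.2 ⟨_, hw', kz_scal.2.1 hi⟩), e⟩
  · have hw' := kc2_cenL hw g
    have hi := kz_ine ((kz_scal (L := L)).2.2 hz) g
    have h1 : vsm g w (p : E) < 1 := by
      rw [vsm_apply, map_natCast]
      exact hw1
    have h2 : (g * z.restrictScalars L * g⁻¹) ^ p ^ a = 1 := by
      rw [conj_pow, kc2_rpow.2 hz1, mul_one, mul_inv_cancel]
    obtain ⟨z', -, e⟩ := kx_wild hb h hT hw' hi hp h1 h2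
    rw [← e] at hi h2
    exact ⟨z', Or.inr ⟨hT, vsm g w, hw', kz_scal.2.1 hi, p, a, hp, h1, kc2_rpow.1 h2⟩, e⟩

/-- `kc_infl`, `kc_norm`, `kn_fix` for `cc / dd x` (`ka_mul`, `ka_zero`); the properties of `E'` by `kz_hz`,
`kn_hz`, `kn_over`, `kn_cen`, `kn_unr`, `kn_tame`, `kx_ine`, `kx_wild`. -/
theorem kc_desc {cc : (E ≃ₐ[F] E) × (E ≃ₐ[F] E) → Eˣ} {e : (E ≃ₐ[F] E) → Eˣ}
    (hcc : IsMulCocycle₂ cc) (hM : ∀ p, cc p ^ M = 1) (he : ∀ r ∈ secG K₂ E, e r ^ M = 1)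
    (h1 : ∀ r ∈ secG K₂ E, ∀ r' ∈ secG K₂ E, cc (r, r') = dd e (r, r'))
    (H1 : ∀ (P : A) (v : Vl F), Prime P → ¬P ∣ Φ → Cen (pB A K L F) v (C P) → Unram v (cls F cc)) :
    ∃ R : KOut L F (cls F cc) M, HZ (toF K[X] L R.E) c.Ψ L ∧
      (∀ (P : A) (w : Vl R.E), Prime P → ¬P ∣ Φ → Cen (pB A K L R.E) w (C P) → Ine L w = ⊥) ∧
      (c.Tm K₂ P₀ → ∀ w : Vl R.E, Cen (pB B K L R.E) w (C P₀) → Tame L w) := by
  have := h.nice.fin
  have := h.nice.gal
  have : FiniteDimensional F E := Module.Finite.of_restrictScalars_finite L F E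
  have : IsGalois F E := IsGalois.tower_top_of_isGalois L F E
  have : CharZero F := kc2_char K L F
  obtain ⟨x, hx, hi⟩ := kc_infl hb h P₀ hcc hM he h1 H1
  obtain ⟨E', c', hgal, hfix, hc', hp', hcls⟩ := kn_fix (L := L) _ (kc_norm hb h P₀)
    (kc2_div hcc (kc2_dd x)) (M := M)
    (fun p => by rw [Pi.div_apply, div_pow, hM, kc2_ddpow hx, div_one]) hi
  let j : E' →ₐ[L] E := E'.val.restrictScalars L
  have hfin : FiniteDimensional L E' := FiniteDimensional.of_injective j.toLinearMap j.injective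
  refine ⟨{ E := E', c := c', coc := hc', pw := hp', cls_eq := hcls.trans (kc2_cls hcc x) },
    kn_hz j _ (kz_hz h.nice.hs), ?_, ?_⟩
  · intro P w hP hPΦ hw
    obtain ⟨w₁, hn, ho⟩ := kn_over j w (kc2_ne hP.ne_zero) ((hw.2 _).2 dvd_rfl)
    have hc₁ : Cen (pB A K L E) w₁ (C P) :=
      (kn_cen j ((algebraMap K[X] L).comp (mapRingHom (algebraMap A K))) ho).2 hw
    refine kn_unr j ho fun g hg y => ?_
    have hW : w₁ ∈ Wv A K L E Φ := ⟨hn, P, hP, hPΦ, hc₁⟩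
    obtain ⟨g', -, rfl⟩ := kx_ine hb h hW hg
    exact hfix g' (Or.inl (Set.mem_iUnion₂.2 ⟨w₁, hW, kz_scal.2.1 hg⟩)) y y.2
  · intro hT w hw
    obtain ⟨w₁, -, ho⟩ := kn_over j w (kc2_ne hT.red.prime.ne_zero) ((hw.2 _).2 dvd_rfl)
    have hc₁ : Cen (pB B K L E) w₁ (C P₀) :=
      (kn_cen j ((algebraMap K[X] L).comp (mapRingHom (algebraMap B K))) ho).2 hw
    refine kn_tame j ho fun g hg p a hp hw1 hg1 y => ?_
    obtain ⟨g', -, rfl⟩ := kx_wild hb h hT hc₁ hg hp hw1 hg1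
    exact hfix g' (Or.inr ⟨hT, w₁, hc₁, kz_scal.2.1 hg, p, a, hp, hw1, kc2_rpow.1 hg1⟩) y y.2

end Pool.Agent.ZCy
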