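import Pool.Agent.Lib.MP_751085_ag.ZC.K.Core1
import Pool.Agent.Lib.MP_751085_ag.ZC.K.Core2

/-! Block K: the theorem for a curve over a field with a factorial subring. -/

namespace Pool.Agent.ZCy

open scoped Classical WithZero IntermediateField
open Polynomial groupCohomology

set_option linter.unusedSectionVars false

variable {A A₂ K K₂ L F : Type} [CommRing A] [IsDomain A] [UniqueFactorizationMonoid A] [Algebra ℚ A]
  [CommRing A₂] [IsDomain A₂] [UniqueFactorizationMonoid A₂] [Field K] [CharZero K] [Field K₂]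
  [Algebra A K] [IsFractionRing A K] [Algebra A₂ K₂] [IsFractionRing A₂ K₂] [Algebra A A₂]
  [Algebra.IsIntegral A A₂] [Algebra K K₂] [Algebra A K₂] [IsScalarTower A K K₂]
  [IsScalarTower A A₂ K₂] [Algebra K₂ (Kb K)] [IsScalarTower K K₂ (Kb K)] [FiniteDimensional K K₂]
  [IsGalois K K₂] [Field L] [Field F] [Algebra K[X] L] [IsFractionRing K[X] L] [Algebra L F]
  [Algebra L (Om K)] [Algebra F (Om K)] [IsScalarTower L F (Om K)] {M : ℕ} {c : Cur K L F M} {Φ : A}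

theorem coreK (A₂ : Type) [CommRing A₂] [IsDomain A₂] [UniqueFactorizationMonoid A₂] [Algebra A₂ K₂]
    [IsFractionRing A₂ K₂] [Algebra A A₂] [Algebra.IsIntegral A A₂] [IsScalarTower A A₂ K₂]
    (hGR : GR0) (hr : ∀ P : A, Prime P → ¬P ∣ Φ → Red c.Ψ P) (hu : UnrOff K (toF A K K₂) 1)
    {ζ : K₂} (hζ : IsPrimitiveRoot ζ M) (j : F →+* Ls K₂)
    (hj : ∀ x, algebraMap F (Om K) x = lm (algebraMap K₂ (Kb K)) (j x)) {a : BR F}
    (h0 : rs j a = 0) {N : ℕ} (hM : M = c.δ * N) (hN : N • a = 0)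
    (H1 : ∀ v : Vl F, GoodV (algebraMap K (Kb K)) (toF K[X] L F) c.Ψ v → Unram v a)
    (H1' : ∀ (P : A) (v : Vl F), Prime P → ¬P ∣ Φ → Cen (pB A K L F) v (C P) → Unram v a)
    {B : Type} [CommRing B] [IsDomain B] [UniqueFactorizationMonoid B] [Algebra B K]
    [IsFractionRing B K] (P₀ : B) : ∃ R : KOut L F a M, HZ (toF K[X] L R.E) c.Ψ L ∧
      (∀ (P : A) (w : Vl R.E), Prime P → ¬P ∣ Φ → Cen (pB A K L R.E) w (C P) → Ine L w = ⊥) ∧
      (c.Tm K₂ P₀ → ∀ w : Vl R.E, Cen (pB B K L R.E) w (C P₀) → Tame L w) := by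
  obtain ⟨E, K₁, n, π, ϖ, cc, e, h, hcc, hp, rfl, he, h1⟩ :=
    kc_big (A := A) (A₂ := A₂) hζ j hj h0 hM hN H1
  exact kc_desc ⟨hGR, hr, hu, ⟨ζ, hζ⟩, j, hj⟩ h P₀ hcc hp he h1 H1'

end Pool.Agent.ZCy
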