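import Pool.Agent.Lib.MP_751085_ag.ZC.K.Val

/-! Block K: small facts on valuations. -/

namespace Pool.Agent.ZCy

open scoped Classical WithZero IntermediateField
open Polynomial

variable {K L F E : Type} [Field K] [Field L] [Field F] [Field E]

/-- `P` is a product of primes of `A₂`, one of them, `π`, has value `< 1`. The primes `(π)` and
`{b | w b < 1}` of `A₂` are comparable and both lie over `(P)`, so they are equal
(`Ideal.IsIntegral.comap_lt_comap`). -/
theorem kz_cen_up {A A₂ : Type} [CommRing A] [CommRing A₂] [IsDomain A₂]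
    [UniqueFactorizationMonoid A₂] [Algebra A A₂] [Algebra.IsIntegral A A₂] {φ : A₂ →+* E}
    (hi : Function.Injective (algebraMap A A₂)) {w : Vl E} {P : A} (hP : Prime P)
    (h : Cen (φ.comp (algebraMap A A₂)) w P) :
    ∃ π : A₂, Prime π ∧ Cen φ w π ∧ π ∣ algebraMap A A₂ P := by
  by_cases hall : ∀ b, w (φ b) ≤ 1
  swap
  · obtain ⟨b, hb⟩ := not_forall.1 hall
    refine absurd (kz_int (φ := φ.comp (algebraMap A A₂)) h.1 ?_) hb
    obtain ⟨p, hp, e⟩ := Algebra.IsIntegral.isIntegral (R := A) b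
    exact ⟨p, hp, by rw [← hom_eval₂, e, map_zero]⟩
  have key : ∀ a : A₂, a ≠ 0 → w (φ a) < 1 → ∃ π, Prime π ∧ π ∣ a ∧ w (φ π) < 1 := fun a => by
    induction a using UniqueFactorizationMonoid.induction_on_prime with
    | h₁ => exact fun h0 => absurd rfl h0
    | h₂ x hx =>
      intro _ h1
      obtain ⟨y, hy⟩ := hx.exists_right_inv
      have : w (φ x) * w (φ y) < 1 := mul_lt_one_of_lt_of_le h1 (hall y)
      rw [← map_mul, ← map_mul, hy, map_one, map_one] at this
      exact absurd this (lt_irrefl _)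
    | h₃ a p ha hp ih =>
      intro _ h1
      by_cases h2 : w (φ p) < 1
      · exact ⟨p, hp, dvd_mul_right _ _, h2⟩
      · rw [map_mul, map_mul, le_antisymm (hall p) (not_lt.1 h2), one_mul] at h1
        obtain ⟨π, h3, h4, h5⟩ := ih ha h1
        exact ⟨π, h3, h4.mul_left _, h5⟩
  obtain ⟨π, hπ, hd, hw⟩ := key (algebraMap A A₂ P)
    (fun e => hP.ne_zero (hi (e.trans (map_zero _).symm))) ((h.2 P).2 dvd_rfl)
  have hlt : ∀ b, π ∣ b → w (φ b) < 1 := by
    rintro _ ⟨c, rfl⟩
    rw [map_mul, map_mul]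
    exact mul_lt_one_of_lt_of_le hw (hall c)
  refine ⟨π, hπ, ⟨hall, fun b => ⟨fun hb => ?_, hlt b⟩⟩, hd⟩
  by_contra hn
  let J : Ideal A₂ :=
    { carrier := {b | w (φ b) < 1}
      add_mem' := fun h1 h2 => by
        rw [Set.mem_ofPred_eq, map_add]
        exact w.map_add_lt h1 h2
      zero_mem' := by simp
      smul_mem' := fun c x hx => by
        rw [Set.mem_ofPred_eq, smul_eq_mul, mul_comm, map_mul, map_mul]
        exact mul_lt_one_of_lt_of_le hx (hall c) }
  have := (Ideal.span_singleton_prime hπ.ne_zero).2 hπ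
  have h1 := Ideal.comap_lt_comap_of_integral_mem_sdiff (R := A) (I := Ideal.span {π}) (J := J)
    (fun x hx => hlt x (Ideal.mem_span_singleton.1 hx)) (x := b)
    ⟨hb, fun e => hn (Ideal.mem_span_singleton.1 e)⟩ (Algebra.IsIntegral.isIntegral b)
  refine h1.not_ge fun a ha => ?_
  exact Ideal.mem_span_singleton.2 (hd.trans (map_dvd _ ((h.2 a).1 ha)))

/-- clear denominators -/
theorem kz_frac (B : Type) [CommRing B] [IsDomain B] [Algebra B K] [IsFractionRing B K]
    [Algebra K[X] L] [IsFractionRing K[X] L] :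
    letI := ((algebraMap K[X] L).comp (mapRingHom (algebraMap B K))).toAlgebra
    IsFractionRing B[X] L := by
  let := ((algebraMap K[X] L).comp (mapRingHom (algebraMap B K))).toAlgebra
  have : FaithfulSMul B[X] L := (faithfulSMul_iff_algebraMap_injective _ _).2
    ((IsFractionRing.injective K[X] L).comp (map_injective _ (IsFractionRing.injective B K)))
  refine IsFractionRing.of_field _ _ fun z => ?_
  obtain ⟨p, q, -, rfl⟩ := IsFractionRing.div_surjective (A := K[X]) z
  have key : ∀ r : K[X], ∃ (a : B[X]) (b : B), algebraMap B[X] L (C b) ≠ 0 ∧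
      algebraMap K[X] L r = algebraMap B[X] L a / algebraMap B[X] L (C b) := fun r => by
    obtain ⟨b, hb, e⟩ := IsLocalization.integerNormalization_spec (nonZeroDivisors B) r
    have h0 : algebraMap B[X] L (C b) ≠ 0 := (map_ne_zero_iff _
      (FaithfulSMul.algebraMap_injective _ _)).2 (C_ne_zero.2 (nonZeroDivisors.ne_zero hb))
    refine ⟨IsLocalization.integerNormalization (nonZeroDivisors B) r, b, h0, ?_⟩
    rw [eq_div_iff h0]
    change _ * algebraMap K[X] L ((C b).map _) = algebraMap K[X] L (Polynomial.map _ _)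
    rw [e, ← map_mul, map_C, mul_comm, ← algebraMap_smul K b r, smul_eq_C_mul]
  obtain ⟨a, b, hb, e⟩ := key p
  obtain ⟨a', b', hb', e'⟩ := key q
  refine ⟨a * C b', C b * a', ?_⟩
  rw [e, e', map_mul, map_mul, div_div_div_eq]

/-- Use `IntermediateField.exists_algHom_of_adjoin_splits` over `E`, with `Om K` an `E`-algebra by
`φ`: the minimal polynomial of `s` over `E` divides the image of `p`, which splits. -/
theorem kz_ext {T : Type} [Field T] [Algebra E T] (ι : K →+* E) (S : Set T)
    (hS : IntermediateField.adjoin E S = ⊤)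
    (ha : ∀ s ∈ S, ∃ p : K[X], p ≠ 0 ∧ p.eval₂ ((algebraMap E T).comp ι) s = 0)
    (φ : E →+* Om K) (hφ : ∀ a, φ (ι a) = hc (algebraMap K (Kb K) a)) :
    ∃ φ' : T →+* Om K, ∀ x, φ' (algebraMap E T x) = φ x := by
  let := φ.toAlgebra
  obtain ⟨f⟩ := IntermediateField.nonempty_algHom_of_adjoin_splits (F := E) (E := T) (K := Om K)
    (S := S) (fun s hs => by
      obtain ⟨p, hp, e⟩ := ha s hs
      have h0 : p.map ι ≠ 0 := (Polynomial.map_ne_zero_iff ι.injective).2 hp
      have h1 : aeval s (p.map ι) = 0 := by rw [aeval_def, eval₂_map, e]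
      refine ⟨(IsAlgebraic.isIntegral ⟨_, h0, h1⟩), ?_⟩
      refine Splits.of_dvd (g := (p.map ι).map φ) ?_
        ((Polynomial.map_ne_zero_iff φ.injective).2 h0) (Polynomial.map_dvd _ (minpoly.dvd _ _ h1))
      have h2 : φ.comp ι = hc.comp (algebraMap K (Kb K)) := RingHom.ext hφ
      rw [Polynomial.map_map, h2, ← Polynomial.map_map]
      exact (IsAlgClosed.splits _).map _) hS
  exact ⟨f, f.commutes⟩

end Pool.Agent.ZCy
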