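import Pool.Agent.Lib.MP_751085_ag.ZC.K.Enl
import Pool.Agent.Lib.MP_751085_ag.ZC.K.ValB
import Pool.Agent.Lib.MP_751085_ag.ZC.K.NeedA

/-! Block K: the action on coefficients, extension of the constants. -/

namespace Pool.Agent.ZCy

open scoped Classical WithZero IntermediateField
open Polynomial groupCohomology

set_option linter.unusedSectionVars false

/-- a field generated by a normal extension and a root of a split polynomial -/
theorem kenlb_gal {L E₀ E : Type} [Field L] [Field E₀] [Field E] [Algebra L E₀] [Algebra L E]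
    [Algebra E₀ E] [IsScalarTower L E₀ E] [FiniteDimensional L E₀] [Normal L E₀] {s : E} {p : L[X]}
    (hp : p ≠ 0) (h0 : aeval s p = 0) (hs : (p.map (algebraMap L E)).Splits)
    (hg : ∀ R : Subfield E, (∀ x, algebraMap E₀ E x ∈ R) → s ∈ R → ∀ x, x ∈ R) :
    E₀⟮s⟯ = ⊤ ∧ FiniteDimensional L E ∧ Normal L E ∧ ∀ (g : E ≃ₐ[L] E) (n : ℕ), g s = s →
      g.restrictNormal E₀ ^ n = 1 → g ^ n = 1 := by
  have hi : IsIntegral L s := IsAlgebraic.isIntegral ⟨p, hp, h0⟩
  have ht : E₀⟮s⟯ = ⊤ := eq_top_iff.2 fun x _ => hg E₀⟮s⟯.toSubfield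
    (fun y => E₀⟮s⟯.algebraMap_mem y) (IntermediateField.mem_adjoin_simple_self _ _) x
  have h1 := IntermediateField.adjoin.finiteDimensional (hi.tower_top (A := E₀))
  rw [ht] at h1
  have h2 : FiniteDimensional E₀ E :=
    (IntermediateField.topEquiv (F := E₀) (E := E)).toLinearEquiv.finiteDimensional
  have h3 : FiniteDimensional L E := FiniteDimensional.trans L E₀ E
  refine ⟨ht, h3, normal_iff.2 fun x => ⟨Algebra.IsIntegral.isIntegral x, ?_⟩, fun g n e e' => ?_⟩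
  · let S := insert s (Set.range (algebraMap E₀ E))
    refine IntermediateField.splits_of_mem_adjoin L E (S := S)
      (fun y hy => ⟨Algebra.IsIntegral.isIntegral y, ?_⟩)
      (hg (IntermediateField.adjoin L S).toSubfield
        (fun y => IntermediateField.subset_adjoin L S (Or.inr ⟨y, rfl⟩))
        (IntermediateField.subset_adjoin L S (Or.inl rfl)) x)
    rcases hy with rfl | ⟨y, rfl⟩
    · exact hs.of_dvd (Polynomial.map_ne_zero hp) (Polynomial.map_dvd _ (minpoly.dvd _ _ h0))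
    · rw [minpoly.algebraMap_eq (algebraMap E₀ E).injective, IsScalarTower.algebraMap_eq L E₀ E,
        ← Polynomial.map_map]
      exact (Normal.splits inferInstance y).map _
  · refine AlgEquiv.ext (hg (RingHom.eqLocusField ((g ^ n : E ≃ₐ[L] E) : E →+* E) (RingHom.id E))
      (fun y => ?_) ?_)
    · have := (g ^ n).restrictNormal_commutes E₀ y
      rw [show (g ^ n).restrictNormal E₀ = 1 from
        (map_pow (AlgEquiv.restrictNormalHom E₀) g n).trans e'] at this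
      exact this.symm
    · exact pow_mem (show g ∈ MulAction.stabilizer _ s from e) n

/-- the series with coefficients in a subfield -/
theorem kenlb_range {K Ω : Type} [Field K] [Field Ω] [Algebra K Ω] (K₁ : IntermediateField K Ω)
    (y : Ls Ω) : y ∈ (lm (algebraMap K₁ Ω)).fieldRange ↔ ∀ n, y.coeff n ∈ K₁ := by
  refine ⟨?_, fun h => ⟨⟨fun n => ⟨y.coeff n, h n⟩, y.isPWO_support.mono fun n hn e => ?_⟩, rfl⟩⟩
  · rintro ⟨z, rfl⟩ n
    exact (z.coeff n).2
  · exact hn (Subtype.ext e)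

variable {K L F : Type} [Field K] [Field L] [Field F] [CharZero K] [Algebra K[X] L]
  [IsFractionRing K[X] L] [Algebra L F] [Algebra L (Om K)] [Algebra F (Om K)]
  [IsScalarTower L F (Om K)] {M : ℕ} (c : Cur K L F M)

include c

/-- adjoin the constants `K₁` -/
theorem ke_enl {E₀ : IntermediateField F (Om K)} (h : c.Nice E₀) (K₁ : IntermediateField K (Kb K))
    [FiniteDimensional K K₁] [IsGalois K K₁] (hcf : ∀ y ∈ E₀, ∀ n, y.coeff n ∈ K₁) :
    ∃ E : IntermediateField F (Om K), E₀ ≤ E ∧ c.Nice E ∧ Frm (K₁ : Set (Kb K)) E := by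
  obtain ⟨α, hα⟩ := Field.exists_primitive_element K K₁
  let E := IntermediateField.adjoin F ((E₀ : Set (Om K)) ∪ hc '' (K₁ : Set (Kb K)))
  have hle : E₀ ≤ E := fun x hx => IntermediateField.subset_adjoin _ _ (.inl hx)
  have cst : ∀ a ∈ (K₁ : Set (Kb K)), hc a ∈ E := fun a ha =>
    IntermediateField.subset_adjoin _ _ (.inr ⟨a, ha, rfl⟩)
  have gen : ∀ R : Subfield (Om K), (∀ x ∈ E₀, x ∈ R) → (∀ a : K₁, hc (a : Kb K) ∈ R) →
      ∀ x ∈ E, x ∈ R := fun R h1 h2 => IntermediateField.adjoin_le_subfield F _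
        (by rintro _ ⟨x, rfl⟩; exact h1 _ (E₀.algebraMap_mem x))
        (by rintro _ (hx | ⟨a, ha, rfl⟩); exacts [h1 _ hx, h2 ⟨a, ha⟩])
  let : Algebra E₀ E := (IntermediateField.inclusion hle).toAlgebra
  have : IsScalarTower L E₀ E := IsScalarTower.of_algebraMap_eq fun _ => rfl
  let ψ : K₁ →+* E := (hc.comp (algebraMap K₁ (Kb K))).codRestrict E fun a => cst a a.2
  let ι : K →+* L := (algebraMap K[X] L).comp C
  have hψ : ψ.comp (algebraMap K K₁) = (algebraMap L E).comp ι :=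
    RingHom.ext fun a => Subtype.ext (kf_C c a).symm
  have := h.fin
  have := h.gal
  have := (kf_char c).1
  have hp : minpoly K α ≠ 0 := minpoly.ne_zero (Algebra.IsIntegral.isIntegral α)
  have h0 : (minpoly K α).eval₂ ((algebraMap L E).comp ι) (ψ α) = 0 := by
    rw [← hψ, ← hom_eval₂, ← aeval_def, minpoly.aeval, map_zero]
  obtain ⟨ht, hf, hn, hg⟩ := kenlb_gal (L := L) (E₀ := E₀) (s := ψ α) (p := (minpoly K α).map ι)
    (Polynomial.map_ne_zero hp) (by rw [aeval_def, eval₂_map, h0])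
    (by
      rw [Polynomial.map_map, ← hψ, ← Polynomial.map_map]
      exact (Normal.splits inferInstance α).map _)
    fun R h1 h2 x => by
      have h3 : (K⟮α⟯).toSubfield ≤ R.comap ψ := IntermediateField.adjoin_le_subfield K _
        (by
          rintro _ ⟨a, rfl⟩
          exact (RingHom.congr_fun hψ a).symm ▸ h1 (algebraMap L E₀ (ι a)) |>
            (Subfield.mem_comap (f := ψ)).2)
        (Set.singleton_subset_iff.2 h2)
      obtain ⟨y, hy, e⟩ := gen (R.map (algebraMap E (Om K))) (fun y hy => ⟨_, h1 ⟨y, hy⟩, rfl⟩)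
        (fun a => ⟨ψ a, h3 (show a ∈ K⟮α⟯ from hα ▸ trivial), rfl⟩) x x.2
      exact (Subtype.ext e : y = x) ▸ hy
  refine ⟨E, hle, ⟨hf, ⟨⟩, fun t ht' => ?_, fun g hg' => hg g _ (hg' _ ⟨α, rfl⟩) (h.geo _ ?_)⟩,
    fun y hy => (kenlb_range K₁ y).1 (gen _ (fun x hx => (kenlb_range K₁ x).2 (hcf x hx))
      (fun a => ⟨hc a, kl_lm_hc _ _⟩) y hy), cst⟩
  · obtain ⟨φ, hφ⟩ := h.hs t ht'
    obtain ⟨φ', hφ'⟩ := kz_ext ((algebraMap L E₀).comp ι) {ψ α} ht
      (by rintro _ rfl; exact ⟨_, hp, h0⟩) φ fun a => (hφ (C a)).trans (by rw [map_C, kl_tA_C])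
    exact ⟨φ', fun p => (hφ' _).trans (hφ p)⟩
  · exact fun x hx => (algebraMap E₀ E).injective
      ((g.restrictNormal_commutes E₀ x).trans (hg' _ hx))

/-- restriction to a subextension and inflation -/
theorem ke_inf {E₀ E : IntermediateField F (Om K)} (h₀ : c.Nice E₀) (h : c.Nice E) (hle : E₀ ≤ E)
    {cc : (E₀ ≃ₐ[F] E₀) × (E₀ ≃ₐ[F] E₀) → E₀ˣ} (hcc : IsMulCocycle₂ cc) :
    ∃ (r : (E ≃ₐ[F] E) → E₀ ≃ₐ[F] E₀) (cc' : (E ≃ₐ[F] E) × (E ≃ₐ[F] E) → Eˣ),
      (∀ (σ : Kb K →+* Kb K) (g : E ≃ₐ[F] E), Cw σ (⇑g) → Cw σ (⇑(r g))) ∧ IsMulCocycle₂ cc' ∧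
      (∀ g g', ((cc' (g, g') : E) : Om K) = ((cc (r g, r g') : E₀) : Om K)) ∧
      cls F cc' = cls F cc := by
  obtain ⟨_, _⟩ := ke_gal c h₀
  obtain ⟨_, _⟩ := ke_gal c h
  have := (kf_char c).2
  obtain ⟨r, hr⟩ := exists_lk_of (K := F) (Ω := E₀) (K' := F) (Ω' := E) (γ := RingHom.id F)
    (j := (IntermediateField.inclusion hle : E₀ →+* E)) fun _ => rfl
  refine ⟨r, pull _ r cc, fun σ g hg x => ?_, pull_coc hr.comm hcc, fun _ _ => rfl,
    (ka_pull _ hr.base hr.comm hcc).symm.trans (ka_id _)⟩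
  exact (congrArg Subtype.val (hr.comm g x)).trans (hg _)

end Pool.Agent.ZCy
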