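import Pool.Agent.Lib.MP_751085_ag.ZC.K.KDefs

/-! Block K: the data at the vertical primes. -/

namespace Pool.Agent.ZCy

open scoped Classical WithZero IntermediateField
open Polynomial groupCohomology

set_option linter.unusedSectionVars false

variable {K L F : Type} [Field K] [Field L] [Field F] [Algebra K[X] L] [Algebra L F]
  [Algebra L (Om K)] [Algebra F (Om K)] [IsScalarTower L F (Om K)] {M : ℕ}

/-- the constants of `E` -/
noncomputable def Frm.J {K₂ : Type} [Field K₂] [Algebra K₂ (Kb K)] {E : IntermediateField F (Om K)}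
    {K₁ : IntermediateField K₂ (Kb K)} (hf : Frm (K₁ : Set (Kb K)) E) : K₁ →+* E :=
  ((hc : Kb K →+* Om K).comp (K₁.val : K₁ →+* Kb K)).codRestrict E fun a => hf.cst a a.2

/-- the normalised valuations above the vertical primes off `Φ` -/
def Wv (A K L E : Type) [CommRing A] [Field K] [Field L] [Field E] [Algebra A K] [Algebra K[X] L]
    [Algebra L E] (Φ : A) : Set (Vl E) :=
  {w | Nrm w ∧ ∃ P : A, Prime P ∧ ¬P ∣ Φ ∧ Cen (pB A K L E) w (C P)}

variable {A : Type} (K₂ : Type) [CommRing A] [Field K₂] [Algebra A K] [Algebra K K₂]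
  [Algebra K₂ (Kb K)]

/-- The hypotheses on the curve and on the field `K₂`. -/
structure Cur.Bas (c : Cur K L F M) (Φ : A) : Prop where
  gr : GR0
  red : ∀ P : A, Prime P → ¬P ∣ Φ → Red c.Ψ P
  unr : UnrOff K (toF A K K₂) 1
  root : ∃ ζ : K₂, IsPrimitiveRoot ζ M
  sec : ∃ j : F →+* Ls K₂, ∀ x, algebraMap F (Om K) x = lm (algebraMap K₂ (Kb K)) (j x)

/-- The hypotheses for tameness at the prime `P`. -/
structure Cur.Tm (c : Cur K L F M) (P : A) : Prop where
  red : Red c.Ψ P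
  nd : ¬P ∣ ((c.δ.factorial * M : ℕ) : A)
  tame : ∀ w : Vl K₂, Cen (toF A K K₂) w P → Tame K w

/-- the wild elements of the inertia groups at `Q`, if `T` holds -/
def Pw (F : Type) {B E : Type} [Field F] [Field E] [Algebra F E] [CommRing B] (φ : B →+* E) (Q : B)
    (T : Prop) : Set (E ≃ₐ[F] E) :=
  {g | T ∧ ∃ w : Vl E, Cen φ w Q ∧ g ∈ Ine F w ∧ ∃ p a : ℕ, p.Prime ∧ w (p : E) < 1 ∧ g ^ p ^ a = 1}

variable {K₂} {A₂ : Type} [CommRing A₂] [Algebra A₂ K₂] [IsScalarTower K K₂ (Kb K)]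

/-- The field `E` with constants `K₁`, which contain roots `ϖ i` of the ramified primes `π i`. -/
structure Cur.Big (c : Cur K L F M) (A : Type) [CommRing A] [Algebra A K]
    (E : IntermediateField F (Om K)) (K₁ : IntermediateField K₂ (Kb K)) {n : ℕ} (π : Fin n → A₂)
    (ϖ : Fin n → K₁) : Prop where
  nice : c.Nice E
  fin : FiniteDimensional K K₁
  gal : IsGalois K K₁
  frm : Frm (K₁ : Set (Kb K)) E
  prime : ∀ i, Prime (π i)
  inj : ∀ i j, π i ∣ π j → i = j
  pw : ∀ i, ϖ i ^ M = toF A₂ K₂ K₁ (π i)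
  ram : ∀ (w : Vl K₁) (P : A), Prime P → Cen (toF A K K₁) w P → Ine K w ≠ ⊥ →
    ∃ i, w (toF A₂ K₂ K₁ (π i)) < 1

end Pool.Agent.ZCy
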