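import Pool.Agent.Lib.MP_751085_ag.ZC.K.Lau

/-! Block K: Laurent series. -/

namespace Pool.Agent.ZCy

open scoped Classical WithZero IntermediateField
open Polynomial

variable {K F F' : Type} [Field K] [Field F] [Field F'] {M : ℕ}

theorem klauc_range (f : F →+* F') {y : Ls F'} (h : ∀ n, y.coeff n ∈ f.range) :
    y ∈ (lm f).range := by
  choose q hq using h
  refine ⟨⟨q, y.isPWO_support.mono fun n hn h0 => hn (f.injective ?_)⟩, ?_⟩
  · rw [hq, h0, map_zero]
  · ext n
    exact hq n

/-- The Galois group of `F' / F` is the Galois group of the Laurent series fields. -/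
theorem kl_galois [Algebra F F'] [FiniteDimensional F F'] [IsGalois F F'] :
    letI := lsAct F F'
    letI := (lm (algebraMap F F')).toAlgebra
    IsGaloisGroup (F' ≃ₐ[F] F') (Ls F) (Ls F') := by
  let := lsAct F F'
  let := (lm (algebraMap F F')).toAlgebra
  refine ⟨⟨fun {g g'} h => AlgEquiv.ext fun x => ?_⟩, ⟨fun g a b => ?_⟩, ⟨fun b hb => ?_⟩⟩
  · have := congrArg (fun y : Ls F' => y.coeff 0) (h (hc x))
    change g ((hc x : Ls F').coeff 0) = g' ((hc x : Ls F').coeff 0) at this
    simpa using this
  · change lm (g : F' →+* F') (lm (algebraMap F F') a * b) =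
      lm (algebraMap F F') a * lm (g : F' →+* F') b
    rw [map_mul]
    congr 1
    ext n
    exact g.commutes _
  · exact klauc_range _ fun n => (IsGalois.mem_range_algebraMap_iff_fixed _).2 fun g =>
      congrArg (fun y : Ls F' => y.coeff n) (hb g)

/-- A series whose coefficients lie in the image of `f` comes from `Ls F`. -/
theorem kl_range (f : F →+* F') {y : Ls F'} (h : ∀ n, y.coeff n ∈ f.range) : y ∈ (lm f).range := by
  exact klauc_range f h

/-- factorisation of a homomorphism through `lm f` -/
theorem kl_factor {E : Type} [Field E] (f : F →+* F') (j : E →+* Ls F')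
    (h : ∀ x n, (j x).coeff n ∈ f.range) : ∃ j' : E →+* Ls F, ∀ x, lm f (j' x) = j x := by
  have hi : Function.Injective (lm f) := (lm f).injective
  choose q hq using fun x => klauc_range f (h x)
  refine ⟨⟨⟨⟨q, hi ?_⟩, fun a b => hi ?_⟩, hi ?_, fun a b => hi ?_⟩, hq⟩
  · rw [hq, map_one, map_one]
  · simp only [hq, map_mul]
  · simp only [hq, map_zero]
  · simp only [hq, map_add]

end Pool.Agent.ZCy
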