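import Pool.Agent.Lib.MP_751085_ag.ZC.K.Split
import Pool.Agent.Lib.MP_751085_ag.ZC.K.LauC
import Pool.Agent.Lib.MP_751085_ag.ZC.K.NeedA

/-! Block K: the splitting along the section at infinity. -/

namespace Pool.Agent.ZCy

open scoped Classical WithZero IntermediateField
open Polynomial groupCohomology

set_option linter.unusedSectionVars false

/-- the leading coefficient -/
noncomputable def ksplitb_ld (B : Type) [Field B] : Ls B →* B where
  toFun x := x.leadingCoeff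
  map_one' := HahnSeries.leadingCoeff_one
  map_mul' := fun x y => HahnSeries.leadingCoeff_mul x y

theorem ksplitb_root {B : Type} [Field B] {M : ℕ} (hM : 0 < M) {ζ : B} (hζ : IsPrimitiveRoot ζ M)
    {x : Ls B} (h : x ^ M = 1) : x = hc (ksplitb_ld B x) := by
  have : NeZero M := ⟨hM.ne'⟩
  obtain ⟨i, -, rfl⟩ := (hζ.map_of_injective (hc : B →+* Ls B).injective).eq_pow_of_pow_eq_one h
  rw [← map_pow]
  exact congrArg hc (HahnSeries.leadingCoeff_of_single (a := (0 : ℤ)) (r := ζ ^ i)).symm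

theorem ksplitb_kum {A B Ω : Type} [Field A] [Field B] [Field Ω] [Algebra A B] [Algebra A Ω]
    [Algebra B Ω] [IsScalarTower A B Ω] [FiniteDimensional A B] [Normal A B] [IsAlgClosed Ω] {M : ℕ}
    (hM : 0 < M) {ζ : A} (hζ : IsPrimitiveRoot ζ M) {e₂ : (B ≃ₐ[A] B) → Bˣ}
    (h : ∀ p, dd e₂ p ^ M = 1) : ∃ (S : Finset Ω) (e : (Ω ≃ₐ[A] Ω) → Aˣ), (∀ σ, e σ ^ M = 1) ∧
      (∀ σ σ', (∀ x ∈ S, σ x = σ' x) → e σ = e σ') ∧ ∀ σ σ' : Ω ≃ₐ[A] Ω,
        algebraMap A Ω ((e σ' / e (σ * σ') * e σ : Aˣ) : A) =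
          algebraMap B Ω (dd e₂ (σ.restrictNormal B, σ'.restrictNormal B) : Bˣ) := by
  have : NeZero M := ⟨hM.ne'⟩
  obtain ⟨f, hf⟩ := kp_h90 h
  obtain ⟨y, hy⟩ := IsAlgClosed.exists_pow_nat_eq (algebraMap B Ω f) hM
  have n0 : ∀ u : Bˣ, algebraMap B Ω u ≠ 0 := fun u => (_root_.map_ne_zero _).2 u.ne_zero
  have y0 : y ≠ 0 := by
    rintro rfl
    exact n0 f (hy.symm.trans (zero_pow hM.ne'))
  have s0 : ∀ σ : Ω ≃ₐ[A] Ω, σ y ≠ 0 := fun σ => (_root_.map_ne_zero _).2 y0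
  have key : ∀ σ : Ω ≃ₐ[A] Ω, ∃ u : Aˣ, u ^ M = 1 ∧
      algebraMap A Ω u = algebraMap B Ω (e₂ (σ.restrictNormal B)) * y / σ y := fun σ => by
    have h1 := congrArg (fun u : Bˣ => algebraMap B Ω u) (hf (σ.restrictNormal B))
    simp only [Units.val_pow_eq_pow_val, map_pow, Units.val_div_eq_div_val, map_div₀,
      AlgEquiv.smul_units_def, Units.coe_map, MonoidHom.coe_coe,
      AlgEquiv.restrictNormal_commutes] at h1
    have h2 : (algebraMap B Ω (e₂ (σ.restrictNormal B)) * y / σ y) ^ M = 1 := by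
      have := (_root_.map_ne_zero σ).2 (n0 f)
      have := n0 f
      rw [div_pow, mul_pow, ← map_pow σ, hy, h1]
      field_simp
    obtain ⟨i, -, hi⟩ := (hζ.map_of_injective (algebraMap A Ω).injective).eq_pow_of_pow_eq_one h2
    refine ⟨(hζ.isUnit hM.ne').unit ^ i, Units.ext ?_, ?_⟩
    · simp only [Units.val_pow_eq_pow_val, IsUnit.unit_spec, Units.val_one]
      rw [← pow_mul, mul_comm, pow_mul, hζ.pow_eq_one, one_pow]
    · rw [← hi]
      simp only [Units.val_pow_eq_pow_val, IsUnit.unit_spec, map_pow]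
  choose e h1 h2 using key
  let b := Module.finBasis A B
  refine ⟨insert y (Finset.univ.image fun i => algebraMap B Ω (b i)), e, h1, fun σ σ' hs => ?_,
    fun σ σ' => ?_⟩
  · have : σ.restrictNormal B = σ'.restrictNormal B := by
      refine AlgEquiv.toLinearMap_injective (b.ext fun i => (algebraMap B Ω).injective ?_)
      simp only [AlgEquiv.toLinearMap_apply, AlgEquiv.restrictNormal_commutes]
      exact hs _ (Finset.mem_insert_of_mem (Finset.mem_image_of_mem _ (Finset.mem_univ i)))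
    refine Units.ext ((algebraMap A Ω).injective ?_)
    rw [h2, h2, this, hs y (Finset.mem_insert_self _ _)]
  · have h3 : (σ * σ').restrictNormal B = σ.restrictNormal B * σ'.restrictNormal B :=
      map_mul (AlgEquiv.restrictNormalHom B) σ σ'
    have h4 := σ.commutes (e σ')
    rw [h2, map_div₀, map_mul, ← h2] at h4
    simp only [dd, Units.val_mul, map_mul, Units.val_div_eq_div_val, map_div₀,
      AlgEquiv.smul_units_def, Units.coe_map, MonoidHom.coe_coe,
      AlgEquiv.restrictNormal_commutes]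
    rw [← h4, h2, h2, h3, AlgEquiv.mul_apply]
    have := s0 σ
    have := s0 (σ * σ')
    have := n0 (e₂ (σ.restrictNormal B * σ'.restrictNormal B))
    rw [AlgEquiv.mul_apply] at *
    field_simp

variable {K L F : Type} [Field K] [Field L] [Field F] [CharZero K] [Algebra K[X] L]
  [IsFractionRing K[X] L] [Algebra L F] [Algebra L (Om K)] [Algebra F (Om K)]
  [IsScalarTower L F (Om K)] {M : ℕ} (c : Cur K L F M)

variable {K₂ : Type} [Field K₂] [Algebra K K₂] [Algebra K₂ (Kb K)] [IsScalarTower K K₂ (Kb K)]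
  [FiniteDimensional K K₂]

/-- The cocycle splits along the section at infinity. -/
theorem kp_split {E : IntermediateField F (Om K)} (h : c.Nice E) (j : F →+* Ls K₂)
    (hj : ∀ x, algebraMap F (Om K) x = lm (algebraMap K₂ (Kb K)) (j x))
    {cc : (E ≃ₐ[F] E) × (E ≃ₐ[F] E) → Eˣ} (hcc : IsMulCocycle₂ cc) (hM : ∀ p, cc p ^ M = 1)
    (h0 : rs j (cls F cc) = 0) {ζ : K₂} (hζ : IsPrimitiveRoot ζ M) :
    ∃ (S : Finset (Kb K)) (e : (Kb K ≃ₐ[K₂] Kb K) → K₂ˣ), (∀ σ, e σ ^ M = 1) ∧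
      (∀ σ σ', (∀ x ∈ S, σ x = σ' x) → e σ = e σ') ∧
      ∀ (σ σ' : Kb K ≃ₐ[K₂] Kb K) (g g' : E ≃ₐ[F] E), Cw (σ : Kb K →+* Kb K) (⇑g) →
        Cw (σ' : Kb K →+* Kb K) (⇑g') → ((cc (g, g') : E) : Om K) =
          hc (algebraMap K₂ (Kb K) ((e σ' / e (σ * σ') * e σ : K₂ˣ) : K₂)) := by
  obtain ⟨h1, h2⟩ := ke_gal c h
  have := h.fin
  have : CharZero F := (kf_char c).2
  have : CharZero K₂ := charZero_of_injective_algebraMap (algebraMap K K₂).injective
  have : Algebra.IsAlgebraic K₂ (Kb K) := Algebra.IsAlgebraic.tower_top (K := K) K₂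
  have : IsAlgClosure K₂ (Kb K) := ⟨inferInstance, inferInstance⟩
  obtain ⟨S₀, hS⟩ := ke_cf c E
  let K₀ := IntermediateField.adjoin K₂ (S₀ : Set (Kb K))
  have : FiniteDimensional K₂ K₀ :=
    IntermediateField.finiteDimensional_adjoin fun x _ => Algebra.IsIntegral.isIntegral x
  let K₁ := IntermediateField.normalClosure K₂ K₀ (Kb K)
  have : IsGalois K₂ K₁ := inferInstance
  have hle : ∀ x ∈ IntermediateField.adjoin K (S₀ : Set (Kb K)), x ∈ K₁ := fun x hx =>
    (IntermediateField.adjoin_le_iff (T := K₁.restrictScalars K)).2 (fun y hy =>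
      IntermediateField.le_normalClosure K₀ (IntermediateField.subset_adjoin _ _ hy)) hx
  obtain ⟨J, hJ⟩ := kl_factor (algebraMap K₁ (Kb K)) (algebraMap E (Om K))
    fun x n => ⟨⟨_, hle _ (hS x x.2 n)⟩, rfl⟩
  have inj := (lm (algebraMap K₁ (Kb K))).injective
  have cw : ∀ (σ : Kb K ≃ₐ[K₂] Kb K) (g : E ≃ₐ[F] E), Cw (σ : Kb K →+* Kb K) (⇑g) → ∀ x,
      J (g x) = lm (σ.restrictNormal K₁ : K₁ →+* K₁) (J x) := fun σ g hg x => inj (by
    rw [hJ]
    refine (hg x).trans ?_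
    ext n
    exact (congrArg (fun z : Om K => σ (z.coeff n)) (hJ x).symm).trans
      (σ.restrictNormal_commutes K₁ _).symm)
  have ex : ∀ ρ : K₁ ≃ₐ[K₂] K₁, ∃ g : E ≃ₐ[F] E, ∀ x, J (g x) = lm (ρ : K₁ →+* K₁) (J x) :=
    fun ρ => by
    obtain ⟨σ, rfl⟩ := AlgEquiv.restrictNormalHom_surjective (F := K₂) (K₁ := K₁) (Kb K) ρ
    exact (kp_rho j hj E σ).imp fun g hg => cw σ g hg
  choose r hr using ex
  let := lsAct K₂ K₁
  let := (lm (algebraMap K₂ K₁)).toAlgebra
  have := kl_galois (F := K₂) (F' := K₁)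
  have : CharZero (Ls K₂) := charZero_of_injective_ringHom (hc : K₂ →+* Ls K₂).injective
  have hb : ∀ a, J (algebraMap F E a) = algebraMap (Ls K₂) (Ls K₁) (j a) := fun a => inj (by
    rw [hJ]
    exact hj a)
  obtain ⟨e₁, he⟩ := (ka_zero (K := Ls K₂) (pull_coc hr hcc)).1
    ((ka_pull j hb hr hcc).symm.trans h0)
  let e₂ := fun g => Units.map (ksplitb_ld K₁) (e₁ g)
  have hd : ∀ p, dd e₂ p = Units.map (ksplitb_ld K₁) (pull J r cc p) := fun p => by
    have e3 : p.1 • e₂ p.2 = Units.map (ksplitb_ld K₁) (p.1 • e₁ p.2) :=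
      Units.ext (kl_lead_lm (p.1 : K₁ →+* K₁) (e₁ p.2 : Ls K₁)).symm
    rw [he]
    simp only [dd, map_mul, _root_.map_div]
    rw [e3]
  have hp : ∀ p, pull J r cc p ^ M = 1 := fun p => by rw [pull, ← map_pow, hM, map_one]
  obtain ⟨S, e, a1, a2, a3⟩ := ksplitb_kum (Ω := Kb K) c.pos hζ (e₂ := e₂) fun p => by
    rw [hd, ← map_pow, hp, map_one]
  refine ⟨S, e, a1, a2, fun σ σ' g g' hg hg' => ?_⟩
  have q : ∀ (σ : Kb K ≃ₐ[K₂] Kb K) (g : E ≃ₐ[F] E), Cw (σ : Kb K →+* Kb K) (⇑g) →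
      g = r (σ.restrictNormal K₁) := fun σ g hg =>
    AlgEquiv.ext fun x => J.injective ((cw σ g hg x).trans (hr _ x).symm)
  rw [a3, hd, ← kl_lm_hc, q σ g hg, q σ' g' hg']
  refine (hJ _).symm.trans (congrArg _ (ksplitb_root c.pos
    (hζ.map_of_injective (algebraMap K₂ K₁).injective) ?_))
  exact congrArg Units.val (hp (σ.restrictNormal K₁, σ'.restrictNormal K₁))

end Pool.Agent.ZCy

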