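import Pool.Agent.Lib.MP_751085_ag.ZC.K.Val

/-! Block K: the field of constants with roots of the ramified primes. -/

namespace Pool.Agent.ZCy

open scoped Classical WithZero IntermediateField
open Polynomial

set_option linter.unusedSectionVars false

theorem ktheta_split {K : Type} [Field K] [CharZero K] (p : K[X]) :
    FiniteDimensional K (IntermediateField.adjoin K (p.rootSet (Kb K))) ∧
      IsGalois K (IntermediateField.adjoin K (p.rootSet (Kb K))) := by
  have := IntermediateField.adjoin_rootSet_isSplittingField (K := K) (L := Kb K) (p := p)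
    (IsAlgClosed.splits _)
  have := IsSplittingField.finiteDimensional (IntermediateField.adjoin K (p.rootSet (Kb K))) p
  have := Normal.of_isSplittingField (E := IntermediateField.adjoin K (p.rootSet (Kb K))) p
  exact ⟨inferInstance, ⟨⟩⟩

/-- the inertia group fixes all conjugates of an unramified Galois subextension -/
theorem ktheta_fix {A K E₀ E : Type} [CommRing A] [Field K] [Field E₀] [Field E] [Algebra A K]
    [Algebra K E₀] [Algebra K E] [FiniteDimensional K E] [IsGalois K E₀] [IsGalois K E]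
    (j : E₀ →ₐ[K] E) {Θ P : A} (hU : UnrOff K (toF A K E₀) Θ) (hP : Prime P) (hn : ¬P ∣ Θ)
    {w : Vl E} (hw : Cen (toF A K E) w P) {g : E ≃ₐ[K] E} (hg : g ∈ Ine K w) (σ : E ≃ₐ[K] E)
    (x : E₀) : g (σ (j x)) = σ (j x) := by
  let _ := (j : E₀ →+* E).toAlgebra
  have : IsScalarTower K E₀ E := .of_algebraMap_eq fun a => (j.commutes a).symm
  have hr : ∀ (g : E ≃ₐ[K] E) x, j (g.restrictNormal E₀ x) = g (j x) := fun g x =>
    AlgEquiv.restrictNormal_commutes g E₀ x
  have e : ∀ a, j (toF A K E₀ a) = toF A K E a := fun a => j.commutes _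
  have h0 : Ine K (w.comap (j : E₀ →+* E)) = ⊥ := hU P _ hP hn
    ⟨fun a => (congrArg w (e a)).trans_le (hw.1 a), fun a => by
      rw [← hw.2 a, ← e a]; rfl⟩
  have h1 := (kv_up j hr (w := w.comap (j : E₀ →+* E)) (w' := w) fun _ => Iff.rfl).2.2.2 g hg
  rw [h0, Subgroup.mem_bot] at h1
  rw [← hr σ, ← hr g, h1, AlgEquiv.one_apply]

variable {A A₂ K K₂ : Type} [CommRing A] [IsDomain A] [UniqueFactorizationMonoid A] [Algebra ℚ A]
  [CommRing A₂] [IsDomain A₂] [UniqueFactorizationMonoid A₂] [Field K] [CharZero K] [Field K₂]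
  [Algebra A K] [IsFractionRing A K] [Algebra A₂ K₂] [IsFractionRing A₂ K₂] [Algebra A A₂]
  [Algebra.IsIntegral A A₂] [Algebra K K₂] [Algebra A K₂] [IsScalarTower A K K₂]
  [IsScalarTower A A₂ K₂] [Algebra K₂ (Kb K)] [IsScalarTower K K₂ (Kb K)] [FiniteDimensional K K₂]

section

variable {E : Type} [Field E] [Algebra K E] [Algebra K₂ E] [IsScalarTower K K₂ E] {w : Vl E}

theorem ktheta_tow (a : A) : toF A₂ K₂ E (algebraMap A A₂ a) = toF A K E a := by
  change algebraMap K₂ E (algebraMap A₂ K₂ _) = algebraMap K E (algebraMap A K a)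
  rw [← IsScalarTower.algebraMap_apply A A₂ K₂, IsScalarTower.algebraMap_apply A K K₂,
    ← IsScalarTower.algebraMap_apply K K₂ E]

theorem ktheta_le (h : ∀ a, w (toF A K E a) ≤ 1) (σ : E ≃ₐ[K] E) (a : A₂) :
    w (σ (toF A₂ K₂ E a)) ≤ 1 := by
  obtain ⟨p, hp, h0⟩ := Algebra.IsIntegral.isIntegral (R := A) a
  refine kz_int h ⟨p, hp, ?_⟩
  have h1 := congrArg (((σ : E →+* E)).comp (toF A₂ K₂ E)) h0
  rw [hom_eval₂, map_zero] at h1
  have h2 : ((σ : E →+* E).comp (toF A₂ K₂ E)).comp (algebraMap A A₂) = toF A K E :=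
    RingHom.ext fun b => (congrArg σ (ktheta_tow b)).trans (σ.commutes _)
  rwa [h2] at h1

theorem ktheta_root {E₀ : Type} [Field E₀] [Algebra K E₀] [FiniteDimensional K E] [IsGalois K E₀]
    [IsGalois K E] (j : E₀ →ₐ[K] E) (hj : ∀ a : K₂, ∃ x, j x = algebraMap K₂ E a) {Θ P : A}
    (hU : UnrOff K (toF A K E₀) Θ) (hP : Prime P) (hw : Cen (toF A K E) w P)
    (h1 : w (toF A K E Θ) = 1) {g : E ≃ₐ[K] E} (hg : g ∈ Ine K w) {M : ℕ} (hM : 0 < M) {π : A₂}
    (hπ : π ∣ algebraMap A A₂ Θ) {z : E}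
    (hz : aeval (z ^ M) (minpoly K (algebraMap A₂ K₂ π)) = 0) : g z = z := by
  have hn : ¬P ∣ Θ := fun h => ((hw.2 Θ).2 h).ne h1
  rw [← minpoly.algebraMap_eq (algebraMap K₂ E).injective] at hz
  obtain ⟨σ, hσ⟩ := minpoly.exists_algEquiv_of_root' (Algebra.IsAlgebraic.isAlgebraic _) hz
  obtain ⟨c, hc⟩ := hπ
  have h2 : σ (toF A₂ K₂ E π) * σ (toF A₂ K₂ E c) = toF A K E Θ := by
    rw [← map_mul, ← map_mul, ← hc, ktheta_tow (K := K)]
    exact σ.commutes _
  have h3 : w (σ (toF A₂ K₂ E π)) = 1 :=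
    eq_one_of_one_le_mul_left (ktheta_le hw.1 σ π) (ktheta_le hw.1 σ c)
      (by rw [← map_mul, h2, h1])
  have h4 : w z = 1 := by
    have h5 : w z ^ M = 1 := by
      rw [← map_pow, ← hσ]
      exact h3
    exact (pow_eq_one_iff_of_nonneg zero_le hM.ne').1 h5
  refine kz_kum (kz_rat hw.1 hM.ne') hg h4 ?_
  obtain ⟨x, hx⟩ := hj (algebraMap A₂ K₂ π)
  rw [← hσ, ← hx]
  exact ktheta_fix j hU hP hn hw hg σ x

end

theorem kt_theta (S : Finset (Kb K)) {M : ℕ} (hM : 0 < M) :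
    ∃ (K₁ : IntermediateField K₂ (Kb K)) (n : ℕ) (π : Fin n → A₂) (ϖ : Fin n → K₁),
      FiniteDimensional K K₁ ∧ IsGalois K K₁ ∧ (∀ x ∈ S, x ∈ K₁) ∧ (∀ i, Prime (π i)) ∧
      (∀ i j, π i ∣ π j → i = j) ∧ (∀ i, ϖ i ^ M = toF A₂ K₂ K₁ (π i)) ∧
      ∀ (w : Vl K₁) (P : A), Prime P → Cen (toF A K K₁) w P → Ine K w ≠ ⊥ →
        ∃ i, w (toF A₂ K₂ K₁ (π i)) < 1 := by
  obtain ⟨θ, hθ⟩ := Field.exists_primitive_element K K₂
  set p₀ : K[X] := ∏ z ∈ insert (algebraMap K₂ (Kb K) θ) S, minpoly K z with hp₀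
  have hp0 : p₀ ≠ 0 := Finset.prod_ne_zero_iff.2 fun z _ =>
    minpoly.ne_zero (Algebra.IsIntegral.isIntegral z)
  set K₀ := IntermediateField.adjoin K (p₀.rootSet (Kb K)) with hK₀
  have hS : ∀ z ∈ insert (algebraMap K₂ (Kb K) θ) S, z ∈ K₀ := fun z hz =>
    IntermediateField.subset_adjoin _ _ (mem_rootSet.2 ⟨hp0, by
      rw [hp₀, map_prod]
      exact Finset.prod_eq_zero hz (minpoly.aeval K z)⟩)
  have h2 : ∀ a : K₂, algebraMap K₂ (Kb K) a ∈ K₀ := fun a => by
    have : K⟮θ⟯ ≤ K₀.comap (IsScalarTower.toAlgHom K K₂ (Kb K)) :=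
      IntermediateField.adjoin_simple_le_iff.2 (hS _ (Finset.mem_insert_self _ _))
    exact this (hθ ▸ IntermediateField.mem_top)
  obtain ⟨f0, g0⟩ := ktheta_split p₀
  obtain ⟨Θ, hΘ, hU⟩ := kv_fin (A := A) (K := K) (E := K₀)
  have hΘ2 : algebraMap A A₂ Θ ≠ 0 := fun h => by
    have := ktheta_tow (A₂ := A₂) (K := K) (K₂ := K₂) (E := Kb K) Θ
    rw [h, map_zero] at this
    exact hΘ (IsFractionRing.injective A K ((algebraMap K (Kb K)).injective
      (this.symm.trans (by simp))))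
  let _ : StrongNormalizationMonoid A₂ := UniqueFactorizationMonoid.strongNormalizationMonoid
  set T := (UniqueFactorizationMonoid.normalizedFactors (algebraMap A A₂ Θ)).toFinset with hT
  let π : Fin T.card → A₂ := fun i => (T.equivFin.symm i).1
  have hπ : ∀ i, π i ∈ UniqueFactorizationMonoid.normalizedFactors (algebraMap A A₂ Θ) := fun i =>
    Multiset.mem_toFinset.1 (T.equivFin.symm i).2
  set p₁ : K[X] := ∏ i, expand K M (minpoly K (algebraMap A₂ K₂ (π i))) with hp₁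
  have hp1 : p₀ * p₁ ≠ 0 := mul_ne_zero hp0 (Finset.prod_ne_zero_iff.2 fun i _ =>
    (expand_ne_zero hM).2 (minpoly.ne_zero (Algebra.IsIntegral.isIntegral _)))
  set K' := IntermediateField.adjoin K ((p₀ * p₁).rootSet (Kb K)) with hK'
  have hle : K₀ ≤ K' := IntermediateField.adjoin.mono _ _ _ fun z hz =>
    mem_rootSet.2 ⟨hp1, by rw [map_mul, (mem_rootSet.1 hz).2, zero_mul]⟩
  obtain ⟨f1, g1⟩ := ktheta_split (p₀ * p₁)
  let K₁ : IntermediateField K₂ (Kb K) := K'.toSubfield.toIntermediateField fun a => hle (h2 a)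
  let e : K' ≃ₐ[K] K₁ :=
    { toFun := fun x => ⟨x.1, x.2⟩
      invFun := fun x => ⟨x.1, x.2⟩
      left_inv := fun _ => rfl
      right_inv := fun _ => rfl
      map_mul' := fun _ _ => rfl
      map_add' := fun _ _ => rfl
      commutes' := fun _ => rfl }
  have f2 : FiniteDimensional K K₁ := e.toLinearEquiv.finiteDimensional
  have g2 : IsGalois K K₁ := IsGalois.of_algEquiv e
  choose r hr using fun i => IsAlgClosed.exists_pow_nat_eq (toF A₂ K₂ (Kb K) (π i)) hM
  have hrm : ∀ i, r i ∈ K' := fun i =>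
    IntermediateField.subset_adjoin _ _ (mem_rootSet.2 ⟨hp1, by
      refine (map_mul _ _ _).trans (mul_eq_zero_of_right _ ((map_prod _ _ _).trans
        (Finset.prod_eq_zero (Finset.mem_univ i) ?_)))
      rw [expand_aeval, hr]
      exact (aeval_algebraMap_apply (Kb K) (algebraMap A₂ K₂ (π i)) _).trans
        (by rw [minpoly.aeval, map_zero])⟩)
  refine ⟨K₁, T.card, π, fun i => ⟨r i, hrm i⟩, f2, g2,
    fun x hx => hle (hS x (Finset.mem_insert_of_mem hx)),
    fun i => UniqueFactorizationMonoid.prime_of_normalized_factor _ (hπ i),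
    fun i j h => T.equivFin.symm.injective (Subtype.ext
      (UniqueFactorizationMonoid.normalizedFactors_eq_of_dvd _ _ (hπ i) _ (hπ j) h)),
    fun i => Subtype.ext (hr i), fun w P hP hw hI => ?_⟩
  by_contra hcon
  have hle1 : ∀ a, w (toF A₂ K₂ K₁ a) ≤ 1 := fun a => ktheta_le (K₂ := K₂) hw.1 1 a
  have hall : ∀ q ∈ UniqueFactorizationMonoid.normalizedFactors (algebraMap A A₂ Θ),
      w (toF A₂ K₂ K₁ q) = 1 := fun q hq => by
    refine (hle1 q).eq_of_not_lt fun h => hcon ⟨T.equivFin ⟨q, Multiset.mem_toFinset.2 hq⟩, ?_⟩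
    simpa only [π, Equiv.symm_apply_apply] using h
  have h1 : w (toF A K K₁ Θ) = 1 := by
    obtain ⟨c, hc⟩ := (UniqueFactorizationMonoid.prod_normalizedFactors hΘ2).symm.dvd
    have h3 := Multiset.prod_induction (fun a => w (toF A₂ K₂ K₁ a) = 1) _
      (fun a b ha hb => by rw [map_mul, map_mul, ha, hb, one_mul]) (by simp) hall
    rw [hc, map_mul, map_mul, ktheta_tow (K := K)] at h3
    exact eq_one_of_one_le_mul_left (hw.1 Θ) (hle1 c) h3.ge
  let j : K₀ →ₐ[K] K₁ := (e : K' →ₐ[K] K₁).comp (IntermediateField.inclusion hle)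
  refine hI ((Subgroup.eq_bot_iff_forall _).2 fun g hg => ?_)
  have h4 : (g : K₁ →ₐ[K] K₁).comp (e : K' →ₐ[K] K₁) = e := by
    refine IntermediateField.algHom_ext_of_eq_adjoin K hK' fun z hz => ?_
    have h5 := (mem_rootSet.1 hz).2
    rw [map_mul, mul_eq_zero] at h5
    rcases h5 with h5 | h5
    · exact ktheta_fix j hU hP (fun h => ((hw.2 Θ).2 h).ne h1) hw hg 1
        ⟨z, IntermediateField.subset_adjoin _ _ (mem_rootSet.2 ⟨hp0, h5⟩)⟩
    · rw [hp₁, map_prod] at h5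
      obtain ⟨i, -, hi⟩ := Finset.prod_eq_zero_iff.1 h5
      rw [expand_aeval] at hi
      refine ktheta_root (K₂ := K₂) j (fun a => ⟨⟨_, h2 a⟩, rfl⟩) hU hP hw h1 hg hM
        (UniqueFactorizationMonoid.dvd_of_mem_normalizedFactors (hπ i)) ?_
      let ι : K₁ →ₐ[K] Kb K := K'.val.comp (e.symm : K₁ →ₐ[K] K')
      exact ι.injective ((aeval_algHom_apply ι _ _).symm.trans (hi.trans (map_zero ι).symm))
  exact AlgEquiv.ext fun x => AlgHom.congr_fun h4 (e.symm x)

end Pool.Agent.ZCy
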