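import Pool.Agent.Lib.MP_751085_ag.ZC.K.S3
import Pool.Agent.Lib.MP_751085_ag.ZC.K.SplitB
import Pool.Agent.Lib.MP_751085_ag.ZC.K.EnlB
import Pool.Agent.Lib.MP_751085_ag.ZC.K.Theta
import Pool.Agent.Lib.MP_751085_ag.ZC.K.KDef2

/-! Block K: the big field. -/

namespace Pool.Agent.ZCy

open scoped Classical WithZero IntermediateField
open Polynomial groupCohomology

set_option linter.unusedSectionVars false

variable {A A₂ K K₂ L F : Type} [CommRing A] [IsDomain A] [UniqueFactorizationMonoid A] [Algebra ℚ A]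
  [CommRing A₂] [IsDomain A₂] [UniqueFactorizationMonoid A₂] [Field K] [CharZero K] [Field K₂]
  [Algebra A K] [IsFractionRing A K] [Algebra A₂ K₂] [IsFractionRing A₂ K₂] [Algebra A A₂]
  [Algebra.IsIntegral A A₂] [Algebra K K₂] [Algebra A K₂] [IsScalarTower A K K₂]
  [IsScalarTower A A₂ K₂] [Algebra K₂ (Kb K)] [IsScalarTower K K₂ (Kb K)] [FiniteDimensional K K₂]
  [IsGalois K K₂] [Field L] [Field F] [Algebra K[X] L] [IsFractionRing K[X] L] [Algebra L F]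
  [Algebra L (Om K)] [Algebra F (Om K)] [IsScalarTower L F (Om K)] {M : ℕ} {c : Cur K L F M} {Φ : A}

theorem kc_big {ζ : K₂} (hζ : IsPrimitiveRoot ζ M) (j : F →+* Ls K₂)
    (hj : ∀ x, algebraMap F (Om K) x = lm (algebraMap K₂ (Kb K)) (j x)) {a : BR F}
    (h0 : rs j a = 0) {N : ℕ} (hM : M = c.δ * N) (hN : N • a = 0)
    (H1 : ∀ v : Vl F, GoodV (algebraMap K (Kb K)) (toF K[X] L F) c.Ψ v → Unram v a) :
    ∃ (E : IntermediateField F (Om K)) (K₁ : IntermediateField K₂ (Kb K)) (n : ℕ) (π : Fin n → A₂)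
      (ϖ : Fin n → K₁) (cc : (E ≃ₐ[F] E) × (E ≃ₐ[F] E) → Eˣ) (e : (E ≃ₐ[F] E) → Eˣ),
      c.Big A E K₁ π ϖ ∧ IsMulCocycle₂ cc ∧ (∀ p, cc p ^ M = 1) ∧ cls F cc = a ∧
      (∀ r ∈ secG K₂ E, e r ^ M = 1) ∧
      ∀ r ∈ secG K₂ E, ∀ r' ∈ secG K₂ E, cc (r, r') = dd e (r, r') := by
  obtain ⟨E₀, cc₀, hn₀, hc₀, hp₀, hcl⟩ := ks_stage c hM hN H1
  obtain ⟨S, e, h1, h2, h3⟩ := kp_split c hn₀ j hj hc₀ hp₀ (hcl ▸ h0) hζ
  have := hn₀.fin
  obtain ⟨S', hS'⟩ := ke_cf c E₀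
  obtain ⟨K₁, n, π, ϖ, hfin, hgal, hS, hpr, hinj, hpw, hram⟩ :=
    kt_theta (A := A) (A₂ := A₂) (K₂ := K₂) (S ∪ S') c.pos
  have : FiniteDimensional K (K₁.restrictScalars K) := hfin
  have : IsGalois K (K₁.restrictScalars K) := hgal
  obtain ⟨E, hle, hn, hf⟩ := ke_enl c hn₀ (K₁.restrictScalars K) fun y hy m =>
    (IntermediateField.adjoin_le_iff (T := K₁.restrictScalars K)).2
      (fun x hx => hS x (Finset.mem_union_right _ hx)) (hS' y hy m)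
  obtain ⟨r, cc, hw, hcc, hv, hcl'⟩ := ke_inf c hn₀ hn hle hc₀
  obtain ⟨e', h4, h5⟩ := kp_desc (fun x hx => hf.cst x (hS x (Finset.mem_union_left _ hx)))
    (fun x => hf.cst _ (K₁.algebraMap_mem x)) h1 h2
    fun σ σ' g g' x y => (hv g g').trans (h3 σ σ' _ _ (hw _ _ x) (hw _ _ y))
  refine ⟨E, K₁, n, π, ϖ, cc, e', ⟨hn, hfin, hgal, hf, hpr, hinj, hpw, hram⟩, hcc,
    fun p => Units.ext (Subtype.ext ?_), hcl'.trans hcl, h4, h5⟩
  have := congrArg (fun u : E₀ˣ => ((u : E₀) : Om K)) (hp₀ (r p.1, r p.2))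
  simp only [Units.val_pow_eq_pow_val, SubmonoidClass.coe_pow, Units.val_one, OneMemClass.coe_one]
    at this ⊢
  rw [hv p.1 p.2, this]

end Pool.Agent.ZCy
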