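import Pool.Agent.Lib.MP_751085_ag.ZC.K.LauB
import Pool.Agent.Lib.MP_796ce4_ag.ZY.CvP

/-! Block K: divisors on the good places of a plane curve. -/

namespace Pool.Agent.ZCy

open scoped Classical WithZero IntermediateField PowerSeries
open Polynomial

variable {𝕜 E : Type} [Field 𝕜] [IsAlgClosed 𝕜] [Field E] {ψ : 𝕜[X] →+* E} {θ : E}
  {χ α β : 𝕜[X][X]} {Ψ : 𝕜[X]} {r : ℕ}

omit [IsAlgClosed 𝕜] in
theorem kdiv_comp (t : 𝕜) : (HahnSeries.ofPowerSeries ℤ 𝕜).comp (ZeroCyc.sh t) = tA t := by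
  refine Polynomial.ringHom_ext (fun a => ?_) ?_
  · simp [ZeroCyc.sh, tA]
  · simp [ZeroCyc.sh, tA]

/-- `tA t` is `ZeroCyc.sh t` followed by the inclusion -/
theorem kd_tA (t : 𝕜) (p : 𝕜[X]) : tA t p = (ZeroCyc.sh t p : Ls 𝕜) := by
  rw [← kdiv_comp]
  rfl

omit [IsAlgClosed 𝕜] in
theorem kdiv_eval (t : 𝕜) (η : 𝕜⟦X⟧) (a : 𝕜[X][X]) :
    a.eval₂ (tA t) (η : Ls 𝕜) = (a.eval₂ (ZeroCyc.sh t) η : 𝕜⟦X⟧) := by
  rw [← kdiv_comp]
  exact (hom_eval₂ a (ZeroCyc.sh t) (HahnSeries.ofPowerSeries ℤ 𝕜) η).symm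

theorem kdiv_lift {A F : Type} [CommRing A] [Field F] (f : A →+* E) (g : A →+* F)
    (hk : ∀ a, f a = 0 ↔ g a = 0) (hs : ∀ x, ∃ a b, x = f a / f b) :
    ∃ φ : E →+* F, ∀ a, φ (f a) = g a := by
  let _ := (RingHom.kerLift f).toAlgebra
  have : FaithfulSMul (A ⧸ RingHom.ker f) E :=
    (faithfulSMul_iff_algebraMap_injective _ _).2 (RingHom.kerLift_injective f)
  have : IsFractionRing (A ⧸ RingHom.ker f) E := IsFractionRing.of_field _ _ fun x => by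
    obtain ⟨a, b, h⟩ := hs x
    exact ⟨Ideal.Quotient.mk _ a, Ideal.Quotient.mk _ b, h⟩
  have hi : Function.Injective (Ideal.Quotient.lift (RingHom.ker f) g fun a h => (hk a).1 h) :=
    (injective_iff_map_eq_zero _).2 fun x hx => by
      obtain ⟨a, rfl⟩ := Ideal.Quotient.mk_surjective x
      exact Ideal.Quotient.eq_zero_iff_mem.2 ((hk a).2 hx)
  exact ⟨IsFractionRing.lift hi, fun a => IsFractionRing.lift_algebraMap hi (Ideal.Quotient.mk _ a)⟩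

/-- the expansion at an etale point -/
theorem kd_exp (h : FFd ψ θ χ) (hm : χ.Monic) (hi : Irreducible χ) {Q : 𝕜 × 𝕜}
    (hQ : ZeroCyc.Et χ Q) :
    ∃ φ : E →+* Ls 𝕜, ∀ a : 𝕜[X][X], φ (a.eval₂ ψ θ) = (ZeroCyc.jq χ Q a : Ls 𝕜) := by
  have hinj : Function.Injective (tA Q.1) :=
    (injective_iff_map_eq_zero _).2 fun p hp => by_contra fun h0 => (kl_order_tA Q.1 h0).1 hp
  have h0 : χ.eval₂ (tA Q.1) (ZeroCyc.hs χ Q : Ls 𝕜) = 0 := by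
    rw [kdiv_eval, (ZeroCyc.hs_spec hm hQ).1, map_zero]
  obtain ⟨φ, hφ⟩ := kdiv_lift (eval₂RingHom ψ θ) (eval₂RingHom (tA Q.1) (ZeroCyc.hs χ Q : Ls 𝕜))
    (fun a => (h.ker a).trans (kl_ker hinj hm hi h0 a).symm) fun x => by
      obtain ⟨a, b, -, e⟩ := h.frac x
      exact ⟨a, b, e⟩
  exact ⟨φ, fun a => (hφ a).trans (kdiv_eval _ _ a)⟩

/-- every expansion off `Ψ = 0` belongs to an etale point -/
theorem kd_pt (h : FFd ψ θ χ) (hm : χ.Monic) (hb : C (Ψ ^ r) = α * χ + β * derivative χ) {t : 𝕜}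
    (ht : Ψ.eval t ≠ 0) {φ : E →+* Ls 𝕜} (hφ : Exp (RingHom.id 𝕜) ψ t φ) :
    ∃ y, ZeroCyc.Et χ (t, y) ∧
      ∀ a : 𝕜[X][X], φ (a.eval₂ ψ θ) = (ZeroCyc.jq χ (t, y) a : Ls 𝕜) := by
  have hc : φ.comp ψ = tA t := RingHom.ext fun p => (hφ p).trans (by rw [Polynomial.map_id])
  have he : ∀ a : 𝕜[X][X], φ (a.eval₂ ψ θ) = a.eval₂ (tA t) (φ θ) := fun a => by
    rw [hom_eval₂, hc]
  have h0 : χ.eval₂ (tA t) (φ θ) = 0 := by rw [← he, (h.ker χ).2 dvd_rfl, map_zero]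
  obtain ⟨η, hη⟩ : ∃ η : 𝕜⟦X⟧, algebraMap 𝕜⟦X⟧ (Ls 𝕜) η = φ θ :=
    IsIntegrallyClosed.isIntegral_iff.1 ⟨χ.map (ZeroCyc.sh t), hm.map _, by
      rw [eval₂_map, ← h0, ← kdiv_comp]
      rfl⟩
  have hη' : φ θ = (η : Ls 𝕜) := hη.symm
  have h1 : χ.eval₂ (ZeroCyc.sh t) η = 0 := by
    rw [hη', kdiv_eval] at h0
    exact (map_eq_zero_iff _ HahnSeries.ofPowerSeries_injective).1 h0
  have h2 : ZeroCyc.ee (t, PowerSeries.constantCoeff η) χ = 0 := by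
    rw [← ZeroCyc.cvh_cc (η := η) rfl, h1, map_zero]
  have hE : ZeroCyc.Et χ (t, PowerSeries.constantCoeff η) := ⟨h2, fun h3 => by
    have e := congrArg (ZeroCyc.ee (t, PowerSeries.constantCoeff η)) hb
    rw [map_add, map_mul, map_mul, h2, h3, mul_zero, mul_zero, add_zero, ZeroCyc.ee_C,
      eval_pow] at e
    exact pow_ne_zero r ht e⟩
  refine ⟨_, hE, fun a => ?_⟩
  rw [he, hη', kdiv_eval, ZeroCyc.cvh_jq, ZeroCyc.hs_unique hm hE h1 rfl]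

end Pool.Agent.ZCy
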