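import Pool.Agent.Lib.MP_751085_ag.ZC.K.Div

/-! Block K: divisors on the good places of a plane curve. -/

namespace Pool.Agent.ZCy

open scoped Classical WithZero IntermediateField PowerSeries
open Polynomial

variable {𝕜 E : Type} [Field 𝕜] [IsAlgClosed 𝕜] [Field E] {ψ : 𝕜[X] →+* E} {θ : E}
  {χ α β : 𝕜[X][X]} {Ψ : 𝕜[X]} {r : ℕ}

omit [IsAlgClosed 𝕜] in
theorem kdivb_exp {t : 𝕜} {φ : E →+* Ls 𝕜} (hφ : Exp (RingHom.id 𝕜) ψ t φ) :
    φ.comp ψ = tA t := RingHom.ext fun p => (hφ p).trans (by rw [Polynomial.map_id])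

omit [IsAlgClosed 𝕜] in
theorem kdivb_fin (h : FFd ψ θ χ) (hm : χ.Monic) (t : 𝕜) :
    {φ : E →+* Ls 𝕜 | Exp (RingHom.id 𝕜) ψ t φ}.Finite := by
  refine Set.Finite.of_finite_image (f := fun φ => φ θ)
    ((finite_setOfPred_isRoot (hm.map (tA t)).ne_zero).subset ?_) fun φ hφ φ' hφ' e => ?_
  · rintro _ ⟨φ, hφ, rfl⟩
    change (χ.map (tA t)).eval (φ θ) = 0
    rw [eval_map, ← kdivb_exp hφ, ← hom_eval₂, (h.ker χ).2 dvd_rfl, map_zero]
  · refine RingHom.ext fun f => ?_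
    obtain ⟨a, b, -, rfl⟩ := h.frac f
    simp only [map_div₀, hom_eval₂, kdivb_exp hφ, kdivb_exp hφ', show φ θ = φ' θ from e]

omit [IsAlgClosed 𝕜] in
theorem kdivb_one (h : FFd ψ θ χ) (hm : χ.Monic) (hi : Irreducible χ) {a : 𝕜[X][X]}
    (ha : a.eval₂ ψ θ ≠ 0) : ∃ u : 𝕜[X], u ≠ 0 ∧ ∀ (t : 𝕜) (φ : E →+* Ls 𝕜),
      Exp (RingHom.id 𝕜) ψ t φ → ¬u.IsRoot t → lv 𝕜 (φ (a.eval₂ ψ θ)) = 1 := by
  obtain ⟨u, α, β, hu, e⟩ := kl_bez hm hi fun hd => ha ((h.ker a).2 hd)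
  refine ⟨u, hu, fun t φ hφ ht => ?_⟩
  let v : Vl E := (lv 𝕜).comap φ
  have hv : ∀ p, p ≠ 0 → v (ψ p) = WithZero.exp (-(p.rootMultiplicity t : ℤ)) := fun p hp => by
    change lv 𝕜 ((φ.comp ψ) p) = _
    rw [kdivb_exp hφ, kl_lv (kl_order_tA t hp).1, (kl_order_tA t hp).2]
  have h1 : ∀ p, ψ p ∈ v.integer := fun p => by
    rcases eq_or_ne p 0 with rfl | hp
    · rw [map_zero]; exact zero_mem _
    · rw [Valuation.mem_integer_iff, hv p hp, ← WithZero.exp_zero, WithZero.exp_le_exp]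
      omega
  have h2 : θ ∈ v.integer := (Valuation.integer.integers v).mem_of_integral
    ⟨χ.map (ψ.codRestrict _ h1), hm.map _, by
      rw [eval₂_map]
      exact (h.ker χ).2 dvd_rfl⟩
  have h3 : ∀ b : 𝕜[X][X], v (b.eval₂ ψ θ) ≤ 1 := fun b =>
    show b.eval₂ ψ θ ∈ v.integer from by
      rw [eval₂_eq_sum_range]
      exact sum_mem fun i _ => mul_mem (h1 _) (pow_mem h2 i)
  have h4 : v (β.eval₂ ψ θ) * v (a.eval₂ ψ θ) = 1 := by
    have := congrArg (eval₂ ψ θ) e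
    rw [eval₂_C, eval₂_add, eval₂_mul, eval₂_mul, (h.ker χ).2 dvd_rfl, mul_zero, zero_add] at this
    rw [← map_mul, ← this, hv u hu, rootMultiplicity_eq_zero ht]
    rfl
  exact le_antisymm (h3 a) (h4 ▸ mul_le_of_le_one_left' (h3 β))

set_option linter.unusedSectionVars false

/-- For `a` not divisible by `χ` there is `u ≠ 0` in `𝕜[X]` with `C u ∈ (χ, a)` (`kl_bez`), so `a.eval₂ ψ θ`
has order `0` for all expansions at points `t` with `u(t) ≠ 0`. An expansion at `t` is determined by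
the image of `θ`, a root of `χ.map (tA t)`. -/
theorem kd_finite (h : FFd ψ θ χ) (hm : χ.Monic) (hi : Irreducible χ) (f : E) :
    {v | GoodV (RingHom.id 𝕜) ψ Ψ v ∧ ord v f ≠ 0}.Finite := by
  rcases eq_or_ne f 0 with rfl | hf
  · exact Set.finite_empty.subset fun v hv => hv.2 (by simp [ord])
  obtain ⟨a, b, hb, rfl⟩ := h.frac f
  obtain ⟨u, hu, h1⟩ := kdivb_one h hm hi (div_ne_zero_iff.1 hf).1
  obtain ⟨u', hu', h2⟩ := kdivb_one h hm hi hb
  refine ((finite_setOfPred_isRoot (mul_ne_zero hu hu')).biUnion fun t _ =>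
    (kdivb_fin h hm t).image fun φ => (lv 𝕜).comap φ).subset ?_
  rintro v ⟨⟨t, φ, -, hφ, hv⟩, h0⟩
  refine Set.mem_biUnion (x := t) ?_ ⟨φ, hφ, Valuation.ext fun x => (hv x).symm⟩
  by_contra ht
  rw [Set.mem_ofPred_eq, root_mul, not_or] at ht
  apply h0
  rw [ord, map_div₀, hv, hv, h1 t φ hφ ht.1, h2 t φ hφ ht.2]
  simp

/-- a curve in the sense of the library: take `b` and `w` large (`ZeroCyc.exists_WL`) -/
theorem kd_cv (hm : χ.Monic) (hb : C (Ψ ^ r) = α * χ + β * derivative χ) :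
    ∃ c : ZeroCyc.Cv 𝕜, c.χ = χ ∧ c.ρ = Ψ ^ (r + 1) ∧ c.δ = χ.natDegree := by
  let b := χ.support.sup fun i => (χ.coeff i).natDegree
  obtain ⟨m, hw⟩ := ZeroCyc.exists_WL b (b * χ.natDegree) (C Ψ * β)
  refine ⟨⟨χ, C Ψ * α, C Ψ * β, Ψ ^ (r + 1), χ.natDegree, b, m + (Ψ ^ (r + 1)).natDegree,
    ⟨hm, rfl, fun i j e => ?_⟩, ?_, by omega, hw.mono (by omega)⟩, rfl, rfl, rfl⟩
  · have h2 : χ.coeff i ≠ 0 := fun h0 => e (by rw [h0, coeff_zero])
    have h1 := le_natDegree_of_ne_zero e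
    rcases (le_natDegree_of_ne_zero h2).eq_or_lt with rfl | hlt
    · rw [hm.coeff_natDegree, natDegree_one] at h1
      omega
    · have h3 : (χ.coeff i).natDegree ≤ b :=
        Finset.le_sup (f := fun i => (χ.coeff i).natDegree) (mem_support_iff.2 h2)
      have h4 := Nat.mul_le_mul_left b (Nat.succ_le_of_lt hlt)
      rw [Nat.mul_succ] at h4
      omega
  · rw [pow_succ', C_mul, hb]
    ring

end Pool.Agent.ZCy
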