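import Pool.Agent.Lib.MP_751085_ag.ZC.K.DivB
import Pool.Agent.Lib.MP_751085_ag.ZC.UDiv

/-! Block K: divisors on the good places of a plane curve. -/

namespace Pool.Agent.ZCy

open scoped Classical WithZero IntermediateField PowerSeries
open Polynomial

variable {𝕜 E : Type} [Field 𝕜] [IsAlgClosed 𝕜] [Field E] {ψ : 𝕜[X] →+* E} {θ : E}
  {χ α β : 𝕜[X][X]} {Ψ : 𝕜[X]} {r : ℕ}

theorem ku_div [CharZero 𝕜] (c : ZeroCyc.Cv 𝕜) (hi : Irreducible c.χ) {D : 𝕜 × 𝕜 →₀ ℤ}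
    (hD : D ∈ c.Dv) (h0 : D.degree = 0) {M : ℕ} (hM : 0 < M) :
    ∃ D' ∈ c.Dv, D - M • D' ∈ c.PP := U.div_Dv hi hM hD h0

theorem kdivc_lv {F : Type} [Field F] {f : F⟦X⟧} (h : f ≠ 0) :
    lv F (f : Ls F) = WithZero.exp (-(f.order.toNat : ℤ)) := by
  have h1 := (LaurentSeries.intValuation_le_iff_coeff_lt_eq_zero F f).2
    PowerSeries.coeff_of_lt_order_toNat
  have h2 : (f : Ls F).coeff (f.order.toNat : ℕ) ≠ 0 := by
    rw [HahnSeries.ofPowerSeries_apply_coeff]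
    exact PowerSeries.coeff_order h
  have h3 := kl_lv (HahnSeries.ne_zero_of_coeff_ne_zero h2)
  rw [show Valued.v (f : Ls F) = _ from h3, WithZero.exp_le_exp, neg_le_neg_iff] at h1
  rw [h3, le_antisymm (HahnSeries.order_le_of_coeff_ne_zero h2) h1]

/-- A good valuation `v` gives a good point, which determines `v`. Push `D` to the points, correct
its degree by a fibre and divide. -/
theorem kd_div [CharZero 𝕜] (h : FFd ψ θ χ) (hm : χ.Monic) (hi : Irreducible χ)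
    (hb : C (Ψ ^ r) = α * χ + β * derivative χ) (h0 : Ψ ≠ 0) {M : ℕ} (hM : 0 < M) (D : Vl E → ℤ)
    (hD : {v | GoodV (RingHom.id 𝕜) ψ Ψ v ∧ D v ≠ 0}.Finite) :
    ∃ y : E, y ≠ 0 ∧ ∀ v, GoodV (RingHom.id 𝕜) ψ Ψ v → (M : ℤ) ∣ ord v y - χ.natDegree * D v := by
  obtain ⟨c, rfl, hρ, hδ⟩ := kd_cv hm hb
  have hpt : ∀ v : {v // GoodV (RingHom.id 𝕜) ψ Ψ v}, ∃ Q, c.Gp Q ∧
      ∀ a : 𝕜[X][X], v.1 (a.eval₂ ψ θ) = lv 𝕜 (ZeroCyc.jq c.χ Q a : Ls 𝕜) := by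
    rintro ⟨v, t, φ, h1, h2, h3⟩
    obtain ⟨y, h4, h5⟩ := kd_pt h hm hb (t := t) h1 h2
    refine ⟨(t, y), ⟨h4.1, ?_⟩, fun a => (h3 _).trans (congrArg _ (h5 a))⟩
    rw [hρ, eval_pow]
    exact pow_ne_zero _ h1
  choose pt hg hv using hpt
  have hinj : Function.Injective pt := fun v w e => Subtype.ext <| Valuation.ext fun f => by
    obtain ⟨a, b, -, rfl⟩ := h.frac f
    rw [map_div₀, map_div₀, hv, hv, hv, hv, e]
  have hval : ∀ v {m G}, ZeroCyc.Lead c.b m G →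
      v.1 (G.eval₂ ψ θ) = WithZero.exp (-ZeroCyc.dv c.χ G (pt v)) := fun v m G hG => by
    rw [hv, kdivc_lv (hG.jq_ne c.wt (hg v).et), hG.dv_apply c.wt, if_pos (hg v).et]
    rfl
  rcases isEmpty_or_nonempty {v // GoodV (RingHom.id 𝕜) ψ Ψ v} with hE | ⟨⟨v₀⟩⟩
  · exact ⟨1, one_ne_zero, fun v hv => hE.elim ⟨v, hv⟩⟩
  have hne : ∀ {m G}, ZeroCyc.Lead c.b m G → G.eval₂ ψ θ ≠ 0 := fun hG e =>
    WithZero.exp_ne_zero ((hval v₀ hG).symm.trans (by rw [e, map_zero]))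
  let D₀ : {v // GoodV (RingHom.id 𝕜) ψ Ψ v} →₀ ℤ := Finsupp.ofSupportFinite (fun v => D v.1)
    ((hD.preimage Subtype.val_injective.injOn).subset fun v hv => ⟨v.2, hv⟩)
  have hD' : ZeroCyc.psh pt D₀ ∈ c.Dv := fun Q hQ => by
    obtain ⟨v, -, rfl⟩ := ZeroCyc.psh_ne_zero hQ
    exact hg v
  obtain ⟨t, ht⟩ : ∃ t, Ψ.eval t ≠ 0 := by
    by_contra! e
    exact h0 (Polynomial.funext fun t => (e t).trans eval_zero.symm)
  have hu₁ := monic_X_sub_C t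
  have hc₁ : IsCoprime (X - C t) c.ρ := ZeroCyc.Cv.cop_iff.2 fun s hs => by
    rw [eval_sub, eval_X, eval_C, sub_eq_zero] at hs
    rw [hs, hρ, eval_pow]
    exact pow_ne_zero _ ht
  obtain ⟨D₃, -, h3⟩ := ku_div c hi (D := c.δ • ZeroCyc.psh pt D₀ -
      (ZeroCyc.psh pt D₀).degree • ZeroCyc.dv c.χ (C (X - C t)))
    (sub_mem (nsmul_mem hD' _) (zsmul_mem (ZeroCyc.Cv.dv_C_mem hu₁ hc₁) _)) (by
      rw [map_sub, map_nsmul, map_zsmul, ZeroCyc.Cv.degree_dv_C hu₁ hc₁, natDegree_X_sub_C]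
      simp [mul_comm]) hM
  obtain ⟨u, a, hw, -, h4⟩ := ZeroCyc.Cv.mem_PP.1 h3
  have l1 := hw.lead
  have l2 := ZeroCyc.lead_C (b := c.b) hw.monic
  have l3 := ZeroCyc.lead_C (b := c.b) hu₁
  refine ⟨(c.G u a).eval₂ ψ θ / (C u).eval₂ ψ θ *
    (C (X - C t)).eval₂ ψ θ ^ (ZeroCyc.psh pt D₀).degree,
    mul_ne_zero (div_ne_zero (hne l1) (hne l2)) (zpow_ne_zero _ (hne l3)), fun v hv => ?_⟩
  have h5 := DFunLike.congr_fun h4 (pt ⟨v, hv⟩)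
  simp only [Finsupp.sub_apply, Finsupp.smul_apply, ZeroCyc.psh_apply_inj hinj, nsmul_eq_mul,
    smul_eq_mul] at h5
  refine ⟨-D₃ (pt ⟨v, hv⟩), ?_⟩
  rw [ord, map_mul, map_div₀, map_zpow₀, hval ⟨v, hv⟩ l1, hval ⟨v, hv⟩ l2, hval ⟨v, hv⟩ l3,
    ← WithZero.exp_sub, ← WithZero.exp_zsmul, ← WithZero.exp_add, WithZero.log_exp, ← hδ,
    smul_eq_mul, show D v = D₀ ⟨v, hv⟩ from rfl]
  linear_combination -h5

end Pool.Agent.ZCy
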