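import Pool.Agent.Lib.MP_751085_ag.ZC.K.Fb

/-! Block K: the action on coefficients, extension of the constants. -/

namespace Pool.Agent.ZCy

open scoped Classical WithZero IntermediateField
open Polynomial groupCohomology

set_option linter.unusedSectionVars false

variable {K L F : Type} [Field K] [Field L] [Field F] [CharZero K] [Algebra K[X] L]
  [IsFractionRing K[X] L] [Algebra L F] [Algebra L (Om K)] [Algebra F (Om K)]
  [IsScalarTower L F (Om K)] {M : ℕ} (c : Cur K L F M)

/-- the action on the coefficients as a homomorphism over `L` -/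
noncomputable def kenl_hom (σ : Kb K ≃ₐ[K] Kb K) : Om K →ₐ[L] Om K :=
  { lm (σ : Kb K →+* Kb K) with commutes' := kf_lm c (σ : Kb K →ₐ[K] Kb K) }

theorem kenl_tower (E : IntermediateField F (Om K)) : IsScalarTower L E (Om K) :=
  IsScalarTower.of_algebraMap_eq fun _ => rfl

include c

theorem ke_gal {E : IntermediateField F (Om K)} (h : c.Nice E) :
    FiniteDimensional F E ∧ IsGalois F E :=
  have := h.fin
  have := h.gal
  ⟨Module.Finite.right L F E, IsGalois.tower_top_of_isGalois L F E⟩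

theorem ke_rho (E : IntermediateField F (Om K)) [Normal L E] (σ : Kb K ≃ₐ[K] Kb K) :
    ∃ g : E ≃ₐ[L] E, Cw (σ : Kb K →+* Kb K) g :=
  have := kenl_tower (L := L) E
  ⟨(kenl_hom c σ).restrictNormal' E, (kenl_hom c σ).restrictNormal_commutes E⟩

theorem ke_cf (E : IntermediateField F (Om K)) [FiniteDimensional L E] :
    ∃ S : Finset (Kb K), ∀ y ∈ E, ∀ n, y.coeff n ∈ IntermediateField.adjoin K (S : Set (Kb K)) := by
  have h : ∀ ψ : E →ₐ[L] Om K, ∃ (x : E) (n : ℤ),
      (ψ x).coeff n = (x : Om K).coeff n → ∀ (y : E) (m : ℤ), (ψ y).coeff m = (y : Om K).coeff m := by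
    intro ψ
    by_cases h : ∀ (y : E) (m : ℤ), (ψ y).coeff m = (y : Om K).coeff m
    · exact ⟨0, 0, fun _ => h⟩
    · obtain ⟨x, hx⟩ := not_forall.1 h
      obtain ⟨n, hn⟩ := not_forall.1 hx
      exact ⟨x, n, fun e => absurd e hn⟩
  choose x n h using h
  refine ⟨Finset.univ.image fun ψ => (x ψ : Om K).coeff (n ψ), fun y hy m => ?_⟩
  rw [← InfiniteGalois.fixedField_fixingSubgroup (IntermediateField.adjoin K _),
    IntermediateField.mem_fixedField_iff]
  intro σ hσ
  have := kenl_tower (L := L) E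
  refine h ((kenl_hom c σ).comp (IsScalarTower.toAlgHom L E (Om K))) ?_ ⟨y, hy⟩ m
  exact (IntermediateField.mem_fixingSubgroup_iff _ _).1 hσ _ (IntermediateField.subset_adjoin _ _
    (Finset.mem_coe.2 (Finset.mem_image_of_mem _ (Finset.mem_univ _))))

theorem ke_dec {E : IntermediateField F (Om K)} [Normal L E] {K₁ : IntermediateField K (Kb K)}
    (hf : Frm (K₁ : Set (Kb K)) E) (g : E ≃ₐ[L] E) : ∃ (σ : Kb K ≃ₐ[K] Kb K) (g₁ : E ≃ₐ[L] E),
      Cw (σ : Kb K →+* Kb K) g₁ ∧ FixC (⇑(g₁⁻¹ * g)) := by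
  have hi : Function.Injective (hc : Kb K →+* Om K) := RingHom.injective _
  let ι : K₁ →+* E := ((hc : Kb K →+* Om K).comp (algebraMap K₁ (Kb K))).codRestrict E
    fun a => hf.cst a a.2
  let ψ : K₁ →+* Om K := (algebraMap E (Om K)).comp ((g : E →+* E).comp ι)
  have hK : ψ.comp (algebraMap K K₁) = (hc : Kb K →+* Om K).comp (algebraMap K (Kb K)) := by
    refine RingHom.ext fun a => ?_
    have e : ι (algebraMap K K₁ a) = algebraMap L E (algebraMap K[X] L (C a)) :=
      Subtype.ext (kf_C c a).symm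
    have e' : ψ (algebraMap K K₁ a) = ((g (ι (algebraMap K K₁ a)) : E) : Om K) := rfl
    rw [RingHom.comp_apply, e', e, g.commutes]
    exact kf_C c a
  have h : ∀ a, ∃ b, ψ a = hc b := fun a => by
    have ha : IsIntegral K a := Algebra.IsIntegral.isIntegral a
    obtain ⟨b, hb, -⟩ := kl_const (algebraMap K (Kb K)) (y := ψ a) (minpoly.ne_zero ha) (by
      rw [← hK, ← hom_eval₂, ← aeval_def, minpoly.aeval, map_zero])
    exact ⟨b, hb⟩
  choose τ hτ using h
  let t : K₁ →ₐ[K] Kb K :=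
    { toFun := τ
      map_one' := hi (by rw [← hτ, map_one, map_one])
      map_mul' := fun a b => hi (by rw [map_mul, ← hτ, ← hτ, ← hτ, map_mul])
      map_zero' := hi (by rw [← hτ, map_zero, map_zero])
      map_add' := fun a b => hi (by rw [map_add, ← hτ, ← hτ, ← hτ, map_add])
      commutes' := fun a => hi (by rw [← hτ]; exact DFunLike.congr_fun hK a) }
  let σ := AlgEquiv.ofBijective (t.liftNormal (Kb K)) (Algebra.IsAlgebraic.algHom_bijective _)
  obtain ⟨g₁, h₁⟩ := ke_rho c E σ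
  refine ⟨σ, g₁, h₁, fun x ⟨a, ha⟩ => ?_⟩
  have hm : a ∈ K₁ := by
    have := hf.cf x x.2 0
    rwa [← ha, HahnSeries.C_apply, HahnSeries.coeff_single_same] at this
  have e : g x = g₁ x := Subtype.ext <| by
    rw [h₁, ← ha, kl_lm_hc, show x = ι ⟨a, hm⟩ from Subtype.ext ha.symm]
    exact (hτ ⟨a, hm⟩).trans (congrArg hc (t.liftNormal_commutes (Kb K) ⟨a, hm⟩).symm)
  rw [AlgEquiv.mul_apply, e, ← AlgEquiv.mul_apply, inv_mul_cancel, AlgEquiv.one_apply]

end Pool.Agent.ZCy
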