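import Pool.Agent.Lib.MP_751085_ag.ZC.K.LauB

/-! Block K: the function field over the algebraic closure of the constants. -/

namespace Pool.Agent.ZCy

open scoped Classical WithZero IntermediateField
open Polynomial groupCohomology

set_option linter.unusedSectionVars false

variable {K L F : Type} [Field K] [Field L] [Field F] [CharZero K] [Algebra K[X] L]
  [IsFractionRing K[X] L] [Algebra L F] [Algebra L (Om K)] [Algebra F (Om K)]
  [IsScalarTower L F (Om K)] {M : ℕ} (c : Cur K L F M)

include c

theorem kf_char : CharZero L ∧ CharZero F := by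
  have : CharZero L := charZero_of_injective_algebraMap (IsFractionRing.injective K[X] L)
  exact ⟨this, charZero_of_injective_algebraMap (algebraMap L F).injective⟩

theorem kf_fin : FiniteDimensional L F := by
  have h : IsIntegral L c.θ :=
    ⟨c.χ.map (algebraMap K[X] L), c.monic.map _, by rw [eval₂_map]; exact c.root⟩
  have := IntermediateField.adjoin.finiteDimensional h
  rw [c.gen] at this
  exact IntermediateField.topEquiv.toLinearEquiv.finiteDimensional

theorem kf_C (a : K) : toF K[X] L (Om K) (C a) = hc (algebraMap K (Kb K) a) := by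
  rw [c.inf, map_C, kl_tM_C]

theorem kfb_val (p : (Kb K)[X]) : (psb K L F p : Om K) = tM M _ p := by
  have e : (algebraMap (Fb K F) (Om K)).comp (psb K L F) = tM M _ := by
    refine Polynomial.ringHom_ext (fun a => ?_) ?_
    · rw [kl_tM_C, RingHom.comp_apply, psb, coe_eval₂RingHom, eval₂_C]
      rfl
    · rw [RingHom.comp_apply, psb, coe_eval₂RingHom, eval₂_X, ← map_X (algebraMap K (Kb K)),
        ← c.inf]
      rfl
  exact RingHom.congr_fun e p

theorem kf_psb (p : K[X]) : psb K L F (p.map (algebraMap K (Kb K))) = toF K[X] L (Fb K F) p :=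
  Subtype.ext ((kfb_val c _).trans (c.inf p).symm)

theorem kf_psb_val (p : (Kb K)[X]) : (psb K L F p : Om K) = tM M _ p :=
  kfb_val c p

/-- automorphisms of the coefficients over `K` fix `L` -/
theorem kf_lm (σ : Kb K →ₐ[K] Kb K) (x : L) :
    lm (σ : Kb K →+* Kb K) (algebraMap L (Om K) x) = algebraMap L (Om K) x := by
  have e : (lm (σ : Kb K →+* Kb K)).comp (algebraMap L (Om K)) = algebraMap L (Om K) := by
    refine IsLocalization.ringHom_ext (nonZeroDivisors K[X]) (RingHom.ext fun p => ?_)
    change lm _ (toF K[X] L (Om K) p) = toF K[X] L (Om K) p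
    rw [c.inf, kl_lm_tM, Polynomial.map_map, σ.comp_algebraMap]
  exact RingHom.congr_fun e x

/-- The kernel is a prime ideal that contains the irreducible monic `χ` and meets `(Kb K)[X]`
trivially (`kf_psb_val`, `kl_tM_inj`, `kl_ker`). The fractions form a subfield that contains `L`, `θ`, so `F`
(`c.gen`), and the constants. -/
theorem kf_ff : FFd (psb K L F) (algebraMap F (Fb K F) c.θ)
    (c.χ.map (mapRingHom (algebraMap K (Kb K)))) := by
  have e : (psb K L F).comp (mapRingHom (algebraMap K (Kb K))) =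
      (algebraMap F (Fb K F)).comp (toF K[X] L F) := RingHom.ext fun p =>
    (kf_psb c p).trans (IsScalarTower.algebraMap_apply L F (Fb K F) _)
  refine ⟨kl_ker (fun p q h => kl_tM_inj c.pos ?_) (c.monic.map _) c.irr ?_, fun f => ?_⟩
  · rw [← kf_psb_val c, ← kf_psb_val c, h]
  · rw [eval₂_map, e, ← hom_eval₂, c.root, map_zero]
  obtain ⟨ev, hev⟩ : ∃ ev : (Kb K)[X][X] →+* Fb K F,
      ∀ a, ev a = a.eval₂ (psb K L F) (algebraMap F (Fb K F) c.θ) := ⟨eval₂RingHom _ _, fun _ => rfl⟩
  obtain ⟨S, hS⟩ : ∃ S : Subfield (Fb K F), S = Subfield.closure ev.range := ⟨_, rfl⟩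
  have h0 : ∀ a, ev a ∈ S := fun a => hS ▸ Subfield.subset_closure ⟨a, rfl⟩
  have h1 : ∀ p, psb K L F p ∈ S := fun p => by simpa [hev] using h0 (C p)
  have h2 : ∀ x : F, algebraMap F (Fb K F) x ∈ S := fun x => by
    have h3 : ∀ p : K[X], algebraMap F (Fb K F) (algebraMap L F (algebraMap K[X] L p)) ∈ S :=
      fun p => (RingHom.congr_fun e p : psb K L F _ = _) ▸ h1 _
    have hx : x ∈ IntermediateField.adjoin L {c.θ} := c.gen ▸ IntermediateField.mem_top
    induction hx using IntermediateField.adjoin_induction with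
    | mem x hx => obtain rfl : x = c.θ := hx; simpa [hev] using h0 X
    | algebraMap y =>
      obtain ⟨a, b, -, rfl⟩ := IsFractionRing.div_surjective (A := K[X]) y
      rw [map_div₀, map_div₀]
      exact div_mem (h3 a) (h3 b)
    | add x y _ _ hx hy => rw [map_add]; exact add_mem hx hy
    | inv x _ hx => rw [map_inv₀]; exact inv_mem hx
    | mul x y _ _ hx hy => rw [map_mul]; exact mul_mem hx hy
  have hf : f ∈ S := by
    have h4 : (f : Om K) ∈ S.map (algebraMap (Fb K F) (Om K)) := by
      refine IntermediateField.adjoin_induction F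
        (p := fun x _ => x ∈ S.map (algebraMap (Fb K F) (Om K))) ?_ (fun x => ⟨_, h2 x, rfl⟩)
        (fun x y _ _ => add_mem) (fun x _ => inv_mem) (fun x y _ _ => mul_mem) f.2
      rintro _ ⟨a, rfl⟩
      exact ⟨_, h1 (C a), (kf_psb_val c _).trans (kl_tM_C a)⟩
    obtain ⟨y, hy, e⟩ := h4
    exact (Subtype.ext e : y = f) ▸ hy
  rw [hS, Subfield.mem_closure_iff, Subring.closure_eq] at hf
  obtain ⟨_, ⟨a, rfl⟩, _, ⟨b, rfl⟩, rfl⟩ := hf
  by_cases hb : ev b = 0
  · exact ⟨0, 1, by simp, by simp [hb]⟩
  · exact ⟨a, b, hev b ▸ hb, by rw [hev, hev]⟩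

/-- The minimal polynomial of a constant over `F` divides its minimal polynomial over `K`, which
splits in `Fb`; `IntermediateField.splits_of_mem_adjoin` or `normal_iSup`. -/
theorem kf_galois : IsGalois F (Fb K F) := by
  have := (kf_char c).2
  obtain ⟨ι, hι⟩ : ∃ ι : K →+* F, (algebraMap F (Fb K F)).comp ι =
      (cb K F).comp (algebraMap K (Kb K)) :=
    ⟨(toF K[X] L F).comp C, RingHom.ext fun a => Subtype.ext
      ((IsScalarTower.algebraMap_apply L F (Om K) _).symm.trans (kf_C c a))⟩
  have h : ∀ x ∈ Set.range (hc : Kb K →+* Om K),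
      IsIntegral F x ∧ ((minpoly F x).map (algebraMap F (Fb K F))).Splits := by
    rintro _ ⟨a, rfl⟩
    have hm : ((minpoly K a).map ι).Monic := (minpoly.monic (Algebra.IsIntegral.isIntegral a)).map ι
    have h1 : aeval (cb K F a) ((minpoly K a).map ι) = 0 := by
      rw [aeval_def, eval₂_map, hι, ← hom_eval₂, ← aeval_def, minpoly.aeval, map_zero]
    have h2 : aeval (hc a : Om K) ((minpoly K a).map ι) = 0 :=
      (aeval_algebraMap_apply (Om K) (cb K F a) _).trans (by rw [h1, map_zero])
    refine ⟨⟨_, hm, h2⟩, Splits.of_dvd ?_ (hm.map _).ne_zero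
      (Polynomial.map_dvd _ (minpoly.dvd F _ h2))⟩
    rw [Polynomial.map_map, hι, ← Polynomial.map_map]
    exact (IsAlgClosed.splits _).map _
  have h1 : Algebra.IsAlgebraic F (Fb K F) := IntermediateField.isAlgebraic_adjoin fun x hx =>
    (h x hx).1
  have : Normal F (Fb K F) := normal_iff.2 fun x => ⟨Algebra.IsIntegral.isIntegral x, by
    rw [IntermediateField.minpoly_eq]
    exact IntermediateField.splits_of_mem_adjoin F (Om K) h x.2⟩
  exact ⟨⟩

end Pool.Agent.ZCy
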