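import Pool.Agent.Lib.MP_751085_ag.ZC.K.Fb
import Pool.Agent.Lib.MP_751085_ag.ZC.K.DivC
import Pool.Agent.Lib.MP_751085_ag.ZC.A5b

/-! Block K: the function field over the algebraic closure of the constants. -/

namespace Pool.Agent.ZCy

open scoped Classical WithZero IntermediateField
open Polynomial groupCohomology

set_option linter.unusedSectionVars false

variable {K L F : Type} [Field K] [Field L] [Field F] [CharZero K] [Algebra K[X] L]
  [IsFractionRing K[X] L] [Algebra L F] [Algebra L (Om K)] [Algebra F (Om K)]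
  [IsScalarTower L F (Om K)] {M : ℕ} (c : Cur K L F M)

include c

omit c in
theorem kfbb_C (a : Kb K) : psb K L F (C a) = cb K F a := eval₂_C _ _

omit c in
theorem kfbb_X : psb K L F X = toF K[X] L (Fb K F) X := eval₂_X _ _

/-- `φ ∘ cb` takes values in the constants (`kl_const`), so it is `hc ∘ σ` with a `K`-endomorphism
`σ` of `Kb K`, which is bijective; replace `φ` by `lm σ⁻¹ ∘ φ` (`kl_lv_lm`, `kl_lm_tA`). -/
theorem kf_good (v : Vl (Fb K F)) : GoodV (algebraMap K (Kb K)) (toF K[X] L (Fb K F)) c.Ψ v ↔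
    GoodV (RingHom.id _) (psb K L F) (c.Ψ.map (algebraMap K (Kb K))) v := by
  constructor
  · rintro ⟨t, φ, ht, hφ, hv⟩
    have h1 : ∀ b : K, φ (cb K F (algebraMap K (Kb K) b)) = hc (algebraMap K (Kb K) b) := fun b => by
      rw [← kfbb_C (L := L), ← map_C, kf_psb c, hφ, map_C, kl_tA_C]
    have h2 : ∀ a : Kb K, ∃ a', φ (cb K F a) = hc a' := fun a => by
      have hi : IsIntegral K a := Algebra.IsIntegral.isIntegral a
      refine (kl_const (algebraMap K (Kb K)) (minpoly.ne_zero hi) ?_).imp fun _ h => h.1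
      have e : hc.comp (algebraMap K (Kb K)) = (φ.comp (cb K F)).comp (algebraMap K (Kb K)) :=
        RingHom.ext fun b => (h1 b).symm
      rw [e]
      refine (hom_eval₂ _ _ (φ.comp (cb K F)) a).symm.trans ?_
      rw [← aeval_def, minpoly.aeval, map_zero]
    choose s hs using h2
    have hi : Function.Injective (hc : Kb K →+* Om K) := RingHom.injective _
    let σ : Kb K →ₐ[K] Kb K :=
      { toFun := s
        map_one' := hi (by rw [← hs, map_one, map_one, map_one])
        map_mul' := fun a b => hi (by rw [map_mul, ← hs, ← hs, ← hs, map_mul, map_mul])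
        map_zero' := hi (by rw [← hs, map_zero, map_zero, map_zero])
        map_add' := fun a b => hi (by rw [map_add, ← hs, ← hs, ← hs, map_add, map_add])
        commutes' := fun b => hi (by rw [← hs, h1]) }
    let e := (AlgEquiv.ofBijective σ (Algebra.IsAlgebraic.algHom_bijective σ)).symm
    refine ⟨e t, (lm (e : Kb K →+* Kb K)).comp φ, ?_, fun p => ?_, fun x => ?_⟩
    · rw [eval₂_map, RingHom.id_comp, ← aeval_def, aeval_algHom_apply, _root_.map_ne_zero]
      exact ht
    · rw [Polynomial.map_id]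
      refine RingHom.congr_fun (f := ((lm (e : Kb K →+* Kb K)).comp φ).comp (psb K L F))
        (Polynomial.ringHom_ext (fun a => ?_) ?_) p
      · rw [RingHom.comp_apply, RingHom.comp_apply, kfbb_C, hs, kl_lm_hc, kl_tA_C]
        exact congrArg _ (e.apply_symm_apply a)
      · rw [RingHom.comp_apply, RingHom.comp_apply, kfbb_X, hφ, kl_lm_tA, map_X, map_X]
        rfl
    · rw [hv, RingHom.comp_apply, kl_lv_lm]
  · rintro ⟨t, φ, ht, hφ, hv⟩
    refine ⟨t, φ, by rwa [eval₂_map, RingHom.id_comp] at ht, fun p => ?_, hv⟩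
    rw [← kf_psb c, hφ, Polynomial.map_id]

theorem kf_stb : Stb F {v | GoodV (algebraMap K (Kb K)) (toF K[X] L (Fb K F)) c.Ψ v} := by
  rintro g w ⟨t, φ, ht, hφ, hv⟩
  refine ⟨t, φ.comp (g.symm : Fb K F →+* Fb K F), ht, fun p => ?_, fun x => hv _⟩
  rw [← hφ]
  exact congrArg φ (g.symm.commutes (algebraMap L F (algebraMap K[X] L p)) |> fun h => by
    rwa [← IsScalarTower.algebraMap_apply L F (Fb K F)] at h)

/-- `kf_good`, `kd_finite` -/
theorem kf_finite (f : Fb K F) :
    {v | GoodV (algebraMap K (Kb K)) (toF K[X] L (Fb K F)) c.Ψ v ∧ ord v f ≠ 0}.Finite := by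
  simp only [kf_good c]
  exact kd_finite (kf_ff c) (c.monic.map _) c.irr f

/-- `kf_good`, `kd_div` -/
theorem kf_div (D : Vl (Fb K F) → ℤ)
    (hD : {v | GoodV (algebraMap K (Kb K)) (toF K[X] L (Fb K F)) c.Ψ v ∧ D v ≠ 0}.Finite) :
    ∃ y : Fb K F, y ≠ 0 ∧ ∀ v, GoodV (algebraMap K (Kb K)) (toF K[X] L (Fb K F)) c.Ψ v →
      (M : ℤ) ∣ ord v y - c.δ * D v := by
  simp only [kf_good c] at hD ⊢
  obtain ⟨r, α, β, hb⟩ := c.bez
  have e := congrArg (map (mapRingHom (algebraMap K (Kb K)))) hb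
  rw [map_C, Polynomial.map_add, Polynomial.map_mul, Polynomial.map_mul, ← derivative_map,
    map_pow, coe_mapRingHom] at e
  have := kd_div (kf_ff c) (c.monic.map _) c.irr e
    (Polynomial.map_ne_zero c.ne) c.pos D hD
  rwa [c.monic.natDegree_map, c.deg] at this

/-- `tsen` with the algebra structure `cb`: `Fb` is generated by `θ` over `(Kb K)⟮τ⟯` (`kf_ff`). -/
theorem kf_tsen (a : BR (Fb K F)) : a = 0 := by
  let : Algebra (Kb K) (Fb K F) := (cb K F).toAlgebra
  let τ := toF K[X] L (Fb K F) X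
  let θ := algebraMap F (Fb K F) c.θ
  let ψ : (Kb K)[X] →+* (Kb K)⟮τ⟯ := (aeval (IntermediateField.AdjoinSimple.gen (Kb K) τ)).toRingHom
  have e : (algebraMap (Kb K)⟮τ⟯ (Fb K F)).comp ψ = psb K L F :=
    Polynomial.ringHom_ext (fun a => by rw [kfbb_C]; exact congrArg Subtype.val (aeval_C _ a))
      (by rw [kfbb_X]; exact congrArg Subtype.val (aeval_X _))
  have h1 : ∀ q : (Kb K)[X][X], q.eval₂ (psb K L F) θ = aeval θ (q.map ψ) := fun q => by
    rw [aeval_def, eval₂_map, e]
  have hi : IsIntegral (Kb K)⟮τ⟯ θ := ⟨_, (c.monic.map _).map ψ, by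
    rw [← aeval_def, ← h1]
    exact ((kf_ff c).ker _).2 dvd_rfl⟩
  have h2 : ∀ q : (Kb K)[X][X], q.eval₂ (psb K L F) θ ∈ (Kb K)⟮τ⟯⟮θ⟯ := fun q => by
    rw [h1]
    exact IntermediateField.algebra_adjoin_le_adjoin _ _ (aeval_mem_adjoin_singleton _ _)
  have ht : (Kb K)⟮τ⟯⟮θ⟯ = ⊤ := eq_top_iff.2 fun f _ => by
    obtain ⟨p, q, -, rfl⟩ := (kf_ff c).frac f
    exact div_mem (h2 p) (h2 q)
  have hf := IntermediateField.adjoin.finiteDimensional hi
  rw [ht] at hf
  have : FiniteDimensional (Kb K)⟮τ⟯ (Fb K F) :=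
    Module.Finite.equiv IntermediateField.topEquiv.toLinearEquiv
  exact tsen (k := Kb K) τ a

end Pool.Agent.ZCy
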