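import Pool.Agent.Lib.MP_751085_ag.ZC.K.Fb
import Pool.Agent.Lib.MP_751085_ag.ZC.K.Hen

/-! Block K: the function field over the algebraic closure of the constants. -/

namespace Pool.Agent.ZCy

open scoped Classical WithZero IntermediateField
open Polynomial groupCohomology

set_option linter.unusedSectionVars false

variable {K L F : Type} [Field K] [Field L] [Field F] [CharZero K] [Algebra K[X] L]
  [IsFractionRing K[X] L] [Algebra L F] [Algebra L (Om K)] [Algebra F (Om K)]
  [IsScalarTower L F (Om K)] {M : ℕ} (c : Cur K L F M)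

include c

/-- `kh_at` -/
theorem kf_spl_at {t : Kb K} (ht : c.Ψ.eval₂ (algebraMap K (Kb K)) t ≠ 0) :
    (c.χ.map ((tA t).comp (mapRingHom (algebraMap K (Kb K))))).Splits := by
  obtain ⟨r, α, β, e⟩ := c.bez
  have e' := congrArg (Polynomial.map (mapRingHom (algebraMap K (Kb K)))) e
  rw [map_C, Polynomial.map_add, Polynomial.map_mul, Polynomial.map_mul, ← derivative_map] at e'
  rw [← Polynomial.map_map]
  refine kh_at (c.monic.map _) e' ?_
  rw [coe_mapRingHom, eval_map, eval₂_pow]
  exact pow_ne_zero _ ht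

/-- `c.spl` mapped by `ram`; a root in the domain `Om K` is one of the listed roots -/
theorem kf_spl_inf : (c.χ.map (toF K[X] L (Om K))).Splits ∧
    ∀ η : Om K, c.χ.eval₂ (toF K[X] L (Om K)) η = 0 → η ∈ (ram (Kb K) c.pos).range := by
  have e : c.χ.map (toF K[X] L (Om K)) = (c.χ.map ((tL (Kb K)).comp
      (mapRingHom (algebraMap K (Kb K))))).map (ram (Kb K) c.pos) := by
    rw [Polynomial.map_map]
    congr 1
    exact RingHom.ext fun p => (c.inf p).trans (kl_ram_tL c.pos _).symm
  refine ⟨e ▸ c.spl.map _, fun η h => c.spl.mem_range_of_isRoot (c.monic.map _).ne_zero ?_⟩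
  rw [← e, IsRoot, eval_map, h]

end Pool.Agent.ZCy
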