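import Pool.Agent.Lib.MP_751085_ag.ZC.Z.Cst
import Pool.Agent.Lib.MP_751085_ag.ZC.Z.Sec1

/-! Good reduction: base change of a Galois extension. -/

namespace Pool.Agent.ZCy

open scoped Classical WithZero
open Polynomial

theorem kg0_comp {F₀ F₁ E₀ Ω : Type} [Field F₀] [Field F₁] [Field E₀] [Field Ω] [Algebra F₀ E₀]
    [FiniteDimensional F₀ E₀] [IsGalois F₀ E₀] (f : F₀ →+* F₁) (l : F₁ →+* Ω) (J : E₀ →+* Ω)
    (h : ∀ a, J (algebraMap F₀ E₀ a) = l (f a)) :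
    ∃ (E₁ : Type) (_ : Field E₁) (_ : Algebra F₁ E₁) (_ : FiniteDimensional F₁ E₁)
      (_ : IsGalois F₁ E₁) (j : E₀ →+* E₁) (J₁ : E₁ →+* Ω)
      (r : (E₁ ≃ₐ[F₁] E₁) →* (E₀ ≃ₐ[F₀] E₀)),
      (∀ a, j (algebraMap F₀ E₀ a) = algebraMap F₁ E₁ (f a)) ∧
      (∀ a, J₁ (algebraMap F₁ E₁ a) = l a) ∧ (∀ z, J₁ (j z) = J z) ∧ Function.Injective r ∧
      ∀ g z, j (r g z) = g (j z) := by
  obtain ⟨E₁, _, _, _, _, j₀, J₁, h1, h2, h3⟩ := exists_comp f l J h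
  obtain ⟨σ, hσ⟩ : ∃ σ : E₀ ≃ₐ[F₀] E₀, ∀ z, J₁ (j₀ (σ z)) = J z := by
    let _ := (l.comp f).toAlgebra
    let _ := (J₁.comp j₀).toAlgebra
    have : IsScalarTower F₀ E₀ Ω := .of_algebraMap_eq fun a => by
      show l (f a) = J₁ (j₀ _)
      rw [h1, h2]
    let B : E₀ →ₐ[F₀] Ω := { J with commutes' := h }
    exact ⟨B.restrictNormal' E₀, fun z => B.restrictNormal_commutes E₀ z⟩
  let j : E₀ →+* E₁ := j₀.comp σ
  have hj : ∀ a, j (algebraMap F₀ E₀ a) = algebraMap F₁ E₁ (f a) := fun a => by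
    show j₀ (σ _) = _
    rw [σ.commutes, h1]
  choose r hr using fun g : E₁ ≃ₐ[F₁] E₁ => exists_restrict (K := F₀) j (g : E₁ →+* E₁)
    fun a => by rw [hj]; exact g.commutes _
  have hr' : ∀ g z, j (r g z) = g (j z) := hr
  refine ⟨E₁, inferInstance, inferInstance, inferInstance, inferInstance, j, J₁,
    MonoidHom.mk' r fun g g' => AlgEquiv.ext fun z => j.injective ?_, hj, h2, hσ,
    (injective_iff_map_eq_one _).2 fun g hg => h3 g fun z => ?_, hr'⟩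
  · rw [AlgEquiv.mul_apply, hr', hr', hr', AlgEquiv.mul_apply]
  · obtain ⟨y, rfl⟩ := σ.surjective z
    have e : r g = 1 := hg
    have := hr' g y
    rw [e] at this
    exact this.symm

variable {L F N F₁ E₁ : Type} [Field L] [Field F] [Field N] [Field F₁] [Field E₁] [Algebra L[X] F]
  [IsFractionRing L[X] F] [Algebra F N] [FiniteDimensional F N] [IsGalois F N] [Algebra F₁ E₁]
  {j : N →+* E₁} {r : (E₁ ≃ₐ[F₁] E₁) →* (N ≃ₐ[F] N)}

theorem kg0_unr (hi : Function.Injective r) (hr : ∀ g z, j (r g z) = g (j z)) {Ψ : L[X]}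
    (hu : UnrOff F (toF L[X] F N) Ψ) {w : Vl E₁} (h1 : ∀ p, w (j (toF L[X] F N p)) ≤ 1)
    (h2 : w (j (toF L[X] F N Ψ)) = 1) : Ine F₁ w = ⊥ := by
  have h := unr_of_le hu (w := w.comap j) h1 h2
  refine eq_bot_iff.2 fun g hg => hi ?_
  have : r g ∈ Ine F (w.comap j) := ⟨fun x => by
    show w (j _) = w (j x)
    rw [hr, hg.1], fun x hx => by
    show w (j _) < 1
    rw [map_sub, hr]
    exact hg.2 _ hx⟩
  rw [h] at this
  rw [map_one]
  exact this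

theorem kg0_onto {KK : Type} [Field KK] [Algebra KK[X] F₁] [IsFractionRing KK[X] F₁]
    [FiniteDimensional F₁ E₁] [IsGalois F₁ E₁] (hr : ∀ g z, j (r g z) = g (j z)) {M : ℕ}
    (hM : 0 < M) (γ : L →+* KK) {ι : N →+* Ls L} (hι : ∀ p, ι (toF L[X] F N p) = tM M L p)
    {J₁ : E₁ →+* Ls KK} (h1 : ∀ p, J₁ (toF KK[X] F₁ E₁ p) = tM M KK p)
    (h2 : ∀ z, J₁ (j z) = lm γ (ι z)) : Function.Surjective r := by
  rw [← MonoidHom.range_eq_top, ← IntermediateField.fixingSubgroup_fixedField r.range,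
    ← IntermediateField.fixingSubgroup_bot]
  refine congrArg _ (eq_bot_iff.2 fun x hx => ?_)
  obtain ⟨y, hy⟩ := (IsGalois.mem_bot_iff_fixed (F := F₁) (j x)).2 fun g => by
    rw [← hr]
    exact congrArg j (hx ⟨r g, g, rfl⟩)
  obtain ⟨⟨a, b⟩, e⟩ := IsLocalization.surj (nonZeroDivisors KK[X]) y
  have e1 : lm γ (ι x) * tM M KK b = tM M KK a := by
    rw [← h1, ← h1, ← h2, ← map_mul, ← hy]
    exact congrArg J₁ ((map_mul (algebraMap F₁ E₁) _ _).symm.trans (congrArg _ e))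
  obtain ⟨a', b', hb, e2⟩ := frac_of_coeff γ hM _ a b (nonZeroDivisors.coe_ne_zero b) e1
  rw [← hι, ← hι, ← map_mul] at e2
  have e3 := ι.injective e2
  have hb' : algebraMap F N (algebraMap L[X] F b') ≠ 0 := by simpa using hb
  refine ⟨algebraMap L[X] F a' / algebraMap L[X] F b', ?_⟩
  show algebraMap F N _ = x
  rw [map_div₀, div_eq_iff hb']
  exact e3.symm

end Pool.Agent.ZCy
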