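import Pool.Agent.Lib.MP_751085_ag.ZC.V.AdK
import Pool.Agent.Lib.MP_751085_ag.ZC.Z.ZDefs
import Pool.Agent.Lib.MP_751085_ag.ZC.V.Zor

/-! Good reduction: the big ring of constants and the Gauss valuation on power series. -/

namespace Pool.Agent.ZCy

open scoped Classical WithZero PowerSeries
open Polynomial

theorem kg0b_dvd {R : Type} [CommRing R] (π : R) (a : R⟦X⟧) :
    PowerSeries.C π ∣ a ↔ ∀ j, π ∣ PowerSeries.coeff j a := by
  refine ⟨?_, fun h => ?_⟩
  · rintro ⟨b, rfl⟩ j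
    exact ⟨_, PowerSeries.coeff_C_mul _ _ _⟩
  · choose b hb using h
    exact ⟨PowerSeries.mk b, PowerSeries.ext fun j => by
      rw [PowerSeries.coeff_C_mul, PowerSeries.coeff_mk, hb]⟩

theorem kg0b_prime {R : Type} [CommRing R] {π : R} (h : Prime π) :
    Prime (PowerSeries.C π : R⟦X⟧) := by
  have := (Ideal.span_singleton_prime h.ne_zero).2 h
  have e : ∀ a : R⟦X⟧, PowerSeries.C π ∣ a ↔
      PowerSeries.map (Ideal.Quotient.mk (Ideal.span {π})) a = 0 := fun a => by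
    simp [kg0b_dvd, PowerSeries.ext_iff, Ideal.Quotient.eq_zero_iff_dvd]
  refine ⟨fun u => h.ne_zero (by simpa using congrArg PowerSeries.constantCoeff u),
    fun u => h.not_isUnit (by simpa using u.map PowerSeries.constantCoeff), fun a b => ?_⟩
  rw [e, e, e, map_mul]
  exact mul_eq_zero.1

theorem kg0b_one {A K : Type} [CommRing A] [Field K] {φ : A →+* K} {v : Vl K} {P a : A}
    (h : Cen φ v P) (ha : ¬P ∣ a) : v (φ a) = 1 :=
  (h.1 a).antisymm (not_lt.1 fun u => ha ((h.2 a).1 u))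

/-- the Gauss valuation -/
theorem kg0_val {R : Type} [CommRing R] [IsDomain R] [IsDiscreteValuationRing R] {π : R}
    (hπ : Irreducible π) : ∃ (v : Vl (Fr R⟦X⟧)) (A' : Vl (Fr R)),
      Cen (algebraMap R (Fr R)) A' π ∧ A' (algebraMap R (Fr R) π) = WithZero.exp (-1) ∧
      v (algebraMap R⟦X⟧ (Fr R⟦X⟧) PowerSeries.X) = 1 ∧ ∀ a : R⟦X⟧,
        (∀ j, A' (algebraMap R (Fr R) (PowerSeries.coeff j a)) ≤ v (algebraMap R⟦X⟧ _ a)) ∧
        ∃ j, A' (algebraMap R (Fr R) (PowerSeries.coeff j a)) = v (algebraMap R⟦X⟧ _ a) := by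
  have hp := kg0b_prime hπ.prime
  obtain ⟨v, h1, h2⟩ := kv_prime (K := Fr R⟦X⟧) hp
  obtain ⟨A', h3, h4⟩ := kv_prime (K := Fr R) hπ.prime
  refine ⟨v, A', h3, h4, kg0b_one h1 fun u => hπ.prime.not_dvd_one (by
    simpa using (kg0b_dvd _ _).1 u 1), fun a => ?_⟩
  rcases eq_or_ne a 0 with rfl | ha
  · simp
  obtain ⟨n, b, hb, rfl⟩ := WfDvdMonoid.max_power_factor ha hp.irreducible
  obtain ⟨j, hj⟩ := not_forall.1 fun u => hb ((kg0b_dvd _ _).2 u)
  rw [map_mul, map_pow, map_mul, map_pow, h2, kg0b_one h1 hb]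
  simp only [← map_pow PowerSeries.C, PowerSeries.coeff_C_mul, map_mul]
  rw [map_pow, map_pow, h4]
  exact ⟨fun i => mul_le_mul_right (h3.1 _) _, j, by rw [kg0b_one h3 hj]⟩

/-- `zorn_ring` for the ring of integers of `A` -/
theorem kg0_zorn {L : Type} [Field L] [CharZero L] {A : Vl L} (hA : Nrm A) :
    ∃ (R : Type) (_ : CommRing R) (_ : IsDomain R) (_ : CDVR R) (_ : CharZero R)
      (_ : IsAlgClosed (IsLocalRing.ResidueField R)) (π : R) (φ : A.integer →+* R)
      (γ : L →+* Fr R), Irreducible π ∧ (∀ a : A.integer, γ a = algebraMap R (Fr R) (φ a)) ∧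
      ∀ A' : Vl (Fr R), Cen (algebraMap R (Fr R)) A' π →
        A' (algebraMap R (Fr R) π) = WithZero.exp (-1) → ∀ x, A' (γ x) = A x := by
  obtain ⟨ϖ, hϖ⟩ := hA
  let p : A.integer := ⟨ϖ, hϖ.trans_le (WithZero.exp_le_exp.2 (by decide : (-1 : ℤ) ≤ 0))⟩
  have I := Valuation.integer.integers A
  have k1 : ∀ x : A.integer, x ≠ 0 → ∃ n : ℕ, A x = WithZero.exp (-(n : ℤ)) := fun x hx => by
    have h0 : A x ≠ 0 := (map_ne_zero A).2 fun u => hx (Subtype.ext u)
    have h1 : WithZero.log (A x) ≤ 0 := (WithZero.log_le_iff_le_exp h0).2 x.2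
    exact ⟨(-WithZero.log (A x)).toNat, by
      rw [Int.toNat_of_nonneg (neg_nonneg.2 h1), neg_neg, WithZero.exp_log h0]⟩
  have k2 : ∀ x : A.integer, x ≠ 0 → ∃ n : ℕ, Associated (p ^ n) x := fun x hx => by
    obtain ⟨n, hn⟩ := k1 x hx
    have e : A (algebraMap _ L (p ^ n)) = A (algebraMap _ L x) := by
      rw [map_pow, map_pow]
      exact (congrArg (· ^ n) hϖ).trans (Eq.trans (by simp [← WithZero.exp_nsmul]) hn.symm)
    exact ⟨n, associated_of_dvd_dvd (I.dvd_of_le e.ge) (I.dvd_of_le e.le)⟩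
  have hp : Irreducible p := by
    refine ⟨fun u => ?_, fun a b e => ?_⟩
    · exact absurd (WithZero.exp_injective (hϖ.symm.trans (I.one_of_isUnit u))) (by decide)
    have e' : A ϖ = A a * A b := (congrArg (fun z : A.integer => A z) e).trans (map_mul A _ _)
    have h0 : A a * A b ≠ 0 := by rw [← e', hϖ]; exact WithZero.exp_ne_zero
    obtain ⟨m, hm⟩ := k1 a fun u => h0 (by simp [u])
    obtain ⟨n, hn⟩ := k1 b fun u => h0 (by simp [u])
    rw [hϖ, hm, hn, ← WithZero.exp_add, WithZero.exp_inj] at e'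
    rcases (by omega : m = 0 ∨ n = 0) with rfl | rfl
    · exact Or.inl (I.isUnit_of_one' hm)
    · exact Or.inr (I.isUnit_of_one' hn)
  have := IsDiscreteValuationRing.ofHasUnitMulPowIrreducibleFactorization ⟨p, hp, fun {x} => k2 x⟩
  obtain ⟨R, _, _, _, φ, h1, h2, h3⟩ := zorn_ring A.integer
  rw [hp.maximalIdeal_eq, Ideal.map_span, Set.image_singleton] at h3
  have hi : Function.Injective ((algebraMap R (Fr R)).comp φ) :=
    (IsFractionRing.injective R (Fr R)).comp h1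
  have hγ := IsFractionRing.lift_algebraMap (K := L) hi
  refine ⟨R, _, _, ‹_›, charZero_of_injective_ringHom h1, h2, φ p, φ, IsFractionRing.lift hi,
    (IsDiscreteValuationRing.irreducible_iff_uniformizer _).2 h3.symm, hγ, fun A' c1 c2 x => ?_⟩
  have k3 : ∀ a : A.integer, A' (IsFractionRing.lift hi (algebraMap _ L a)) =
      A (algebraMap _ L a) := fun a => by
    rcases eq_or_ne a 0 with rfl | ha
    · simp
    obtain ⟨n, u, rfl⟩ := k2 a ha
    rw [hγ]
    simp only [map_mul, map_pow, RingHom.comp_apply, c2, I.one_of_isUnit u.isUnit,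
      Valuation.Integers.one_of_isUnit' (u.isUnit.map φ) c1.1]
    exact congrArg (· ^ n * 1) hϖ.symm
  obtain ⟨a, b, -, rfl⟩ := IsFractionRing.div_surjective A.integer x
  rw [map_div₀, map_div₀, map_div₀, k3, k3]

/-- `IsFractionRing.lift` -/
theorem kg0_om (R : Type) [CommRing R] [IsDomain R] : ∃ ω : Fr R⟦X⟧ →+* Ls (Fr R), ∀ a : R⟦X⟧,
    ω (algebraMap R⟦X⟧ _ a) = (PowerSeries.map (algebraMap R (Fr R)) a : Ls (Fr R)) := by
  have hi : Function.Injective ((HahnSeries.ofPowerSeries ℤ (Fr R)).comp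
      (PowerSeries.map (algebraMap R (Fr R)))) := fun _ _ e =>
    PowerSeries.map_injective _ (IsFractionRing.injective R (Fr R))
      (HahnSeries.ofPowerSeries_injective (Γ := ℤ) (R := Fr R) e)
  exact ⟨IsFractionRing.lift hi, IsFractionRing.lift_algebraMap hi⟩

end Pool.Agent.ZCy
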