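import Pool.Agent.Lib.MP_751085_ag.ZC.K.G0a
import Pool.Agent.Lib.MP_751085_ag.ZC.V.Rig

/-! Good reduction: the expansions have bounded denominators. -/

namespace Pool.Agent.ZCy

open scoped Classical WithZero PowerSeries
open Polynomial

set_option linter.unusedSectionVars false

variable {L F N R : Type} [Field L] [Field F] [Field N] [Algebra L[X] F] [IsFractionRing L[X] F]
  [Algebra F N] [FiniteDimensional F N] [IsGalois F N] [CommRing R] [IsDomain R] [CDVR R]
  [CharZero R] [IsAlgClosed (IsLocalRing.ResidueField R)] {M : ℕ} (hM : 0 < M) {ι : N →+* Ls L}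
  (hι : ∀ p, ι (toF L[X] F N p) = tM M L p) (γ : L →+* Fr R) {ω : Fr R⟦X⟧ →+* Ls (Fr R)}
  (hω : ∀ a : R⟦X⟧, ω (algebraMap R⟦X⟧ _ a) = (PowerSeries.map (algebraMap R (Fr R)) a : Ls (Fr R)))

include hM hι hω

/-- `rig_frac` for the base change along `τ ↦ X⁻¹ ^ M`, with `Θ = expand R M Ψ'.reverse` -/
theorem kg0_rig {Ψ : L[X]} {Ψ' : R[X]} (hΨ : Ψ.map γ = Ψ'.map (algebraMap R (Fr R)))
    (hl : IsUnit Ψ'.leadingCoeff) (hG : IsUnit (Nat.card (N ≃ₐ[F] N) : R))
    (hu : UnrOff F (toF L[X] F N) Ψ) : ∃ J : N →+* Fr R⟦X⟧, ∀ z, ω (J z) = lm γ (ι z) := by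
  let i : (Fr R)[X] →+* Ls (Fr R) :=
    (HahnSeries.ofPowerSeries ℤ (Fr R)).comp coeToPowerSeries.ringHom
  have hi : Function.Injective i :=
    (HahnSeries.ofPowerSeries_injective (Γ := ℤ)).comp (coe_injective _)
  let l : Fr (Fr R)[X] →+* Ls (Fr R) := IsFractionRing.lift hi
  have hl' : ∀ p, l (algebraMap _ _ p) = i p := IsFractionRing.lift_algebraMap hi
  let f₀ : L[X] →+* Fr (Fr R)[X] := eval₂RingHom ((algebraMap (Fr R)[X] _).comp (C.comp γ))
    ((algebraMap (Fr R)[X] _ X)⁻¹ ^ M)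
  have h0 : l.comp f₀ = (tM M (Fr R)).comp (mapRingHom γ) := by
    refine ringHom_ext (fun a => ?_) ?_
    · simp only [f₀, tM, RingHom.comp_apply, coe_eval₂RingHom, eval₂_C, coe_mapRingHom, map_C, hl']
      simp [i]
    · simp only [f₀, tM, RingHom.comp_apply, coe_eval₂RingHom, eval₂_X, coe_mapRingHom, map_X,
        map_pow, map_inv₀, hl']
      simp [i]
  have hf : Function.Injective f₀ := .of_comp (f := l) (by
    rw [← RingHom.coe_comp, h0]; exact (tM_injective hM).comp (map_injective γ γ.injective))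
  obtain ⟨E, _, _, _, _, j, J, r, h1, h2, h3, h4, h5⟩ := kg0_comp
    (IsFractionRing.lift hf : F →+* _) l ((lm γ).comp ι) (RingHom.congr_fun
      (f := ((lm γ).comp ι).comp (algebraMap F N)) (g := l.comp (IsFractionRing.lift hf))
      (IsFractionRing.ringHom_ext (A := L[X]) fun p => by
        rw [RingHom.comp_apply l, IsFractionRing.lift_algebraMap, ← RingHom.comp_apply l, h0]
        exact (congrArg (lm γ) (hι p)).trans (lm_tM γ M p)))
  have h6 : ∀ p, j (toF L[X] F N p) = p.eval₂ ((toE (Fr R)[X] E).comp (C.comp γ))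
      ((toE (Fr R)[X] E X)⁻¹ ^ M) := fun p => by
    rw [RingHom.comp_apply, h1, IsFractionRing.lift_algebraMap, coe_eval₂RingHom, hom_eval₂,
      map_pow, map_inv₀]
    rfl
  have key := rig_frac (E := E) (Θ := expand R M Ψ'.reverse) (isFr_alg R (Fr R))
    (isFr_alg (Fr R)[X] (Fr (Fr R)[X]))
    (isUnit_of_dvd_unit (Nat.cast_dvd_cast (Subgroup.card_dvd_of_injective r h4)) hG) J
    (fun p => (h2 _).trans (hl' p)) (by
      rw [← zero_mul M, coeff_expand_mul hM, coeff_zero_reverse]; exact hl) fun P w _ hP hw => by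
    have e : ∀ a, ¬P ∣ a → w (toE (Fr R)[X] E a) = 1 := fun a ha =>
      (hw.1 a).eq_or_lt.resolve_right fun h => ha ((hw.2 a).1 h)
    have eX := e X fun h => hP (h.mul_right _)
    have eΘ := e _ fun h => hP (h.mul_left _)
    have eY : w ((toE (Fr R)[X] E X)⁻¹ ^ M) = 1 := by rw [map_pow, map_inv₀, eX, inv_one, one_pow]
    refine kg0_unr h4 h5 hu (fun p => ?_) ?_
    · rw [h6, eval₂_eq_sum_range]
      refine w.map_sum_le fun n _ => ?_
      rw [map_mul, map_pow, eY, one_pow, mul_one]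
      exact hw.1 _
    · let := invertibleOfNonzero (a := (toE (Fr R)[X] E X)⁻¹ ^ M) fun h =>
        zero_ne_one (by rwa [h, map_zero] at eY)
      have e1 : ((toE (Fr R)[X] E).comp (mapRingHom (algebraMap R (Fr R)))).comp
          (expand R M : R[X] →+* R[X]) = eval₂RingHom
            (((toE (Fr R)[X] E).comp C).comp (algebraMap R (Fr R))) (toE (Fr R)[X] E X ^ M) :=
        ringHom_ext (fun a => by simp) (by simp)
      rw [h6, ← RingHom.comp_assoc, ← eval₂_map, hΨ, eval₂_map, ← eval₂_reverse_mul_pow, map_mul,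
        map_pow, eY, one_pow, mul_one, invOf_eq_inv, inv_pow, inv_inv]
      exact (congrArg w (RingHom.congr_fun e1 _)).symm.trans eΘ
  choose u hu' using fun z : N => show ∃ y, ω y = lm γ (ι z) by
    obtain ⟨a, b, hb, e⟩ := key (j z)
    rw [h3, show lau _ b = _ from (hω b).symm, show lau _ a = _ from (hω a).symm] at e
    refine ⟨algebraMap _ _ a / algebraMap _ _ b, ?_⟩
    rw [map_div₀, ← e, mul_div_cancel_right₀ _ ((map_ne_zero ω).2
      ((map_ne_zero_iff _ (IsFractionRing.injective R⟦X⟧ _)).2 hb))]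
    rfl
  exact ⟨⟨⟨⟨u, ω.injective (by simp [hu'])⟩, fun _ _ => ω.injective (by simp [hu'])⟩,
    ω.injective (by simp [hu']), fun _ _ => ω.injective (by simp [hu'])⟩, hu'⟩

end Pool.Agent.ZCy
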