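import Pool.Agent.Lib.MP_751085_ag.ZC.Z.Pole

/-! Good reduction: the value of an integral element. -/

namespace Pool.Agent.ZCy

open scoped Classical WithZero PowerSeries
open Polynomial

set_option linter.unusedSectionVars false

theorem kg0d_lm {R S : Type} [CommRing R] [CommRing S] (f : R →+* S) (a : R⟦X⟧) :
    lm f (a : Ls R) = (PowerSeries.map f a : Ls S) := by
  ext j
  rw [lm_coeff, PowerSeries.coeff_coe, PowerSeries.coeff_coe]
  split_ifs <;> simp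

variable {L F N R : Type} [Field L] [Field F] [Field N] [Algebra L[X] F] [IsFractionRing L[X] F]
  [Algebra F N] [FiniteDimensional F N] [IsGalois F N] [CommRing R] [IsDomain R] [CDVR R]
  [CharZero R] [IsAlgClosed (IsLocalRing.ResidueField R)] {M : ℕ} (hM : 0 < M) {ι : N →+* Ls L}
  (hι : ∀ p, ι (toF L[X] F N p) = tM M L p) (γ : L →+* Fr R) {ω : Fr R⟦X⟧ →+* Ls (Fr R)}
  (hω : ∀ a : R⟦X⟧, ω (algebraMap R⟦X⟧ _ a) = (PowerSeries.map (algebraMap R (Fr R)) a : Ls (Fr R)))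

include hM hι hω

variable {J : N →+* Fr R⟦X⟧} (hJ : ∀ z, ω (J z) = lm γ (ι z)) {O : Type} [CommRing O] {s : O →+* L}
  {φ : O →+* R} (hφ : ∀ a, γ (s a) = algebraMap R (Fr R) (φ a))

include hJ hφ

omit hM hι hJ hφ in
theorem kg0d_X (m : ℕ) :
    ω (algebraMap R⟦X⟧ _ PowerSeries.X ^ m) = HahnSeries.single (m : ℤ) 1 := by
  rw [← map_pow, hω, map_pow, PowerSeries.map_X, HahnSeries.ofPowerSeries_X_pow]

theorem kg0_pol (p : O[X]) : ∃ (m : ℕ) (a : R⟦X⟧), J (toF L[X] F N (p.map s)) *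
    algebraMap R⟦X⟧ _ PowerSeries.X ^ m = algebraMap R⟦X⟧ _ a := by
  obtain ⟨m, hm⟩ := exists_pole (tM M R (p.map φ))
  obtain ⟨a, ha⟩ := (pole_iff _ _).1 hm
  refine ⟨m, a, ω.injective ?_⟩
  have e : tM M R (p.map φ) * ((PowerSeries.X ^ m : R⟦X⟧) : Ls R) = (a : Ls R) := by
    rw [ha, HahnSeries.ofPowerSeries_X_pow, mul_right_comm, HahnSeries.single_mul_single,
      neg_add_cancel, mul_one, HahnSeries.single_zero_one, one_mul]
  rw [map_mul, hJ, hι, lm_tM, Polynomial.map_map,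
    RingHom.ext (f := γ.comp s) (g := (algebraMap R (Fr R)).comp φ) hφ, ← Polynomial.map_map,
    ← lm_tM, ← map_pow, hω, hω, ← kg0d_lm, ← kg0d_lm, ← map_mul, e]

/-- the localisation of the factorial ring `R⟦X⟧` away from `X` is integrally closed -/
theorem kg0_int {z : N} (hz : ((toF L[X] F N).comp (mapRingHom s)).IsIntegralElem z) :
    ∃ (m : ℕ) (a : R⟦X⟧), J z * algebraMap R⟦X⟧ _ PowerSeries.X ^ m = algebraMap R⟦X⟧ _ a := by
  have hS : Submonoid.powers (PowerSeries.X : R⟦X⟧) ≤ nonZeroDivisors _ :=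
    powers_le_nonZeroDivisors_of_noZeroDivisors PowerSeries.X_ne_zero
  let B := Localization.subalgebra.ofField (Fr R⟦X⟧) _ hS
  let g : O[X] →+* B := (J.comp ((toF L[X] F N).comp (mapRingHom s))).codRestrict B fun p => by
    obtain ⟨m, a, h⟩ := kg0_pol hM hι γ hω hJ hφ p
    refine ⟨a, _, ⟨m, rfl⟩, ?_⟩
    rw [← h, map_pow, mul_inv_cancel_right₀ (pow_ne_zero _
      ((map_ne_zero_iff _ (IsFractionRing.injective R⟦X⟧ _)).2 PowerSeries.X_ne_zero))]
    rfl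
  obtain ⟨P, hP, h0⟩ := hz
  have hi : IsIntegral B (J z) := ⟨P.map g, hP.map g, by
    rw [Polynomial.eval₂_map]
    have h1 := congrArg J h0
    rw [Polynomial.hom_eval₂, map_zero] at h1
    exact h1⟩
  obtain ⟨⟨_, m, rfl⟩, h⟩ := hi.exists_multiple_integral_of_isLocalization
    (Submonoid.powers (PowerSeries.X : R⟦X⟧))
  obtain ⟨a, ha⟩ := IsIntegrallyClosed.isIntegral_iff.1 h
  exact ⟨m, a, by rw [ha, Submonoid.smul_def, Algebra.smul_def, map_pow, mul_comm]⟩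

theorem kg0_max {v : Vl (Fr R⟦X⟧)} {A' : Vl (Fr R)}
    (h1 : v (algebraMap R⟦X⟧ (Fr R⟦X⟧) PowerSeries.X) = 1) (h2 : ∀ a : R⟦X⟧,
      (∀ j, A' (algebraMap R (Fr R) (PowerSeries.coeff j a)) ≤ v (algebraMap R⟦X⟧ _ a)) ∧
      ∃ j, A' (algebraMap R (Fr R) (PowerSeries.coeff j a)) = v (algebraMap R⟦X⟧ _ a))
    {z : N} (hz : ((toF L[X] F N).comp (mapRingHom s)).IsIntegralElem z) :
    (∀ j, A' (γ ((ι z).coeff j)) ≤ v (J z)) ∧ ∃ j, A' (γ ((ι z).coeff j)) = v (J z) := by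
  obtain ⟨m, a, h⟩ := kg0_int hM hι γ hω hJ hφ hz
  have hv : v (J z) = v (algebraMap R⟦X⟧ _ a) := by
    rw [← h, map_mul, map_pow, h1, one_pow, mul_one]
  have hc : ∀ j, γ ((ι z).coeff j) = if j + m < 0 then 0 else
      algebraMap R (Fr R) (PowerSeries.coeff (j + m).natAbs a) := fun j => by
    have e := congrArg (fun y => (ω y).coeff (j + m)) h
    simp only [map_mul] at e
    rwa [kg0d_X hω, hJ, hω, HahnSeries.coeff_mul_single_add, mul_one, lm_coeff,
      PowerSeries.coeff_coe, PowerSeries.coeff_map] at e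
  rw [hv]
  refine ⟨fun j => ?_, ?_⟩
  · rw [hc]
    split_ifs
    · rw [map_zero]
      exact zero_le
    · exact (h2 a).1 _
  · obtain ⟨j, hj⟩ := (h2 a).2
    refine ⟨j - m, ?_⟩
    rw [hc, sub_add_cancel, if_neg (by omega), Int.natAbs_natCast, hj]

end Pool.Agent.ZCy
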