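import Pool.Agent.Lib.MP_751085_ag.ZC.K.G0a
import Pool.Agent.Lib.MP_751085_ag.ZC.V.AdK
import Pool.Agent.Lib.MP_751085_ag.ZC.Z.Pole
import Pool.Agent.Lib.MP_751085_ag.ZC.V.Ta

/-! Good reduction: the Gauss valuation does not decompose. -/

namespace Pool.Agent.ZCy

open scoped Classical WithZero PowerSeries
open Polynomial

set_option linter.unusedSectionVars false

theorem kg0e_ser {R S : Type} [CommRing R] [CommRing S] (f : R →+* S) {M : ℕ} (hM : 0 < M)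
    (p : R[X]) : ∃ (m : ℕ) (q : R⟦X⟧), tM M S (p.map f) * HahnSeries.single 1 1 ^ m =
      (PowerSeries.map f q : Ls S) ∧ ∀ π, (∀ j, π ∣ PowerSeries.coeff j q) ↔ C π ∣ p := by
  obtain ⟨m, hm⟩ := exists_pole (tM M R p)
  obtain ⟨q, hq⟩ := (pole_iff m _).1 hm
  have h : ∀ n : ℤ, (tM M R p).coeff (n + -m) = (q : Ls R).coeff n := fun n => by
    rw [hq, HahnSeries.coeff_single_mul_add, one_mul]
  refine ⟨m, q, ?_, fun π => ⟨fun h1 => (C_dvd_iff_dvd_coeff _ _).2 fun i => ?_, fun h1 j => ?_⟩⟩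
  · ext n
    rw [HahnSeries.single_pow, one_pow, nsmul_eq_mul, mul_one, HahnSeries.coeff_mul_single, mul_one,
      ← lm_tM, lm_coeff, sub_eq_add_neg, h, PowerSeries.coeff_coe, PowerSeries.coeff_coe]
    split_ifs <;> simp
  · rw [← tM_coeff hM, ← add_neg_cancel_right (-((M * i : ℕ) : ℤ)) m, h, PowerSeries.coeff_coe]
    split_ifs
    exacts [dvd_zero _, h1 _]
  · rw [← HahnSeries.ofPowerSeries_apply_coeff (Γ := ℤ), ← h]
    rcases tM_coeff_cases hM p (j + -m) with h2 | ⟨i, h2⟩ <;> rw [h2]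
    exacts [dvd_zero _, (C_dvd_iff_dvd_coeff _ _).1 h1 i]

variable {L F N R : Type} [Field L] [Field F] [Field N] [Algebra L[X] F] [IsFractionRing L[X] F]
  [Algebra F N] [FiniteDimensional F N] [IsGalois F N] [CommRing R] [IsDomain R] [CDVR R]
  [CharZero R] [IsAlgClosed (IsLocalRing.ResidueField R)] {M : ℕ} (hM : 0 < M) {ι : N →+* Ls L}
  (hι : ∀ p, ι (toF L[X] F N p) = tM M L p) (γ : L →+* Fr R) {ω : Fr R⟦X⟧ →+* Ls (Fr R)}
  (hω : ∀ a : R⟦X⟧, ω (algebraMap R⟦X⟧ _ a) = (PowerSeries.map (algebraMap R (Fr R)) a : Ls (Fr R)))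

include hM hω

theorem kg0e_l : ∃ l : Fr (Fr R)[X] →+* Fr R⟦X⟧,
    ∀ p, ω (l (algebraMap (Fr R)[X] _ p)) = tM M (Fr R) p := by
  have hc : Function.Injective ((algebraMap R⟦X⟧ (Fr R⟦X⟧)).comp PowerSeries.C) :=
    (IsFractionRing.injective R⟦X⟧ (Fr R⟦X⟧)).comp PowerSeries.C_injective
  have h1 : ω.comp (IsFractionRing.lift hc) = (HahnSeries.C : Fr R →+* Ls (Fr R)) :=
    IsFractionRing.ringHom_ext (A := R) fun a => by simp [hω]
  have h2 : ω.comp (eval₂RingHom (IsFractionRing.lift hc)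
      ((algebraMap R⟦X⟧ (Fr R⟦X⟧) PowerSeries.X)⁻¹ ^ M)) = tM M (Fr R) :=
    ringHom_ext (fun a => by simpa [tM] using RingHom.congr_fun h1 a)
      (by simp [tM, hω, HahnSeries.single_pow])
  have h3 : Function.Injective (eval₂RingHom (IsFractionRing.lift hc)
      ((algebraMap R⟦X⟧ (Fr R⟦X⟧) PowerSeries.X)⁻¹ ^ M)) :=
    .of_comp (f := ω) (by rw [← RingHom.coe_comp, h2]; exact tM_injective hM)
  exact ⟨IsFractionRing.lift h3, fun p => by rw [IsFractionRing.lift_algebraMap, ← h2]; rfl⟩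

include hι

theorem kg0_ta {J : N →+* Fr R⟦X⟧} (hJ : ∀ z, ω (J z) = lm γ (ι z)) {Ψ : L[X]} {Ψ' : R[X]}
    (hΨ : Ψ.map γ = Ψ'.map (algebraMap R (Fr R))) (hl : IsUnit Ψ'.leadingCoeff)
    (hs : Ψ'.Separable) (hG : IsUnit (Nat.card (N ≃ₐ[F] N) : R)) (hu : UnrOff F (toF L[X] F N) Ψ)
    {π : R} (hπ : Irreducible π) {v : Vl (Fr R⟦X⟧)} {A' : Vl (Fr R)}
    (hc : Cen (algebraMap R (Fr R)) A' π) (h0 : A' (algebraMap R (Fr R) π) = WithZero.exp (-1))
    (h1 : v (algebraMap R⟦X⟧ (Fr R⟦X⟧) PowerSeries.X) = 1) (h2 : ∀ a : R⟦X⟧,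
      (∀ j, A' (algebraMap R (Fr R) (PowerSeries.coeff j a)) ≤ v (algebraMap R⟦X⟧ _ a)) ∧
      ∃ j, A' (algebraMap R (Fr R) (PowerSeries.coeff j a)) = v (algebraMap R⟦X⟧ _ a)) :
    Dec F (v.comap J) = ⊤ := by
  obtain ⟨l, hl'⟩ := kg0e_l hM hω
  have hf : Function.Injective ((algebraMap (Fr R)[X] (Fr (Fr R)[X])).comp (mapRingHom γ)) :=
    (IsFractionRing.injective (Fr R)[X] (Fr (Fr R)[X])).comp (map_injective γ γ.injective)
  have h : J.comp (algebraMap F N) = l.comp (IsFractionRing.lift hf) :=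
    IsFractionRing.ringHom_ext (A := L[X]) fun p => ω.injective (by
      rw [RingHom.comp_apply l, IsFractionRing.lift_algebraMap, RingHom.comp_apply _ (mapRingHom γ),
        hl', coe_mapRingHom, ← lm_tM, ← hι, ← hJ]
      rfl)
  obtain ⟨T, _, _, _, _, j, J₂, r, hj, hJ₂, hjJ, hri, hr⟩ :=
    kg0_comp (IsFractionRing.lift hf) l J (RingHom.congr_fun h)
  have hj' : ∀ p, j (toF L[X] F N p) = toE (Fr R)[X] T (p.map γ) := fun p =>
    (hj _).trans (congrArg _ (IsFractionRing.lift_algebraMap hf p))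
  obtain ⟨φ, hφ⟩ : ∃ φ, φ = (toE (Fr R)[X] T).comp (mapRingHom (algebraMap R (Fr R))) := ⟨_, rfl⟩
  have hφ' : ∀ p, ω (J₂ (φ p)) = tM M (Fr R) (p.map (algebraMap R (Fr R))) := fun p => by
    rw [← hl', ← hJ₂, hφ]
    rfl
  have key : ∀ p, ∃ q : R⟦X⟧, v.comap J₂ (φ p) = v (algebraMap R⟦X⟧ _ q) ∧
      ((∀ j, π ∣ PowerSeries.coeff j q) ↔ C π ∣ p) := fun p => by
    obtain ⟨m, q, h3, h4⟩ := kg0e_ser (algebraMap R (Fr R)) hM p
    have h5 : J₂ (φ p) * algebraMap R⟦X⟧ _ PowerSeries.X ^ m = algebraMap R⟦X⟧ _ q :=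
      ω.injective (by rw [map_mul, map_pow, hφ', hω, hω, ← h3]; simp)
    exact ⟨q, by rw [← h5, map_mul, map_pow, h1, one_pow, mul_one]; rfl, h4 π⟩
  have hw : Cen φ (v.comap J₂) (C π) := ⟨fun p => by
    obtain ⟨q, h3, -⟩ := key p
    obtain ⟨i, h4⟩ := (h2 q).2
    rw [h3, ← h4]
    exact hc.1 _, fun p => by
    obtain ⟨q, h3, h5⟩ := key p
    obtain ⟨i, h4⟩ := (h2 q).2
    rw [h3, ← h5]
    exact ⟨fun h6 n => (hc.2 _).1 (((h2 q).1 n).trans_lt h6), fun h6 => h4 ▸ (hc.2 _).2 (h6 i)⟩⟩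
  have hG₂ : IsUnit (Nat.card (T ≃ₐ[Fr (Fr R)[X]] T) : R) :=
    isUnit_of_dvd_unit (Nat.cast_dvd_cast (Subgroup.card_dvd_of_injective r hri)) hG
  have hϖ : v.comap J₂ (φ (C π)) = WithZero.exp (-1) := by
    have h3 : J₂ (φ (C π)) = algebraMap R⟦X⟧ _ (PowerSeries.C π) :=
      ω.injective (by rw [hφ', hω]; simp [tM])
    rw [Valuation.comap_apply, h3]
    refine le_antisymm ?_ (by simpa [h0] using (h2 (PowerSeries.C π)).1 0)
    obtain ⟨i, h4⟩ := (h2 (PowerSeries.C π)).2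
    rw [← h4, PowerSeries.coeff_C]
    split_ifs <;> simp [h0]
  have hI : Ine (Fr (Fr R)[X]) (v.comap J₂) = ⊥ := by
    refine kv_unr ?_ fun x => ?_
    · rw [← map_natCast φ]
      refine (hw.1 _).eq_of_not_lt fun h3 => hπ.not_isUnit (isUnit_C.1
        (isUnit_of_dvd_unit ((hw.2 _).1 h3) ?_))
      exact map_natCast (C : R →+* R[X]) _ ▸ hG₂.map C
    · by_cases h3 : v.comap J₂ x = 0
      · exact ⟨0, by rw [h3, map_zero, map_zero]⟩
      · refine ⟨algebraMap (Fr R)[X] _ ((C π).map (algebraMap R (Fr R))) ^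
          (-WithZero.log (v.comap J₂ x)), ?_⟩
        rw [hφ] at hϖ
        rw [map_zpow₀, map_zpow₀]
        refine Eq.trans ?_ (congrArg (· ^ (-WithZero.log (v.comap J₂ x))) hϖ).symm
        rw [← WithZero.exp_zsmul, smul_neg, neg_smul, neg_neg, smul_eq_mul, mul_one,
          WithZero.exp_log h3]
  have hD := ta (isFr_alg R (Fr R)) (isFr_alg (Fr R)[X] (Fr (Fr R)[X])) hG₂.ne_zero hl hs.map
    (fun P w _ hd hP => kg0_unr hri hr hu (fun p => hj' p ▸ hP.1 _) (by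
      rw [hj', hΨ]
      exact (hP.1 _).eq_of_not_lt fun h3 => hd ((hP.2 _).1 h3))) hπ (hφ ▸ hw) hI
  have hon := kg0_onto hr hM γ hι (J₁ := ω.comp J₂)
    (fun p => (congrArg ω (hJ₂ _)).trans (hl' p)) fun z => (congrArg ω (hjJ z)).trans (hJ z)
  refine eq_top_iff.2 fun g _ x => ?_
  obtain ⟨g, rfl⟩ := hon g
  rw [Valuation.comap_apply, Valuation.comap_apply, ← hjJ, ← hjJ, hr]
  exact (hD ▸ Subgroup.mem_top g : g ∈ Dec _ (v.comap J₂)) (j x)

end Pool.Agent.ZCy
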