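import Pool.Agent.Lib.MP_751085_ag.ZC.K.G0b
import Pool.Agent.Lib.MP_751085_ag.ZC.K.G0c
import Pool.Agent.Lib.MP_751085_ag.ZC.K.G0d
import Pool.Agent.Lib.MP_751085_ag.ZC.K.G0e

/-! Good reduction. -/

namespace Pool.Agent.ZCy

open scoped Classical WithZero PowerSeries
open Polynomial

theorem gr0 : GR0 := by
  intro L F N _ _ _ _ _ _ _ _ _ M ι A Ψ hM hA hG _ hι hl hu
  obtain ⟨R, _, _, _, _, _, π, φ, γ, hπ, hφ, hγ⟩ := kg0_zorn hA
  obtain ⟨v, A', hc, h0, h1, h2⟩ := kg0_val hπ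
  obtain ⟨ω, hω⟩ := kg0_om R
  have hΨ : (Ψ.map A.integer.subtype).map γ = (Ψ.map φ).map (algebraMap R (Fr R)) := by
    rw [map_map, map_map]; exact congrArg (Ψ.map ·) (RingHom.ext hφ)
  have hl' : IsUnit (Ψ.map φ).leadingCoeff := by
    rw [leadingCoeff_map_of_leadingCoeff_ne_zero _ (hl.map φ).ne_zero]; exact hl.map φ
  have hG' : IsUnit (Nat.card (N ≃ₐ[F] N) : R) := by
    rw [← map_natCast φ]
    refine IsUnit.map φ ((Valuation.integer.integers A).isUnit_iff_valuation_eq_one.2 ?_)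
    rwa [map_natCast]
  obtain ⟨J, hJ⟩ := kg0_rig hM hι γ hω hΨ hl' hG' hu
  refine ⟨v.comap J, fun x => ?_, fun z hz => ?_, fun hs =>
    kg0_ta hM hι γ hω hJ hΨ hl' (Separable.map hs) hG' hu hπ hc h0 h1 h2⟩
  · obtain ⟨ϖ, hϖ⟩ := hA
    by_cases h : v.comap J x = 0
    · exact ⟨0, by rw [h, map_zero]⟩
    · refine ⟨ϖ ^ (-WithZero.log (v.comap J x)), ?_⟩
      rw [map_zpow₀, hϖ, ← WithZero.exp_zsmul, smul_neg, neg_smul, neg_neg, smul_eq_mul, mul_one,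
        WithZero.exp_log h]
  · have := kg0_max hM hι γ hω hJ hφ h1 h2 hz
    simp only [hγ A' hc h0] at this
    exact this

end Pool.Agent.ZCy
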