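import Pool.Agent.Lib.MP_751085_ag.ZC.K.Val
import Pool.Agent.Lib.MP_751085_ag.ZC.K.LauB

/-! Block K: small facts on valuations. -/

namespace Pool.Agent.ZCy

open scoped Classical WithZero IntermediateField
open Polynomial

variable {K L F E : Type} [Field K] [Field L] [Field F] [Field E]

theorem kvalc_tA (t : F) {p : F[X]} (h : p ≠ 0) :
    lv F (tA t p) = WithZero.exp (-(p.rootMultiplicity t : ℤ)) := by
  rw [kl_lv (kl_order_tA t h).1, (kl_order_tA t h).2]

/-- the valuation of an expansion is centred at the prime that vanishes at the point -/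
theorem kvalc_cen (κ : K →+* F) {t : F} {P : K[X]} (hP : ∀ q : K[X], q.eval₂ κ t = 0 ↔ P ∣ q) :
    Cen ((tA t).comp (mapRingHom κ)) (lv F) P := by
  have key : ∀ q : K[X], q ≠ 0 → lv F (((tA t).comp (mapRingHom κ)) q) =
      WithZero.exp (-((q.map κ).rootMultiplicity t : ℤ)) := fun q hq => kvalc_tA t (map_ne_zero hq)
  refine ⟨fun q => ?_, fun q => ?_⟩ <;> obtain rfl | hq := eq_or_ne q 0
  · simp
  · rw [key q hq, ← WithZero.exp_zero, WithZero.exp_le_exp]
    omega
  · simp
  · rw [key q hq, ← WithZero.exp_zero, WithZero.exp_lt_exp, neg_lt_zero, Int.natCast_pos,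
      rootMultiplicity_pos (map_ne_zero hq), IsRoot.def, eval_map, hP]

/-- The minimal polynomial `p` of `t₀` over `K` is separable, so `ψ₀ p` has order one
(`kl_order_tA`) and all values of `w` are values of powers of it; `kv_unr`. -/
theorem kz_unr [CharZero K] [Algebra L E] [FiniteDimensional L E] [IsGalois L E]
    (ψ₀ : K[X] →+* L) {Ψ : K[X]} {w : Vl E}
    (h : GoodV (algebraMap K (Kb K)) ((algebraMap L E).comp ψ₀) Ψ w) : Ine L w = ⊥ := by
  obtain ⟨t, φ, -, hE, hw⟩ := h
  have hi : IsIntegral K t := Algebra.IsIntegral.isIntegral t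
  have h0 : (minpoly K t).map (algebraMap K (Kb K)) ≠ 0 := map_ne_zero (minpoly.ne_zero hi)
  have h1 : ((minpoly K t).map (algebraMap K (Kb K))).rootMultiplicity t = 1 :=
    le_antisymm (rootMultiplicity_le_one_of_separable (minpoly.irreducible hi).separable.map t)
      ((rootMultiplicity_pos h0).2 (by rw [IsRoot.def, eval_map_algebraMap, minpoly.aeval]))
  have h2 : w (algebraMap L E (ψ₀ (minpoly K t))) = WithZero.exp (-1) := by
    rw [hw, ← RingHom.comp_apply _ ψ₀, hE, kvalc_tA t h0, h1, Nat.cast_one]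
  refine kv_unr ?_ fun x => ?_
  · rw [hw, map_natCast, ← map_natCast (hc (R := Kb K)),
      kl_lv_hc (Nat.cast_ne_zero.2 Nat.card_pos.ne')]
  obtain rfl | hx := eq_or_ne x 0
  · exact ⟨0, by rw [map_zero (algebraMap L E)]⟩
  refine ⟨ψ₀ (minpoly K t) ^ (φ x).order, ?_⟩
  rw [map_zpow₀, map_zpow₀, h2, hw, kl_lv ((map_ne_zero φ).2 hx), ← WithZero.exp_zsmul]
  simp

/-- The polynomials of value `< 1` form a prime ideal of `K[X]`. If it is zero use `kz_triv`.
Otherwise it is `(P)`; take a root `t₀` of `P` and the expansion `φ` at `t₀`; the valuation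
`lv ∘ φ` is centred at `P` too (`kl_order_tA`); `kv_cen`, `kv_conj`, `kz_unr`, `kz_conj`. -/
theorem kz_hz [CharZero K] [Algebra K[X] L] [IsFractionRing K[X] L] [Algebra L E]
    [FiniteDimensional L E] [IsGalois L E] {Ψ : K[X]}
    (h : HS (algebraMap K (Kb K)) (toF K[X] L E) Ψ) : HZ (toF K[X] L E) Ψ L := by
  intro w h1 h2 h3
  have hle : ∀ p, w (toF K[X] L E p) ≤ 1 := fun p => by
    induction p using Polynomial.induction_on' with
    | add p q hp hq => rw [map_add]; exact w.map_add_le hp hq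
    | monomial n a =>
      obtain rfl | ha := eq_or_ne a 0
      · simp
      · rw [← C_mul_X_pow_eq_monomial, map_mul, map_mul, h1 a ha, one_mul, map_pow, map_pow]
        exact pow_le_one' h2 n
  let I : Ideal K[X] :=
    { carrier := {p | w (toF K[X] L E p) < 1}
      zero_mem' := by simp
      add_mem' := fun {p q} hp hq => by
        rw [Set.mem_ofPred_eq, map_add]; exact w.map_add_lt hp hq
      smul_mem' := fun q p hp => by
        rw [Set.mem_ofPred_eq, smul_eq_mul, map_mul, map_mul]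
        exact mul_lt_one_of_nonneg_of_lt_one_right (hle q) zero_le hp }
  obtain ⟨P, hP⟩ : ∃ P, ∀ p, w (toF K[X] L E p) < 1 ↔ P ∣ p :=
    ⟨_, fun p => Submodule.IsPrincipal.mem_iff_generator_dvd I⟩
  have hone : ∀ p, ¬P ∣ p → w (toF K[X] L E p) = 1 := fun p hp =>
    (hle p).eq_of_not_lt fun h => hp ((hP p).1 h)
  obtain rfl | hP0 := eq_or_ne P 0
  · refine kz_triv fun x hx => ?_
    obtain ⟨a, b, hb, rfl⟩ := IsFractionRing.div_surjective K[X] x
    have ha : a ≠ 0 := fun e => hx (by rw [e, map_zero, zero_div])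
    rw [map_div₀, map_div₀, ← RingHom.comp_apply, ← RingHom.comp_apply, hone a (by simpa using ha),
      hone b (by simpa using nonZeroDivisors.ne_zero hb), div_one]
  have hp : Prime P := ⟨hP0, fun hu => by simpa using (hP 1).2 hu.dvd, fun a b hab => by
    by_contra! h4
    have h5 := (hP _).2 hab
    rw [map_mul, map_mul, hone a h4.1, hone b h4.2, mul_one] at h5
    exact h5.false⟩
  obtain ⟨t, ht⟩ := IsAlgClosed.exists_aeval_eq_zero (Kb K) P hp.irreducible.degree_pos.ne'
  have hq : ∀ q : K[X], q.eval₂ (algebraMap K (Kb K)) t = 0 ↔ P ∣ q := fun q =>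
    ⟨fun e => by_contra fun hn => (aeval_ne_zero_of_isCoprime
      (hp.irreducible.coprime_iff_not_dvd.2 hn) t).elim (fun h => h ht) fun h => h e,
      fun e => aeval_eq_zero_of_dvd_aeval_eq_zero e ht⟩
  obtain ⟨φ, hφ⟩ := h t fun e => ((hP Ψ).2 ((hq Ψ).1 e)).ne h3
  have hc : Cen (algebraMap K[X] L) (((lv _).comap φ).comap (algebraMap L E)) P := by
    obtain ⟨c1, c2⟩ := kvalc_cen _ hq
    exact ⟨fun p => (congrArg (lv _) (hφ p)).trans_le (c1 p),
      fun p => (congrArg (fun y => lv _ y < 1) (hφ p)).to_iff.trans (c2 p)⟩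
  obtain ⟨g, hg⟩ := kv_conj (K := L) (w := (lv _).comap φ) (w' := w) (fun _ => Iff.rfl)
    (kv_cen hp (v' := w.comap (algebraMap L E)) hc ⟨hle, hP⟩).1
  exact kz_conj (kz_unr (algebraMap K[X] L) (Ψ := Ψ)
    ⟨t, φ, fun e => ((hP Ψ).2 ((hq Ψ).1 e)).ne h3, hφ, fun _ => rfl⟩) hg

end Pool.Agent.ZCy
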