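import Pool.Agent.Lib.MP_751085_ag.ZC.K.GauC
import Pool.Agent.Lib.MP_751085_ag.ZC.K.Enl
import Pool.Agent.Lib.MP_751085_ag.ZC.K.LauC
import Pool.Agent.Lib.MP_751085_ag.ZC.K.ValC
import Pool.Agent.Lib.MP_751085_ag.ZC.K.KDef2
import Pool.Agent.Lib.MP_751085_ag.ZC.Z.SecI

/-! Block K: good reduction at the vertical primes. -/

namespace Pool.Agent.ZCy

open scoped Classical WithZero IntermediateField
open Polynomial groupCohomology

set_option linter.unusedSectionVars false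

theorem kgrk_dvd {E : Type} [Field E] {w : Vl E} {p n : ℕ} (h : p ∣ n) (hn : w (n : E) = 1) :
    w (p : E) = 1 := by
  obtain ⟨m, rfl⟩ := h
  have h1 : ∀ k : ℕ, w (k : E) ≤ 1 := fun k => natCast_mem w.integer k
  rw [Nat.cast_mul, map_mul] at hn
  exact eq_one_of_one_le_mul_left (h1 p) (h1 m) hn.ge

theorem kgrk_one {A E : Type} [CommRing A] [Field E] {φ : A →+* E} {w : Vl E} {P a : A}
    (h : Cen φ w P) (ha : ¬P ∣ a) : w (φ a) = 1 :=
  (h.1 a).eq_of_not_lt fun h1 => ha ((h.2 a).1 h1)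

theorem kgrk_C {M : ℕ} {K L F N : Type} [Field K] [Field L] [Field F] [Field N] [Algebra K L]
    [Algebra K[X] F] [Algebra F N] (d : SecD M K L F N) (a : L) : d.φ (C a) = d.c a :=
  eval₂_C _ _

theorem kgrk_gs {M : ℕ} {B K L F N : Type} [Field K] [Field L] [Field F] [Field N] [Algebra K L]
    [Algebra K[X] F] [Algebra F N] [CommRing B] [IsDomain B] [UniqueFactorizationMonoid B]
    [Algebra B K] [IsFractionRing B K] [FiniteDimensional K L] (d : SecD M K L F N) {P : B}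
    {w : Vl N} (hP : Prime P) (hw : Cen (pB B K F N) w (C P)) : Gs d.φ w := by
  refine kq_gs (K := K) hP ?_
  rwa [show d.φ.comp (mapRingHom ((algebraMap K L).comp (algebraMap B K))) = pB B K F N from
    RingHom.ext fun p => by
      rw [RingHom.comp_apply, coe_mapRingHom, ← Polynomial.map_map, d.φ_map]; rfl]

variable {K L F : Type} [Field K] [Field L] [Field F] [CharZero K] [Algebra K[X] L]
  [IsFractionRing K[X] L] [Algebra L F] [Algebra L (Om K)] [Algebra F (Om K)]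
  [IsScalarTower L F (Om K)] {M : ℕ} (c : Cur K L F M)
  {E : IntermediateField F (Om K)} (h : c.Nice E) {K₁ : IntermediateField K (Kb K)}
  [FiniteDimensional K K₁] [IsGalois K K₁] (hf : Frm (K₁ : Set (Kb K)) E)

include h hf

/-- `kl_factor` for `E.val` and `K₁.val`; `FixC g` says that `g` fixes the range of `hf.J` -/
theorem kk_sec : ∃ d : SecD M K K₁ L E, d.c = hf.J ∧
    (∀ x, lm (K₁.val : K₁ →+* Kb K) (d.ι x) = (x : Om K)) ∧ Function.Injective d.φ ∧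
    (∀ x : L, ∃ a b, algebraMap L E x = d.φ a / d.φ b) ∧
    ∀ g : E ≃ₐ[L] E, FixC (⇑g) ↔ ∀ a, g (hf.J a) = hf.J a := by
  obtain ⟨j, hj⟩ := kl_factor (K₁.val : K₁ →+* Kb K) (E.val : E →+* Om K)
    fun x n => ⟨⟨_, hf.cf x x.2 n⟩, rfl⟩
  have hi := (lm (K₁.val : K₁ →+* Kb K)).injective
  let d : SecD M K K₁ L E := ⟨hf.J, j, fun a => hi (by rw [hj, kl_lm_hc]; rfl), fun p => hi (by
    rw [hj, kl_lm_tM, Polynomial.map_map]; exact c.inf p)⟩
  refine ⟨d, rfl, hj, fun a b e => kl_tM_inj c.pos (by rw [← d.ι_φ, e, d.ι_φ]), fun x => ?_,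
    fun g => ⟨fun hg a => hg _ ⟨a, rfl⟩, fun hg x ⟨y, hy⟩ => ?_⟩⟩
  · obtain ⟨a, b, -, rfl⟩ := IsFractionRing.div_surjective (A := K[X]) x
    exact ⟨a.map _, b.map _, by rw [d.φ_map a, d.φ_map b, map_div₀]; rfl⟩
  · have h1 := hf.cf x x.2 0
    rw [← hy, HahnSeries.C_apply, HahnSeries.coeff_single_same] at h1
    rw [show x = hf.J ⟨y, h1⟩ from Subtype.ext hy.symm, hg]

variable {B : Type} [CommRing B] [IsDomain B] [UniqueFactorizationMonoid B] [Algebra B K]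
  [IsFractionRing B K] {P : B} {w : Vl E}

/-- `w` is equivalent to the valuation of `SecD.ine`. -/
theorem kk_gr (hGR : GR0) (hr : Red c.Ψ P) (hw : Cen (pB B K L E) w (C P))
    (hn : w ((c.δ.factorial * M : ℕ) : E) = 1) :
    (∀ g : E ≃ₐ[L] E, FixC (⇑g) → g ∈ Dec L w ∧ (g ∈ Ine L w → g = 1)) ∧
    ∀ (σ : Kb K ≃ₐ[K] Kb K) (g : E ≃ₐ[L] E), Cw (σ : Kb K →+* Kb K) (⇑g) →
      (∀ a, w (g (hf.J a)) = w (hf.J a) ∧ (w (hf.J a) ≤ 1 → w (g (hf.J a) - hf.J a) < 1)) →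
      g ∈ Ine L w := by
  have := h.fin
  have := h.gal
  obtain ⟨d, hd, hι, hi, hL, hx⟩ := kk_sec c h hf
  obtain ⟨π, σ, hs⟩ := d.exists_spl
  rw [← hd] at hx ⊢
  have hk : ∀ g : E ≃ₐ[L] E, FixC (⇑g) ↔ g ∈ π.ker := fun g => (hx g).trans
    ⟨fun h1 => AlgEquiv.ext fun a => d.c.injective ((hs.hπ g a).symm.trans (h1 a)),
      fun h1 a => by rw [hs.hπ, MonoidHom.mem_ker.1 h1, AlgEquiv.one_apply]⟩
  have hB : ∀ b, d.c (algebraMap K K₁ (algebraMap B K b)) = pB B K L E (C b) := fun b => by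
    rw [← kgrk_C, ← map_C, d.φ_map, ← map_C]; rfl
  obtain ⟨A, hA, e⟩ := kv_nrm (w := w.comap d.c) (x := algebraMap K K₁ (algebraMap B K P))
    (by simpa using hr.prime.ne_zero) ((congrArg w (hB P)).trans_lt ((hw.2 _).2 dvd_rfl))
  have eq : A.IsEquiv (w.comap d.c) := Valuation.isEquiv_iff_val_le_one.2 (e _)
  have hA1 : A ((c.δ.factorial * M : ℕ) : K₁) = 1 :=
    eq.eq_one_iff_eq_one.2 (by rwa [Valuation.comap_apply, map_natCast])
  obtain ⟨Ψ, α, β, Φ, hm, hΨ, hb, hΦ⟩ := hr.ex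
  let μ : B →+* A.integer := ((algebraMap K K₁).comp (algebraMap B K)).codRestrict _ fun b =>
    (e _).2 ((congrArg w (hB b)).trans_le (hw.1 _))
  obtain ⟨u, hu⟩ : ∃ u, u * μ Φ = 1 := IsUnit.exists_left_inv <|
    (Valuation.integer.integers A).isUnit_of_one'
    (eq.eq_one_iff_eq_one.2 ((congrArg w (hB Φ)).trans (kgrk_one hw fun h1 =>
      hΦ (by simpa using (C_dvd_iff_dvd_coeff _ _).1 h1 0))))
  obtain ⟨W, h1, h2, -, h4, -, h6, -⟩ := d.ine hGR c.pos hs A hA (by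
      by_contra h0
      obtain ⟨p, hp, h1, h2⟩ := kz_prime Nat.card_pos.ne' h0
      have := Fact.mk hp
      obtain ⟨x, hx⟩ := exists_prime_orderOf_dvd_card' p h1
      refine h2.ne (kgrk_dvd ?_ hA1)
      rw [← hx, ← Subgroup.orderOf_coe, orderOf_dvd_iff_pow_eq_one]
      exact h.geo _ ((hk _).2 x.2))
    (kgrk_dvd (dvd_mul_left _ _) hA1) (Ψ.map μ) (by rw [(hm.map μ).leadingCoeff]; exact isUnit_one)
    ⟨C u * α.map μ, C u * β.map μ, by
      rw [derivative_map, mul_assoc, mul_assoc, ← mul_add, ← Polynomial.map_mul,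
        ← Polynomial.map_mul, ← Polynomial.map_add, ← hb, map_C, ← map_mul, hu, map_one]⟩
    fun Q v hQ h1 h2 => by
      refine (congrArg (· ⊓ π.ker) (kz_hz h.hs v (fun a ha => ?_) ?_ ?_)).trans (bot_inf_eq _)
      · rw [← d.φ_map, map_C]
        exact kgrk_one h2 fun h3 => hQ.not_isUnit (isUnit_of_dvd_unit h3
          (isUnit_C.2 (IsUnit.mk0 _ (by simpa using ha))))
      · rw [← d.φ_map]
        exact h2.1 _
      · rw [← d.φ_map, ← hΨ, Polynomial.map_map]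
        exact kgrk_one h2 (by rwa [Polynomial.map_map] at h1)
  have hW : ∀ a, W (d.φ (C a)) = A a := fun a => by
    obtain ⟨h7, i, h8⟩ := h6 (C a)
    refine le_antisymm ?_ (by simpa using h7 0)
    rw [← h8, coeff_C]
    split_ifs <;> simp
  obtain ⟨g₀, h7, h8⟩ := kq_conj (L := L) hi hL (kgrk_gs d hr.prime hw) (W := W) (fun p hp => by
      simp only [hW] at hp ⊢
      obtain ⟨h7, i, h8⟩ := h6 p
      exact ⟨h8 ▸ hp i, fun h9 i => (h7 i).trans_lt h9⟩)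
    fun a => by rw [hW, kgrk_C]; exact e a
  have h9 := h1 ((hk g₀).1 ((hx g₀).2 fun a => by rw [← kgrk_C, h7]))
  obtain ⟨e1, e2⟩ := kv_congr (K := L) fun x => (h8 x).trans (by rw [h9 x])
  rw [e1, e2]
  refine ⟨fun g hg => ⟨h1 ((hk g).1 hg), fun h3 => ?_⟩, fun s g hg h3 => ?_⟩
  · rw [← Subgroup.mem_bot, ← h2]
    exact ⟨h3, (hk g).1 hg⟩
  · have hc : ∀ a, (d.c a : Om K) = hc (a : Kb K) := fun a => by rw [hd]; rfl
    have h5 : (K₁.val : K₁ →+* Kb K).comp (π g : K₁ →+* K₁) =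
        (s : Kb K →+* Kb K).comp (K₁.val : K₁ →+* Kb K) := RingHom.ext fun a =>
      HahnSeries.C_injective (Γ := ℤ) (by
        refine (hc _).symm.trans ?_
        rw [RingHom.coe_coe, ← hs.hπ, hg, hc, kl_lm_hc]
        rfl)
    rw [show g = σ (π g) from AlgEquiv.ext fun z => Subtype.ext (by
      rw [hg, ← hι, ← hι, hs.hσ, kl_lm_lm, kl_lm_lm, h5])]
    refine h4 _ ⟨fun a => eq.eq_iff.2 ?_, fun a ha => eq.lt_one_iff_lt_one.2 ?_⟩
    · simpa only [Valuation.comap_apply, ← hs.hπ] using (h3 a).1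
    · simpa only [Valuation.comap_apply, map_sub, ← hs.hπ] using (h3 a).2 ((e a).1 ha)

/-- `ke_dec`: `g = g₁ * g₀`; `g₁` acts on the constants as `g` does, so it is inertial, so `g₀ = 1` -/
theorem kk_cw (hGR : GR0) (hr : Red c.Ψ P) (hw : Cen (pB B K L E) w (C P))
    (hn : w ((c.δ.factorial * M : ℕ) : E) = 1) {g : E ≃ₐ[L] E} (hg : g ∈ Ine L w) :
    ∃ σ : Kb K ≃ₐ[K] Kb K, Cw (σ : Kb K →+* Kb K) (⇑g) := by
  have := h.gal
  obtain ⟨σ, g₁, h1, h2⟩ := ke_dec c hf g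
  obtain ⟨h3, h4⟩ := kk_gr c h hf hGR hr hw hn
  have h5 : ∀ a, g₁ (hf.J a) = g (hf.J a) := fun a => by
    conv_lhs => rw [← h2 (hf.J a) ⟨a, rfl⟩, ← AlgEquiv.mul_apply, mul_inv_cancel_left]
  have h6 := h4 σ g₁ h1 fun a => by rw [h5]; exact ⟨hg.1 _, hg.2 _⟩
  exact ⟨σ, inv_mul_eq_one.1 ((h3 _ h2).2 (mul_mem (inv_mem h6) hg)) ▸ h1⟩

/-- `kq_gs`, `kq_conj`, and the first part of `kk_gr` -/
theorem kk_uniq (hGR : GR0) (hr : Red c.Ψ P) (hw : Cen (pB B K L E) w (C P))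
    (hn : w ((c.δ.factorial * M : ℕ) : E) = 1) {P' : B} (hP : Prime P') {w' : Vl E}
    (hw' : Cen (pB B K L E) w' (C P')) (e : ∀ a, w' (hf.J a) ≤ 1 ↔ w (hf.J a) ≤ 1) (x : E) :
    w' x ≤ 1 ↔ w x ≤ 1 := by
  have := h.fin
  have := h.gal
  obtain ⟨d, hd, -, hi, hL, hx⟩ := kk_sec c h hf
  obtain ⟨g, h1, h2⟩ := kq_conj (L := L) hi hL (kgrk_gs d hP hw') (kgrk_gs d hr.prime hw)
    fun a => by rw [kgrk_C, hd]; exact (e a).symm
  rw [h2, ((kk_gr c h hf hGR hr hw hn).1 g ((hx g).2 fun a => by rw [← hd, ← kgrk_C, h1])).1 x]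

end Pool.Agent.ZCy
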