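import Pool.Agent.Lib.MP_751085_ag.ZC.K.KDefs

/-! Block K: Gauss valuations. -/

namespace Pool.Agent.ZCy

open scoped Classical WithZero IntermediateField
open Polynomial

variable {B K K₁ E : Type} [CommRing B] [IsDomain B] [UniqueFactorizationMonoid B] [Field K]
  [Field K₁] [Field E] [Algebra B K] [IsFractionRing B K]

/-- An element of `K` of value `≤ 1` is `a / b` with `P ∤ b` (reduced fraction); multiply the
polynomial by the product of the denominators. -/
theorem kq_base (ι : K →+* E) (τ : E) {w : Vl E} {P : B} (hP : Prime P)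
    (h : Cen (eval₂RingHom (ι.comp (algebraMap B K)) τ) w (C P)) {p : K[X]}
    (hp : ∀ i, w (ι (p.coeff i)) ≤ 1) :
    w (p.eval₂ ι τ) ≤ 1 ∧ (w (p.eval₂ ι τ) < 1 → ∀ i, w (ι (p.coeff i)) < 1) := by
  have hlt : ∀ a : B, w (ι (algebraMap B K a)) < 1 ↔ P ∣ a := fun a => by
    have := h.2 (C a)
    rw [coe_eval₂RingHom, eval₂_C, RingHom.comp_apply] at this
    exact this.trans ⟨fun hd => by simpa using (C_dvd_iff_dvd_coeff _ _).1 hd 0, map_dvd C⟩
  have hone : ∀ a : B, ¬ P ∣ a → w (ι (algebraMap B K a)) = 1 := fun a ha => by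
    have := h.1 (C a)
    rw [coe_eval₂RingHom, eval₂_C, RingHom.comp_apply] at this
    exact le_antisymm this (not_lt.1 fun h' => ha ((hlt a).1 h'))
  have hA : ∀ i, ∃ b a : B, ¬ P ∣ b ∧ algebraMap B K b * p.coeff i = algebraMap B K a := by
    intro i
    obtain ⟨a, b, hab, hx⟩ := IsFractionRing.exists_reduced_fraction B (p.coeff i)
    have e : algebraMap B K b * p.coeff i = algebraMap B K a := by
      rw [← hx, IsLocalization.mk'_spec']
    refine ⟨b, a, fun hb => ?_, e⟩
    have h1 := hone a fun ha => hP.not_isUnit (hab ha hb)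
    rw [← e, map_mul, map_mul] at h1
    exact (mul_lt_one_of_lt_of_le ((hlt _).2 hb) (hp i)).ne h1
  choose b a hb hab using hA
  have hbb : ¬ P ∣ ∏ i ∈ p.support, b i := fun hd => by
    obtain ⟨i, _, hi⟩ := (hP.dvd_finsetProd_iff _).1 hd
    exact hb i hi
  obtain ⟨q, hq⟩ : C (algebraMap B K (∏ i ∈ p.support, b i)) * p ∈ lifts (algebraMap B K) := by
    rw [lifts_iff_coeff_lifts]
    intro n
    rw [coeff_C_mul]
    by_cases hn : n ∈ p.support
    · rw [← Finset.prod_erase_mul _ _ hn, map_mul, mul_assoc, hab, ← map_mul]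
      exact ⟨_, rfl⟩
    · rw [notMem_support_iff.1 hn, mul_zero]
      exact ⟨0, map_zero _⟩
  rw [coe_mapRingHom] at hq
  have e : w (eval₂RingHom (ι.comp (algebraMap B K)) τ q) = w (p.eval₂ ι τ) := by
    rw [coe_eval₂RingHom, ← eval₂_map, hq, eval₂_mul, eval₂_C, map_mul, hone _ hbb, one_mul]
  refine ⟨e ▸ h.1 q, fun hl i => ?_⟩
  have h2 := (hlt _).2 ((C_dvd_iff_dvd_coeff _ _).1 ((h.2 q).1 (e ▸ hl)) i)
  rwa [← coeff_map, hq, coeff_C_mul, map_mul, map_mul, hone _ hbb, one_mul] at h2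

theorem kgau_one {L : Type} [Field L] [Algebra K[X] L] {v : Vl L}
    (h : ∀ p : K[X], (∀ i, v (algebraMap K[X] L (C (p.coeff i))) ≤ 1) → v (algebraMap K[X] L p) ≤ 1 ∧
      (v (algebraMap K[X] L p) < 1 → ∀ i, v (algebraMap K[X] L (C (p.coeff i))) < 1))
    {p : K[X]} (hp : ∀ i, v (algebraMap K[X] L (C (p.coeff i))) ≤ 1) {j : ℕ} (hj : p.coeff j = 1) :
    v (algebraMap K[X] L p) = 1 := by
  refine le_antisymm (h p hp).1 (not_lt.1 fun hl => ?_)
  have := (h p hp).2 hl j
  rw [hj, map_one, map_one, map_one] at this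
  exact lt_irrefl _ this

/-- Two valuations of Gauss type that agree on the constants agree on the rational function field:
divide a polynomial by its coefficient of largest value. -/
theorem kq_eq {L : Type} [Field L] [Algebra K[X] L] [IsFractionRing K[X] L] {v v' : Vl L}
    (e : ∀ a : K, v' (algebraMap K[X] L (C a)) ≤ 1 ↔ v (algebraMap K[X] L (C a)) ≤ 1)
    (h : ∀ p : K[X], (∀ i, v (algebraMap K[X] L (C (p.coeff i))) ≤ 1) → v (algebraMap K[X] L p) ≤ 1 ∧
      (v (algebraMap K[X] L p) < 1 → ∀ i, v (algebraMap K[X] L (C (p.coeff i))) < 1))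
    (h' : ∀ p : K[X], (∀ i, v' (algebraMap K[X] L (C (p.coeff i))) ≤ 1) →
      v' (algebraMap K[X] L p) ≤ 1 ∧
      (v' (algebraMap K[X] L p) < 1 → ∀ i, v' (algebraMap K[X] L (C (p.coeff i))) < 1)) (x : L) :
    v' x ≤ 1 ↔ v x ≤ 1 := by
  have key : ∀ p : K[X], p ≠ 0 → ∃ c : K, c ≠ 0 ∧
      v (algebraMap K[X] L p) = v (algebraMap K[X] L (C c)) ∧
      v' (algebraMap K[X] L p) = v' (algebraMap K[X] L (C c)) := by
    intro p hp
    obtain ⟨j, hj, hm⟩ := Finset.exists_max_image p.support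
      (fun i => v (algebraMap K[X] L (C (p.coeff i)))) (support_nonempty.2 hp)
    have hc : p.coeff j ≠ 0 := mem_support_iff.1 hj
    have hu : algebraMap K[X] L (C (p.coeff j)) * algebraMap K[X] L (C (p.coeff j)⁻¹) = 1 := by
      rw [← map_mul, ← map_mul, mul_inv_cancel₀ hc, map_one, map_one]
    have h1 : ∀ i, v (algebraMap K[X] L (C ((C (p.coeff j)⁻¹ * p).coeff i))) ≤ 1 := by
      intro i
      rw [coeff_C_mul, map_mul, map_mul, map_mul, ← v.map_one, ← hu, map_mul, mul_comm]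
      refine mul_le_mul_left ?_ _
      by_cases hi : i ∈ p.support
      · exact hm i hi
      · rw [notMem_support_iff.1 hi, map_zero, map_zero, map_zero]
        exact zero_le
    have h2 : (C (p.coeff j)⁻¹ * p).coeff j = 1 := by rw [coeff_C_mul, inv_mul_cancel₀ hc]
    have e0 : algebraMap K[X] L p =
        algebraMap K[X] L (C (p.coeff j)) * algebraMap K[X] L (C (p.coeff j)⁻¹ * p) := by
      rw [map_mul, ← mul_assoc, hu, one_mul]
    refine ⟨_, hc, ?_, ?_⟩
    · rw [e0, map_mul, kgau_one h h1 h2, mul_one]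
    · rw [e0, map_mul, kgau_one h' (fun i => (e _).2 (h1 i)) h2, mul_one]
  obtain ⟨a, b, hb, rfl⟩ := IsFractionRing.div_surjective (A := K[X]) x
  by_cases ha : a = 0
  · simp [ha]
  obtain ⟨c, -, h1, h2⟩ := key a ha
  obtain ⟨d, hd, h3, h4⟩ := key b (nonZeroDivisors.ne_zero hb)
  have e1 : algebraMap K[X] L (C (c / d)) =
      algebraMap K[X] L (C c) / algebraMap K[X] L (C d) :=
    map_div₀ ((algebraMap K[X] L).comp C) c d
  rw [map_div₀, map_div₀, h1, h2, h3, h4, ← map_div₀ v, ← map_div₀ v', ← e1]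
  exact e (c / d)

end Pool.Agent.ZCy
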