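import Pool.Agent.Lib.MP_751085_ag.ZC.K.KDefs

/-! Block K: Gauss valuations. -/

namespace Pool.Agent.ZCy

open scoped Classical WithZero IntermediateField
open Polynomial

variable {B K K₁ E : Type} [CommRing B] [IsDomain B] [UniqueFactorizationMonoid B] [Field K]
  [Field K₁] [Field E] [Algebra B K] [IsFractionRing B K]

section

variable {F : Type} [Field F] (w : Vl E) (j : F →+* E)

/-- integral elements of a subfield -/
noncomputable def kgaub_psi : w.valuationSubring.toSubring.comap j →+* w.valuationSubring :=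
  (j.comp (Subring.subtype _)).codRestrict w.valuationSubring fun x => x.2

theorem kgaub_res : ∃ (κ : Type) (_ : Field κ) (ρ : w.valuationSubring →+* κ),
    ∀ x, ρ x = 0 ↔ w x < 1 :=
  ⟨_, inferInstance, IsLocalRing.residue _, fun x => by
    rw [IsLocalRing.residue_eq_zero_iff, Valuation.mem_maximalIdeal_iff]⟩

theorem kgaub_eval (s : w.valuationSubring) (P : (w.valuationSubring.toSubring.comap j)[X]) :
    (P.map (Subring.subtype _)).eval₂ j s = (P.eval₂ (kgaub_psi w j) s : w.valuationSubring) := by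
  rw [eval₂_map]
  exact (hom_eval₂ P (kgaub_psi w j) w.valuationSubring.subtype s).symm

theorem kgaub_zero {κ : Type} [Field κ] {ρ : w.valuationSubring →+* κ}
    (hρ : ∀ x, ρ x = 0 ↔ w x < 1) (s : w.valuationSubring)
    (P : (w.valuationSubring.toSubring.comap j)[X]) :
    (P.map (ρ.comp (kgaub_psi w j))).eval (ρ s) = 0 ↔
      w ((P.map (Subring.subtype _)).eval₂ j s) < 1 := by
  rw [kgaub_eval, ← hρ, hom_eval₂, eval_map]

theorem kgaub_lift (p : F[X]) (hp : ∀ i, w (j (p.coeff i)) ≤ 1) :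
    ∃ P : (w.valuationSubring.toSubring.comap j)[X], P.map (Subring.subtype _) = p :=
  (mem_lifts _).1 ((lifts_iff_coeff_lifts _).2 fun i => ⟨⟨p.coeff i, hp i⟩, rfl⟩)

end

/-- The residue of `τ` stays transcendental over the larger residue field. -/
theorem kq_up [Algebra K K₁] [Algebra.IsAlgebraic K K₁] (ι : K₁ →+* E) (τ : E) {w : Vl E}
    (hτ : w τ ≤ 1) (h : ∀ p : K[X], (∀ i, w (ι (algebraMap K K₁ (p.coeff i))) ≤ 1) →
      w (p.eval₂ (ι.comp (algebraMap K K₁)) τ) < 1 → ∀ i, w (ι (algebraMap K K₁ (p.coeff i))) < 1)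
    {p : K₁[X]} (hp : ∀ i, w (ι (p.coeff i)) ≤ 1) :
    w (p.eval₂ ι τ) ≤ 1 ∧ (w (p.eval₂ ι τ) < 1 → ∀ i, w (ι (p.coeff i)) < 1) := by
  set j := ι.comp (algebraMap K K₁) with hj
  obtain ⟨κ, _, ρ, hρ⟩ := kgaub_res w
  let φ := ρ.comp (kgaub_psi w j)
  let t : w.valuationSubring := ⟨τ, hτ⟩
  have key : ∀ (s : w.valuationSubring) (P : (w.valuationSubring.toSubring.comap j)[X]),
      aeval (ρ s) (P.map φ.rangeRestrict) = 0 ↔
        w ((P.map (Subring.subtype _)).eval₂ j s) < 1 := fun s P => by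
    rw [← kgaub_zero w j hρ, aeval_def, eval₂_map, eval_map]
    rfl
  have htr : Transcendental φ.range (ρ t) := by
    rintro ⟨q, hq, h0⟩
    obtain ⟨P, rfl⟩ := map_surjective _ φ.rangeRestrict_surjective q
    refine hq (Polynomial.ext fun i => Subtype.ext ?_)
    have h1 := h _ (fun i => by rw [coeff_map]; exact (P.coeff i).2) ((key t P).1 h0) i
    rw [coeff_map] at h1 ⊢
    exact (hρ _).2 h1
  have halg : ∀ z : w.valuationSubring.toSubring.comap ι,
      IsAlgebraic φ.range (ρ (kgaub_psi w ι z)) := by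
    intro z
    obtain ⟨Q, hQ, h0⟩ := Algebra.IsAlgebraic.isAlgebraic (R := K) (z : K₁)
    obtain ⟨i, hi, hm⟩ := Q.support.exists_max_image (fun i => w (j (Q.coeff i)))
      (support_nonempty.2 hQ)
    have hc : Q.coeff i ≠ 0 := mem_support_iff.1 hi
    have hw : w (j (Q.coeff i)) ≠ 0 := by simpa using hc
    obtain ⟨P, hP⟩ := kgaub_lift w j (C (Q.coeff i)⁻¹ * Q) fun m => by
      rw [coeff_C_mul, map_mul, map_mul, map_inv₀, map_inv₀]
      by_cases hm' : m ∈ Q.support
      · exact inv_mul_le_one_of_le₀ (hm m hm') zero_le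
      · simp [notMem_support_iff.1 hm']
    refine ⟨P.map φ.rangeRestrict, fun e => ?_, (key _ P).2 ?_⟩
    · have h1 : P.coeff i = 1 := Subtype.ext <| by
        have := congrArg (fun r => coeff r i) hP
        simpa [coeff_map, inv_mul_cancel₀ hc] using this
      have h2 := congrArg (fun r => coeff r i) e
      simp [coeff_map, h1] at h2
    · have h1 : Q.eval₂ j (ι z) = 0 := by rw [hj, ← hom_eval₂, ← aeval_def, h0, map_zero]
      rw [hP, eval₂_mul]
      show w (_ * Q.eval₂ j (ι z)) < 1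
      rw [h1, mul_zero, map_zero]
      exact zero_lt_one
  obtain ⟨P, rfl⟩ := kgaub_lift w ι p hp
  refine ⟨(kgaub_eval w ι t P).symm ▸ (P.eval₂ (kgaub_psi w ι) t).2, fun h1 i => ?_⟩
  have h2 := (kgaub_zero w ι hρ t P).2 h1
  by_contra h3
  obtain ⟨R, hR⟩ : P.map (ρ.comp (kgaub_psi w ι)) ∈
      lifts (algebraMap (Subalgebra.algebraicClosure φ.range κ) κ) :=
    (lifts_iff_coeff_lifts _).2 fun m => ⟨⟨_, halg (P.coeff m)⟩, by rw [coeff_map]; rfl⟩
  rw [coe_mapRingHom] at hR
  refine htr (IsAlgebraic.restrictScalars _ ⟨R, fun e => h3 ?_, ?_⟩)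
  · have h4 := congrArg (fun r => coeff r i) hR
    simp only [e, Polynomial.map_zero, coeff_zero, coeff_map] at h4
    rw [coeff_map]
    exact (hρ _).1 h4.symm
  · rw [aeval_def, eval₂_eq_eval_map, hR, h2]

end Pool.Agent.ZCy
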