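import Pool.Agent.Lib.MP_751085_ag.ZC.K.Gau
import Pool.Agent.Lib.MP_751085_ag.ZC.K.GauB
import Pool.Agent.Lib.MP_751085_ag.ZC.V.AdK

/-! Block K: prolongations of Gauss valuations. -/

namespace Pool.Agent.ZCy

open scoped Classical WithZero IntermediateField
open Polynomial groupCohomology

set_option linter.unusedSectionVars false

/-- `w` restricts to a Gauss valuation along `φ` -/
def Gs {K E : Type} [Field K] [Field E] (φ : K[X] →+* E) (w : Vl E) : Prop :=
  ∀ p : K[X], (∀ i, w (φ (C (p.coeff i))) ≤ 1) →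
    w (φ p) ≤ 1 ∧ (w (φ p) < 1 → ∀ i, w (φ (C (p.coeff i))) < 1)

/-- `kq_eq` on the field of the fractions `φ a / φ b`, then `kv_conj`. -/
theorem kq_conj {L E K₁ : Type} [Field L] [Field E] [Field K₁] [Algebra L E] [FiniteDimensional L E]
    [IsGalois L E] {φ : K₁[X] →+* E} (hi : Function.Injective φ)
    (hL : ∀ x : L, ∃ a b, algebraMap L E x = φ a / φ b) {w W : Vl E} (h : Gs φ w) (h' : Gs φ W)
    (e : ∀ a : K₁, W (φ (C a)) ≤ 1 ↔ w (φ (C a)) ≤ 1) :
    ∃ g : E ≃ₐ[L] E, (∀ p, g (φ p) = φ p) ∧ ∀ x, w x ≤ 1 ↔ W (g x) ≤ 1 := by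
  let S : Subfield E := Subfield.closure φ.range
  have hS (p : K₁[X]) : φ p ∈ S := Subfield.subset_closure ⟨p, rfl⟩
  let L₁ : IntermediateField L E := S.toIntermediateField fun x => by
    obtain ⟨a, b, hx⟩ := hL x
    exact hx ▸ S.div_mem (hS a) (hS b)
  let ψ : K₁[X] →+* L₁ := φ.codRestrict L₁ hS
  let := ψ.toAlgebra
  have : FaithfulSMul K₁[X] L₁ :=
    (faithfulSMul_iff_algebraMap_injective _ _).2 fun a b h => hi (congrArg Subtype.val h)
  have : IsFractionRing K₁[X] L₁ := IsFractionRing.of_field _ _ fun z => by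
    obtain ⟨a, ha, b, hb, hz⟩ := Subfield.mem_closure_iff.1 (show z.1 ∈ S from z.2)
    rw [Subring.closure_eq] at ha hb
    obtain ⟨a, rfl⟩ := ha
    obtain ⟨b, rfl⟩ := hb
    exact ⟨a, b, Subtype.ext hz.symm⟩
  have key := kq_eq (K := K₁) (v := w.comap (algebraMap L₁ E)) (v' := W.comap (algebraMap L₁ E)) e h h'
  obtain ⟨g, hg⟩ := kv_conj (K := L₁) (v := w.comap (algebraMap L₁ E)) (w := W) (w' := w)
    (fun x => key x) fun _ => Iff.rfl
  exact ⟨g.restrictScalars L, fun p => g.commutes (ψ p), hg⟩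

/-- `kq_base`, `kq_up` with `ι = φ.comp C`, `τ = φ X` -/
theorem kq_gs {B K K₁ E : Type} [CommRing B] [IsDomain B] [UniqueFactorizationMonoid B] [Field K]
    [Field K₁] [Field E] [Algebra B K] [IsFractionRing B K] [Algebra K K₁] [Algebra.IsAlgebraic K K₁]
    {φ : K₁[X] →+* E} {w : Vl E} {P : B} (hP : Prime P)
    (h : Cen (φ.comp (mapRingHom ((algebraMap K K₁).comp (algebraMap B K)))) w (C P)) : Gs φ w := by
  have ev (p : K₁[X]) : p.eval₂ (φ.comp C) (φ X) = φ p := by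
    rw [← hom_eval₂, eval₂_C_X]
  have e : φ.comp (mapRingHom ((algebraMap K K₁).comp (algebraMap B K))) =
      eval₂RingHom (((φ.comp C).comp (algebraMap K K₁)).comp (algebraMap B K)) (φ X) :=
    ringHom_ext (fun a => by simp) (by simp)
  have hX : w (φ X) ≤ 1 := by simpa using h.1 X
  intro p hp
  rw [← ev]
  exact kq_up (K := K) (φ.comp C) (φ X) hX
    (fun q hq => (kq_base ((φ.comp C).comp (algebraMap K K₁)) (φ X) hP (e ▸ h) hq).2) hp

end Pool.Agent.ZCy
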