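import Pool.Agent.Lib.MP_751085_ag.ZC.ADefs

/-! Block K: group theory. -/

namespace Pool.Agent.ZCy

open scoped Classical
open groupCohomology

variable {G A W : Type} [Group G] [MulAction G W]

theorem kg_sec (G W : Type) [Group G] [MulAction G W] : Nonempty (Sec G W) := by
  have h : ∀ s : W, ∃ g : G, g • (Quotient.mk (MulAction.orbitRel G W) s).out = s := fun s =>
    MulAction.orbitRel_apply.1
      ((MulAction.orbitRel G W).symm (Quotient.mk_out (s := MulAction.orbitRel G W) s))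
  choose t ht using h
  refine ⟨⟨fun s => (Quotient.mk (MulAction.orbitRel G W) s).out, t, ht, fun g s => ?_⟩⟩
  exact congrArg Quotient.out (Quotient.sound (MulAction.orbitRel_apply.2 ⟨g, rfl⟩))

theorem kg_orb [AddCommGroup A] (x : G → W → A)
    (hx : ∀ g h s, x (g * h) s = x g s + x h (g⁻¹ • s)) (h0 : ∀ g s, g • s = s → x g s = 0) :
    ∃ E : W → A, (∀ s, ∃ g, E s = x g s) ∧ ∀ g s, x g s = E s - E (g⁻¹ • s) := by
  obtain ⟨T⟩ := kg_sec G W
  refine ⟨fun s => x (T.t s) s, fun s => ⟨_, rfl⟩, fun g s => ?_⟩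
  have h1 : (g * T.t (g⁻¹ • s) * (T.t s)⁻¹) • s = s := by
    have h2 : (T.t s)⁻¹ • s = T.rep (g⁻¹ • s) := by
      rw [T.rep_smul, inv_smul_eq_iff, T.t_smul]
    rw [mul_smul, mul_smul, h2, T.t_smul, smul_inv_smul]
  have h3 := hx (g * T.t (g⁻¹ • s) * (T.t s)⁻¹) (T.t s) s
  rw [h0 _ _ h1, zero_add, inv_smul_eq_iff.2 h1.symm, inv_mul_cancel_right, hx] at h3
  exact eq_sub_of_add_eq h3

variable [CommGroup A] [MulDistribMulAction G A]

theorem kgrp_pow {M : ℕ} {x : G → A} (hx : ∀ g, x g ^ M = 1) (p : G × G) : dd x p ^ M = 1 := by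
  rw [dd, mul_pow, div_pow, ← smul_pow', hx, hx, hx, smul_one, div_one, mul_one]

theorem kgrp_core {M : ℕ} {c : G × G → A} (hc : IsMulCocycle₂ c) (hM : ∀ p, c p ^ M = 1)
    (N : Subgroup G) [N.Normal] (hN : ∀ n ∈ N, ∀ a : A, a ^ M = 1 → n • a = a)
    (h1 : ∀ n ∈ N, ∀ n' ∈ N, c (n, n') = 1)
    (h2 : ∀ g, ∀ n ∈ N, c (g, g⁻¹ * n * g) = c (n, g)) :
    ∃ y : G → A, (∀ g, y g ^ M = 1) ∧ Infl ⊤ N (c * dd y) := by
  let σ : G → G := fun g => (QuotientGroup.mk g : G ⧸ N).out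
  have hσ : ∀ g, (σ g)⁻¹ * g ∈ N := fun g => QuotientGroup.eq.1 (QuotientGroup.out_eq' _)
  have hσ' : ∀ g, ∀ n ∈ N, σ (g * n) = σ g := fun g n hn =>
    congrArg Quotient.out (QuotientGroup.mk_mul_of_mem g hn)
  let y : G → A := fun g => c (σ g, (σ g)⁻¹ * g)
  have hy : ∀ g, ∀ n ∈ N, y (g * n) = y g * c (g, n) := by
    intro g n hn
    have h := hc (σ g) ((σ g)⁻¹ * g) n
    rw [h1 _ (hσ g) n hn, smul_one, one_mul, mul_inv_cancel_left] at h
    change c (σ (g * n), (σ (g * n))⁻¹ * (g * n)) = c (σ g, (σ g)⁻¹ * g) * _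
    rw [hσ' g n hn, ← mul_assoc, ← h, mul_comm]
  have hyM : ∀ g, y g ^ M = 1 := fun g => hM _
  refine ⟨y, hyM, fun g _ h _ i hi i' hi' => ?_, fun g _ h _ i hi => hN i hi _ ?_⟩
  · have hm : h⁻¹ * i * h ∈ N := ‹N.Normal›.conj_mem' i hi h
    have e0 : g * i * (h * i') = g * h * (h⁻¹ * i * h * i') := by group
    have e1 := hc (g * i) h i'
    have e2 := hc g i h
    have e3 := hc g h (h⁻¹ * i * h)
    have e4 := hc (g * h) (h⁻¹ * i * h) i'
    rw [mul_smul, hN i hi _ (hM _)] at e1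
    rw [h2 h i hi, show h * (h⁻¹ * i * h) = i * h by group, ← e2] at e3
    rw [h1 _ hm _ hi', smul_one, one_mul, show g * h * (h⁻¹ * i * h) = g * i * h by group] at e4
    have key : c (g * i, h * i') * g • c (h, i') * c (g, i) =
        c (g, h) * c (g * h, h⁻¹ * i * h * i') := by
      rw [mul_comm (c (g * i, h * i')), ← e1, mul_assoc, ← e3, ← e4, ← mul_assoc, mul_comm]
    simp only [Pi.mul_apply, dd]
    rw [e0, hy _ _ (mul_mem hm hi'), hy g i hi, mul_smul, hN i hi _ (hyM _), hy h i' hi', smul_mul',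
      eq_mul_inv_of_mul_eq (eq_mul_inv_of_mul_eq key)]
    simp only [div_eq_mul_inv, mul_inv, mul_assoc, mul_comm, mul_left_comm]
    simp only [← mul_assoc, mul_inv_cancel_right]
  · rw [Pi.mul_apply, mul_pow, hM, kgrp_pow hyM, mul_one]

theorem kg_infl {M : ℕ} {c : G × G → A} (hc : IsMulCocycle₂ c) (hM : ∀ p, c p ^ M = 1)
    (N : Subgroup G) [N.Normal] (hN : ∀ n ∈ N, ∀ a : A, a ^ M = 1 → n • a = a) {e : G → A}
    (he : ∀ n ∈ N, e n ^ M = 1) (h1 : ∀ n ∈ N, ∀ n' ∈ N, c (n, n') = dd e (n, n'))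
    (h2 : ∀ g, ∀ n ∈ N, c (g, g⁻¹ * n * g) * e n = c (n, g) * g • e (g⁻¹ * n * g)) :
    ∃ x : G → A, (∀ g, x g ^ M = 1) ∧ Infl ⊤ N (c / dd x) := by
  let f : G → A := fun g => if g ∈ N then e g else 1
  have hf : ∀ n ∈ N, f n = e n := fun n hn => if_pos hn
  have hfM : ∀ g, f g ^ M = 1 := fun g => by
    by_cases hg : g ∈ N
    · rw [hf g hg, he g hg]
    · rw [show f g = 1 from if_neg hg, one_pow]
  have hc' : IsMulCocycle₂ (c / dd f) := by
    intro g h j
    simp only [Pi.div_apply, dd, smul_div', smul_mul', mul_smul, mul_assoc]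
    rw [div_mul_div_comm, div_mul_div_comm, hc g h j]
    congr 1
    apply Additive.ofMul.injective
    simp only [ofMul_mul, ofMul_div]
    abel
  have hM' : ∀ p, (c / dd f) p ^ M = 1 := fun p => by
    rw [Pi.div_apply, div_pow, hM, kgrp_pow hfM, div_one]
  have h1' : ∀ n ∈ N, ∀ n' ∈ N, (c / dd f) (n, n') = 1 := fun n hn n' hn' => by
    rw [Pi.div_apply, h1 n hn n' hn', div_eq_one]
    simp only [dd]
    rw [hf n hn, hf n' hn', hf _ (mul_mem hn hn')]
  have h2' : ∀ g, ∀ n ∈ N, (c / dd f) (g, g⁻¹ * n * g) = (c / dd f) (n, g) := fun g n hn => by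
    have hm : g⁻¹ * n * g ∈ N := ‹N.Normal›.conj_mem' n hn g
    simp only [Pi.div_apply, dd]
    rw [hf _ hm, hf n hn, hN n hn _ (hfM g), show g * (g⁻¹ * n * g) = n * g by group,
      eq_mul_inv_of_mul_eq (h2 g n hn)]
    simp only [div_eq_mul_inv, mul_inv, inv_inv, mul_assoc, mul_comm, mul_left_comm]
    simp only [← mul_assoc, mul_inv_cancel_comm]
  obtain ⟨y, hy, hI⟩ := kgrp_core hc' hM' N hN h1' h2'
  refine ⟨f / y, fun g => by rw [Pi.div_apply, div_pow, hfM, hy, div_one], ?_⟩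
  have : c / dd (f / y) = c / dd f * dd y := by
    funext p
    simp only [Pi.mul_apply, Pi.div_apply, dd, smul_div']
    simp only [div_eq_mul_inv, mul_inv, inv_inv, mul_assoc, mul_comm, mul_left_comm]
  rwa [this]

end Pool.Agent.ZCy
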