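import Pool.Agent.Lib.MP_751085_ag.ZC.K.Grp

/-! Block K: group theory. -/

namespace Pool.Agent.ZCy

open scoped Classical
open groupCohomology

variable {G A W : Type} [Group G] [MulAction G W]

variable [CommGroup A] [MulDistribMulAction G A]

/-- the defect of the splitting `e` -/
def kgPhi (c : G × G → A) (e : G → A) (g n : G) : A :=
  c (g, g⁻¹ * n * g) * e n / (c (n, g) * g • e (g⁻¹ * n * g))

/-- In the extension `(1, g) s(g⁻¹ n g) (1, g)⁻¹ = kgPhi g n • s(n)`. -/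
theorem kg_phi {M : ℕ} {c : G × G → A} (hc : IsMulCocycle₂ c) (hM : ∀ p, c p ^ M = 1)
    {R N : Subgroup G} [N.Normal] (hNR : N ≤ R) (hR : ∀ r ∈ R, ∀ a : A, a ^ M = 1 → r • a = a)
    {e : G → A} (he : ∀ r ∈ R, e r ^ M = 1) (h1 : ∀ r ∈ R, ∀ r' ∈ R, c (r, r') = dd e (r, r')) :
    (∀ g, ∀ n ∈ N, kgPhi c e g n ^ M = 1) ∧
    (∀ g, ∀ n ∈ N, ∀ n' ∈ N, kgPhi c e g (n * n') = kgPhi c e g n * kgPhi c e g n') ∧
    (∀ g g', ∀ n ∈ N, kgPhi c e (g * g') n = g • kgPhi c e g' (g⁻¹ * n * g) * kgPhi c e g n) ∧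
    ∀ r ∈ R, ∀ n ∈ N, kgPhi c e r n = 1 := by
  have hm : ∀ g, ∀ n ∈ N, g⁻¹ * n * g ∈ R := fun g n hn => hNR (‹N.Normal›.conj_mem' n hn g)
  have hg : ∀ g n : G, g * (g⁻¹ * n * g) = n * g := fun g n => by group
  refine ⟨fun g n hn => ?_, fun g n hn n' hn' => ?_, fun g g' n hn => ?_, fun r hr n hn => ?_⟩
  · rw [kgPhi, div_pow, mul_pow, mul_pow, ← smul_pow', hM, hM, he _ (hNR hn), he _ (hm g n hn),
      smul_one, div_self']
  · have a1 := hc g (g⁻¹ * n * g) (g⁻¹ * n' * g)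
    have a2 := hc n n' g
    have a3 := hc n g (g⁻¹ * n' * g)
    have a4 := h1 n (hNR hn) n' (hNR hn')
    have a5 := congrArg (g • ·) (h1 _ (hm g n hn) _ (hm g n' hn'))
    rw [hR n (hNR hn) _ (hM _)] at a2 a3
    simp only [dd, hR n (hNR hn) _ (he _ (hNR hn')), hR _ (hm g n hn) _ (he _ (hm g n' hn')),
      smul_mul', smul_div'] at a4 a5
    rw [hg] at a1 a3
    simp only [kgPhi, show g⁻¹ * (n * n') * g = g⁻¹ * n * g * (g⁻¹ * n' * g) by group]
    replace a1 := congrArg Additive.ofMul a1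
    replace a2 := congrArg Additive.ofMul a2
    replace a3 := congrArg Additive.ofMul a3
    replace a4 := congrArg Additive.ofMul a4
    replace a5 := congrArg Additive.ofMul a5
    refine Additive.ofMul.injective ?_
    simp only [ofMul_mul, ofMul_div] at a1 a2 a3 a4 a5 ⊢
    linear_combination (norm := abel) a3 - a1 - a2 + a4 - a5
  · have a1 := hc g g' (g'⁻¹ * (g⁻¹ * n * g) * g')
    have a2 := hc g (g⁻¹ * n * g) g'
    have a3 := hc n g g'
    rw [hR n (hNR hn) _ (hM _)] at a3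
    rw [hg] at a1 a2
    simp only [kgPhi, show (g * g')⁻¹ * n * (g * g') = g'⁻¹ * (g⁻¹ * n * g) * g' by group,
      smul_mul', smul_div', mul_smul]
    replace a1 := congrArg Additive.ofMul a1
    replace a2 := congrArg Additive.ofMul a2
    replace a3 := congrArg Additive.ofMul a3
    refine Additive.ofMul.injective ?_
    simp only [ofMul_mul, ofMul_div] at a1 a2 a3 ⊢
    linear_combination (norm := abel) a1 - a2 + a3
  · rw [kgPhi, h1 r hr _ (hm r n hn), h1 n (hNR hn) r hr, div_eq_one]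
    simp only [dd, hg, hR n (hNR hn) _ (he r hr)]
    refine Additive.ofMul.injective ?_
    simp only [ofMul_mul, ofMul_div]
    abel

omit [MulDistribMulAction G A] in
theorem kgrpb_one {N : Subgroup G} {f : G → A} (hf : ∀ n ∈ N, ∀ n' ∈ N, f (n * n') = f n * f n') :
    f 1 = 1 := by
  simpa only [mul_one, left_eq_mul] using hf 1 N.one_mem 1 N.one_mem

omit [MulDistribMulAction G A] in
theorem kgrpb_tors {N : Subgroup G} {f : G → A} (hf : ∀ n ∈ N, ∀ n' ∈ N, f (n * n') = f n * f n')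
    {x : G} (hx : x ∈ N) {q M : ℕ} (h : q.Coprime M) (hq : x ^ q = 1) (hM : f x ^ M = 1) :
    f x = 1 := by
  have h1 : ∀ k : ℕ, f (x ^ k) = f x ^ k := fun k => by
    induction k with
    | zero => rw [pow_zero, pow_zero, kgrpb_one hf]
    | succ k ih => rw [pow_succ, pow_succ, hf _ (N.pow_mem hx k) _ hx, ih]
  exact (pow_eq_one_iff_of_coprime h).1 ⟨by rw [← h1, hq, kgrpb_one hf], hM⟩

/-- Let `N` be the closure (normal by `hI`, `hP`). Put `ψ w = kgPhi c e (t w)` with the transporter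
`t` of `kg_sec`; by `res` and the cocycle rule `ψ (g • w) n = g • ψ w (g⁻¹ n g) * kgPhi g n` for
`n ∈ I (g • w)`. Take `ψ₀` from `kum`. The homomorphisms `n ↦ ψ₀ n` and
`n ↦ g • ψ₀ (g⁻¹ n g) * kgPhi g n` from `N` to the `M`-torsion agree on the generators (both are `1`
on `P`), so on `N` (`Subgroup.closure_induction`). Apply `kg_infl` to `e / ψ₀`. -/
theorem kg_glue {M : ℕ} {c : G × G → A} (hc : IsMulCocycle₂ c) (hM : ∀ p, c p ^ M = 1)
    {R : Subgroup G} (hR : ∀ r ∈ R, ∀ a : A, a ^ M = 1 → r • a = a) {e : G → A}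
    (he : ∀ r ∈ R, e r ^ M = 1) (h1 : ∀ r ∈ R, ∀ r' ∈ R, c (r, r') = dd e (r, r'))
    (I : W → Subgroup G) (hI : ∀ (g : G) w, ∀ n ∈ I w, g * n * g⁻¹ ∈ I (g • w))
    (hIR : ∀ w, I w ≤ R) (P : Set G) (hP : ∀ g, ∀ x ∈ P, g * x * g⁻¹ ∈ P) (hPR : P ⊆ R)
    (hPo : ∀ x ∈ P, ∃ q : ℕ, q.Coprime M ∧ x ^ q = 1)
    (res : ∀ (w : W) (g : G), g • w = w → ∀ n ∈ I w,
      c (g, g⁻¹ * n * g) * e n = c (n, g) * g • e (g⁻¹ * n * g))
    (kum : ∀ ψ : W → G → A, (∀ w, ∀ n ∈ I w, ψ w n ^ M = 1) →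
      (∀ w, ∀ n ∈ I w, ∀ n' ∈ I w, ψ w (n * n') = ψ w n * ψ w n') →
      (∀ r ∈ R, ∀ w, ∀ n ∈ I w, ψ (r • w) (r * n * r⁻¹) = ψ w n) →
      ∃ ψ₀ : G → A, (∀ r ∈ R, ψ₀ r ^ M = 1) ∧ (∀ r ∈ R, ∀ r' ∈ R, ψ₀ (r * r') = ψ₀ r * ψ₀ r') ∧
        ∀ w, ∀ n ∈ I w, ψ₀ n = ψ w n) :
    ∃ x : G → A, (∀ g, x g ^ M = 1) ∧
      Infl ⊤ (Subgroup.closure ((⋃ w, (I w : Set G)) ∪ P)) (c / dd x) := by
  set N := Subgroup.closure ((⋃ w, (I w : Set G)) ∪ P) with hN
  have hIN : ∀ w, ∀ n ∈ I w, n ∈ N := fun w n hn =>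
    Subgroup.subset_closure (Or.inl (Set.mem_iUnion.2 ⟨w, hn⟩))
  have hPN : ∀ x ∈ P, x ∈ N := fun x hx => Subgroup.subset_closure (Or.inr hx)
  have hnorm : N.Normal := ⟨fun n hn g => by
    refine (Subgroup.closure_le (N.comap (MulAut.conj g).toMonoidHom)).2 ?_ hn
    rintro x (hx | hx)
    · obtain ⟨w, hw⟩ := Set.mem_iUnion.1 hx
      exact hIN _ _ (hI g w x hw)
    · exact hPN _ (hP g x hx)⟩
  have hNR : N ≤ R := (Subgroup.closure_le R).2
    (Set.union_subset (Set.iUnion_subset fun w => hIR w) hPR)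
  have hm : ∀ g, ∀ n ∈ N, g⁻¹ * n * g ∈ R := fun g n hn => hNR (hnorm.conj_mem' n hn g)
  obtain ⟨p1, p2, p3, p4⟩ := kg_phi hc hM hNR hR he h1
  obtain ⟨T⟩ := kg_sec G W
  have hI' : ∀ (g : G) w, ∀ n ∈ I (g • w), g⁻¹ * n * g ∈ I w := fun g w n hn => by
    simpa only [inv_inv, inv_smul_smul] using hI g⁻¹ _ n hn
  have key : ∀ (g : G) w, ∀ n ∈ I (g • w), kgPhi c e (T.t (g • w)) n =
      g • kgPhi c e (T.t w) (g⁻¹ * n * g) * kgPhi c e g n := fun g w n hn => by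
    have a1 : T.t (g • w) • T.rep w = g • w := by rw [← T.rep_smul g w, T.t_smul]
    have a2 := res (T.rep w) ((T.t (g • w))⁻¹ * (g * T.t w))
      (by rw [mul_smul, mul_smul, T.t_smul, inv_smul_eq_iff, a1]) _ (hI' _ _ n (a1.symm ▸ hn))
    rw [← p3 g _ n (hIN _ n hn), ← mul_inv_cancel_left (T.t (g • w)) (g * T.t w),
      p3 _ _ n (hIN _ n hn), show kgPhi c e ((T.t (g • w))⁻¹ * (g * T.t w)) _ = 1 from
        div_eq_one.2 a2, smul_one, one_mul]
  obtain ⟨ψ, q1, q2, q3⟩ := kum (fun w => kgPhi c e (T.t w)) (fun w n hn => p1 _ n (hIN w n hn))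
    (fun w n hn n' hn' => p2 _ n (hIN w n hn) n' (hIN w n' hn')) fun r hr w n hn => by
      rw [key r w _ (hI r w n hn), p4 r hr _ (hIN _ _ (hI r w n hn)), mul_one,
        show r⁻¹ * (r * n * r⁻¹) * r = n by group, hR r hr _ (p1 _ n (hIN w n hn))]
  have main : ∀ g, ∀ n ∈ N, g • ψ (g⁻¹ * n * g) * kgPhi c e g n / ψ n = 1 := fun g n hn => by
    have hf : ∀ n ∈ N, ∀ n' ∈ N, g • ψ (g⁻¹ * (n * n') * g) * kgPhi c e g (n * n') / ψ (n * n') =
        g • ψ (g⁻¹ * n * g) * kgPhi c e g n / ψ n *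
          (g • ψ (g⁻¹ * n' * g) * kgPhi c e g n' / ψ n') := fun n hn n' hn' => by
      rw [show g⁻¹ * (n * n') * g = g⁻¹ * n * g * (g⁻¹ * n' * g) by group,
        q2 _ (hm g n hn) _ (hm g n' hn'), p2 g n hn n' hn', q2 _ (hNR hn) _ (hNR hn'), smul_mul',
        div_mul_div_comm, mul_mul_mul_comm]
    have h0 := kgrpb_one (f := fun n => g • ψ (g⁻¹ * n * g) * kgPhi c e g n / ψ n) hf
    induction hn using Subgroup.closure_induction with
    | mem x hx =>
      rcases hx with hx | hx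
      · obtain ⟨w, hw⟩ := Set.mem_iUnion.1 hx
        have hw' : x ∈ I (g • g⁻¹ • w) := by rwa [smul_inv_smul]
        rw [div_eq_one, q3 _ x hw', q3 _ _ (hI' g _ x hw')]
        exact (key g _ x hw').symm
      · obtain ⟨q, hq, hxq⟩ := hPo x hx
        refine kgrpb_tors (f := fun n => g • ψ (g⁻¹ * n * g) * kgPhi c e g n / ψ n) hf (hPN x hx)
          hq hxq ?_
        rw [div_pow, mul_pow, ← smul_pow', q1 _ (hm g x (hPN x hx)), p1 g x (hPN x hx),
          q1 x (hPR hx), smul_one, one_mul, div_one]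
    | one => exact h0
    | mul x y hx hy ihx ihy => rw [hf x hx y hy, ihx, ihy, mul_one]
    | inv x hx ih =>
      have := hf _ (N.inv_mem hx) x hx
      rw [ih, mul_one, inv_mul_cancel] at this
      exact this.symm.trans h0
  refine kg_infl hc hM N (fun n hn => hR n (hNR hn)) (e := fun g => e g / ψ g)
    (fun n hn => by rw [div_pow, he n (hNR hn), q1 n (hNR hn), div_one]) (fun n hn n' hn' => ?_)
    fun g n hn => ?_
  · rw [h1 n (hNR hn) n' (hNR hn')]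
    simp only [dd, smul_div', q2 n (hNR hn) n' (hNR hn'), hR n (hNR hn) _ (q1 n' (hNR hn'))]
    refine Additive.ofMul.injective ?_
    simp only [ofMul_mul, ofMul_div]
    abel
  · have a1 := congrArg Additive.ofMul (div_eq_one.1 (main g n hn))
    refine Additive.ofMul.injective ?_
    simp only [kgPhi, smul_div', ofMul_mul, ofMul_div] at a1 ⊢
    linear_combination (norm := abel) a1

end Pool.Agent.ZCy
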