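import Pool.Agent.Lib.MP_751085_ag.ZC.K.LauB

/-! Block K: splitting of the equation of the curve in Laurent series. -/

namespace Pool.Agent.ZCy

open scoped Classical WithZero IntermediateField PowerSeries
open Polynomial

theorem kheni_ev {R S : Type} [CommRing R] [CommRing S] (f : R →+* S) (p : R[X][X]) (η : Ls R) :
    (p.map (mapRingHom f)).eval₂ (tL S) (lm f η) = lm f (p.eval₂ (tL R) η) := by
  rw [eval₂_map, hom_eval₂]
  exact congrArg (fun φ => p.eval₂ φ (lm f η)) (RingHom.ext fun q => (kl_lm_tM f q).symm)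

theorem kheni_fac {R S : Type} [CommRing R] [IsDomain R] [CommRing S] [IsDomain S] (ψ : R →+* S)
    (θ : S) (n : ℕ) : ∀ p : R[X], p.natDegree = n → p.Monic → p.eval₂ ψ θ = 0 →
      ∃ q : R[X], q.Monic ∧ Irreducible q ∧ q ∣ p ∧ q.eval₂ ψ θ = 0 := by
  induction n using Nat.strong_induction_on with
  | _ n ih =>
    intro p hn hm h0
    by_cases hi : Irreducible p
    · exact ⟨p, hm, hi, dvd_rfl, h0⟩
    have h1 : p ≠ 1 := fun e => by
      rw [e, eval₂_one] at h0
      exact one_ne_zero h0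
    rw [irreducible_of_monic hm h1] at hi
    push Not at hi
    obtain ⟨f, g, hf, hg, rfl, f1, g1⟩ := hi
    rw [hf.natDegree_mul hg] at hn
    have f2 := hf.natDegree_pos.2 f1
    have g2 := hg.natDegree_pos.2 g1
    rw [eval₂_mul, mul_eq_zero] at h0
    rcases h0 with h0 | h0
    · obtain ⟨q, a, b, c, d⟩ := ih _ (by omega) f rfl hf h0
      exact ⟨q, a, b, c.mul_right _, d⟩
    · obtain ⟨q, a, b, c, d⟩ := ih _ (by omega) g rfl hg h0
      exact ⟨q, a, b, c.mul_left _, d⟩

/-- A monic irreducible factor over `Ω` that vanishes at `η` is fixed by all automorphisms. -/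
theorem kh_irr {T Ω : Type} [Field T] [CharZero T] [Field Ω] [Algebra T Ω] [IsAlgClosure T Ω]
    {χ : T[X][X]} (hm : χ.Monic) (hi : Irreducible χ) {η : Ls T} (h0 : χ.eval₂ (tL T) η = 0) :
    Irreducible (χ.map (mapRingHom (algebraMap T Ω))) := by
  have h1 := kheni_ev (algebraMap T Ω) χ η
  rw [h0, map_zero] at h1
  obtain ⟨q, qm, qi, qd, q0⟩ := kheni_fac _ _ _ _ rfl (hm.map _) h1
  have fix : ∀ σ : Ω ≃ₐ[T] Ω, q.map (mapRingHom (σ : Ω →+* Ω)) = q := fun σ => by
    have h2 := kheni_ev (σ : Ω →+* Ω) q (lm (algebraMap T Ω) η)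
    have e : (σ : Ω →+* Ω).comp (algebraMap T Ω) = algebraMap T Ω := RingHom.ext σ.commutes
    rw [q0, map_zero, kl_lm_lm, e] at h2
    exact eq_of_monic_of_dvd_of_natDegree_le qm (qm.map _)
      ((kl_ker (kl_tM_inj one_pos) qm qi q0 _).1 h2) natDegree_map_le
  have hl : q ∈ lifts (mapRingHom (algebraMap T Ω)) := by
    refine (lifts_iff_coeff_lifts _).2 fun i => ?_
    refine (mem_lifts _).1 ((lifts_iff_coeff_lifts _).2 fun j => ?_)
    refine (InfiniteGalois.mem_range_algebraMap_iff_fixed _).2 fun σ => ?_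
    have := congrArg (fun r : Polynomial (Polynomial Ω) => (r.coeff i).coeff j) (fix σ)
    simpa only [coeff_map, coe_mapRingHom, RingHom.coe_coe] using this
  obtain ⟨r, rfl, -, rm⟩ := lifts_and_natDegree_eq_and_monic hl qm
  rw [map_dvd_map _ (map_injective _ (algebraMap T Ω).injective) rm, hi.dvd_iff] at qd
  rcases qd with u | u
  · exact absurd (u.map (mapRingHom (mapRingHom (algebraMap T Ω)))) qi.not_isUnit
  · rwa [eq_of_monic_of_associated hm rm u]

end Pool.Agent.ZCy
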