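import Pool.Agent.Lib.MP_751085_ag.ZC.Iface

/-! The statement of Theorem K with the tame addendum. -/

namespace Pool.Agent.ZCy

/-- Theorem K over a complete discretely valued field, with tameness at the Gauss valuation -/
def ThmKT : Prop := ∀ (O K : Type) [CommRing O] [IsDomain O] [CDVR O] [Field K] [CharZero K]
  [Algebra O K] [IsFractionRing O K] (σ : Type) [Fintype σ] (c₀ : PChart O σ) (c : PChart K σ)
  (π : O) (F : Type) [Field F] [Algebra (RF (Option σ) K) F] (θ : F),
  c₀.IsMap (algebraMap O K) c → Irreducible π → ¬MvPolynomial.C π ∣ c₀.Φ →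
  IsUnit (c.δ.factorial : O) → c.GI → c.FF F θ → ∀ (a : BR F) (N : ℕ), IsUnit (N : O) →
  N • a = 0 → c.H1 F a → c.H2 F θ a → ∃ R : MuRep c.br F a, IsUnit (R.m : O) ∧
    ∀ w : Vl R.E, Cen ((toE (MP (Option σ) K) R.E).comp (MvPolynomial.map (algebraMap O K))) w
      (MvPolynomial.C π) → Tame (RF (Option σ) K) w

end Pool.Agent.ZCy
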