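import Pool.Agent.Lib.MP_751085_ag.ZC.K.Val
import Pool.Agent.Lib.MP_751085_ag.ZC.K.GrpB

/-! Block K: characters of inertia groups are Kummer characters; descent of the cocycle. -/

namespace Pool.Agent.ZCy

open scoped Classical WithZero IntermediateField
open Polynomial groupCohomology

variable {F E : Type} [Field F] [Field E] [Algebra F E] {M k : ℕ}

/-- The data for the Kummer characters. -/
structure KumD (F : Type) {E : Type} [Field F] [Field E] [Algebra F E] (M : ℕ) (𝒲 : Set (Vl E))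
    (R : Subgroup (E ≃ₐ[F] E)) {k : ℕ} (ϖ : Fin k → Eˣ) : Prop where
  pos : 0 < M
  stb : Stb F 𝒲
  mu : ∀ r ∈ R, ∀ a : Eˣ, a ^ M = 1 → r • a = a
  pw : ∀ r ∈ R, ∀ i, r • ϖ i ^ M = ϖ i ^ M
  le : ∀ w ∈ 𝒲, Ine F w ≤ R
  cyc : ∀ w ∈ 𝒲, IsCyclic (Ine F w)
  unit : ∀ w ∈ 𝒲, w (M : E) = 1
  root : ∃ ζ : E, IsPrimitiveRoot ζ M
  one : ∀ w ∈ 𝒲, Ine F w ≠ ⊥ → ∃ i, w (ϖ i : E) < 1 ∧ (∀ j, j ≠ i → w (ϖ j : E) = 1) ∧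
    ∀ x : E, x ≠ 0 → (∀ g ∈ Ine F w, g x = x) → ∃ z : ℤ, w x = w ((ϖ i : E) ^ M) ^ z
  conj : ∀ w ∈ 𝒲, ∀ w' ∈ 𝒲, ∀ i, w (ϖ i : E) < 1 → w' (ϖ i : E) < 1 → ∃ r ∈ R, w' = vsm r w

/-- the Kummer character -/
noncomputable def KumD.kap {𝒲 : Set (Vl E)} {R : Subgroup (E ≃ₐ[F] E)} {ϖ : Fin k → Eˣ}
    (h : KumD F M 𝒲 R ϖ) (i : Fin k) : R →* Eˣ :=
  MonoidHom.mk' (fun r => r.1 • ϖ i / ϖ i) fun r r' => by
    have e : r.1 • (r'.1 • ϖ i / ϖ i) = r'.1 • ϖ i / ϖ i := h.mu _ r.2 _ (by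
      rw [div_pow, ← smul_pow', h.pw _ r'.2, div_self'])
    rw [← e, smul_div', mul_comm, div_mul_div_cancel, Subgroup.coe_mul, mul_smul]

theorem KumD.kap_pow {𝒲 : Set (Vl E)} {R : Subgroup (E ≃ₐ[F] E)} {ϖ : Fin k → Eˣ}
    (h : KumD F M 𝒲 R ϖ) (i : Fin k) (r : R) : h.kap i r ^ M = 1 := by
  change (r.1 • ϖ i / ϖ i) ^ M = 1
  rw [div_pow, ← smul_pow', h.pw _ r.2, div_self']

theorem kk_one {I : Subgroup (E ≃ₐ[F] E)} {ψ : (E ≃ₐ[F] E) → Eˣ}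
    (h2 : ∀ n ∈ I, ∀ n' ∈ I, ψ (n * n') = ψ n * ψ n') : ψ 1 = 1 := by
  have := h2 1 (one_mem _) 1 (one_mem _)
  rwa [mul_one, left_eq_mul] at this

theorem kk_loc {𝒲 : Set (Vl E)} {R : Subgroup (E ≃ₐ[F] E)} {ϖ : Fin k → Eˣ} (h : KumD F M 𝒲 R ϖ)
    {w : Vl E} (hw : w ∈ 𝒲) {i : Fin k} (hi : w (ϖ i : E) < 1) {ψ : (E ≃ₐ[F] E) → Eˣ}
    (h1 : ∀ n ∈ Ine F w, ψ n ^ M = 1)
    (h2 : ∀ n ∈ Ine F w, ∀ n' ∈ Ine F w, ψ (n * n') = ψ n * ψ n') :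
    ∃ a : ℕ, ∀ n ∈ Ine F w, ψ n = (n • ϖ i / ϖ i) ^ a := by
  by_cases hb : Ine F w = ⊥
  · refine ⟨0, fun n hn => ?_⟩
    rw [hb, Subgroup.mem_bot] at hn
    rw [hn, kk_one h2, pow_zero]
  obtain ⟨j, -, h3, h4⟩ := h.one w hw hb
  obtain rfl : i = j := not_not.1 fun e => hi.ne (h3 i e)
  obtain ⟨s, hs⟩ := (h.cyc w hw).exists_generator
  let κ : Ine F w →* Eˣ := (h.kap i).comp (Subgroup.inclusion (h.le w hw))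
  have hp : IsPrimitiveRoot (κ s) M := by
    refine ⟨h.kap_pow i _, fun m hm => ?_⟩
    have e : (powMonoidHom m).comp κ = 1 := (MonoidHom.eq_iff_eq_on_generator hs _ _).2 hm
    obtain ⟨z, hz⟩ := h4 ((ϖ i : E) ^ m) (pow_ne_zero _ (ϖ i).ne_zero) fun g hg => by
      have e1 : (g • ϖ i / ϖ i) ^ m = 1 := DFunLike.congr_fun e ⟨g, hg⟩
      rw [div_pow, div_eq_one, ← smul_pow'] at e1
      exact congrArg Units.val e1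
    have h0 : 0 < w (ϖ i : E) := zero_lt_iff.2 ((map_ne_zero w).2 (ϖ i).ne_zero)
    rw [map_pow, map_pow, ← zpow_natCast, ← zpow_natCast, ← zpow_mul] at hz
    exact Int.natCast_dvd_natCast.1 ⟨z, zpow_right_injective₀ h0 hi.ne hz⟩
  have : NeZero M := ⟨h.pos.ne'⟩
  obtain ⟨a, -, ha⟩ := hp.eq_pow_of_mem_rootsOfUnity ((mem_rootsOfUnity _ _).2 (h1 s s.2))
  have e : MonoidHom.mk' (fun n : Ine F w => ψ n) (fun n n' => h2 _ n.2 _ n'.2) =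
      (powMonoidHom a).comp κ := (MonoidHom.eq_iff_eq_on_generator hs _ _).2 ha.symm
  exact ⟨a, fun n hn => DFunLike.congr_fun e ⟨n, hn⟩⟩

theorem kk_kum {𝒲 : Set (Vl E)} {R : Subgroup (E ≃ₐ[F] E)} {ϖ : Fin k → Eˣ} (h : KumD F M 𝒲 R ϖ)
    (ψ : 𝒲 → (E ≃ₐ[F] E) → Eˣ) (h1 : ∀ w : 𝒲, ∀ n ∈ Ine F w.1, ψ w n ^ M = 1)
    (h2 : ∀ w : 𝒲, ∀ n ∈ Ine F w.1, ∀ n' ∈ Ine F w.1, ψ w (n * n') = ψ w n * ψ w n')
    (h3 : ∀ r ∈ R, ∀ w : 𝒲, ∀ n ∈ Ine F w.1,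
      ψ ⟨vsm r w, h.stb r _ w.2⟩ (r * n * r⁻¹) = ψ w n) :
    ∃ ψ₀ : (E ≃ₐ[F] E) → Eˣ, (∀ r ∈ R, ψ₀ r ^ M = 1) ∧
      (∀ r ∈ R, ∀ r' ∈ R, ψ₀ (r * r') = ψ₀ r * ψ₀ r') ∧
      ∀ w : 𝒲, ∀ n ∈ Ine F w.1, ψ₀ n = ψ w n := by
  have key : ∀ i, ∃ a : ℕ, ∀ w : 𝒲, w.1 (ϖ i : E) < 1 → ∀ n ∈ Ine F w.1,
      ψ w n = (n • ϖ i / ϖ i) ^ a := fun i => by
    by_cases hi : ∃ w : 𝒲, w.1 (ϖ i : E) < 1
    · obtain ⟨w, hw⟩ := hi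
      obtain ⟨a, ha⟩ := kk_loc h w.2 hw (h1 w) (h2 w)
      refine ⟨a, fun w' hw' n hn => ?_⟩
      obtain ⟨r, hr, e⟩ := h.conj _ w.2 _ w'.2 i hw hw'
      obtain rfl : w' = ⟨vsm r w, h.stb r _ w.2⟩ := Subtype.ext e
      have h4 : r⁻¹ * n * r⁻¹⁻¹ ∈ Ine F w.1 := by
        have := kz_ine hn r⁻¹
        rwa [show vsm r⁻¹ (vsm r w.1) = w.1 from Valuation.ext fun x =>
          congrArg w.1 (r.symm_apply_apply x)] at this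
      have h5 := h3 r hr w _ h4
      rw [show r * (r⁻¹ * n * r⁻¹⁻¹) * r⁻¹ = n by group] at h5
      rw [h5, ha _ h4]
      congr 1
      have hn' := h.le _ (h.stb r _ w.2) hn
      change h.kap i (⟨r, hr⟩⁻¹ * ⟨n, hn'⟩ * ⟨r, hr⟩⁻¹⁻¹) = h.kap i ⟨n, hn'⟩
      rw [map_mul, map_mul, map_inv (h.kap i) ⟨r, hr⟩⁻¹, mul_right_comm, mul_inv_cancel, one_mul]
    · exact ⟨0, fun w hw => (hi ⟨w, hw⟩).elim⟩
  choose a ha using key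
  refine ⟨fun r => ∏ i, (r • ϖ i / ϖ i) ^ a i, fun r hr => ?_, fun r hr r' hr' => ?_,
    fun w n hn => ?_⟩
  · rw [← Finset.prod_pow]
    refine Finset.prod_eq_one fun i _ => ?_
    rw [pow_right_comm, show (r • ϖ i / ϖ i) ^ M = 1 from h.kap_pow i ⟨r, hr⟩, one_pow]
  · rw [← Finset.prod_mul_distrib]
    refine Finset.prod_congr rfl fun i _ => ?_
    rw [← mul_pow]
    exact congrArg (· ^ a i) ((h.kap i).map_mul ⟨r, hr⟩ ⟨r', hr'⟩)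
  · by_cases hb : Ine F w.1 = ⊥
    · rw [hb, Subgroup.mem_bot] at hn
      simp [hn, kk_one (h2 w)]
    obtain ⟨i, h4, h5, -⟩ := h.one w w.2 hb
    rw [ha i w h4 n hn]
    refine Finset.prod_eq_single i (fun j _ hj => ?_) fun hi => (hi (Finset.mem_univ i)).elim
    have e : n • ϖ j = ϖ j := Units.ext (kz_kum (h.unit _ w.2) hn (h5 j hj)
      (congrArg Units.val (h.pw n (h.le _ w.2 hn) j)))
    rw [e, div_self', one_pow]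

theorem kk_desc {𝒲 : Set (Vl E)} {R : Subgroup (E ≃ₐ[F] E)} {ϖ : Fin k → Eˣ} (h : KumD F M 𝒲 R ϖ)
    {c : (E ≃ₐ[F] E) × (E ≃ₐ[F] E) → Eˣ} (hc : IsMulCocycle₂ c) (hM : ∀ p, c p ^ M = 1)
    {e : (E ≃ₐ[F] E) → Eˣ} (he : ∀ r ∈ R, e r ^ M = 1)
    (h1 : ∀ r ∈ R, ∀ r' ∈ R, c (r, r') = dd e (r, r')) (P : Set (E ≃ₐ[F] E))
    (hP : ∀ g, ∀ x ∈ P, g * x * g⁻¹ ∈ P) (hPR : P ⊆ R)
    (hPo : ∀ x ∈ P, ∃ q : ℕ, q.Coprime M ∧ x ^ q = 1)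
    (res : ∀ w ∈ 𝒲, ∀ g ∈ Dec F w, ∀ n ∈ Ine F w,
      c (g, g⁻¹ * n * g) * e n = c (n, g) * g • e (g⁻¹ * n * g)) :
    ∃ x : (E ≃ₐ[F] E) → Eˣ, (∀ g, x g ^ M = 1) ∧
      Infl ⊤ (Subgroup.closure ((⋃ w ∈ 𝒲, (Ine F w : Set (E ≃ₐ[F] E))) ∪ P)) (c / dd x) := by
  let := h.stb.act
  rw [Set.biUnion_eq_iUnion]
  exact kg_glue hc hM h.mu he h1 (fun w : 𝒲 => Ine F w.1) (fun g w n hn => kz_ine hn g)
    (fun w => h.le _ w.2) P hP hPR hPo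
    (fun w g hg => res _ w.2 g (kz_dec.2 (congrArg Subtype.val hg))) (kk_kum h)

end Pool.Agent.ZCy
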