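import Pool.Agent.Lib.MP_751085_ag.ZC.K.Wrap
import Pool.Agent.Lib.MP_751085_ag.ZC.K.GR0

/-! Theorem K. -/

namespace Pool.Agent.ZCy

theorem thmK : ThmK := thmK_of gr0

theorem thmKT : ThmKT := thmKT_of gr0

end Pool.Agent.ZCy
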