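import Pool.Agent.Lib.MP_751085_ag.ZC.K.Val

/-! Block K: characters of the inertia group. -/

namespace Pool.Agent.ZCy

open scoped Classical WithZero IntermediateField
open Polynomial groupCohomology

variable {F E : Type} [Field F] [Field E] [Algebra F E] [FiniteDimensional F E] {w : Vl E}
  {I : Subgroup (E ≃ₐ[F] E)}

theorem kres_eq (x y : w.valuationSubring) :
    IsLocalRing.residue _ x = IsLocalRing.residue _ y ↔ w (x - y) < 1 := by
  rw [← sub_eq_zero, ← map_sub, IsLocalRing.residue_eq_zero_iff, Valuation.mem_maximalIdeal_iff]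
  rfl

theorem kres_hom {G : Type} [Group G] {I : Subgroup G} {ψ : G → E} (h1 : ∀ n ∈ I, w (ψ n) = 1)
    (h2 : ∀ n ∈ I, ∀ n' ∈ I, w (ψ (n * n') - ψ n * ψ n') < 1) :
    ∃ χ : I →* IsLocalRing.ResidueField w.valuationSubring,
      ∀ n : I, χ n = IsLocalRing.residue _ ⟨ψ n, (h1 n n.2).le⟩ := by
  have m : ∀ a b : I, IsLocalRing.residue w.valuationSubring ⟨ψ (a * b : I), (h1 _ (a * b).2).le⟩ =
      IsLocalRing.residue _ ⟨ψ a, (h1 a a.2).le⟩ * IsLocalRing.residue _ ⟨ψ b, (h1 b b.2).le⟩ :=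
    fun a b => ((kres_eq _ _).2 (h2 a a.2 b b.2)).trans (map_mul _ _ _)
  refine ⟨⟨⟨fun n => IsLocalRing.residue _ ⟨ψ n, (h1 n n.2).le⟩, ?_⟩, m⟩, fun _ => rfl⟩
  have := m 1 1
  simp only [mul_one] at this
  refine ((mul_eq_left₀ fun h => ?_).1 this.symm)
  rw [← map_zero (IsLocalRing.residue w.valuationSubring), kres_eq] at h
  exact h.ne (by simpa using h1 1 I.one_mem)

theorem kres_pi (h0 : ∀ m : ℕ, m ≠ 0 → w (m : E) = 1) :
    ∃ π : E, π ≠ 0 ∧ ∀ n ∈ Ine F w, w (n π / π - 1) < 1 → n = 1 := by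
  by_cases h : ∃ x, x ≠ 0 ∧ w x < 1
  · obtain ⟨x, x0, hx⟩ := h
    obtain ⟨w', ⟨π, hπ⟩, e⟩ := kv_nrm x0 hx
    have q := Valuation.isEquiv_of_val_le_one e
    exact ⟨π, (map_ne_zero w').1 (hπ.trans_ne WithZero.exp_ne_zero), fun n hn h =>
      kv_theta hπ ((kv_congr (K := F) e).2 ▸ hn) (q.eq_one_iff_eq_one.2 (h0 _ (orderOf_pos n).ne'))
        (q.lt_one_iff_lt_one.2 h)⟩
  · refine ⟨1, one_ne_zero, fun n hn _ => AlgEquiv.ext fun x => sub_eq_zero.1 ?_⟩
    refine by_contra fun h' => h ⟨_, h', hn.2 x (not_lt.1 fun hx => h ⟨x⁻¹, ?_, ?_⟩)⟩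
    · exact inv_ne_zero ((map_ne_zero w).1 (zero_lt_one.trans hx).ne')
    · rw [map_inv₀]
      exact inv_lt_one_of_one_lt₀ hx

/-- `ψ` is congruent to a power of the injective character `θ n = n π / π` -/
theorem kr_theta (h0 : ∀ m : ℕ, m ≠ 0 → w (m : E) = 1) (hI : I ≤ Ine F w) {ψ : (E ≃ₐ[F] E) → E}
    (h1 : ∀ n ∈ I, w (ψ n) = 1) (h2 : ∀ n ∈ I, ∀ n' ∈ I, w (ψ (n * n') - ψ n * ψ n') < 1)
    {g n : E ≃ₐ[F] E} (hg : g ∈ Dec F w) (hn : n ∈ I) (hn' : g⁻¹ * n * g ∈ I) :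
    w (ψ n - g (ψ (g⁻¹ * n * g))) < 1 := by
  obtain ⟨π, π0, hπ⟩ := kres_pi (F := F) h0
  have w0 := (map_ne_zero w).2 π0
  have t1 : ∀ n ∈ Dec F w, w (n π / π) = 1 := fun n hn => by rw [map_div₀, hn π, div_self w0]
  obtain ⟨θ, hθ⟩ := kres_hom (I := I) (ψ := fun n => n π / π) (fun n hn => t1 n (hI hn).1)
    fun a ha b hb => by
      have := (hI ha).2 _ (t1 b (hI hb).1).le
      rwa [← one_mul (w _), ← t1 a (hI ha).1, ← map_mul, mul_sub, map_div₀ a, div_mul_div_comm,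
        mul_comm π, mul_div_mul_left _ _ ((map_ne_zero a).2 π0), t1 a (hI ha).1] at this
  obtain ⟨χ, hχ⟩ := kres_hom h1 h2
  have inj : Function.Injective θ := (injective_iff_map_eq_one θ).2 fun a ha => by
    rw [hθ, ← map_one (IsLocalRing.residue w.valuationSubring), kres_eq] at ha
    exact Subtype.ext (hπ a (hI a.2) ha)
  have := isCyclic_of_injective_ringHom θ inj
  obtain ⟨i, hi⟩ := IsCyclic.exists_monoid_generator (α := I)
  have : NeZero (orderOf (θ i)) := ⟨by rw [orderOf_injective θ inj]; exact (orderOf_pos i).ne'⟩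
  obtain ⟨k, -, hk⟩ := (IsPrimitiveRoot.orderOf (θ i)).eq_pow_of_pow_eq_one (ξ := χ i)
    (by rw [orderOf_injective θ inj, ← map_pow, pow_orderOf_eq_one, map_one])
  have key : ∀ a ∈ I, w (ψ a - (a π / π) ^ k) < 1 := fun a ha => by
    obtain ⟨j, hj⟩ := hi ⟨a, ha⟩
    have : χ ⟨a, ha⟩ = θ ⟨a, ha⟩ ^ k := by
      rw [← hj, map_pow, map_pow, ← hk, pow_right_comm]
    rwa [hχ, hθ, ← map_pow, kres_eq] at this
  have e1 := key _ hn'
  rw [← hg, map_sub] at e1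
  have e2 : w (n π / π - g ((g⁻¹ * n * g) π / π)) < 1 := by
    have := (hI hn).2 _ (t1 g hg).le
    have g0 := (map_ne_zero g).2 π0
    have n0 := (map_ne_zero n).2 π0
    rw [map_div₀ g, ← AlgEquiv.mul_apply, ← mul_assoc, ← mul_assoc, mul_inv_cancel, one_mul,
      AlgEquiv.mul_apply, Valuation.map_sub_swap, show n (g π) / g π - n π / π =
        n π / g π * (n (g π / π) - g π / π) by rw [map_div₀ n]; field_simp,
      map_mul, map_div₀ w, (hI hn).1 π, hg π, div_self w0, one_mul]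
    exact this
  have e3 := (kres_eq ⟨_, (t1 n (hI hn).1).le⟩ ⟨_, ((hg _).trans (t1 _ (hI hn').1)).le⟩).2 e2
  have e4 := congrArg (· ^ k) e3
  simp only [← map_pow, kres_eq, SubmonoidClass.coe_pow] at e4
  have := w.map_sub_lt (w.map_add_lt (key n hn) e4) e1
  rwa [show ∀ a b c d : E, a - b + (b - c) - (d - c) = a - d from fun _ _ _ _ => by ring] at this

end Pool.Agent.ZCy
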