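import Pool.Agent.Lib.MP_751085_ag.ZC.K.Fb

/-! Block K: the field generated by the roots. -/

namespace Pool.Agent.ZCy

open scoped Classical WithZero IntermediateField
open Polynomial groupCohomology

set_option linter.unusedSectionVars false

section gen

variable {L F Ω : Type} [Field L] [Field F] [Field Ω] [Algebra L F] [Algebra L Ω] [Algebra F Ω]
  [IsScalarTower L F Ω]

theorem ks2_gen {θ : F} (h : IntermediateField.adjoin L {θ} = ⊤) (S : Set Ω) :
    (IntermediateField.adjoin F S).restrictScalars L =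
      IntermediateField.adjoin L (insert (algebraMap F Ω θ) S) := by
  refine le_antisymm ?_ (IntermediateField.adjoin_le_iff.2 (Set.insert_subset
    ((IntermediateField.adjoin F S).algebraMap_mem θ) (IntermediateField.subset_adjoin F S)))
  refine IntermediateField.adjoin_le_subfield F S
    (K := (IntermediateField.adjoin L (insert (algebraMap F Ω θ) S)).toSubfield) ?_
    ((Set.subset_insert _ _).trans (IntermediateField.subset_adjoin L _))
  rintro _ ⟨f, rfl⟩
  have h1 : algebraMap F Ω f ∈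
      (IntermediateField.adjoin L {θ}).map (IsScalarTower.toAlgHom L F Ω) :=
    ⟨f, h ▸ IntermediateField.mem_top, rfl⟩
  rw [IntermediateField.adjoin_map, Set.image_singleton] at h1
  exact IntermediateField.adjoin.mono L _ _ (Set.singleton_subset_iff.2 (Set.mem_insert _ _)) h1

/-- the same field, seen over `L` -/
noncomputable def ks2_eqv {E : IntermediateField F Ω} {E' : IntermediateField L Ω}
    (h : E.restrictScalars L = E') : E ≃ₐ[L] E' := IntermediateField.equivOfEq h

theorem ks2_fix {E : IntermediateField F Ω} (g : E ≃ₐ[L] E) {S : Set Ω}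
    (hS : ∀ s ∈ S, ∃ h : s ∈ E, g ⟨s, h⟩ = ⟨s, h⟩) {x : E}
    (hx : (x : Ω) ∈ IntermediateField.adjoin L S) : g x = x := by
  have h1 : ∀ y : E, y ∈ IntermediateField.fixedField (Subgroup.zpowers g) ↔ g y = y := fun y =>
    (IntermediateField.mem_fixedField_iff _ _).trans ⟨fun h => h g (Subgroup.mem_zpowers g),
      fun h f hf => (Subgroup.zpowers_le (H := MulAction.stabilizer _ y)).2 h hf⟩
  have h2 : IntermediateField.adjoin L S ≤
      (IntermediateField.fixedField (Subgroup.zpowers g)).map (E.val.restrictScalars L) :=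
    IntermediateField.adjoin_le_iff.2 fun s hs => by
      obtain ⟨h, h'⟩ := hS s hs
      exact ⟨⟨s, h⟩, (h1 _).2 h', rfl⟩
  obtain ⟨y, hy, h3⟩ := h2 hx
  obtain rfl : y = x := Subtype.ext h3
  exact (h1 _).1 hy

theorem ks2_perm (g : Ω ≃ₐ[L] Ω) {p : L[X]} (hp : p ≠ 0) {x : Ω} (hx : aeval x p = 0) :
    (g ^ p.natDegree.factorial) x = x := by
  have h1 : Nat.card (Equiv.Perm (p.rootSet Ω)) ∣ p.natDegree.factorial := by
    rw [Nat.card_perm]
    exact Nat.factorial_dvd_factorial (ncard_rootSet_le p Ω)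
  have h2 : MulAction.toPermHom (Ω ≃ₐ[L] Ω) (p.rootSet Ω) (g ^ p.natDegree.factorial) = 1 := by
    obtain ⟨k, hk⟩ := h1
    rw [map_pow, hk, pow_mul, pow_card_eq_one', one_pow]
  exact congrArg Subtype.val (DFunLike.congr_fun h2 ⟨x, mem_rootSet.2 ⟨hp, hx⟩⟩)

theorem ks2_expand {q : L[X]} (hq : q.Splits) {M : ℕ}
    (h : ∀ z ∈ q.roots, (X ^ M - C z : L[X]).Splits) : (expand L M q).Splits := by
  rw [hq.eq_prod_roots, map_mul, expand_C, map_multiset_prod, Multiset.map_map]
  refine Splits.C_mul (Splits.multisetProd fun f hf => ?_) _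
  obtain ⟨z, hz, rfl⟩ := Multiset.mem_map.1 hf
  simpa only [Function.comp, map_sub, expand_X, expand_C] using h z hz

end gen

variable {K L F : Type} [Field K] [Field L] [Field F] [CharZero K] [Algebra K[X] L]
  [IsFractionRing K[X] L] [Algebra L F] [Algebra L (Om K)] [Algebra F (Om K)]
  [IsScalarTower L F (Om K)] {M : ℕ} (c : Cur K L F M)

theorem ks2_root : aeval (algebraMap F (Om K) c.θ) (c.χ.map (algebraMap K[X] L)) = 0 := by
  have h : aeval c.θ (c.χ.map (algebraMap K[X] L)) = 0 := by
    rw [aeval_def, eval₂_map]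
    exact c.root
  rw [aeval_algebraMap_apply, h, map_zero]

section

variable {T : Type} [Field T] [Algebra L T]

/-- `Fb` is generated over `L` by `θ` and the constants, whose minimal polynomials split in `T`
(they divide `χ`, resp. a minimal polynomial over `K`); `IntermediateField.splits_of_mem_adjoin`,
`IntermediateField.exists_algHom_of_adjoin_splits_of_aeval`. -/
theorem ks_min (κ : Kb K →+* T) (hκ : ∀ a : K, toF K[X] L T (C a) = κ (algebraMap K (Kb K) a))
    (hs : (c.χ.map (toF K[X] L T)).Splits) (y : Fb K F) :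
    ((minpoly L y).map (algebraMap L T)).Splits ∧
      ∀ z : T, aeval z (minpoly L y) = 0 → ∃ φ : Fb K F →ₐ[L] T, φ y = z := by
  have hK : ∀ s ∈ insert (algebraMap F (Om K) c.θ) (Set.range (hc : Kb K →+* Om K)),
      IsIntegral L s ∧ ((minpoly L s).map (algebraMap L T)).Splits := by
    have key : ∀ (s : Om K) (q : L[X]), q.Monic → aeval s q = 0 →
        (q.map (algebraMap L T)).Splits →
        IsIntegral L s ∧ ((minpoly L s).map (algebraMap L T)).Splits := fun s q h1 h2 h3 =>
      ⟨⟨q, h1, h2⟩, h3.of_dvd (h1.map _).ne_zero (Polynomial.map_dvd _ (minpoly.dvd L s h2))⟩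
    rintro s (rfl | ⟨a, rfl⟩)
    · exact key _ _ (c.monic.map _) (ks2_root c) (by rwa [Polynomial.map_map])
    · refine key _ ((minpoly K a).map ((algebraMap K[X] L).comp C))
        ((minpoly.monic (Algebra.IsIntegral.isIntegral a)).map _) ?_ ?_
      · have h1 : (algebraMap L (Om K)).comp ((algebraMap K[X] L).comp C) =
            (hc : Kb K →+* Om K).comp (algebraMap K (Kb K)) := RingHom.ext (kf_C c)
        rw [aeval_def, eval₂_map, h1, ← hom_eval₂, ← aeval_def, minpoly.aeval, map_zero]
      · have h1 : (algebraMap L T).comp ((algebraMap K[X] L).comp C) =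
            κ.comp (algebraMap K (Kb K)) := RingHom.ext hκ
        rw [Polynomial.map_map, h1, ← Polynomial.map_map]
        exact (IsAlgClosed.splits _).map κ
  have e := ks2_gen (L := L) c.gen (Set.range (hc : Kb K →+* Om K))
  have hy : (y : Om K) ∈ IntermediateField.adjoin L
      (insert (algebraMap F (Om K) c.θ) (Set.range (hc : Kb K →+* Om K))) := e ▸ y.2
  have hm : minpoly L (y : Om K) = minpoly L y :=
    minpoly.algHom_eq ((Fb K F).val.restrictScalars L) Subtype.val_injective y
  refine ⟨hm ▸ IntermediateField.splits_of_mem_adjoin L _ hK hy, fun z hz => ?_⟩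
  obtain ⟨φ, hφ⟩ := IntermediateField.exists_algHom_adjoin_of_splits_of_aeval hK hy (hm ▸ hz)
  exact ⟨φ.comp (ks2_eqv (E := Fb K F) e).toAlgHom, hφ⟩

/-- `minpoly L y` is a product of `X - C z`, and `X ^ M - C z` splits if `z` is an `M`-th power
(`X_pow_sub_C_splits_of_isPrimitiveRoot`). -/
theorem ks_spl (κ : Kb K →+* T) (hκ : ∀ a : K, toF K[X] L T (C a) = κ (algebraMap K (Kb K) a))
    (hs : (c.χ.map (toF K[X] L T)).Splits) {y : Fb K F}
    (hy : ∀ φ : Fb K F →ₐ[L] T, ∃ r : T, r ^ M = φ y) :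
    ((expand L M (minpoly L y)).map (algebraMap L T)).Splits := by
  obtain ⟨h1, h2⟩ := ks_min c κ hκ hs y
  have : NeZero M := ⟨c.pos.ne'⟩
  obtain ⟨ζ, hζ⟩ := HasEnoughRootsOfUnity.exists_primitiveRoot (Kb K) M
  rw [map_expand]
  refine ks2_expand h1 fun z hz => ?_
  obtain ⟨φ, rfl⟩ := h2 z (by rw [aeval_def, ← eval_map]; exact (mem_roots'.1 hz).2)
  obtain ⟨r, hr⟩ := hy φ
  exact X_pow_sub_C_splits_of_isPrimitiveRoot (hζ.map_of_injective κ.injective) hr

end

/-- `E` is `adjoin L (P.rootSet _)` as a set, because `θ` is a root of `P` and generates `F`;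
`IntermediateField.adjoin_rootSet_isSplittingField`, `IsSplittingField.lift`. -/
theorem ks_split {P : L[X]} (h0 : P ≠ 0) (hs : (P.map (algebraMap L (Om K))).Splits)
    (hd : c.χ.map (algebraMap K[X] L) ∣ P) :
    FiniteDimensional L (IntermediateField.adjoin F (P.rootSet (Om K))) ∧
    IsGalois L (IntermediateField.adjoin F (P.rootSet (Om K))) ∧
    ∀ (T : Type) [Field T] [Algebra L T], (P.map (algebraMap L T)).Splits →
      Nonempty (IntermediateField.adjoin F (P.rootSet (Om K)) →ₐ[L] T) := by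
  have h1 : algebraMap F (Om K) c.θ ∈ P.rootSet (Om K) :=
    mem_rootSet.2 ⟨h0, aeval_eq_zero_of_dvd_aeval_eq_zero hd (ks2_root c)⟩
  have e := ks2_gen (L := L) c.gen (P.rootSet (Om K))
  rw [Set.insert_eq_of_mem h1] at e
  have := IntermediateField.adjoin_rootSet_isSplittingField hs
  have := (kf_char c).1
  have := IsSplittingField.finiteDimensional (IntermediateField.adjoin L (P.rootSet (Om K))) P
  have := Normal.of_isSplittingField (E := IntermediateField.adjoin L (P.rootSet (Om K))) P
  have : IsGalois L (IntermediateField.adjoin L (P.rootSet (Om K))) := ⟨⟩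
  exact ⟨(ks2_eqv e).symm.toLinearEquiv.finiteDimensional, IsGalois.of_algEquiv (ks2_eqv e).symm,
    fun T _ _ hT => ⟨(IsSplittingField.lift _ P hT).comp (ks2_eqv e).toAlgHom⟩⟩

/-- `g` permutes the at most `δ` roots of `χ`, so `g ^ δ!` fixes them, and so fixes `F` and all `z ^ M`.
Then `(g ^ δ!) z = ζ z` with a constant root of unity `ζ` (`kl_const`), which is fixed. -/
theorem ks_geo (Z : Set (Om K)) (hχ : ∀ η, c.χ.eval₂ (toF K[X] L (Om K)) η = 0 → η ∈ Z)
    (hZ : ∀ z ∈ Z, z ^ M ∈ IntermediateField.adjoin L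
      ({η | c.χ.eval₂ (toF K[X] L (Om K)) η = 0} ∪ (Z ∩ Set.range (hc : Kb K →+* Om K)))) :
    Geo L (IntermediateField.adjoin F Z) (c.δ.factorial * M) := by
  intro g hg
  have hm : ∀ z ∈ Z, z ∈ IntermediateField.adjoin F Z := IntermediateField.subset_adjoin F Z
  have hc' : ∀ (n : ℕ) (x : IntermediateField.adjoin F Z),
      (x : Om K) ∈ Set.range (hc : Kb K →+* Om K) → (g ^ n) x = x := fun n x hx =>
    MulAction.mem_stabilizer_iff.1 (pow_mem (MulAction.mem_stabilizer_iff.2 (hg x hx) :
      g ∈ MulAction.stabilizer _ x) n)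
  have hr : ∀ η, c.χ.eval₂ (toF K[X] L (Om K)) η = 0 →
      ∃ h : η ∈ IntermediateField.adjoin F Z, (g ^ c.δ.factorial) ⟨η, h⟩ = ⟨η, h⟩ := by
    intro η hη
    refine ⟨hm η (hχ η hη), ?_⟩
    rw [← c.deg, ← c.monic.natDegree_map (algebraMap K[X] L)]
    refine ks2_perm g (c.monic.map _).ne_zero ?_
    refine Subtype.ext ((aeval_algHom_apply
      ((IntermediateField.adjoin F Z).val.restrictScalars L) _ _).symm.trans ?_)
    rw [aeval_def, eval₂_map]
    exact hη
  rw [pow_mul]
  have hc1 := hc' c.δ.factorial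
  generalize g ^ c.δ.factorial = g₁ at hr hc1
  have hz : ∀ z : IntermediateField.adjoin F Z, (z : Om K) ∈ Z → (g₁ ^ M) z = z := by
    intro z hz
    by_cases h0 : z = 0
    · rw [h0, map_zero]
    have h1 : g₁ (z ^ M) = z ^ M := by
      refine ks2_fix g₁ ?_ (hZ z hz)
      rintro s (hs | hs)
      · exact hr s hs
      · exact ⟨hm s hs.1, hc1 _ hs.2⟩
    have h2 : (g₁ z / z) ^ M = 1 := by
      rw [div_pow, ← map_pow, h1, div_self (pow_ne_zero _ h0)]
    have h3 : g₁ (g₁ z / z) = g₁ z / z := by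
      obtain ⟨a, ha, -⟩ := kl_const (algebraMap K (Kb K))
        (y := ((g₁ z / z : IntermediateField.adjoin F Z) : Om K))
        (X_pow_sub_C_ne_zero c.pos (1 : K)) (by
          rw [eval₂_sub, eval₂_X_pow, eval₂_C, map_one, ← IntermediateField.coe_pow, h2,
            OneMemClass.coe_one, sub_self])
      exact hc1 _ ⟨a, ha.symm⟩
    have h4 : ∀ n : ℕ, (g₁ ^ n) z = (g₁ z / z) ^ n * z := by
      intro n
      induction n with
      | zero => rw [pow_zero, pow_zero, one_mul, AlgEquiv.one_apply]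
      | succ n ih =>
        rw [pow_succ', AlgEquiv.mul_apply, ih, map_mul, map_pow, h3, pow_succ, mul_assoc,
          div_mul_cancel₀ _ h0]
    rw [h4, h2, one_mul]
  refine AlgEquiv.ext fun x => ks2_fix (S := insert (algebraMap F (Om K) c.θ) Z) _ ?_
    (ks2_gen (L := L) c.gen Z ▸ x.2)
  have h5 : algebraMap F (Om K) c.θ ∈ Z := hχ _ (by
    have := ks2_root c
    rwa [aeval_def, eval₂_map] at this)
  rw [Set.insert_eq_of_mem h5]
  exact fun s hs => ⟨hm s hs, hz _ hs⟩

end Pool.Agent.ZCy
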