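import Pool.Agent.Lib.MP_751085_ag.ZC.K.S2
import Pool.Agent.Lib.MP_751085_ag.ZC.K.FbC

/-! Block K: the field generated by the roots. -/

namespace Pool.Agent.ZCy

open scoped Classical WithZero IntermediateField
open Polynomial groupCohomology

set_option linter.unusedSectionVars false

variable {K L F : Type} [Field K] [Field L] [Field F] [CharZero K] [Algebra K[X] L]
  [IsFractionRing K[X] L] [Algebra L F] [Algebra L (Om K)] [Algebra F (Om K)]
  [IsScalarTower L F (Om K)] {M : ℕ} (c : Cur K L F M)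

/-- the polynomial whose roots generate the field -/
noncomputable def ks2bP (S : Finset (Kb K)) (Y : Finset (Fb K F)) : L[X] :=
  c.χ.map (algebraMap K[X] L) * (∏ s ∈ S, (minpoly K s).map ((algebraMap K[X] L).comp C)) *
    ∏ y ∈ Y, expand L M (minpoly L y)

theorem ks2b_monic (S : Finset (Kb K)) (Y : Finset (Fb K F)) : (ks2bP c S Y).Monic := by
  have := kf_fin c
  have := kf_galois c
  have : Algebra.IsIntegral L (Fb K F) := Algebra.IsIntegral.trans F
  exact ((c.monic.map _).mul (monic_prod_of_monic _ _ fun s _ =>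
    (minpoly.monic (Algebra.IsIntegral.isIntegral s)).map _)).mul (monic_prod_of_monic _ _
      fun y _ => (minpoly.monic (Algebra.IsIntegral.isIntegral y)).expand c.pos)

theorem ks2b_spl (S : Finset (Kb K)) (Y : Finset (Fb K F)) {T : Type} [Field T] (l : L →+* T)
    (κ : Kb K →+* T) (hκ : ∀ a : K, l (algebraMap K[X] L (C a)) = κ (algebraMap K (Kb K) a))
    (hs : (c.χ.map (l.comp (algebraMap K[X] L))).Splits)
    (hy : ∀ y ∈ Y, ∀ φ : Fb K F →+* T, (∀ x, φ (algebraMap L _ x) = l x) → ∃ r : T, r ^ M = φ y) :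
    ((ks2bP c S Y).map l).Splits := by
  let := l.toAlgebra
  rw [ks2bP, Polynomial.map_mul, Polynomial.map_mul, Polynomial.map_prod, Polynomial.map_prod,
    map_map]
  refine (hs.mul (Splits.prod fun s _ => ?_)).mul (Splits.prod fun y h =>
    ks_spl c κ hκ hs fun φ => hy y h φ φ.commutes)
  have : l.comp ((algebraMap K[X] L).comp C) = κ.comp (algebraMap K (Kb K)) := RingHom.ext hκ
  rw [map_map, this, ← map_map]
  exact (IsAlgClosed.splits _).map _

theorem ks2b_emb {P : L[X]} (h0 : P ≠ 0) (hs : (P.map (algebraMap L (Om K))).Splits)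
    (hd : c.χ.map (algebraMap K[X] L) ∣ P) {T : Type} [Field T] (l : L →+* T)
    (h : (P.map l).Splits) : ∃ φ : IntermediateField.adjoin F (P.rootSet (Om K)) →+* T,
      ∀ x, φ (algebraMap L _ x) = l x := by
  let := l.toAlgebra
  obtain ⟨φ⟩ := (ks_split c h0 hs hd).2.2 T h
  exact ⟨φ, φ.commutes⟩

theorem ks2b_th (φ : Fb K F →ₐ[L] Om K) :
    c.χ.eval₂ (toF K[X] L (Om K)) (φ (algebraMap F _ c.θ)) = 0 := by
  let ψ : F →ₐ[L] Om K := φ.comp (IsScalarTower.toAlgHom L F (Fb K F))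
  have h := congrArg (ψ : F →+* Om K) c.root
  have e : (ψ : F →+* Om K).comp (toF K[X] L F) = toF K[X] L (Om K) :=
    RingHom.ext fun p => ψ.commutes _
  rw [hom_eval₂, map_zero, e] at h
  exact h

include c in
theorem ks2b_cb (φ : Fb K F →ₐ[L] Om K) (s : Kb K) :
    (minpoly K s).eval₂ (hc.comp (algebraMap K (Kb K))) (φ (cb K F s)) = 0 := by
  have h := congrArg ((φ : Fb K F →+* Om K).comp (cb K F)) (minpoly.aeval K s)
  have e : ((φ : Fb K F →+* Om K).comp (cb K F)).comp (algebraMap K (Kb K)) =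
      hc.comp (algebraMap K (Kb K)) := RingHom.ext fun a => by
    have : cb K F (algebraMap K (Kb K) a) = algebraMap L _ (algebraMap K[X] L (C a)) :=
      Subtype.ext (kf_C c a).symm
    exact (congrArg φ this).trans ((φ.commutes _).trans (kf_C c a))
  rw [aeval_def, hom_eval₂, map_zero, e] at h
  exact h

theorem ks2b_mem (φ : Fb K F →ₐ[L] Om K) (A : IntermediateField L (Om K)) (S : Set (Kb K))
    (h1 : φ (algebraMap F _ c.θ) ∈ A) (h2 : ∀ s ∈ S, φ (cb K F s) ∈ A) (y : Fb K F)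
    (hy : (y : Om K) ∈ IntermediateField.adjoin F ((hc : Kb K →+* Om K) '' S)) : φ y ∈ A := by
  have hle : IntermediateField.adjoin F ((hc : Kb K →+* Om K) '' S) ≤ Fb K F :=
    IntermediateField.adjoin.mono _ _ _ (Set.image_subset_range _ _)
  have hF : (⊤ : IntermediateField L F) ≤ A.comap (φ.comp (IsScalarTower.toAlgHom L F (Fb K F))) :=
    c.gen.ge.trans (IntermediateField.adjoin_simple_le_iff.2 h1)
  have : ∀ x (hx : x ∈ IntermediateField.adjoin F ((hc : Kb K →+* Om K) '' S)),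
      φ ⟨x, hle hx⟩ ∈ A := fun x hx => by
    induction hx using IntermediateField.adjoin_induction with
    | mem x h =>
      obtain ⟨s, hs, rfl⟩ := h
      exact h2 s hs
    | algebraMap a => exact hF (x := a) trivial
    | add x y hx hy ha hb => exact (map_add φ ⟨x, hle hx⟩ ⟨y, hle hy⟩).symm ▸ add_mem ha hb
    | inv x hx ha => exact (map_inv₀ φ ⟨x, hle hx⟩).symm ▸ inv_mem ha
    | mul x y hx hy ha hb => exact (map_mul φ ⟨x, hle hx⟩ ⟨y, hle hy⟩).symm ▸ mul_mem ha hb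
  exact this y hy

include c in
theorem ks2b_root (φ : Fb K F →ₐ[L] Om K) (y : Fb K F) : ∃ r : Om K, r ^ M = φ y := by
  have hp : ∀ p : K[X], toF K[X] L (Om K) p ∈ (ram (Kb K) c.pos).fieldRange := fun p =>
    ⟨_, (kl_ram_tL c.pos _).trans (c.inf p).symm⟩
  obtain ⟨x, hx⟩ := ks2b_mem c φ ((ram (Kb K) c.pos).fieldRange.toIntermediateField fun x => by
    obtain ⟨a, b, -, rfl⟩ := IsFractionRing.div_surjective (A := K[X]) x
    rw [map_div₀]
    exact div_mem (hp a) (hp b)) Set.univ ((kf_spl_inf c).2 _ (ks2b_th c φ)) (fun s _ => by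
      obtain ⟨a, ha, -⟩ := kl_const _ (minpoly.ne_zero (Algebra.IsIntegral.isIntegral s))
        (ks2b_cb c φ s)
      exact ⟨_, (kl_ram_hc c.pos a).trans ha.symm⟩) y (by rw [Set.image_univ]; exact y.2)
  exact kl_root c.pos (hx ▸ kl_dvd_order_ram c.pos x)

theorem ks2b_Z (S : Finset (Kb K)) (Y : Finset (Fb K F)) (z : Om K) :
    z ∈ (ks2bP c S Y).rootSet (Om K) ↔ (c.χ.eval₂ (toF K[X] L (Om K)) z = 0 ∨
      ∃ s ∈ S, (minpoly K s).eval₂ (hc.comp (algebraMap K (Kb K))) z = 0) ∨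
        ∃ y ∈ Y, aeval (z ^ M) (minpoly L y) = 0 := by
  have e : (algebraMap L (Om K)).comp ((algebraMap K[X] L).comp C) =
    hc.comp (algebraMap K (Kb K)) := RingHom.ext (kf_C c)
  rw [(ks2b_monic c S Y).mem_rootSet, ks2bP, map_mul, map_mul, map_prod, map_prod, mul_eq_zero,
    mul_eq_zero, Finset.prod_eq_zero_iff, Finset.prod_eq_zero_iff]
  simp only [expand_aeval]
  simp only [aeval_def, eval₂_map, e]

theorem ks_field (T Y : Finset (Fb K F)) (hY : ∀ y ∈ Y, ∀ v,
    GoodV (algebraMap K (Kb K)) (toF K[X] L (Fb K F)) c.Ψ v → (M : ℤ) ∣ ord v y) :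
    ∃ E : IntermediateField F (Om K), c.Nice E ∧ (∀ x ∈ T, (x : Om K) ∈ E) ∧
      ∀ y ∈ Y, ∃ r ∈ E, r ^ M = (y : Om K) := by
  have h1 : ∀ x : Fb K F, ∃ S : Finset (Kb K),
      (x : Om K) ∈ IntermediateField.adjoin F ((hc : Kb K →+* Om K) '' S) := fun x => by
    obtain ⟨U, hU, hx⟩ := IntermediateField.exists_finset_of_mem_adjoin x.2
    rw [← Set.image_univ] at hU
    obtain ⟨S, -, rfl⟩ := Finset.subset_set_image_iff.1 hU
    exact ⟨S, by rwa [Finset.coe_image] at hx⟩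
  choose S₀ hS₀ using h1
  obtain ⟨S, hS⟩ : ∃ S : Finset (Kb K), ∀ x ∈ T ∪ Y,
      (x : Om K) ∈ IntermediateField.adjoin F ((hc : Kb K →+* Om K) '' S) :=
    ⟨(T ∪ Y).biUnion S₀, fun x hx => IntermediateField.adjoin.mono _ _ _
      (Set.image_mono (Finset.coe_subset.2 (Finset.subset_biUnion_of_mem S₀ hx))) (hS₀ x)⟩
  have h0 := (ks2b_monic c S Y).ne_zero
  have hs := ks2b_spl c S Y (algebraMap L (Om K)) hc (kf_C c) (kf_spl_inf c).1 fun y _ φ h =>
    ks2b_root c ⟨φ, h⟩ y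
  have hd : c.χ.map (algebraMap K[X] L) ∣ ks2bP c S Y := (dvd_mul_right _ _).mul_right _
  have hk : ∀ s : Kb K, ∀ z : Om K, (minpoly K s).eval₂ (hc.comp (algebraMap K (Kb K))) z = 0 →
      z ∈ Set.range (hc : Kb K →+* Om K) := fun s z hz => by
    obtain ⟨a, ha, -⟩ := kl_const _ (minpoly.ne_zero (Algebra.IsIntegral.isIntegral s)) hz
    exact ⟨a, ha.symm⟩
  let v : Fb K F →ₐ[L] Om K := (Fb K F).val.restrictScalars L
  refine ⟨_, ⟨(ks_split c h0 hs hd).1, (ks_split c h0 hs hd).2.1, fun t ht => ?_,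
    ks_geo c _ (fun η h => (ks2b_Z c S Y η).2 (.inl (.inl h))) fun z hz => ?_⟩, fun x hx => ?_,
    fun y hy => ?_⟩
  · have hi : Function.Injective ((tA t).comp (mapRingHom (algebraMap K (Kb K)))) :=
      (injective_iff_map_eq_zero _).2 fun p hp => by
        by_contra h
        exact (kl_order_tA t (Polynomial.map_ne_zero h)).1 hp
    have hl : ∀ p, IsFractionRing.lift (K := L) hi (algebraMap K[X] L p) = _ :=
      IsFractionRing.lift_algebraMap hi
    have hl' : _ = (IsFractionRing.lift hi).comp (algebraMap K[X] L) := (RingHom.ext hl).symm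
    obtain ⟨φ, hφ⟩ := ks2b_emb c h0 hs hd (IsFractionRing.lift hi) (ks2b_spl c S Y _ hc
      (fun a => (hl _).trans (by simp [kl_tA_C])) (hl' ▸ kf_spl_at c ht)
      fun y hy φ h => kl_root c.pos (kl_ord (φ y) ▸ hY y hy ((lv (Kb K)).comap φ)
        ⟨t, φ, ht, fun p => (h _).trans (hl p), fun _ => rfl⟩))
    exact ⟨φ, fun p => (hφ _).trans (hl p)⟩
  · rcases (ks2b_Z c S Y z).1 hz with (h | ⟨s, -, h⟩) | ⟨y, hy, h⟩
    · exact pow_mem (IntermediateField.subset_adjoin _ _ (.inl h)) _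
    · exact pow_mem (IntermediateField.subset_adjoin _ _ (.inr ⟨hz, hk s z h⟩)) _
    · obtain ⟨φ, hφ⟩ := (ks_min c hc (kf_C c) (kf_spl_inf c).1 y).2 _ h
      rw [← hφ]
      exact ks2b_mem c φ _ S (IntermediateField.subset_adjoin _ _ (.inl (ks2b_th c φ)))
        (fun s h => IntermediateField.subset_adjoin _ _ (.inr ⟨(ks2b_Z c S Y _).2
          (.inl (.inr ⟨s, h, ks2b_cb c φ s⟩)), hk s _ (ks2b_cb c φ s)⟩)) y
        (hS y (Finset.mem_union_right _ hy))
  · refine IntermediateField.adjoin.mono _ _ _ ?_ (hS x (Finset.mem_union_left _ hx))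
    rintro _ ⟨s, h, rfl⟩
    exact (ks2b_Z c S Y _).2 (.inl (.inr ⟨s, h, ks2b_cb c v s⟩))
  · obtain ⟨r, hr⟩ := ks2b_root c v y
    refine ⟨r, IntermediateField.subset_adjoin _ _ ((ks2b_Z c S Y _).2 (.inr ⟨y, hy, ?_⟩)), hr⟩
    rw [hr, aeval_algHom_apply, minpoly.aeval, map_zero]

end Pool.Agent.ZCy
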