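import Pool.Agent.Lib.MP_751085_ag.ZC.K.S1
import Pool.Agent.Lib.MP_751085_ag.ZC.K.S2B
import Pool.Agent.Lib.MP_751085_ag.ZC.K.ValC
import Pool.Agent.Lib.MP_751085_ag.ZC.K.NeedA
import Pool.Agent.Lib.MP_751085_ag.ZC.R3b

/-! Block K: a cocycle in roots of unity that is unramified on the generic fibre. -/

namespace Pool.Agent.ZCy

open scoped Classical WithZero IntermediateField
open Polynomial groupCohomology

set_option linter.unusedSectionVars false

variable {K L F : Type} [Field K] [Field L] [Field F] [CharZero K] [Algebra K[X] L]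
  [IsFractionRing K[X] L] [Algebra L F] [Algebra L (Om K)] [Algebra F (Om K)]
  [IsScalarTower L F (Om K)] {M : ℕ} (c : Cur K L F M)

section

variable {G A : Type} [Group G] [CommGroup A] [MulDistribMulAction G A]

theorem ks3_dd (e : G → A) : IsMulCocycle₂ (dd e) := fun g h j => by
  simp only [dd, smul_mul', smul_div', mul_smul, mul_assoc]
  apply Additive.ofMul.injective
  simp only [ofMul_mul, ofMul_div]
  abel

theorem ks3_div {b b' : G × G → A} (h : IsMulCocycle₂ b) (h' : IsMulCocycle₂ b') :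
    IsMulCocycle₂ (b / b') := fun g g' j => by
  simp only [Pi.div_apply, smul_div', div_mul_div_comm, h g g' j, h' g g' j]

theorem ks3_pw {b : G × G → A} (h : IsMulCocycle₂ b) (n : ℕ) : IsMulCocycle₂ (b ^ n) :=
  fun g g' j => by simp only [Pi.pow_apply, smul_pow', ← mul_pow, h g g' j]

theorem ks3_one {δ N : ℕ} {H : G × G → A} {U ρ : G → A} {y : A} (hH : ∀ p, H p ^ N = dd U p)
    (hρ : ∀ g, ρ g ^ (δ * N) = U g ^ δ * (y / g • y)) (p : G × G) :
    (H / dd ρ) p ^ (δ * N) = 1 := by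
  rw [Pi.div_apply, div_pow, pow_mul', hH]
  simp only [dd, mul_pow, div_pow, ← smul_pow', hρ, smul_mul', smul_div', mul_smul]
  apply Additive.ofMul.injective
  simp only [ofMul_mul, ofMul_div, ofMul_one]
  abel

end

theorem ks3_cls {F E : Type} [Field F] [Field E] [Algebra F E] [CharZero F] [FiniteDimensional F E]
    [IsGalois F E] {b : (E ≃ₐ[F] E) × (E ≃ₐ[F] E) → Eˣ} (h : IsMulCocycle₂ b) (n : ℕ) :
    cls F (b ^ n) = n • cls F b := by
  induction n with
  | zero =>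
    rw [zero_nsmul, ka_zero (ks3_pw h 0)]
    exact ⟨1, funext fun p => Units.ext (by simp [dd])⟩
  | succ n ih => rw [pow_succ, ka_mul (ks3_pw h n) h, ih, succ_nsmul]

theorem ks3_fin {F S E : Type} [Field F] [Field S] [Field E] [Algebra F S] [Algebra F E]
    [CharZero F] [FiniteDimensional F S] [IsGalois F S] [FiniteDimensional F E] [IsGalois F E]
    (j : S →ₐ[F] E) {r : (E ≃ₐ[F] E) → S ≃ₐ[F] S} (hj : ∀ g x, j (r g x) = g (j x))
    {h : (S ≃ₐ[F] S) × (S ≃ₐ[F] S) → Sˣ} (hh : IsMulCocycle₂ h) {u : (S ≃ₐ[F] S) → Sˣ} {δ N M : ℕ}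
    (hM : M = δ * N) (hu : h ^ N = dd u) (h0 : 0 < M) {y : E} (hy : y ≠ 0)
    (H : ∀ g, ∃ ρ : E, ρ ^ M = j (u (r g)) ^ δ * y / g y) :
    ∃ cc : (E ≃ₐ[F] E) × (E ≃ₐ[F] E) → Eˣ, IsMulCocycle₂ cc ∧ (∀ p, cc p ^ M = 1) ∧
      cls F cc = cls F h := by
  subst hM
  replace hj : ∀ g x, (j : S →+* E) (r g • x) = g • (j : S →+* E) x := hj
  have hρ (g : E ≃ₐ[F] E) : ∃ ρ : Eˣ, ρ ^ (δ * N) = Units.map ((j : S →+* E) : S →* E) (u (r g)) ^ δ *
      (Units.mk0 y hy / g • Units.mk0 y hy) := by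
    obtain ⟨ρ, e⟩ := H g
    have e' : ρ ^ (δ * N) = (Units.map ((j : S →+* E) : S →* E) (u (r g)) ^ δ *
        (Units.mk0 y hy / g • Units.mk0 y hy) : Eˣ) := by
      rw [Units.val_mul, Units.val_pow_eq_pow_val, Units.val_div_eq_div_val, ← mul_div_assoc]
      exact e
    refine ⟨Units.mk0 ρ fun e0 => ?_, Units.ext e'⟩
    rw [e0, zero_pow h0.ne'] at e'
    exact Units.ne_zero _ e'.symm
  choose ρ hρ using hρ
  have hp := pull_coc hj hh
  refine ⟨pull j r h / dd ρ, ks3_div hp (ks3_dd ρ), ks3_one (fun p => ?_) hρ, ?_⟩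
  · refine Eq.trans ?_ (congrFun (pull_dd hj u) p)
    exact (map_pow _ _ _).symm.trans (congrArg _ (congrFun hu _))
  · have e := ka_mul (K := F) (ks3_div hp (ks3_dd ρ)) (ks3_dd ρ)
    rw [div_mul_cancel, (ka_zero (ks3_dd ρ)).2 ⟨ρ, rfl⟩] at e
    exact (e.trans (add_zero (M := BR F) _)).symm.trans
      ((ka_pull (RingHom.id F) j.commutes hj hh).symm.trans (ka_id _))

/-- The class dies over `Fb`; take roots of the cochain that bounds its `N`-th power. -/
theorem ks_stage {N : ℕ} (hM : M = c.δ * N) {a : BR F} (hN : N • a = 0)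
    (H1 : ∀ v : Vl F, GoodV (algebraMap K (Kb K)) (toF K[X] L F) c.Ψ v → Unram v a) :
    ∃ (E : IntermediateField F (Om K)) (cc : (E ≃ₐ[F] E) × (E ≃ₐ[F] E) → Eˣ), c.Nice E ∧
      IsMulCocycle₂ cc ∧ (∀ p, cc p ^ M = 1) ∧ cls F cc = a := by
  have := (kf_char c).2
  have := kf_galois c
  obtain ⟨S, _, _, h, hh, rfl⟩ := ka_split (T := Fb K F) (kf_tsen c (rs (algebraMap F _) a))
  obtain ⟨u, hu⟩ := (ka_zero (K := F) (ks3_pw hh N)).1 ((ks3_cls hh N).trans hN)
  obtain ⟨r, -, hr⟩ := exists_lk_of (γ := RingHom.id F) (j := (S.val : S →+* Fb K F)) fun _ => rfl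
  obtain ⟨y, hy0, hy⟩ := ks_one c hM S (r := r) hr (congrFun hu) fun w hw => by
    have e : toF K[X] L S = (algebraMap F S).comp (toF K[X] L F) := by
      rw [← RingHom.comp_assoc, ← IsScalarTower.algebraMap_eq]
    rw [e] at hw
    have hI := kz_unr _ hw
    obtain ⟨t, φ, h1, h2, h3⟩ := hw
    exact Unram.int (E := S) (H1 (w.comap (algebraMap F S)) ⟨t, φ.comp (algebraMap F S), h1, h2, fun x => h3 _⟩)
      (fun _ => Iff.rfl) hI hh rfl
  let D₀ := FiniteGaloisIntermediateField.adjoin F ({y} : Set (Fb K F))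
  let D : IntermediateField F (Fb K F) := S ⊔ D₀.toIntermediateField
  have hS : S ≤ D := le_sup_left
  have hyD : y ∈ D := (le_sup_right : _ ≤ D) (FiniteGaloisIntermediateField.subset_adjoin F _ rfl)
  let B := Module.finBasis F D
  let z : (D ≃ₐ[F] D) → Fb K F := fun σ =>
    ((u (r (σ.liftNormal _)) : S) : Fb K F) ^ c.δ * y / σ.liftNormal (Fb K F) y
  obtain ⟨E, hE, hT, hY⟩ := ks_field c (Finset.univ.image fun i => (B i : Fb K F))
    (Finset.univ.image z) fun x hx v hv => by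
      obtain ⟨σ, -, rfl⟩ := Finset.mem_image.1 hx
      exact hy _ v hv
  have := hE.fin
  have := hE.gal
  have : FiniteDimensional F E := Module.Finite.of_restrictScalars_finite L F E
  have : IsGalois F E := IsGalois.tower_top_of_isGalois L F E
  have hD (x : D) : ((Fb K F).val.comp D.val) x ∈ E := by
    rw [← B.sum_repr x, map_sum]
    exact sum_mem fun i _ => by
      rw [map_smul]
      exact E.smul_mem (hT _ (Finset.mem_image_of_mem _ (Finset.mem_univ i)))
  let i : D →ₐ[F] E := ((Fb K F).val.comp D.val).codRestrict E.toSubalgebra hD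
  obtain ⟨q, -, hq⟩ := exists_lk_of (γ := RingHom.id F) (j := (i : D →+* E)) i.commutes
  have hl (g : E ≃ₐ[F] E) (x : D) :
      (((q g).liftNormal (Fb K F) x : Fb K F) : Om K) = (g (i x) : E) :=
    (congrArg Subtype.val ((q g).liftNormal_commutes (Fb K F) x)).trans
      (congrArg Subtype.val (hq g x))
  refine ⟨E, (ks3_fin (i.comp (IntermediateField.inclusion hS))
    (r := fun g => r ((q g).liftNormal _)) (fun g x => Subtype.ext ((congrArg Subtype.val
      (hr _ x)).trans (hl g (IntermediateField.inclusion hS x)))) hh hM hu c.pos (y := i ⟨y, hyD⟩)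
    ((map_ne_zero i).2 fun e => hy0 (congrArg Subtype.val e)) fun g => ?_).imp fun _ e => ⟨hE, e⟩⟩
  obtain ⟨ρ, hρ, e⟩ := hY _ (Finset.mem_image_of_mem z (Finset.mem_univ (q g)))
  refine ⟨⟨ρ, hρ⟩, Subtype.ext ?_⟩
  push_cast
  rw [e]
  simp only [z]
  push_cast
  exact congrArg (_ / ·) (hl g ⟨y, hyD⟩)

end Pool.Agent.ZCy
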