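import Pool.Agent.Lib.MP_751085_ag.ZC.K.Enl

/-! Block K: the splitting along the section at infinity. -/

namespace Pool.Agent.ZCy

open scoped Classical WithZero IntermediateField
open Polynomial groupCohomology

set_option linter.unusedSectionVars false

variable {K L F : Type} [Field K] [Field L] [Field F] [CharZero K] [Algebra K[X] L]
  [IsFractionRing K[X] L] [Algebra L F] [Algebra L (Om K)] [Algebra F (Om K)]
  [IsScalarTower L F (Om K)] {M : ℕ} (c : Cur K L F M)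

/-- Hilbert 90 for `e ^ M` (`isMulCoboundary₁_of_isMulCocycle₁_of_aut_to_units`). -/
theorem kp_h90 {A B : Type} [Field A] [Field B] [Algebra A B] [FiniteDimensional A B]
    {e : (B ≃ₐ[A] B) → Bˣ} (h : ∀ p, dd e p ^ M = 1) : ∃ f : Bˣ, ∀ g, e g ^ M = g • f / f := by
  obtain ⟨f, hf⟩ := isMulCoboundary₁_of_isMulCocycle₁_of_aut_to_units (fun g => e g ^ M)
    fun g g' => by
      have := h (g, g')
      rw [dd, mul_pow, div_pow, ← smul_pow', div_mul_eq_mul_div, div_eq_one] at this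
      exact this.symm
  exact ⟨f, fun g => (hf g).symm⟩

theorem ksplit_hc {R S : Type} [CommRing R] [CommRing S] (f : R →+* S) (a : R) :
    lm f (hc a) = hc (f a) := by
  ext n
  rw [lm_coeff, HahnSeries.C_apply, HahnSeries.C_apply, HahnSeries.coeff_single,
    HahnSeries.coeff_single]
  split_ifs
  · rfl
  · exact map_zero f

variable {K₂ : Type} [Field K₂] [Algebra K K₂] [Algebra K₂ (Kb K)] [IsScalarTower K K₂ (Kb K)]
  [FiniteDimensional K K₂]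

/-- An automorphism of the coefficients over `K₂` fixes `F`. -/
theorem kp_rho (j : F →+* Ls K₂) (hj : ∀ x, algebraMap F (Om K) x = lm (algebraMap K₂ (Kb K)) (j x))
    (E : IntermediateField F (Om K)) [Normal F E] (σ : Kb K ≃ₐ[K₂] Kb K) :
    ∃ g : E ≃ₐ[F] E, Cw (σ : Kb K →+* Kb K) g := by
  let Φ : Om K →ₐ[F] Om K :=
    { lm (σ : Kb K →+* Kb K) with
      commutes' := fun x => by
        rw [hj]
        ext n
        exact σ.commutes _ }
  exact ⟨Φ.restrictNormal' E, fun x => Φ.restrictNormal_commutes E x⟩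

/-- On a field `E` whose constants contain `S` and `K₂` the cochain `e` descends to `secG K₂ E`: two
automorphisms that induce the same `g` agree on the constants of `E`. -/
theorem kp_desc {E : IntermediateField F (Om K)} {S : Finset (Kb K)} (hS : ∀ x ∈ S, hc x ∈ E)
    (h₂ : ∀ a : K₂, hc (algebraMap K₂ (Kb K) a) ∈ E) {cc : (E ≃ₐ[F] E) × (E ≃ₐ[F] E) → Eˣ}
    {e : (Kb K ≃ₐ[K₂] Kb K) → K₂ˣ} (h1 : ∀ σ, e σ ^ M = 1)
    (h2 : ∀ σ σ', (∀ x ∈ S, σ x = σ' x) → e σ = e σ')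
    (h3 : ∀ (σ σ' : Kb K ≃ₐ[K₂] Kb K) (g g' : E ≃ₐ[F] E), Cw (σ : Kb K →+* Kb K) (⇑g) →
      Cw (σ' : Kb K →+* Kb K) (⇑g') → ((cc (g, g') : E) : Om K) =
        hc (algebraMap K₂ (Kb K) ((e σ' / e (σ * σ') * e σ : K₂ˣ) : K₂))) :
    ∃ e' : (E ≃ₐ[F] E) → Eˣ, (∀ r ∈ secG K₂ E, e' r ^ M = 1) ∧
      ∀ r ∈ secG K₂ E, ∀ r' ∈ secG K₂ E, cc (r, r') = dd e' (r, r') := by
  obtain ⟨u, hu⟩ : ∃ u : K₂ →+* E, ∀ a, (u a : Om K) = hc (algebraMap K₂ (Kb K) a) :=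
    ⟨((hc : Kb K →+* Om K).comp (algebraMap K₂ (Kb K))).codRestrict E h₂, fun _ => rfl⟩
  obtain ⟨e', he⟩ : ∃ e' : (E ≃ₐ[F] E) → Eˣ, ∀ (σ : Kb K ≃ₐ[K₂] Kb K) (g : E ≃ₐ[F] E),
      Cw (σ : Kb K →+* Kb K) (⇑g) → e' g = Units.map (u : K₂ →* E) (e σ) := by
    refine ⟨fun g => if h : ∃ σ : Kb K ≃ₐ[K₂] Kb K, Cw (σ : Kb K →+* Kb K) (⇑g) then
      Units.map (u : K₂ →* E) (e h.choose) else 1, fun σ g hg => ?_⟩
    have h : ∃ σ : Kb K ≃ₐ[K₂] Kb K, Cw (σ : Kb K →+* Kb K) (⇑g) := ⟨σ, hg⟩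
    beta_reduce
    rw [dif_pos h, h2 h.choose σ fun x hx => ?_]
    have h4 := (h.choose_spec ⟨hc x, hS x hx⟩).symm.trans (hg ⟨hc x, hS x hx⟩)
    rw [ksplit_hc, ksplit_hc] at h4
    exact HahnSeries.C_injective h4
  refine ⟨e', ?_, ?_⟩
  · rintro r ⟨σ, hr⟩
    rw [he σ r hr, ← map_pow, h1, map_one]
  · rintro r ⟨σ, hr⟩ r' ⟨σ', hr'⟩
    have hm : Cw ((σ * σ' : Kb K ≃ₐ[K₂] Kb K) : Kb K →+* Kb K) (⇑(r * r')) := fun x =>
      (hr (r' x)).trans (congrArg (lm (σ : Kb K →+* Kb K)) (hr' x))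
    have hf : r • Units.map (u : K₂ →* E) (e σ') = Units.map (u : K₂ →* E) (e σ') := by
      refine Units.ext (Subtype.ext ?_)
      change (r (u (e σ' : K₂)) : Om K) = u (e σ' : K₂)
      rw [hr, hu, ksplit_hc]
      exact congrArg _ (σ.commutes _)
    rw [dd, he σ r hr, he σ' r' hr', he _ _ hm, hf, ← _root_.map_div, ← map_mul]
    exact Units.ext (Subtype.ext ((h3 σ σ' r r' hr hr').trans (hu _).symm))

end Pool.Agent.ZCy
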