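import Pool.Agent.Lib.MP_751085_ag.ZC.K.GRK
import Pool.Agent.Lib.MP_751085_ag.ZC.K.Fin

/-! Block K: the inertia groups at vertical primes act through the coefficients. -/

namespace Pool.Agent.ZCy

open scoped Classical WithZero IntermediateField
open Polynomial groupCohomology

set_option linter.unusedSectionVars false

/-- the restriction of an inertial automorphism -/
theorem kvt_res {K K' L E : Type} [Field K] [Field K'] [Field L] [Field E] [Algebra K K']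
    [Algebra L E] [FiniteDimensional K K'] [IsGalois K K'] (J : K' →+* E)
    (hJ : ∀ a, ∃ b, J (algebraMap K K' a) = algebraMap L E b) {w : Vl E} {g : E ≃ₐ[L] E}
    (hg : g ∈ Ine L w) : ∃ g₀ ∈ Ine K (w.comap J), (∀ a, J (g₀ a) = g (J a)) ∧
      ∀ m : ℕ, g ^ m = 1 → g₀ ^ m = 1 := by
  obtain ⟨g₀, h0⟩ := exists_restrict (K := K) J (g : E →+* E) fun a => by
    obtain ⟨b, e⟩ := hJ a
    rw [e]
    exact g.commutes b
  have h0 : ∀ a, J (g₀ a) = g (J a) := h0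
  have h1 : ∀ (m : ℕ) a, J ((g₀ ^ m) a) = (g ^ m) (J a) := fun m => by
    induction m with
    | zero => exact fun _ => rfl
    | succ m ih => exact fun a => by rw [pow_succ, pow_succ, AlgEquiv.mul_apply, ih, h0]; rfl
  refine ⟨g₀, ⟨fun x => ?_, fun x hx => ?_⟩, h0, fun m e => AlgEquiv.ext fun a => J.injective ?_⟩
  · change w (J _) = w (J _)
    rw [h0, hg.1]
  · change w (J _) < 1
    rw [map_sub, h0]
    exact hg.2 _ hx
  · rw [h1, e]
    rfl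

theorem kvt_cen {B K' E : Type} [CommRing B] [Field K'] [Field E] {φ : B[X] →+* E} {ψ : B →+* K'}
    {J : K' →+* E} (e : ∀ b, J (ψ b) = φ (C b)) {P : B} {w : Vl E} (hw : Cen φ w (C P)) :
    Cen ψ (w.comap J) P := by
  refine ⟨fun a => ?_, fun a => ?_⟩ <;> rw [Valuation.comap_apply, e]
  · exact hw.1 _
  · rw [hw.2]
    exact ⟨fun h => by simpa using (C_dvd_iff_dvd_coeff _ _).1 h 0, map_dvd C⟩

variable {A A₂ K K₂ L F : Type} [CommRing A] [IsDomain A] [UniqueFactorizationMonoid A] [Algebra ℚ A]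
  [CommRing A₂] [IsDomain A₂] [UniqueFactorizationMonoid A₂] [Field K] [CharZero K] [Field K₂]
  [Algebra A K] [IsFractionRing A K] [Algebra A₂ K₂] [IsFractionRing A₂ K₂] [Algebra A A₂]
  [Algebra.IsIntegral A A₂] [Algebra K K₂] [Algebra A K₂] [IsScalarTower A K K₂]
  [IsScalarTower A A₂ K₂] [Algebra K₂ (Kb K)] [IsScalarTower K K₂ (Kb K)] [FiniteDimensional K K₂]
  [IsGalois K K₂] [Field L] [Field F] [Algebra K[X] L] [IsFractionRing K[X] L] [Algebra L F]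
  [Algebra L (Om K)] [Algebra F (Om K)] [IsScalarTower L F (Om K)] {M : ℕ} {c : Cur K L F M} {Φ : A}
  {E : IntermediateField F (Om K)} {K₁ : IntermediateField K₂ (Kb K)} {n : ℕ} {π : Fin n → A₂}
  {ϖ : Fin n → K₁} (hb : c.Bas K₂ Φ) (h : c.Big A E K₁ π ϖ)

include hb h

theorem kvt_J (a : K) : h.frm.J (algebraMap K K₁ a) = toF K[X] L E (C a) :=
  Subtype.ext (kf_C c a).symm

theorem kvt_J₂ (a : K) :
    h.frm.J (algebraMap K₂ K₁ (algebraMap K K₂ a)) = toF K[X] L E (C a) := by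
  rw [← IsScalarTower.algebraMap_apply, kvt_J hb h]

/-- `σ` fixes `K₂`, so it is an automorphism over `K₂`, and `lm σ` fixes `F` by `hb.sec`, `kl_lm_lm` -/
theorem kx_lift {σ : Kb K ≃ₐ[K] Kb K} {g : E ≃ₐ[L] E} (hg : Cw (σ : Kb K →+* Kb K) (⇑g))
    (h2 : ∀ a : K₂, g (h.frm.J (algebraMap K₂ K₁ a)) = h.frm.J (algebraMap K₂ K₁ a)) :
    ∃ g' ∈ secG K₂ E, g'.restrictScalars L = g := by
  have h1 : ∀ a : K₂, σ (algebraMap K₂ (Kb K) a) = algebraMap K₂ (Kb K) a := fun a => by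
    have h3 := hg (h.frm.J (algebraMap K₂ K₁ a))
    rw [h2] at h3
    exact HahnSeries.C_injective (h3.trans (kl_lm_hc _ _)).symm
  obtain ⟨j, hj⟩ := hb.sec
  refine ⟨AlgEquiv.ofRingEquiv (f := g.toRingEquiv) fun x => Subtype.ext ((hg _).trans ?_),
    ⟨AlgEquiv.ofRingEquiv (f := σ.toRingEquiv) h1, hg⟩, rfl⟩
  change lm _ (algebraMap F (Om K) x) = algebraMap F (Om K) x
  rw [hj, kl_lm_lm, show (σ : Kb K →+* Kb K).comp (algebraMap K₂ (Kb K)) = algebraMap K₂ (Kb K)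
    from RingHom.ext h1]

/-- `exists_restrict` twice; the map is multiplicative -/
theorem kx_res {w : Vl E} {g : E ≃ₐ[L] E} (hg : g ∈ Ine L w) :
    (∃ g₁ ∈ Ine K (w.comap h.frm.J), ∀ a, h.frm.J (g₁ a) = g (h.frm.J a)) ∧
    ∃ g₂ ∈ Ine K (w.comap (h.frm.J.comp (algebraMap K₂ K₁))),
      (∀ a, h.frm.J (algebraMap K₂ K₁ (g₂ a)) = g (h.frm.J (algebraMap K₂ K₁ a))) ∧
      ∀ m : ℕ, g ^ m = 1 → g₂ ^ m = 1 := by
  have := h.fin
  have := h.gal
  obtain ⟨g₁, h1, h2, -⟩ := kvt_res (K := K) h.frm.J (fun a => ⟨_, kvt_J hb h a⟩) hg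
  exact ⟨⟨g₁, h1, h2⟩, kvt_res (K := K) (h.frm.J.comp (algebraMap K₂ K₁))
    (fun a => ⟨_, kvt_J₂ hb h a⟩) hg⟩

/-- `pB B K L E (C b) = h.frm.J (toF B K K₁ b)` by `kf_C`; `C_dvd_iff_dvd_coeff` or `C_dvd_C` -/
theorem kx_cen {B : Type} [CommRing B] [Algebra B K] {P : B} {w : Vl E}
    (hw : Cen (pB B K L E) w (C P)) : Cen (toF B K K₁) (w.comap h.frm.J) P ∧
      Cen (toF B K K₂) (w.comap (h.frm.J.comp (algebraMap K₂ K₁))) P :=
  have e : ∀ b, toF K[X] L E (C (algebraMap B K b)) = pB B K L E (C b) := fun _ =>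
    congrArg _ (map_C _).symm
  ⟨kvt_cen (fun b => (kvt_J hb h (algebraMap B K b)).trans (e b)) hw,
    kvt_cen (fun b => (kvt_J₂ hb h (algebraMap B K b)).trans (e b)) hw⟩

/-- `kz_rat` -/
theorem kx_nat {w : Vl E} (hw : w ∈ Wv A K L E Φ) {m : ℕ} (hm : m ≠ 0) : w (m : E) = 1 := by
  obtain ⟨-, P, -, -, hc⟩ := hw
  exact kz_rat hc.1 hm

theorem kvt_cw {B : Type} [CommRing B] [IsDomain B] [UniqueFactorizationMonoid B] [Algebra B K]
    [IsFractionRing B K] {P : B} (hr : Red c.Ψ P) {w : Vl E} (hw : Cen (pB B K L E) w (C P))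
    (hn : w ((c.δ.factorial * M : ℕ) : E) = 1) {g : E ≃ₐ[L] E} (hg : g ∈ Ine L w) :
    ∃ σ : Kb K ≃ₐ[K] Kb K, Cw (σ : Kb K →+* Kb K) (⇑g) := by
  have : FiniteDimensional K (K₁.restrictScalars K) := h.fin
  have : IsGalois K (K₁.restrictScalars K) := h.gal
  exact kk_cw c h.nice (K₁ := K₁.restrictScalars K) h.frm hb.gr hr hw hn hg

/-- `kk_cw` for `K₁.restrictScalars K`, `kx_res`, `kx_cen`, `hb.unr`, `kx_lift` -/
theorem kx_ine {w : Vl E} (hw : w ∈ Wv A K L E Φ) {g : E ≃ₐ[L] E} (hg : g ∈ Ine L w) :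
    ∃ g' ∈ secG K₂ E, g'.restrictScalars L = g := by
  have hn := kx_nat hb h hw (mul_ne_zero c.δ.factorial_ne_zero c.pos.ne')
  obtain ⟨-, P, hP, hΦ, hc⟩ := hw
  obtain ⟨σ, hσ⟩ := kvt_cw hb h (hb.red P hP hΦ) hc hn hg
  obtain ⟨g₂, h1, h2, -⟩ := (kx_res hb h hg).2
  rw [hb.unr P _ hP hP.not_dvd_one (kx_cen hb h hc).2, Subgroup.mem_bot] at h1
  subst h1
  exact kx_lift hb h hσ fun a => (h2 a).symm

/-- as `kx_ine`, with `kn_ptriv` -/
theorem kx_wild {B : Type} [CommRing B] [IsDomain B] [UniqueFactorizationMonoid B] [Algebra B K]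
    [IsFractionRing B K] {P : B} (ht : c.Tm K₂ P) {w : Vl E} (hw : Cen (pB B K L E) w (C P))
    {g : E ≃ₐ[L] E} (hg : g ∈ Ine L w) {p a : ℕ} (hp : p.Prime) (h1 : w (p : E) < 1)
    (h2 : g ^ p ^ a = 1) : ∃ g' ∈ secG K₂ E, g'.restrictScalars L = g := by
  have hc := (kx_cen hb h hw).2
  have hn := le_antisymm (hc.1 _) (not_lt.1 fun e => ht.nd ((hc.2 _).1 e))
  rw [map_natCast, Valuation.comap_apply, map_natCast] at hn
  obtain ⟨σ, hσ⟩ := kvt_cw hb h ht.red hw hn hg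
  obtain ⟨g₂, h3, h4, h5⟩ := (kx_res hb h hg).2
  obtain rfl := kn_ptriv (ht.tame _ hc) h3 hp (by rwa [Valuation.comap_apply, map_natCast])
    (h5 _ h2)
  exact kx_lift hb h hσ fun a => (h4 a).symm

end Pool.Agent.ZCy
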