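import Pool.Agent.Lib.MP_751085_ag.ZC.K.Vt
import Pool.Agent.Lib.MP_751085_ag.ZC.K.ValB
import Pool.Agent.Lib.MP_751085_ag.ZC.K.Split
import Pool.Agent.Lib.MP_751085_ag.ZC.K.Kum

/-! Block K: the Kummer data. -/

namespace Pool.Agent.ZCy

open scoped Classical WithZero IntermediateField
open Polynomial groupCohomology

set_option linter.unusedSectionVars false

variable {A A₂ K K₂ L F : Type} [CommRing A] [IsDomain A] [UniqueFactorizationMonoid A] [Algebra ℚ A]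
  [CommRing A₂] [IsDomain A₂] [UniqueFactorizationMonoid A₂] [Field K] [CharZero K] [Field K₂]
  [Algebra A K] [IsFractionRing A K] [Algebra A₂ K₂] [IsFractionRing A₂ K₂] [Algebra A A₂]
  [Algebra.IsIntegral A A₂] [Algebra K K₂] [Algebra A K₂] [IsScalarTower A K K₂]
  [IsScalarTower A A₂ K₂] [Algebra K₂ (Kb K)] [IsScalarTower K K₂ (Kb K)] [FiniteDimensional K K₂]
  [IsGalois K K₂] [Field L] [Field F] [Algebra K[X] L] [IsFractionRing K[X] L] [Algebra L F]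
  [Algebra L (Om K)] [Algebra F (Om K)] [IsScalarTower L F (Om K)] {M : ℕ} {c : Cur K L F M} {Φ : A}
  {E : IntermediateField F (Om K)} {K₁ : IntermediateField K₂ (Kb K)} {n : ℕ} {π : Fin n → A₂}
  {ϖ : Fin n → K₁} (hb : c.Bas K₂ Φ) (h : c.Big A E K₁ π ϖ)

include hb h

theorem kvtb_le {w : Vl E} (hw : w ∈ Wv A K L E Φ) : Ine F w ≤ secG K₂ E := fun g hg => by
  obtain ⟨g', h1, h2⟩ := kx_ine hb h hw (kz_scal.2.2 hg)
  rwa [← AlgEquiv.restrictScalars_injective L h2]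

theorem kvtb_pw (i : Fin n) : h.frm.J (ϖ i) ^ M =
    h.frm.J (algebraMap K₂ K₁ (algebraMap A₂ K₂ (π i))) := by
  rw [← map_pow, h.pw]; rfl

theorem kvtb_cen {w : Vl E} {P : A} (hP : Prime P) (hw : Cen (pB A K L E) w (C P)) :
    (∀ a, w (h.frm.J (algebraMap K₂ K₁ (algebraMap A₂ K₂ a))) ≤ 1) ∧ ∀ i, w (h.frm.J (ϖ i)) < 1 →
      Cen (algebraMap A₂ K₂) (w.comap (h.frm.J.comp (algebraMap K₂ K₁))) (π i) := by
  have e : toF A K K₂ = (algebraMap A₂ K₂).comp (algebraMap A A₂) :=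
    (IsScalarTower.algebraMap_eq A K K₂).symm.trans (IsScalarTower.algebraMap_eq A A₂ K₂)
  have h1 : Function.Injective (toF A K K₂) :=
    (algebraMap K K₂).injective.comp (IsFractionRing.injective A K)
  have h2 := (kx_cen hb h hw).2
  rw [e] at h1 h2
  obtain ⟨q, hq, h3, -⟩ := kz_cen_up (Function.Injective.of_comp h1) hP h2
  refine ⟨h3.1, fun i hi => ⟨h3.1, fun a => ?_⟩⟩
  have h4 : q ∣ π i := (h3.2 _).1 (by
    change w (h.frm.J _) < 1
    rw [← kvtb_pw hb h, map_pow]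
    exact pow_lt_one₀ zero_le hi c.pos.ne')
  rw [h3.2, (hq.associated_of_dvd (h.prime i) h4).dvd_iff_dvd_left]

theorem kvtb_J {σ : Kb K →+* Kb K} {g : E → E} (hg : Cw σ g) (a : K₁) :
    (g (h.frm.J a) : Om K) = hc (σ a) := (hg _).trans (kl_lm_hc _ _)

theorem kvtb_fix {r : E ≃ₐ[F] E} (hr : r ∈ secG K₂ E) (a : K₂) :
    r (h.frm.J (algebraMap K₂ K₁ a)) = h.frm.J (algebraMap K₂ K₁ a) := by
  obtain ⟨σ, hσ⟩ := hr
  exact Subtype.ext ((kvtb_J hb h hσ _).trans (congrArg hc (σ.commutes a)))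

theorem kx_one {w : Vl E} (hw : w ∈ Wv A K L E Φ) (hI : Ine F w ≠ ⊥) :
    ∃ i, w (h.frm.J (ϖ i)) < 1 ∧ (∀ j, j ≠ i → w (h.frm.J (ϖ j)) = 1) ∧
      ∀ x : E, x ≠ 0 → (∀ g ∈ Ine F w, g x = x) → ∃ z : ℤ, w x = w (h.frm.J (ϖ i) ^ M) ^ z := by
  have hw' := hw
  obtain ⟨-, P, hP, -, hc'⟩ := hw'
  obtain ⟨i, hi⟩ := h.ram (w.comap h.frm.J) P hP (kx_cen hb h hc').1 fun h0 => hI <|
    (Subgroup.eq_bot_iff_forall _).2 fun g hg => by
      obtain ⟨σ, hσ⟩ := kvtb_le hb h hw hg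
      obtain ⟨⟨g₁, h1, h2⟩, -⟩ := kx_res hb h (kz_scal.2.2 hg)
      rw [h0, Subgroup.mem_bot] at h1
      subst h1
      ext x m
      rw [hσ x, lm_coeff]
      exact HahnSeries.C_injective ((kvtb_J hb h hσ ⟨_, h.frm.cf x x.2 m⟩).symm.trans
        (congrArg Subtype.val (h2 _).symm))
  have h1 : w (h.frm.J (ϖ i)) < 1 := by
    rw [← pow_lt_one_iff_of_nonneg zero_le c.pos.ne', ← map_pow, kvtb_pw hb h]
    exact hi
  obtain ⟨h2, h3⟩ := kvtb_cen hb h hP hc'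
  refine ⟨i, h1, fun j hj => ?_, fun x hx hf => ?_⟩
  · rw [← pow_eq_one_iff_of_nonneg zero_le c.pos.ne', ← map_pow, kvtb_pw hb h]
    exact (h2 _).eq_of_not_lt fun h4 => hj (h.inj i j (((h3 i h1).2 _).1 h4)).symm
  · have := h.nice.fin
    have := h.nice.gal
    obtain ⟨y, hy⟩ := kv_fix (K := L) (w := w) (x := x) fun g hg => by
      obtain ⟨g', -, rfl⟩ := kx_ine hb h hw hg
      exact hf g' (kz_scal.2.1 hg)
    have h4 : y ≠ 0 := by
      rintro rfl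
      exact hx (by simpa using hy)
    let _ := ((algebraMap K[X] L).comp (mapRingHom (algebraMap A K))).toAlgebra
    have := kz_frac (K := K) (L := L) A
    obtain ⟨z, hz⟩ := (kv_cen (v := w.comap (algebraMap L E)) (v' := w.comap (algebraMap L E))
      (prime_C_iff.2 hP) hc' hc').2 y h4
    obtain ⟨z', hz'⟩ := (kv_cen (h.prime i) (h3 i h1) (h3 i h1)).2 (toF A K K₂ P)
      ((_root_.map_ne_zero (algebraMap K K₂)).2
        ((map_ne_zero_iff _ (IsFractionRing.injective A K)).2 hP.ne_zero))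
    have e : pB A K L E (C P) = h.frm.J (algebraMap K₂ K₁ (toF A K K₂ P)) := Subtype.ext (by
      have h5 := kf_C c (algebraMap A K P)
      rw [IsScalarTower.algebraMap_apply K K₂ (Kb K), ← map_C] at h5
      exact h5)
    refine ⟨z' * z, ?_⟩
    rw [zpow_mul, kvtb_pw hb h, hy]
    exact hz.trans (congrArg (· ^ z) ((congrArg w e).trans hz'))

theorem kx_stb : Stb F (Wv A K L E Φ) := by
  rintro g w ⟨h1, P, hP, h2, h3⟩
  have e : pB A K L E = (algebraMap F E).comp (pB A K L F) :=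
    RingHom.ext fun _ => IsScalarTower.algebraMap_apply L F E _
  rw [e] at h3
  exact ⟨kz_nrm h1 g, P, hP, h2, e ▸ kz_cen _ h3 g⟩

theorem kx_conj {w w' : Vl E} (hw : w ∈ Wv A K L E Φ) (hw' : w' ∈ Wv A K L E Φ) {i : Fin n}
    (h1 : w (h.frm.J (ϖ i)) < 1) (h2 : w' (h.frm.J (ϖ i)) < 1) :
    ∃ r ∈ secG K₂ E, w' = vsm r w := by
  obtain ⟨hn', P', hP', -, hc'⟩ := hw'
  have := h.fin
  have := h.gal
  have := Module.Finite.of_restrictScalars_finite K K₂ K₁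
  have := IsGalois.tower_top_of_isGalois K K₂ K₁
  have := Normal.tower_top_of_normal K K₂ (Kb K)
  have := (ke_gal c h.nice).2
  obtain ⟨g, hg⟩ := kv_conj (K := K₂) (w := w.comap h.frm.J) (w' := w'.comap h.frm.J)
    (v := w.comap (h.frm.J.comp (algebraMap K₂ K₁))) (fun _ => Iff.rfl) <| by
      obtain ⟨-, P, hP, -, hc⟩ := hw
      exact (kv_cen (h.prime i) ((kvtb_cen hb h hP hc).2 i h1) ((kvtb_cen hb h hP' hc').2 i h2)).1
  obtain ⟨j, hj⟩ := hb.sec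
  obtain ⟨r, hr⟩ := kp_rho j hj E (g.liftNormal (Kb K))
  have h3 : ∀ a, r (h.frm.J a) = h.frm.J (g a) := fun a => Subtype.ext
    ((kvtb_J hb h hr a).trans (congrArg hc (g.liftNormal_commutes (Kb K) a)))
  have h4 := kx_stb hb h r⁻¹ w hw
  refine ⟨r⁻¹, inv_mem ⟨_, hr⟩, ?_⟩
  have h5 := kx_nat hb h h4 (mul_ne_zero c.δ.factorial_ne_zero c.pos.ne')
  obtain ⟨hn, P, hP, h6, hc⟩ := h4
  have : FiniteDimensional K (K₁.restrictScalars K) := h.fin
  have : IsGalois K (K₁.restrictScalars K) := h.gal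
  exact kv_eq hn hn' (kk_uniq c h.nice (K₁ := K₁.restrictScalars K) h.frm hb.gr (hb.red P hP h6)
    hc h5 hP' hc' fun a => (hg a).trans (congrArg (w · ≤ 1) (h3 a)).symm.to_iff)

theorem kx_kum : ∃ ϖ' : Fin n → Eˣ, KumD F M (Wv A K L E Φ) (secG K₂ E) ϖ' := by
  have h0 : ∀ i, h.frm.J (ϖ i) ≠ 0 := fun i => ne_zero_pow c.pos.ne' (by
    rw [kvtb_pw hb h, _root_.map_ne_zero, _root_.map_ne_zero,
      map_ne_zero_iff _ (IsFractionRing.injective _ _)]
    exact (h.prime i).ne_zero)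
  obtain ⟨ζ, hζ⟩ := hb.root
  have h1 := hζ.map_of_injective (h.frm.J.comp (algebraMap K₂ K₁)).injective
  have := (ke_gal c h.nice).1
  have : NeZero M := ⟨c.pos.ne'⟩
  refine ⟨fun i => Units.mk0 _ (h0 i), c.pos, kx_stb hb h, fun r hr a ha => Units.ext ?_,
    fun r hr i => Units.ext ?_, fun w => kvtb_le hb h,
    fun w hw => kv_cyclic (kx_nat hb h hw Nat.card_pos.ne'), fun w hw => kx_nat hb h hw c.pos.ne',
    ⟨_, h1⟩, fun w => kx_one hb h, fun w hw w' hw' i => kx_conj hb h hw hw'⟩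
  · obtain ⟨m, -, hm⟩ := h1.eq_pow_of_pow_eq_one (ξ := (a : E)) (congrArg Units.val ha)
    change r (a : E) = a
    rw [← hm, ← map_pow, RingHom.comp_apply, kvtb_fix hb h hr]
  · change r (h.frm.J (ϖ i) ^ M) = h.frm.J (ϖ i) ^ M
    rw [kvtb_pw hb h, kvtb_fix hb h hr]

end Pool.Agent.ZCy
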