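import Pool.Agent.Lib.MP_751085_ag.ZC.K.Fin
import Pool.Agent.Lib.MP_751085_ag.ZC.K.NeedB
import Pool.Agent.Lib.MP_751085_ag.ZC.K.NeedA

/-! Block K: the choice of the field of constants. -/

namespace Pool.Agent.ZCy

open scoped Classical WithZero IntermediateField
open Polynomial groupCohomology

set_option linter.unusedSectionVars false

/-- a Galois splitting field that contains the roots of unity -/
theorem kw_k2 {k M : Type} [Field k] [CharZero k] [Field M] [Algebra k M] [FiniteDimensional k M]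
    (b : BR M) {n : ℕ} (hn : 0 < n) : ∃ (k₂ : Type) (_ : Field k₂) (_ : Algebra k k₂)
      (_ : FiniteDimensional k k₂) (_ : IsGalois k k₂) (e : M →ₐ[k] k₂) (ζ : k₂),
      IsPrimitiveRoot ζ n ∧ rs (e : M →+* k₂) b = 0 := by
  have : CharZero M := charZero_of_injective_algebraMap (algebraMap k M).injective
  obtain ⟨S, _, -, hS⟩ := ka_dies b
  have : NeZero n := ⟨hn.ne'⟩
  obtain ⟨ζ, hζ⟩ := HasEnoughRootsOfUnity.exists_primitiveRoot (AlgebraicClosure M) n
  have := IntermediateField.adjoin.finiteDimensional (Algebra.IsIntegral.isIntegral (R := M) ζ)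
  let T : IntermediateField M (AlgebraicClosure M) := S ⊔ M⟮ζ⟯
  have : FiniteDimensional k T := Module.Finite.trans M T
  have : Algebra.IsAlgebraic k (AlgebraicClosure M) := .trans k M _
  have : IsAlgClosure k (AlgebraicClosure M) := ⟨inferInstance, inferInstance⟩
  let N := IntermediateField.normalClosure k T (AlgebraicClosure M)
  let j : T →ₐ[k] N := (T.val.restrictScalars k).codRestrict N.toSubalgebra fun x =>
    AlgHom.fieldRange_le_normalClosure (T.val.restrictScalars k) ⟨x, rfl⟩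
  refine ⟨N, inferInstance, inferInstance, inferInstance, inferInstance,
    j.comp (IsScalarTower.toAlgHom k M T), j ⟨ζ, (le_sup_right : M⟮ζ⟯ ≤ T)
      (IntermediateField.mem_adjoin_simple_self M ζ)⟩, IsPrimitiveRoot.map_of_injective ?_
      j.injective, ?_⟩
  · exact IsPrimitiveRoot.of_map_of_injective (f := T.val) hζ T.val.injective
  · have h := ka_comp (algebraMap M S) ((j : T →+* N).comp
      (IntermediateField.inclusion (le_sup_left : S ≤ T) : S →+* T)) b
    rw [hS, map_zero] at h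
    exact h.symm

theorem kwra_lt {E : Type} [Field E] {w w' : Vl E} (e : ∀ x, w' x ≤ 1 ↔ w x ≤ 1) (x : E) :
    w' x < 1 ↔ w x < 1 := (Valuation.isEquiv_iff_val_le_one.2 fun {_} => e _).lt_one_iff_lt_one

/-- the wild inertia group -/
theorem kw_wild {K E : Type} [Field K] [Field E] [CharZero E] [Algebra K E] [FiniteDimensional K E]
    {w : Vl E} {p : ℕ} (hp : p.Prime) (hw : w (p : E) < 1) : ∃ H : Subgroup (E ≃ₐ[K] E),
      ∀ g, g ∈ H ↔ g ∈ Ine K w ∧ ∃ a : ℕ, g ^ p ^ a = 1 := by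
  obtain ⟨w', ⟨π, hπ⟩, e⟩ := kv_nrm (Nat.cast_ne_zero.2 hp.ne_zero) hw
  rw [← (kv_congr e).2]
  replace hw := (kwra_lt e _).2 hw
  clear e
  have h0 : w' π ≠ 0 := hπ ▸ WithZero.exp_ne_zero
  have h1 : π ≠ 0 := fun h => h0 (by rw [h, map_zero])
  have h2 : ∀ g : Ine K w', w' (g.1 π / π) ≤ 1 := fun g => by
    rw [map_div₀, g.2.1 π, div_self h0]
  let ρ := IsLocalRing.residue w'.valuationSubring
  have hρ : ∀ x, ρ x = 0 ↔ w' x < 1 := fun x =>
    (IsLocalRing.residue_eq_zero_iff x).trans w'.mem_maximalIdeal_iff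
  let θ : Ine K w' →* IsLocalRing.ResidueField w'.valuationSubring :=
    { toFun := fun g => ρ ⟨_, h2 g⟩
      map_one' := (congrArg ρ (Subtype.ext (div_self h1))).trans (map_one ρ)
      map_mul' := fun g h => by
        rw [← map_mul, ← sub_eq_zero, ← map_sub, hρ]
        have h3 : g.1 (h.1 π) / π - g.1 π / π * (h.1 π / π) =
            g.1 π / π * (g.1 (h.1 π / π) - h.1 π / π) := by
          have := (map_ne_zero g.1).2 h1
          rw [map_div₀]
          field_simp
        refine (congrArg w' h3).trans_lt ?_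
        rw [map_mul]
        exact (mul_le_of_le_one_left' (h2 g)).trans_lt (g.2.2 _ (h2 h)) }
  have := Fact.mk hp
  have : CharP (IsLocalRing.ResidueField w'.valuationSubring) p :=
    (CharP.charP_iff_prime_eq_zero hp).2 ((map_natCast ρ p).symm.trans ((hρ _).2 hw))
  refine ⟨θ.ker.map (Ine K w').subtype, fun g => ⟨?_, fun ⟨hg, a, ha⟩ => ⟨⟨g, hg⟩, ?_, rfl⟩⟩⟩
  · rintro ⟨g, hg, rfl⟩
    obtain ⟨a, q, hq, h3⟩ := Nat.exists_eq_pow_mul_and_not_dvd (orderOf_pos g.1).ne' p hp.ne_one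
    refine ⟨g.2, a, kv_theta hπ (g ^ p ^ a).2 ?_ ?_⟩
    · refine (show w' _ ≤ 1 from natCast_mem w'.valuationSubring _).eq_of_not_lt fun h => hq ?_
      have h4 := (map_natCast ρ _).symm.trans ((hρ _).2 h)
      refine ((CharP.cast_eq_zero_iff _ p _).1 h4).trans (orderOf_dvd_of_pow_eq_one ?_)
      exact (pow_mul g.1 _ _).symm.trans (h3 ▸ pow_orderOf_eq_one g.1)
    · refine (hρ (⟨_, h2 (g ^ p ^ a)⟩ - 1)).1 ?_
      rw [map_sub, map_one, sub_eq_zero]
      exact pow_mem hg _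
  · have h3 : θ ⟨g, hg⟩ ^ p ^ a = 1 := by
      rw [← map_pow, ← map_one θ]
      exact congrArg θ (Subtype.ext ha)
    rw [← sub_eq_zero, ← one_pow (p ^ a), ← sub_pow_char_pow] at h3
    exact sub_eq_zero.1 (eq_zero_of_pow_eq_zero h3)

theorem kwra_nat {O E : Type} [CommRing O] [Field E] {φ : O →+* E} {w : Vl E} {π : O}
    (hπ : Irreducible π) (h : Cen φ w π) {N : ℕ} (hN : IsUnit (N : O)) : w (N : E) = 1 := by
  rw [← map_natCast φ]
  exact (h.1 _).eq_of_not_lt fun h1 => hπ.not_isUnit (isUnit_of_dvd_unit ((h.2 _).1 h1) hN)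

/-- the fixed field of the wild inertia group of a splitting field -/
theorem kw_tame {O k M : Type} [CommRing O] [IsDomain O] [CDVR O] [Field k] [CharZero k]
    [Algebra O k] [IsFractionRing O k] [Field M] [Algebra k M] [FiniteDimensional k M] {π : O}
    (hπ : Irreducible π) {z : M} (hz : IntermediateField.adjoin k {z} = ⊤) {f : k[X]} (h0 : f ≠ 0)
    (hf : aeval z f = 0) {δ : ℕ} (hd : f.natDegree ≤ δ) (hδ : IsUnit (δ.factorial : O)) (b : BR M)
    {n : ℕ} (hn : IsUnit (n : O)) : ∃ (k₂ : Type) (_ : Field k₂) (_ : Algebra k k₂)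
      (_ : FiniteDimensional k k₂) (_ : IsGalois k k₂) (e : M →ₐ[k] k₂) (ζ : k₂) (q : ℕ),
      IsPrimitiveRoot ζ n ∧ q • rs (e : M →+* k₂) b = 0 ∧ (∀ N : ℕ, IsUnit (N : O) → q.Coprime N) ∧
      ∀ w : Vl k₂, Cen (toF O k k₂) w π → Tame k w := by
  have hn0 : n ≠ 0 := fun h => hn.ne_zero (by rw [h, Nat.cast_zero])
  obtain ⟨E, _, _, _, _, e, ζ, hζ, hb⟩ := kw_k2 (k := k) b (Nat.pos_of_ne_zero hn0)
  have : CharZero E := charZero_of_injective_algebraMap (algebraMap k E).injective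
  by_cases h : ∀ p : ℕ, p.Prime → IsUnit (p : O)
  · refine ⟨E, _, _, ‹_›, ‹_›, e, ζ, 1, hζ, (one_nsmul _).trans hb, fun N _ => N.coprime_one_left,
      fun w hw => by_contra fun h1 => ?_⟩
    obtain ⟨p, hp, -, h2⟩ := kz_prime Nat.card_pos.ne' h1
    exact h2.ne (kwra_nat hπ hw (h p hp))
  push Not at h
  obtain ⟨p, hp, hu⟩ := h
  have := Fact.mk hp
  have hπp : π ∣ p := Ideal.mem_span_singleton.1 (hπ.maximalIdeal_eq ▸ hu)
  have hdv : ∀ N : ℕ, IsUnit (N : O) → ¬p ∣ N := fun N hN h =>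
    hu (isUnit_of_dvd_unit (Nat.cast_dvd_cast h) hN)
  obtain ⟨v, hv, -⟩ := kv_prime (K := k) hπ.prime
  obtain ⟨w₀, hw₀⟩ := kv_exists (E := E) v
  have hc : Cen (toF O k E) w₀ π := ⟨fun a => (hw₀ _).2 (hv.1 a), fun a =>
    (kwra_lt (w' := w₀.comap (algebraMap k E)) hw₀ _).trans (hv.2 a)⟩
  have hD := kw_hens hπ hc
  obtain ⟨H, hH⟩ := kw_wild (K := k) hp (map_natCast (toF O k E) p ▸ (hc.2 _).2 hπp)
  have : H.Normal := ⟨fun g hg s => by
    obtain ⟨h1, a, ha⟩ := (hH g).1 hg
    have h2 := kz_ine h1 s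
    rw [kz_dec.1 (hD ▸ Subgroup.mem_top s)] at h2
    exact (hH _).2 ⟨h2, a, by rw [conj_pow, ha, mul_one, mul_inv_cancel]⟩⟩
  have hP : IsPGroup p H := fun g => ((hH g).1 g.2).2.imp fun _ ha => Subtype.ext ha
  have h1 : e z ∈ IntermediateField.fixedField H := by
    have : Finite (MulAction.orbit H (e z)) := (Set.finite_range _).to_subtype
    obtain ⟨a, ha⟩ := hP.card_orbit (e z)
    have h2 : MulAction.orbit H (e z) ⊆ f.rootSet E := by
      rintro _ ⟨g, rfl⟩
      refine (mem_rootSet.2 ⟨h0, ?_⟩)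
      exact (aeval_algHom_apply ((g.1 : E →ₐ[k] E).comp e) z f).trans (by rw [hf, map_zero])
    have h3 : p ^ a ≤ δ := ha ▸ ((Set.ncard_le_ncard h2 (f.rootSet_finite E)).trans
      (ncard_rootSet_le f E)).trans hd
    obtain rfl : a = 0 := by_contra fun h4 =>
      hdv _ hδ (hp.dvd_factorial.2 ((Nat.le_self_pow h4 p).trans h3))
    exact MulAction.subsingleton_orbit_iff_mem_fixedPoints.1
      ((Set.subsingleton_coe _).1 (Nat.card_eq_one_iff_unique.1 ha).1)
  have h2 : ∀ x, e x ∈ IntermediateField.fixedField H := fun x =>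
    (IntermediateField.adjoin_simple_le_iff (K := (IntermediateField.fixedField H).comap e)).2 h1
      (hz ▸ IntermediateField.mem_top)
  have h3 : ζ ∈ IntermediateField.fixedField H := fun g =>
    kz_root (kwra_nat hπ hc hn) ((map_pow g.1 ζ n).symm.trans (by rw [hζ.pow_eq_one, map_one]))
      hζ.pow_eq_one (((hH g).1 g.2).1.2 ζ ((pow_le_one_iff hn0).1
        (by rw [← map_pow, hζ.pow_eq_one, map_one])))
  let e' : M →ₐ[k] IntermediateField.fixedField H :=
    e.codRestrict (IntermediateField.fixedField H).toSubalgebra h2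
  refine ⟨IntermediateField.fixedField H, _, _, inferInstance, inferInstance, e', ⟨ζ, h3⟩,
    Nat.card H, .of_map_of_injective (f := (IntermediateField.fixedField H).val) hζ
      Subtype.val_injective, ?_, fun N hN => ?_, fun w hw => ?_⟩
  · rw [← IntermediateField.finrank_fixedField_eq_card]
    have : CharZero M := charZero_of_injective_algebraMap (algebraMap k M).injective
    exact ka_card ((ka_comp _ _ b).trans hb)
  · obtain ⟨a, ha⟩ := IsPGroup.iff_card.1 hP
    exact ha ▸ Nat.Coprime.pow_left a (hp.coprime_iff_not_dvd.2 (hdv N hN))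
  · obtain ⟨w₁, -, hw₁⟩ := kn_over (IntermediateField.fixedField H).val w (x := toF O k _ π)
      ((_root_.map_ne_zero (algebraMap k _)).2 ((map_ne_zero_iff _ (IsFractionRing.injective O k)).2 hπ.ne_zero))
      ((hw.2 π).2 dvd_rfl)
    have hc₁ := (kn_cen _ (algebraMap O k) hw₁).2 hw
    obtain ⟨s, hs⟩ := kv_conj hw₀
      (kv_cen (v' := w₁.comap (algebraMap k E)) hπ.prime hv hc₁).1
    have h4 : Ine k w₁ = Ine k w₀ := (kv_congr fun x => by
      rw [hs, (show s ∈ Dec k w₀ from hD ▸ Subgroup.mem_top s) x]).2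
    refine kn_tame _ hw₁ fun g hg p' a hp' h5 h6 x => ?_
    obtain rfl : p = p' := by_contra fun h7 => hπ.not_isUnit
      (((Nat.coprime_primes hp hp').2 h7).cast.isUnit_of_dvd' hπp ((hc₁.2 _).1
        (by rwa [map_natCast])))
    exact x.2 ⟨g, (hH g).2 ⟨h4 ▸ hg, a, h6⟩⟩

end Pool.Agent.ZCy
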