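import Pool.Agent.Lib.MP_751085_ag.ZC.K.Val
import Pool.Agent.Lib.MP_751085_ag.ZC.Z.Cst

/-! Block K: rational function fields under extension of the constants. -/

namespace Pool.Agent.ZCy

open scoped Classical WithZero IntermediateField
open Polynomial groupCohomology

set_option linter.unusedSectionVars false

variable {k k₂ σ : Type} [Field k] [CharZero k] [Field k₂] [Algebra k k₂] [FiniteDimensional k k₂]
  [IsGalois k k₂] [Algebra (RF σ k) (RF σ k₂)]
  (h : ∀ p, algebraMap (RF σ k) (RF σ k₂) (algebraMap (MP σ k) _ p) =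
    algebraMap (MP σ k₂) _ (MvPolynomial.map (algebraMap k k₂) p))

theorem kw_int : (MvPolynomial.map (algebraMap k k₂) : MP σ k →+* MP σ k₂).IsIntegral := fun _ =>
  let _ := MvPolynomial.algebraMvPolynomial (σ := σ) (R := k) (S := k₂)
  MvPolynomial.isIntegral_iff_isIntegral_coeff.2 fun _ => Algebra.IsIntegral.isIntegral _

theorem kwrb_C {k σ : Type} [Field k] (a : k) :
    algebraMap k (RF σ k) a = algebraMap (MP σ k) _ (MvPolynomial.C a) := rfl

include h

theorem kwrb_sq (a : k) : algebraMap k₂ (RF σ k₂) (algebraMap k k₂ a) =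
    algebraMap (RF σ k) (RF σ k₂) (algebraMap k _ a) := by
  rw [kwrb_C, kwrb_C, h, MvPolynomial.map_C]

theorem kwrb_top (S : IntermediateField (RF σ k) (RF σ k₂))
    (hS : ∀ z, algebraMap k₂ (RF σ k₂) z ∈ S) : S = ⊤ := by
  have key : ∀ p, algebraMap (MP σ k₂) (RF σ k₂) p ∈ S := fun p => by
    induction p using MvPolynomial.induction_on with
    | C a => exact hS a
    | add p q hp hq => rw [map_add]; exact add_mem hp hq
    | mul_X p i hp =>
      rw [map_mul, ← MvPolynomial.map_X (algebraMap k k₂), ← h]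
      exact mul_mem hp (S.algebraMap_mem _)
  refine eq_top_iff.2 fun x _ => ?_
  obtain ⟨a, b, -, rfl⟩ := IsFractionRing.div_surjective (MP σ k₂) x
  exact div_mem (key a) (key b)

theorem kw_gal : FiniteDimensional (RF σ k) (RF σ k₂) ∧ IsGalois (RF σ k) (RF σ k₂) := by
  have hf := rf_finite h
  have : CharZero (RF σ k) := charZero_of_injective_ringHom (algebraMap k (RF σ k)).injective
  obtain ⟨p, hp⟩ := Normal.exists_isSplittingField k k₂
  have e : (p.map (algebraMap k (RF σ k))).map (algebraMap _ (RF σ k₂)) =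
      (p.map (algebraMap k k₂)).map (algebraMap k₂ (RF σ k₂)) := by
    rw [map_map, map_map]; exact congrArg (p.map ·) (RingHom.ext fun a => (kwrb_sq h a).symm)
  have : (p.map (algebraMap k (RF σ k))).IsSplittingField (RF σ k) (RF σ k₂) := by
    refine isSplittingField_iff_intermediateField.2
      ⟨e ▸ (IsSplittingField.splits k₂ p).map _, kwrb_top h _ fun z => ?_⟩
    have hz : z ∈ Algebra.adjoin k (p.rootSet k₂) := by
      rw [IsSplittingField.adjoin_rootSet]; trivial
    induction hz using Algebra.adjoin_induction with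
    | mem x hx =>
      obtain ⟨h0, hx⟩ := mem_rootSet.1 hx
      refine IntermediateField.subset_adjoin _ _ (mem_rootSet.2 ⟨map_ne_zero h0, ?_⟩)
      rw [aeval_def, ← eval_map, e, eval_map, eval₂_at_apply, eval_map, ← aeval_def, hx, map_zero]
    | algebraMap r => rw [kwrb_sq h]; exact IntermediateField.algebraMap_mem _ _
    | add x y _ _ hx hy => rw [map_add]; exact add_mem hx hy
    | mul x y _ _ hx hy => rw [map_mul]; exact mul_mem hx hy
  have := Normal.of_isSplittingField (E := RF σ k₂) (p.map (algebraMap k (RF σ k)))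
  exact ⟨hf, {}⟩

theorem kw_card (w : Vl (RF σ k₂)) :
    Nat.card (Ine (RF σ k) w) ∣ Nat.card (Ine k (w.comap (algebraMap k₂ (RF σ k₂)))) := by
  choose r hr using fun g : RF σ k₂ ≃ₐ[RF σ k] RF σ k₂ =>
    exists_restrict (K := k) (algebraMap k₂ (RF σ k₂)) (g : RF σ k₂ →+* RF σ k₂) fun a => by
      rw [kwrb_sq h]; exact g.commutes _
  have hr : ∀ g z, algebraMap k₂ (RF σ k₂) (r g z) = g (algebraMap k₂ _ z) := hr
  refine Subgroup.card_dvd_of_injective (MonoidHom.mk' (fun g : Ine (RF σ k) w =>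
    (⟨r g, fun x => ?_, fun x hx => ?_⟩ : Ine k (w.comap (algebraMap k₂ (RF σ k₂))))) fun a b => ?_)
    ((injective_iff_map_eq_one _).2 fun g hg => ?_)
  · rw [Valuation.comap_apply, hr]; exact g.2.1 _
  · rw [Valuation.comap_apply, map_sub, hr]; exact g.2.2 _ hx
  · refine Subtype.ext (AlgEquiv.ext fun z => (algebraMap k₂ (RF σ k₂)).injective ?_)
    change _ = algebraMap k₂ _ (r a (r b z))
    rw [hr, hr, hr]; rfl
  · have hg : r g = 1 := congrArg Subtype.val hg
    have := kwrb_top h (IntermediateField.fixedField (Subgroup.zpowers g.1)) fun z =>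
      (IntermediateField.mem_fixedField_iff _ _).2 fun s hs => by
        have : Subgroup.zpowers g.1 ≤ MulAction.stabilizer _ (algebraMap k₂ (RF σ k₂) z) :=
          Subgroup.zpowers_le.2 (by
            change g.1 _ = _
            rw [← hr, hg]; rfl)
        exact this hs
    exact Subtype.ext (AlgEquiv.ext fun x => (IntermediateField.mem_fixedField_iff _ x).1
      (this ▸ IntermediateField.mem_top) _ (Subgroup.mem_zpowers _))

theorem kw_unr : UnrOff (RF σ k) (toF (MP σ k) (RF σ k) (RF σ k₂)) 1 := fun P w hP _ hc => by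
  have := kw_card h w
  rw [kz_triv (F := k) fun a ha => ?_, Subgroup.card_bot, Nat.dvd_one] at this
  · exact Subgroup.card_eq_one.1 this
  rw [Valuation.comap_apply, kwrb_sq h]
  exact (hc.1 (MvPolynomial.C a)).eq_of_not_lt fun hl => hP.not_isUnit
    (isUnit_of_dvd_unit ((hc.2 _).1 hl) (ha.isUnit.map MvPolynomial.C))

variable {O : Type} [CommRing O] [Algebra O k] [Algebra (MP σ O) (RF σ k)]
  (hB : ∀ p, algebraMap (MP σ O) (RF σ k) p =
    algebraMap (MP σ k) _ (MvPolynomial.map (algebraMap O k) p))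

include hB

theorem kw_tm {π : O} (ht : ∀ w : Vl k₂, Cen (toF O k k₂) w π → Tame k w) (w : Vl (RF σ k₂))
    (hw : Cen (toF (MP σ O) (RF σ k) (RF σ k₂)) w (MvPolynomial.C π)) : Tame (RF σ k) w := by
  have e : ∀ a, w.comap (algebraMap k₂ (RF σ k₂)) (toF O k k₂ a) =
      w (toF (MP σ O) (RF σ k) (RF σ k₂) (MvPolynomial.C a)) := fun a => by
    rw [Valuation.comap_apply, RingHom.comp_apply, RingHom.comp_apply, kwrb_sq h, hB,
      MvPolynomial.map_C, kwrb_C]
  have h1 := ht (w.comap (algebraMap k₂ (RF σ k₂))) ⟨fun a => e a ▸ hw.1 _, fun a => by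
    rw [e, hw.2]
    exact ⟨fun hd => by simpa using map_dvd MvPolynomial.constantCoeff hd, map_dvd _⟩⟩
  obtain ⟨m, hm⟩ := kw_card h w
  have hn : ∀ n : ℕ, w (n : RF σ k₂) ≤ 1 := fun n => natCast_mem w.integer n
  rw [Tame, Valuation.comap_apply, map_natCast, hm, Nat.cast_mul, map_mul] at h1
  exact (hn _).antisymm (h1.ge.trans (mul_le_of_le_one_right' (hn m)))

omit h in
theorem kw_frac [IsDomain O] [IsFractionRing O k] : IsFractionRing (MP σ O) (RF σ k) := by
  let _ := MvPolynomial.algebraMvPolynomial (σ := σ) (R := O) (S := k)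
  have hi : Function.Injective (algebraMap (MP σ O) (RF σ k)) := fun a b e =>
    MvPolynomial.map_injective _ (IsFractionRing.injective O k)
      (IsFractionRing.injective (MP σ k) (RF σ k) (by rw [← hB, ← hB, e]))
  have := (faithfulSMul_iff_algebraMap_injective _ _).2 hi
  have key : ∀ a : MP σ k, ∃ p s : MP σ O, algebraMap (MP σ k) (RF σ k) a =
      algebraMap _ _ p / algebraMap _ _ s := fun a => by
    obtain ⟨⟨p, _, s, hs, rfl⟩, e⟩ :=
      IsLocalization.surj ((nonZeroDivisors O).map (MvPolynomial.C (σ := σ))) a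
    refine ⟨p, MvPolynomial.C s, eq_div_of_mul_eq ((map_ne_zero_iff _ hi).2
      (MvPolynomial.C_ne_zero.2 (nonZeroDivisors.ne_zero hs))) ?_⟩
    rw [hB, hB, ← map_mul]; exact congrArg _ e
  refine IsFractionRing.of_field _ _ fun x => ?_
  obtain ⟨a, b, -, rfl⟩ := IsFractionRing.div_surjective (MP σ k) x
  obtain ⟨p, s, e⟩ := key a
  obtain ⟨q, t, e'⟩ := key b
  exact ⟨p * t, s * q, by rw [e, e', div_div_div_eq, map_mul, map_mul]⟩

end Pool.Agent.ZCy
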