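import Pool.Agent.Lib.MP_751085_ag.ZC.K.KDef3
import Pool.Agent.Lib.MP_751085_ag.ZC.K.Hen
import Pool.Agent.Lib.MP_751085_ag.ZC.K.HenI
import Pool.Agent.Lib.MP_751085_ag.ZC.Z.Cst

/-! Block K: splitting and irreducibility of the equation of a chart. -/

namespace Pool.Agent.ZCy

open scoped Classical WithZero IntermediateField
open Polynomial groupCohomology

set_option linter.unusedSectionVars false

theorem kw_alg (k σ : Type) [Field k] : ∃ _ : Algebra (RF σ k)[X] (RF (Option σ) k),
    IsFractionRing (RF σ k)[X] (RF (Option σ) k) ∧ Tq k σ := by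
  let f : RF σ k →+* RF (Option σ) k := IsFractionRing.lift
    (g := (algebraMap (MP (Option σ) k) _).comp (MvPolynomial.rename some).toRingHom)
    ((IsFractionRing.injective _ _).comp (MvPolynomial.rename_injective _ (Option.some_injective σ)))
  let ψ := eval₂RingHom f (algebraMap (MP (Option σ) k) _ (MvPolynomial.X none))
  have e : ψ.comp (tq k σ) = algebraMap (MP (Option σ) k) _ :=
    MvPolynomial.ringHom_ext (fun a => by simp [ψ, f, tq_apply]) fun i => by
      cases i <;> simp [ψ, f, tq_apply]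
  have e' : ∀ p, ψ (tq k σ p) = algebraMap (MP (Option σ) k) _ p := RingHom.congr_fun e
  have hi : Function.Injective ψ := (injective_iff_map_eq_zero ψ).2 fun p hp => by
    obtain ⟨b, hb, h⟩ := IsLocalization.integerNormalization_spec (nonZeroDivisors (MP σ k)) p
    obtain ⟨q, hq⟩ := (MvPolynomial.optionEquivLeft k σ).surjective
      (IsLocalization.integerNormalization (nonZeroDivisors (MP σ k)) p)
    rw [← hq, ← tq_apply, ← algebraMap_smul (RF σ k), ← C_mul'] at h
    have h0 := e' q
    rw [h, map_mul, hp, mul_zero, eq_comm, IsFractionRing.to_map_eq_zero_iff] at h0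
    rw [h0, map_zero, zero_eq_mul, C_eq_zero, IsFractionRing.to_map_eq_zero_iff] at h
    exact h.resolve_left (nonZeroDivisors.ne_zero hb)
  let := ψ.toAlgebra
  have := (faithfulSMul_iff_algebraMap_injective (RF σ k)[X] (RF (Option σ) k)).2 hi
  refine ⟨ψ.toAlgebra, IsFractionRing.of_field _ _ fun z => ?_, e'⟩
  obtain ⟨x, y, -, rfl⟩ := IsFractionRing.div_surjective (MP (Option σ) k) z
  exact ⟨tq k σ x, tq k σ y, by rw [← e', ← e']; rfl⟩

variable {k σ : Type} [Field k] [CharZero k] [Fintype σ] (c : PChart k σ)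

theorem kw_spl : ((c.χ.map (tq k σ)).map ((tL (Kb (RF σ k))).comp
    (mapRingHom (algebraMap (RF σ k) (Kb (RF σ k)))))).Splits := by
  have hd : ∀ p : MP (Option σ) k, (tp p).natDegree ≤ p.totalDegree := fun p =>
    (MvPolynomial.natDegree_optionEquivLeft k p).trans_le (MvPolynomial.degreeOf_le_totalDegree _ _)
  rw [← Polynomial.map_map]
  refine kh_inf ((c.monic.map _).map _) (δ := c.δ) ?_ (fun i => ?_) ?_
  · rw [(c.monic.map _).natDegree_map, c.monic.natDegree_map, c.deg]
  · rw [coeff_map, coeff_map]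
    exact natDegree_map_le.trans (natDegree_map_le.trans ((hd _).trans (c.wt i)))
  have hs := c.sep.map (f := (algebraMap (RF σ k) (Kb (RF σ k))).comp
    ((algebraMap (MP σ k) (RF σ k)).comp MvPolynomial.C))
  rw [Polynomial.map_sum] at hs
  refine (congrArg Separable (Finset.sum_congr rfl fun i _ => ?_)).mp hs
  have : ((tp (c.χ.coeff i)).coeff (c.δ - i)).totalDegree = 0 := by
    rcases (c.wt i).eq_or_lt with e | e
    · exact Nat.add_eq_right.1 (le_antisymm ((MvPolynomial.totalDegree_coeff_optionEquivLeft_add_le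
        k σ _ _ e.ge).trans e.le) (Nat.le_add_left _ _))
    · rw [coeff_eq_zero_of_natDegree_lt ((hd _).trans_lt e), MvPolynomial.totalDegree_zero]
  rw [Polynomial.map_monomial, coeff_map, coeff_map, coe_mapRingHom, tq_apply, coeff_map, coeff_map,
    MvPolynomial.totalDegree_eq_zero_iff_eq_C.1 this, coeff_single_none]
  rfl

variable {k₂ : Type} [Field k₂] [Algebra k k₂] [FiniteDimensional k k₂] [Algebra (RF σ k) (RF σ k₂)]
  (h : ∀ p, algebraMap (RF σ k) (RF σ k₂) (algebraMap (MP σ k) _ p) =
    algebraMap (MP σ k₂) _ (MvPolynomial.map (algebraMap k k₂) p))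

include h

theorem kw_irr [Algebra (RF σ k₂) (Kb (RF σ k))] [IsScalarTower (RF σ k) (RF σ k₂) (Kb (RF σ k))]
    (hi : c.GI) {η : Ls (RF σ k₂)} (h0 : (c.χ.map (tq k σ)).eval₂
      ((tL (RF σ k₂)).comp (mapRingHom (algebraMap (RF σ k) (RF σ k₂)))) η = 0) :
    Irreducible ((c.χ.map (tq k σ)).map (mapRingHom (algebraMap (RF σ k) (Kb (RF σ k))))) := by
  let i : k₂ →ₐ[k] AlgebraicClosure k := IsAlgClosed.lift
  have hm := c.monic.map (MvPolynomial.map (algebraMap k k₂))
  have h1 := hm.irreducible_of_irreducible_map (MvPolynomial.map (i : k₂ →+* AlgebraicClosure k)) _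
    (by
      rw [Polynomial.map_map, show (MvPolynomial.map (i : k₂ →+* AlgebraicClosure k)).comp
        (MvPolynomial.map (algebraMap k k₂)) = MvPolynomial.map (algebraMap k _) from
          RingHom.ext fun p => by rw [RingHom.comp_apply, MvPolynomial.map_map, i.comp_algebraMap]]
      exact hi)
  obtain ⟨_, -, ht⟩ := kw_alg k₂ σ
  rw [hm.irreducible_iff_irreducible_map_fraction_map (K := RF (Option σ) k₂),
    ← show (algebraMap (RF σ k₂)[X] _).comp (tq k₂ σ) = _ from RingHom.ext ht,
    ← Polynomial.map_map] at h1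
  have h2 := (hm.map _).irreducible_of_irreducible_map _ _ h1
  have e : (tq k₂ σ).comp (MvPolynomial.map (algebraMap k k₂)) =
      (mapRingHom (algebraMap (RF σ k) (RF σ k₂))).comp (tq k σ) := RingHom.ext fun p => by
    rw [RingHom.comp_apply, RingHom.comp_apply, tq_apply, tq_apply, tp_map, coe_mapRingHom,
      Polynomial.map_map, Polynomial.map_map]
    exact congrArg (Polynomial.map · _) (RingHom.ext fun q => (h q).symm)
  rw [Polynomial.map_map, e, ← Polynomial.map_map] at h2
  have : CharZero k₂ := charZero_of_injective_algebraMap (algebraMap k k₂).injective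
  have : IsAlgClosure (RF σ k₂) (Kb (RF σ k)) :=
    ⟨inferInstance, Algebra.IsAlgebraic.tower_top (K := RF σ k) _⟩
  have h3 := kh_irr (Ω := Kb (RF σ k)) ((c.monic.map _).map _) h2 (by rwa [eval₂_map])
  rwa [Polynomial.map_map, mapRingHom_comp, ← IsScalarTower.algebraMap_eq] at h3

end Pool.Agent.ZCy
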