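import Pool.Agent.Lib.MP_751085_ag.ZC.K.WrC
import Pool.Agent.Lib.MP_751085_ag.ZC.K.NeedA

/-! Block K: the curve given by a chart. -/

namespace Pool.Agent.ZCy

open scoped Classical WithZero IntermediateField
open Polynomial groupCohomology

set_option linter.unusedSectionVars false

variable {k σ F : Type} [Field k] [CharZero k] [Fintype σ] [Field F] [Algebra (RF (Option σ) k) F]
  [Algebra (RF σ k)[X] (RF (Option σ) k)] [IsFractionRing (RF σ k)[X] (RF (Option σ) k)]
  (ht : Tq k σ) (c : PChart k σ)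

variable {k₂ : Type} [Field k₂] [Algebra k k₂] [FiniteDimensional k k₂] [Algebra (RF σ k) (RF σ k₂)]
  (h : ∀ p, algebraMap (RF σ k) (RF σ k₂) (algebraMap (MP σ k) _ p) =
    algebraMap (MP σ k₂) _ (MvPolynomial.map (algebraMap k k₂) p))

include ht h

theorem kw_j {M : Type} [Field M] [Algebra k M] {θ : F} {z : M} {j : F →+* Ls (RF σ M)}
    (hj : PChart.InfEmb (K := k) θ z j) (e : M →ₐ[k] k₂) {a : BR F} {b : BR M}
    (hb : rs j a = rs ((PChart.cst σ M).comp MvPolynomial.C) b) : ∃ j₁ : F →+* Ls (RF σ k₂),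
      (∀ p, j₁ (toF (RF σ k)[X] (RF (Option σ) k) F p) =
        tL (RF σ k₂) (p.map (algebraMap (RF σ k) (RF σ k₂)))) ∧
      rs j₁ a = rs (hc.comp (algebraMap k₂ (RF σ k₂))) (rs (e : M →+* k₂) b) := by
  obtain ⟨g, hg⟩ := exists_rfMap σ (e : M →+* k₂)
  have : CharZero M := charZero_of_injective_algebraMap (algebraMap k M).injective
  have : CharZero F := charZero_of_injective_ringHom
    ((toE (MP (Option σ) k) F).comp MvPolynomial.C).injective
  have e0 : ∀ p, toF (RF σ k)[X] (RF (Option σ) k) F (tq k σ p) = toE (MP (Option σ) k) F p :=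
    fun p => congrArg (algebraMap (RF (Option σ) k) F) (ht p)
  have e1 : ((lm g).comp j).comp (toF (RF σ k)[X] (RF (Option σ) k) F) =
      (tL (RF σ k₂)).comp (mapRingHom (algebraMap (RF σ k) (RF σ k₂))) := by
    refine Polynomial.ringHom_ext' (IsLocalization.ringHom_ext (nonZeroDivisors (MP σ k))
      (RingHom.ext fun p => ?_)) ?_
    · have e2 : C (algebraMap (MP σ k) (RF σ k) p) = tq k σ (up p) := by
        rw [tq_apply, tp_up, map_C]
      change lm g (j (toF _ _ F (C (algebraMap _ _ p)))) = tL _ ((C (algebraMap _ _ p)).map _)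
      rw [map_C, kl_tM_C, h, e2, e0, hj.cst]
      refine (kl_lm_hc g _).trans ?_
      rw [hg, MvPolynomial.map_map]
      exact congrArg (fun f => hc (algebraMap (MP σ k₂) (RF σ k₂) (MvPolynomial.map f p)))
        e.comp_algebraMap
    · have e2 : (X : (RF σ k)[X]) = tq k σ (MvPolynomial.X none) := by simp [tq_apply]
      change lm g (j (toF _ _ F X)) = tL _ (X.map _)
      rw [map_X, e2, e0, hj.tau, kl_lm_single]
      simp [tM]
  refine ⟨(lm g).comp j, fun p => DFunLike.congr_fun e1 p, ?_⟩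
  rw [← ka_comp, hb, ka_comp, ka_comp]
  refine congrArg (fun f => rs f b) (RingHom.ext fun x => (kl_lm_hc g _).trans ?_)
  rw [hg, MvPolynomial.map_C]
  rfl

theorem kw_cur [Algebra (RF σ k₂) (Kb (RF σ k))] [IsScalarTower (RF σ k) (RF σ k₂) (Kb (RF σ k))]
    [Algebra (RF (Option σ) k) (Om (RF σ k))] [Algebra F (Om (RF σ k))]
    [IsScalarTower (RF (Option σ) k) F (Om (RF σ k))] (hi : c.GI) {θ : F} (hF : c.FF F θ)
    {j₁ : F →+* Ls (RF σ k₂)} (hj : ∀ p, j₁ (toF (RF σ k)[X] (RF (Option σ) k) F p) =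
      tL (RF σ k₂) (p.map (algebraMap (RF σ k) (RF σ k₂)))) {M : ℕ} (hM : 0 < M)
    (hO : ∀ x, algebraMap F (Om (RF σ k)) x =
      lm (algebraMap (RF σ k₂) (Kb (RF σ k))) (ram _ hM (j₁ x))) :
    ∃ c' : Cur (RF σ k) (RF (Option σ) k) F M, c'.δ = c.δ ∧ c'.Ψ = tq k σ c.Ψ := by
  have e0 : (toF (RF σ k)[X] (RF (Option σ) k) F).comp (tq k σ) = toE (MP (Option σ) k) F :=
    RingHom.ext fun p => congrArg (algebraMap (RF (Option σ) k) F) (ht p)
  have h1 : (c.χ.map (tq k σ)).eval₂ (toF (RF σ k)[X] (RF (Option σ) k) F) θ = 0 := by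
    rw [eval₂_map, e0]; exact hF.1
  have h2 := congrArg j₁ h1
  rw [hom_eval₂, map_zero, show j₁.comp _ = (tL (RF σ k₂)).comp
    (mapRingHom (algebraMap (RF σ k) (RF σ k₂))) from RingHom.ext hj] at h2
  refine ⟨⟨c.δ, c.χ.map (tq k σ), tq k σ c.Ψ, θ, c.monic.map _,
    by rw [c.monic.natDegree_map, c.deg], kw_irr c h hi h2, h1, hF.2, ?_,
    (c.tm.1.map _).ne_zero, hM, fun p => ?_, kw_spl c⟩, rfl, rfl⟩
  · obtain ⟨α, β, hb⟩ := c.bez
    obtain ⟨r, q, hq⟩ := c.dvd
    refine ⟨r, (C q * α).map (tq k σ), (C q * β).map (tq k σ), ?_⟩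
    rw [← map_pow, ← map_C, derivative_map, ← Polynomial.map_mul, ← Polynomial.map_mul,
      ← Polynomial.map_add, hq, C_mul, hb]
    congr 1
    ring
  · refine (IsScalarTower.algebraMap_apply _ F _ _).trans ((hO _).trans ?_)
    change lm _ (ram _ hM (j₁ (toF (RF σ k)[X] (RF (Option σ) k) F p))) = _
    rw [hj, kl_ram_tL, kl_lm_tM, Polynomial.map_map,
      ← IsScalarTower.algebraMap_eq]

end Pool.Agent.ZCy
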