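import Pool.Agent.Lib.MP_751085_ag.ZC.K.KDef3
import Pool.Agent.Lib.MP_751085_ag.ZC.K.LauB
import Pool.Agent.Lib.MP_751085_ag.ZC.Z.Cen

/-! Block K: horizontal and vertical primes of a chart. -/

namespace Pool.Agent.ZCy

open scoped Classical WithZero IntermediateField
open Polynomial groupCohomology

set_option linter.unusedSectionVars false

theorem kwre_dvd {R σ : Type} [CommRing R] {p q : MP (Option σ) R} : tp p ∣ tp q ↔ p ∣ q :=
  map_dvd_iff (MvPolynomial.optionEquivLeft R σ)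

theorem kwre_prime {R σ : Type} [CommRing R] {p : MP (Option σ) R} : Prime (tp p) ↔ Prime p :=
  MulEquiv.prime_iff (MvPolynomial.optionEquivLeft R σ)

variable {k σ F : Type} [Field k] [CharZero k] [Fintype σ] [Field F] [Algebra (RF (Option σ) k) F]
  [Algebra (RF σ k)[X] (RF (Option σ) k)] [IsFractionRing (RF σ k)[X] (RF (Option σ) k)]
  (ht : Tq k σ) (c : PChart k σ)

omit [Algebra (RF σ k)[X] (RF (Option σ) k)] [IsFractionRing (RF σ k)[X] (RF (Option σ) k)] in
theorem kw_red {O : Type} [CommRing O] (φ : O →+* k) [Algebra (MP σ O) (RF σ k)]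
    (hB : ∀ p, algebraMap (MP σ O) (RF σ k) p = algebraMap (MP σ k) _ (MvPolynomial.map φ p))
    {c₀ : PChart O σ} (hm : c₀.IsMap φ c) {P : MP σ O} (hP : Prime P) (hd : ¬P ∣ c₀.Φ) :
    Red (tq k σ c.Ψ) P := by
  obtain ⟨α, β, h⟩ := c₀.bezΦ
  refine ⟨hP, tp c₀.Ψ, α, β, c₀.Φ, c₀.tm.1, ?_, h, hd⟩
  rw [tq_apply, hm.Ψ, tp_map, Polynomial.map_map]
  exact congrArg (fun f => (tp c₀.Ψ).map f) (RingHom.ext hB)

include ht

theorem kwre_tq (p : MP (Option σ) k) :
    toF (RF σ k)[X] (RF (Option σ) k) F (tq k σ p) = toE (MP (Option σ) k) F p :=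
  congrArg (algebraMap (RF (Option σ) k) F) (ht p)

theorem kwre_up (p : MP σ k) : toF (RF σ k)[X] (RF (Option σ) k) F
    (C (algebraMap (MP σ k) (RF σ k) p)) = toE (MP (Option σ) k) F (up p) := by
  rw [← kwre_tq ht, tq_apply, tp_up, map_C]

theorem kw_pB {O : Type} [CommRing O] (φ : O →+* k) [Algebra (MP σ O) (RF σ k)]
    (hB : ∀ p, algebraMap (MP σ O) (RF σ k) p = algebraMap (MP σ k) _ (MvPolynomial.map φ p))
    (p : MP (Option σ) O) : pB (MP σ O) (RF σ k) (RF (Option σ) k) F (tp p) =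
      toE (MP (Option σ) k) F (MvPolynomial.map φ p) := by
  rw [← kwre_tq ht, tq_apply, tp_map, Polynomial.map_map]
  exact congrArg (fun f => toF (RF σ k)[X] (RF (Option σ) k) F ((tp p).map f)) (RingHom.ext hB)

theorem kw_cen {O : Type} [CommRing O] (φ : O →+* k) [Algebra (MP σ O) (RF σ k)]
    (hB : ∀ p, algebraMap (MP σ O) (RF σ k) p = algebraMap (MP σ k) _ (MvPolynomial.map φ p))
    (P : MP (Option σ) O) (w : Vl F) : Cen (pB (MP σ O) (RF σ k) (RF (Option σ) k) F) w (tp P) ↔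
      Cen ((toE (MP (Option σ) k) F).comp (MvPolynomial.map φ)) w P := by
  have hs := (MvPolynomial.optionEquivLeft O σ).surjective
  unfold Cen
  rw [hs.forall, hs.forall]
  simp only [kw_pB ht φ hB, map_dvd_iff, RingHom.comp_apply]

theorem kwre_cen (P : MP (Option σ) k) (w : Vl F) :
    Cen (pB (MP σ k) (RF σ k) (RF (Option σ) k) F) w (tp P) ↔
      Cen (toE (MP (Option σ) k) F) w P := by
  rw [kw_cen ht (RingHom.id k) fun p => by rw [MvPolynomial.map_id]]
  simp only [Cen, RingHom.comp_apply, MvPolynomial.map_id]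

/-- `v` is centred at the minimal polynomial of `t₀` -/
theorem kw_h1h (h0 : c.Φ ≠ 0) {a : BR F} (H : c.H1 F a) (v : Vl F)
    (hv : GoodV (algebraMap (RF σ k) (Kb (RF σ k))) (toF (RF σ k)[X] (RF (Option σ) k) F)
      (tq k σ c.Ψ) v) : Unram v a := by
  obtain ⟨t, φ, h1, h2, h3⟩ := hv
  have hκ := (algebraMap (RF σ k) (Kb (RF σ k))).injective
  have hval : ∀ p : (RF σ k)[X], v (toF _ (RF (Option σ) k) F p) ≤ 1 ∧
      (v (toF _ (RF (Option σ) k) F p) < 1 ↔ aeval t p = 0) := fun p => by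
    rcases eq_or_ne p 0 with rfl | hp
    · simp
    have hp' := (Polynomial.map_ne_zero_iff hκ).2 hp
    obtain ⟨e1, e2⟩ := kl_order_tA t hp'
    rw [h3, h2, kl_lv e1, e2, ← WithZero.exp_zero, WithZero.exp_le_exp, WithZero.exp_lt_exp,
      neg_nonpos, neg_lt_zero, Nat.cast_pos, rootMultiplicity_pos hp', IsRoot, eval_map_algebraMap]
    exact ⟨Nat.cast_nonneg _, Iff.rfl⟩
  have hone : ∀ p : (RF σ k)[X], aeval t p ≠ 0 → v (toF _ (RF (Option σ) k) F p) = 1 :=
    fun p hp => (hval p).1.eq_of_not_lt fun e => hp ((hval p).2.1 e)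
  have hup : ∀ b : MP σ k, b ≠ 0 → v (toE (MP (Option σ) k) F (up b)) = 1 := fun b hb => by
    rw [← kwre_up ht]
    refine hone _ ?_
    rw [aeval_C, _root_.map_ne_zero, Ne, IsFractionRing.to_map_eq_zero_iff]
    exact hb
  obtain ⟨P, hP, hc⟩ := cen_loc (φ := toE (MP (Option σ) k) F)
    (ψ := toF (RF σ k)[X] (RF (Option σ) k) F) (w := v)
    ((algebraMap (RF (Option σ) k) F).injective.comp (IsFractionRing.injective (MP _ k) _))
    ((algebraMap (RF (Option σ) k) F).injective.comp (IsFractionRing.injective (RF σ k)[X] _))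
    (minpoly.prime (Algebra.IsIntegral.isIntegral (R := RF σ k) t))
    ⟨fun p => (hval p).1, fun p => (hval p).2.trans minpoly.dvd_iff.symm⟩
    (fun p => by rw [← kwre_tq ht]; exact (hval _).1) (fun p => by
      obtain ⟨b, hb, e⟩ := IsLocalization.integerNormalization_spec (nonZeroDivisors (MP σ k)) p
      obtain ⟨q, hq⟩ := (MvPolynomial.optionEquivLeft k σ).surjective
        (IsLocalization.integerNormalization (nonZeroDivisors (MP σ k)) p)
      refine ⟨q, up b, hup b (nonZeroDivisors.ne_zero hb), ?_⟩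
      rw [← kwre_up ht, ← kwre_tq ht, ← map_mul, tq_apply, tp, hq, e, mul_comm, C_mul',
        algebraMap_smul])
    fun p => ⟨tq k σ p, 1, by simp, by rw [map_one, mul_one, kwre_tq ht]⟩
  refine H P v hP (fun e => ((hc.2 _).2 e).ne ?_) hc
  rw [PChart.br, map_mul, map_mul, hup _ h0, ← kwre_tq ht, hone _ h1, mul_one]

theorem kw_h1v {a : BR F} (H : c.H1 F a) (P : MP σ k) (v : Vl F) (hP : Prime P) (hd : ¬P ∣ c.Φ)
    (hv : Cen (pB (MP σ k) (RF σ k) (RF (Option σ) k) F) v (C P)) : Unram v a := by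
  have h1 : Prime (up P) := by
    rw [← kwre_prime, tp_up]
    exact prime_C_iff.2 hP
  refine H (up P) v h1 (fun e => ?_) ((kwre_cen ht _ v).1 (by rwa [tp_up]))
  rcases h1.dvd_or_dvd e with e | e <;> rw [← kwre_dvd, tp_up, C_dvd_iff_dvd_coeff] at e
  · exact hP.not_dvd_one (c.tm.1.coeff_natDegree ▸ e _)
  · exact hd (by simpa using e 0)

theorem kw_off (h1 : HZ (toF (RF σ k)[X] (RF (Option σ) k) F) (tq k σ c.Ψ) (RF (Option σ) k))
    (h2 : ∀ (P : MP σ k) (w : Vl F), Prime P → ¬P ∣ c.Φ →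
      Cen (pB (MP σ k) (RF σ k) (RF (Option σ) k) F) w (C P) → Ine (RF (Option σ) k) w = ⊥) :
    UnrOff (RF (Option σ) k) (toE (MP (Option σ) k) F) c.br := by
  intro P w hP hd hc
  by_cases h : ∀ b : MP σ k, b ≠ 0 → w (toE (MP (Option σ) k) F (up b)) = 1
  · refine h1 w (fun a ha => ?_) ?_ ?_
    · obtain ⟨x, y, hy, rfl⟩ := IsFractionRing.div_surjective (A := MP σ k) a
      have hx : x ≠ 0 := by
        rintro rfl
        simp at ha
      have e := map_div₀ ((toF (RF σ k)[X] (RF (Option σ) k) F).comp C)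
        (algebraMap (MP σ k) (RF σ k) x) (algebraMap (MP σ k) (RF σ k) y)
      simp only [RingHom.comp_apply (toF _ _ _), kwre_up ht] at e
      rw [e, map_div₀, h x hx, h y (nonZeroDivisors.ne_zero hy), div_one]
    · have := hc.1 (MvPolynomial.X none)
      rwa [← kwre_tq ht, tq_apply, tp, MvPolynomial.optionEquivLeft_X_none, map_X] at this
    · rw [kwre_tq ht]
      exact (hc.1 _).eq_of_not_lt fun e => hd (((hc.2 _).1 e).mul_right _)
  push Not at h
  obtain ⟨b, hb, h⟩ := h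
  have h3 := kwre_dvd.2 ((hc.2 _).1 ((hc.1 _).lt_of_ne h))
  rw [tp_up] at h3
  have h4 := eq_C_of_natDegree_le_zero
    ((natDegree_le_of_dvd h3 (C_ne_zero.2 hb)).trans_eq (natDegree_C b))
  refine h2 _ w (prime_C_iff.1 (h4 ▸ kwre_prime.2 hP)) (fun e => hd ?_)
    (h4 ▸ (kwre_cen ht P w).2 hc)
  refine Dvd.dvd.mul_left (kwre_dvd.1 ?_) _
  rw [tp_up, h4]
  exact map_dvd C e

end Pool.Agent.ZCy
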