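import Pool.Agent.Lib.MP_751085_ag.ZC.K.Core
import Pool.Agent.Lib.MP_751085_ag.ZC.K.WrA
import Pool.Agent.Lib.MP_751085_ag.ZC.K.WrB
import Pool.Agent.Lib.MP_751085_ag.ZC.K.WrD
import Pool.Agent.Lib.MP_751085_ag.ZC.K.WrE
import Pool.Agent.Lib.MP_751085_ag.ZC.K.KT

/-! Block K: Theorem K from good reduction. -/

namespace Pool.Agent.ZCy

open scoped Classical WithZero IntermediateField
open Polynomial groupCohomology

set_option linter.unusedSectionVars false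

theorem kw_main (hGR : GR0) {O k σ F M k₂ : Type} [CommRing O] [IsDomain O]
    [UniqueFactorizationMonoid O] [Field k] [CharZero k] [Algebra O k] [IsFractionRing O k]
    [Fintype σ] (c : PChart k σ) [Field F] [Algebra (RF (Option σ) k) F] {θ : F} (hi : c.GI)
    (hF : c.FF F θ) (h0 : c.Φ ≠ 0) {a : BR F} (H1 : c.H1 F a) [Field M] [Algebra k M] {z : M}
    {j : F →+* Ls (RF σ M)} {b : BR M} (hj : PChart.InfEmb (K := k) θ z j)
    (hb : rs j a = rs ((PChart.cst σ M).comp MvPolynomial.C) b) [Field k₂] [Algebra k k₂]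
    [FiniteDimensional k k₂] [IsGalois k k₂] (e : M →ₐ[k] k₂) {N q : ℕ} (hN0 : 0 < N)
    (hN : N • a = 0) (hq : q • rs (e : M →+* k₂) b = 0) (hc : q.Coprime N) {ζ : k₂}
    (hζ : IsPrimitiveRoot ζ (c.δ * N)) (π : O) : ∃ R : MuRep c.br F a, R.m = c.δ * N ∧
      ∀ c₀ : PChart O σ, c₀.IsMap (algebraMap O k) c → Prime π → ¬MvPolynomial.C π ∣ c₀.Φ →
        ¬π ∣ ((c.δ.factorial * (c.δ * N) : ℕ) : O) →
        (∀ w : Vl k₂, Cen (toF O k k₂) w π → Tame k w) → ∀ w : Vl R.E,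
        Cen ((toE (MP (Option σ) k) R.E).comp (MvPolynomial.map (algebraMap O k))) w
          (MvPolynomial.C π) → Tame (RF (Option σ) k) w := by
  have hM : 0 < c.δ * N := Nat.mul_pos c.pos hN0
  obtain ⟨_, _, ht⟩ := kw_alg k σ
  obtain ⟨g, h⟩ := exists_rfMap σ (algebraMap k k₂)
  let _ := g.toAlgebra
  obtain ⟨_, _⟩ := kw_gal (σ := σ) (k := k) (k₂ := k₂) h
  let _ : Algebra (RF σ k₂) (Kb (RF σ k)) :=
    (IsAlgClosed.lift : RF σ k₂ →ₐ[RF σ k] Kb (RF σ k)).toRingHom.toAlgebra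
  have : IsScalarTower (RF σ k) (RF σ k₂) (Kb (RF σ k)) := .of_algebraMap_eq fun x =>
    ((IsAlgClosed.lift : RF σ k₂ →ₐ[RF σ k] Kb (RF σ k)).commutes x).symm
  obtain ⟨j₁, hj₁, hr⟩ := kw_j ht h hj e hb
  let _ : Algebra F (Om (RF σ k)) :=
    ((lm (algebraMap (RF σ k₂) (Kb (RF σ k)))).comp ((ram _ hM).comp j₁)).toAlgebra
  let _ : Algebra (RF (Option σ) k) (Om (RF σ k)) :=
    ((algebraMap F _).comp (algebraMap (RF (Option σ) k) F)).toAlgebra
  have : IsScalarTower (RF (Option σ) k) F (Om (RF σ k)) := .of_algebraMap_eq fun _ => rfl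
  obtain ⟨c', hδ, hΨ⟩ := kw_cur ht c h hi hF hj₁ hM fun _ => rfl
  let _ := (MvPolynomial.map (algebraMap k k₂) : MP σ k →+* MP σ k₂).toAlgebra
  have : Algebra.IsIntegral (MP σ k) (MP σ k₂) := ⟨kw_int⟩
  have : IsScalarTower (MP σ k) (RF σ k) (RF σ k₂) := .of_algebraMap_eq fun p => (h p).symm
  let _ := ((algebraMap (MP σ k) (RF σ k)).comp
    (MvPolynomial.map (algebraMap O k) : MP σ O →+* MP σ k)).toAlgebra
  have hB : ∀ p, algebraMap (MP σ O) (RF σ k) p =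
    algebraMap (MP σ k) _ (MvPolynomial.map (algebraMap O k) p) := fun _ => rfl
  have := kw_frac hB
  have hz : rs j₁ a = 0 := by
    have h1 : N • rs j₁ a = 0 := by rw [← map_nsmul, hN, map_zero]
    have h2 : q • rs j₁ a = 0 := by rw [hr, ← map_nsmul, hq, map_zero]
    exact AddMonoid.addOrderOf_eq_one_iff.1 (Nat.eq_one_of_dvd_coprimes hc
      (addOrderOf_dvd_of_nsmul_eq_zero h2) (addOrderOf_dvd_of_nsmul_eq_zero h1))
  have : CharZero F := (kf_char c').2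
  have hid : c.IsMap (RingHom.id k) c := ⟨rfl, by ext1; simp [MvPolynomial.map_id],
    (MvPolynomial.map_id _).symm, (MvPolynomial.map_id _).symm, (MvPolynomial.map_id _).symm⟩
  obtain ⟨R, h1, h2, h3⟩ := coreK (c := c') (Φ := c.Φ) (MP σ k₂) hGR
    (fun P hP hd => hΨ ▸ kw_red c (RingHom.id k) (fun p => by rw [MvPolynomial.map_id]) hid hP hd)
    (kw_unr h) (hζ.map_of_injective (algebraMap k₂ (RF σ k₂)).injective) ((ram _ hM).comp j₁)
    (fun _ => rfl) (by rw [← ka_comp, hz, map_zero]) (by rw [hδ]) hN (hΨ ▸ kw_h1h ht c h0 H1)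
    (kw_h1v ht c H1) (MvPolynomial.C π : MP σ O)
  refine ⟨.mk R.E (c.δ * N) R.c hM (kw_off ht c (hΨ ▸ h1) h2) R.coc R.pw R.cls_eq, rfl, fun c₀ hm hπ hd hn htm w hw => h3
    ⟨hΨ ▸ kw_red c _ hB hm ((MvPolynomial.prime_C_iff σ).2 hπ) hd, fun hh => hn ?_, kw_tm h hB htm⟩
    w ?_⟩
  · rw [hδ, ← map_natCast (MvPolynomial.C : O →+* MP σ O)] at hh
    simpa using map_dvd MvPolynomial.constantCoeff hh
  · rw [← tp_up, kw_cen ht _ hB]
    simpa using hw

theorem thmK_of (hGR : GR0) : ThmK := by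
  intro k _ _ σ _ c F _ _ θ hi hF h0 a H1 H2
  obtain ⟨M, _, _, _, z, j, b, _, _, hj, hb⟩ := H2
  have : CharZero F := (RingHom.charZero_iff
    ((toE (MP (Option σ) k) F).comp MvPolynomial.C).injective).1 inferInstance
  obtain ⟨S, _, _, hS⟩ := ka_dies a
  have hN := Module.finrank_pos (R := F) (M := S)
  obtain ⟨k₂, _, _, _, _, e, ζ, hζ, he⟩ := kw_k2 (k := k) b (Nat.mul_pos c.pos hN)
  obtain ⟨R, -⟩ := kw_main hGR c hi hF h0 H1 hj hb e hN (ka_card hS) (q := 1)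
    ((one_nsmul _).trans he) (Nat.coprime_one_left _) hζ (0 : k)
  exact ⟨R⟩

theorem thmKT_of (hGR : GR0) : ThmKT := by
  intro O k _ _ _ _ _ _ _ σ _ c₀ c π F _ _ θ hm hπ hd hδ hi hF a N hN ha H1 H2
  obtain ⟨M, _, _, _, z, j, b, hz, hz', hj, hb⟩ := H2
  have hδ' : IsUnit (c.δ : O) :=
    isUnit_of_dvd_unit (Nat.cast_dvd_cast (Nat.dvd_factorial c.pos le_rfl)) hδ
  have hn : IsUnit ((c.δ * N : ℕ) : O) := by rw [Nat.cast_mul]; exact hδ'.mul hN
  obtain ⟨k₂, _, _, _, _, e, ζ, q, hζ, he, hq, ht⟩ := kw_tame hπ hz' c.sep.ne_zero hz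
    (natDegree_sum_le_of_forall_le _ _ fun i hi =>
      (natDegree_monomial_le _).trans (Nat.lt_succ_iff.1 (Finset.mem_range.1 hi))) hδ b hn
  have h0 : c.Φ ≠ 0 := fun h => hd <| by
    rw [MvPolynomial.map_injective _ (IsFractionRing.injective O k)
      ((hm.Φ.symm.trans h).trans (map_zero _).symm)]
    exact dvd_zero _
  obtain ⟨R, h1, h2⟩ := kw_main hGR c hi hF h0 H1 hj hb e
    (Nat.pos_of_ne_zero fun h => by simp [h] at hN) ha he (hq N hN) hζ π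
  exact ⟨R, h1 ▸ hn, h2 c₀ hm hπ.prime hd (fun h => hπ.not_isUnit <| isUnit_of_dvd_unit h <| by
    rw [Nat.cast_mul]; exact hδ.mul hn) ht⟩

end Pool.Agent.ZCy
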